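import Mathlib

set_option autoImplicit false

open Complex Set Metric

namespace TC

/-- weight `e^{-|Re z|}` -/
noncomputable def om (z : ℂ) : ℝ := Real.exp (-|z.re|)

/-- open horizontal strip of half-width `h` -/
def Strip (h : ℝ) : Set ℂ := {z | |z.im| < h}

/-- logistic function -/
noncomputable def Lr (x : ℝ) : ℝ := 1 / (1 + Real.exp (-x))

/-- domain that widens to the right -/
def Dom (a : ℝ) : Set ℂ := {z | |z.im| < a * (1 + Lr z.re)}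

/-- derivative of `(X(y) - X(s))^3 - G(y) + G(s)` with respect to `y` at `y = s + δ` -/
noncomputable def DD (X G : ℂ → ℂ) (δ : ℝ) (s : ℂ) : ℂ :=
  3 * (X (s + δ) - X s) ^ 2 * deriv X (s + δ) - deriv G (s + δ)

structure BaseA (δ h C : ℝ) (X G : ℂ → ℂ) : Prop where
  δpos : 0 < δ
  hpos : 0 < h
  C1 : 1 ≤ C
  dX : DifferentiableOn ℂ X (Strip h)
  dG : DifferentiableOn ℂ G (Strip h)
  bX : ∀ z ∈ Strip h, ‖X z‖ ≤ C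
  bX1 : ∀ z ∈ Strip h, ‖deriv X z‖ ≤ C * om z
  lX1 : ∀ z ∈ Strip h, om z ≤ C * ‖deriv X z‖
  bG1 : ∀ z ∈ Strip h, ‖deriv G z‖ ≤ C * om z ^ 3
  ident : ∀ z ∈ Strip h, G (z + δ) - G z = (X (z + δ) - X z) ^ 3
  lD : ∀ z ∈ Strip h, om z ^ 3 ≤ C * ‖DD X G δ z‖
  reX : ∀ x : ℝ, (X x).im = 0
  reG : ∀ x : ℝ, (G x).im = 0

structure Small (V C η : ℝ) (m e Pi : ℂ → ℂ) : Prop where
  dm : DifferentiableOn ℂ m (ball 0 V)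
  de : DifferentiableOn ℂ e (ball 0 V)
  m0 : m 0 = 0
  bm : ∀ v ∈ ball (0 : ℂ) V, ‖deriv m v - 1‖ ≤ C * η
  be : ∀ v ∈ ball (0 : ℂ) V, ‖e v - v ^ 2‖ ≤ C * η * ‖v‖ ^ 4
  dPi : ∀ v ∈ ball (0 : ℂ) V, HasDerivAt Pi (3 * e v) v
  Pi0 : Pi 0 = 0
  rem : ∀ x : ℝ, (m x).im = 0
  ree : ∀ x : ℝ, (e x).im = 0
  rePi : ∀ x : ℝ, (Pi x).im = 0

/-- the integrand, as a function of the complex numbers `y, σ, a = φ(σ), b = φ'(σ)` -/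
noncomputable def Nv (X G m e : ℂ → ℂ) (δ η : ℝ) (y σ a b : ℂ) : ℂ :=
  η * (3 * e (X (σ + δ + a) - X σ) * deriv X σ - deriv G σ) +
    (m (X (σ + δ + a) - X σ) - m (X (σ + δ + a) - X y)) * deriv X (σ + δ + a) * (1 + b)

/-- leading value of the second unknown -/
noncomputable def R0 (X G : ℂ → ℂ) (δ : ℝ) (s : ℂ) : ℂ :=
  (3 * (X (s + 2 * δ) - X (s + δ)) ^ 2 * deriv X (s + δ) - deriv G (s + δ)) /
    (deriv X (s + δ) * deriv X (s + 2 * δ))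

noncomputable def kap (h : ℝ) : ℝ := min (h / 8) (1 / 2)

/-- neighbourhood of the segment `[s, s + 2δ]` -/
def Nb (δ h : ℝ) (s : ℂ) : Set ℂ := {z | |z.im| < 3 * h / 4 ∧ |z.re - s.re| ≤ 2 * δ + 1}

/-- local estimates near `s`, all relative to `om s` -/
structure Loc (δ h M V : ℝ) (X G : ℂ → ℂ) (s : ℂ) : Prop where
  dX : ∀ z ∈ Nb δ h s, HasDerivAt X (deriv X z) z
  dG : ∀ z ∈ Nb δ h s, HasDerivAt G (deriv G z) z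
  hV : ∀ z ∈ Nb δ h s, ∀ w ∈ Nb δ h s, ‖X z - X w‖ < V
  l0 : ∀ z ∈ Nb δ h s, ∀ w ∈ Nb δ h s, ‖X z - X w‖ ≤ M * om s * ‖z - w‖
  l1 : ∀ z ∈ Nb δ h s, ∀ w ∈ Nb δ h s, ‖deriv X z - deriv X w‖ ≤ M * om s * ‖z - w‖
  l2 : ∀ z ∈ Nb δ h s, ∀ w ∈ Nb δ h s, ‖deriv G z - deriv G w‖ ≤ M * om s ^ 3 * ‖z - w‖
  bX1 : ∀ z ∈ Nb δ h s, ‖deriv X z‖ ≤ M * om s
  lX1 : ∀ z ∈ Nb δ h s, om s ≤ M * ‖deriv X z‖
  bG1 : ∀ z ∈ Nb δ h s, ‖deriv G z‖ ≤ M * om s ^ 3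
  ident : G (s + δ) - G s = (X (s + δ) - X s) ^ 3
  lD : om s ^ 3 ≤ M * ‖DD X G δ s‖

end TC
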