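import Mathlib
import Pool.Agent.Helper822.TC.Defs

set_option autoImplicit false

open Complex Set Metric

namespace TC



/-- closed ball of pairs of holomorphic functions, real on the real axis -/
def Good (Ω : Set ℂ) (w : ℂ → ℝ) (ρ₁ ρ₂ : ℝ) (φ r : ℂ → ℂ) : Prop :=
  DifferentiableOn ℂ φ Ω ∧ DifferentiableOn ℂ r Ω ∧
  (∀ z ∈ Ω, ‖φ z‖ ≤ ρ₁ * w z) ∧ (∀ z ∈ Ω, ‖r z‖ ≤ ρ₂ * w z) ∧
  (∀ x : ℝ, (φ x).im = 0) ∧ (∀ x : ℝ, (r x).im = 0)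

theorem fixed_point_aux {Ω : Set ℂ} (hΩ : IsOpen Ω) (hR : ∀ x : ℝ, (x : ℂ) ∈ Ω) (w : ℂ → ℝ)
    (hw : ∀ z ∈ Ω, 0 ≤ w z ∧ w z ≤ 1) (ρ : ℝ) (h1 : 0 < ρ) (f : ℕ → ℂ → ℂ)
    (hd : ∀ n, DifferentiableOn ℂ (f n) Ω)
    (hb : ∀ n, ∀ z ∈ Ω, ‖f n z‖ ≤ ρ * w z)
    (hre : ∀ n, ∀ x : ℝ, (f n x).im = 0)
    (hs : ∀ n, ∀ z ∈ Ω, ‖f (n + 1) z - f n z‖ ≤ (2 / 3) ^ n * ρ * w z) :
    ∃ φ : ℂ → ℂ, DifferentiableOn ℂ φ Ω ∧ (∀ z ∈ Ω, ‖φ z‖ ≤ ρ * w z) ∧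
      (∀ x : ℝ, (φ x).im = 0) ∧
      (∀ n, ∀ z ∈ Ω, ‖φ z - f n z‖ ≤ 3 * (2 / 3) ^ n * ρ * w z) := by
  classical
  have hdist : ∀ z ∈ Ω, ∀ n, dist (f n z) (f (n + 1) z) ≤ ρ * w z * (2 / 3 : ℝ) ^ n := by
    intro z hz n
    rw [dist_comm, dist_eq_norm]
    refine (hs n z hz).trans (le_of_eq (by ring))
  have hlim : ∀ z, ∃ l : ℂ, z ∈ Ω → Filter.Tendsto (fun n => f n z) Filter.atTop (nhds l) := by
    intro z
    by_cases hz : z ∈ Ω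
    · have hc := cauchySeq_of_le_geometric (2 / 3 : ℝ) (ρ * w z) (by norm_num) (hdist z hz)
      obtain ⟨l, hl⟩ := cauchySeq_tendsto_of_complete hc
      exact ⟨l, fun _ => hl⟩
    · exact ⟨0, fun h => (hz h).elim⟩
  choose φ hφ using hlim
  have htail : ∀ n, ∀ z ∈ Ω, ‖φ z - f n z‖ ≤ 3 * (2 / 3) ^ n * ρ * w z := by
    intro n z hz
    have := dist_le_of_le_geometric_of_tendsto (2 / 3 : ℝ) (ρ * w z) (by norm_num)
      (hdist z hz) (hφ z hz) n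
    rw [dist_comm, dist_eq_norm] at this
    refine this.trans (le_of_eq ?_)
    norm_num
    ring
  refine ⟨φ, ?_, ?_, ?_, htail⟩
  · have hunif : TendstoUniformlyOn f φ Filter.atTop Ω := by
      rw [Metric.tendstoUniformlyOn_iff]
      intro ε hε
      have ht : Filter.Tendsto (fun n : ℕ => 3 * ρ * (2 / 3 : ℝ) ^ n) Filter.atTop
          (nhds (3 * ρ * 0)) :=
        (tendsto_pow_atTop_nhds_zero_of_lt_one (by norm_num) (by norm_num)).const_mul _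
      rw [mul_zero] at ht
      filter_upwards [ht.eventually (gt_mem_nhds hε)] with n hn z hz
      rw [dist_eq_norm]
      refine (htail n z hz).trans_lt (lt_of_le_of_lt ?_ hn)
      have h3 : 0 ≤ 3 * (2 / 3 : ℝ) ^ n * ρ := by positivity
      calc 3 * (2 / 3 : ℝ) ^ n * ρ * w z ≤ 3 * (2 / 3 : ℝ) ^ n * ρ * 1 :=
            mul_le_mul_of_nonneg_left (hw z hz).2 h3
        _ = 3 * ρ * (2 / 3 : ℝ) ^ n := by ring
    exact hunif.tendstoLocallyUniformlyOn.differentiableOn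
      (Filter.Eventually.of_forall hd) hΩ
  · intro z hz
    exact le_of_tendsto' (hφ z hz).norm (fun n => hb n z hz)
  · intro x
    have h := (Complex.continuous_im.tendsto _).comp (hφ x (hR x))
    have h' : Filter.Tendsto (fun _ : ℕ => (0 : ℝ)) Filter.atTop (nhds (φ x).im) := by
      refine h.congr (fun n => ?_)
      exact hre n x
    exact (tendsto_nhds_unique h' tendsto_const_nhds)

theorem fixed_point {Ω : Set ℂ} (hΩ : IsOpen Ω) (hR : ∀ x : ℝ, (x : ℂ) ∈ Ω) (w : ℂ → ℝ)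
    (hw : ∀ z ∈ Ω, 0 ≤ w z ∧ w z ≤ 1) (ρ₁ ρ₂ : ℝ) (h1 : 0 < ρ₁) (h2 : 0 < ρ₂)
    (T1 T2 : (ℂ → ℂ) → (ℂ → ℂ) → ℂ → ℂ)
    (hmap : ∀ φ r, Good Ω w ρ₁ ρ₂ φ r → Good Ω w ρ₁ ρ₂ (T1 φ r) (T2 φ r))
    (hcon : ∀ φ r φ' r' (ε : ℝ), Good Ω w ρ₁ ρ₂ φ r → Good Ω w ρ₁ ρ₂ φ' r' → 0 < ε → ε ≤ 2 →
      (∀ z ∈ Ω, ‖φ z - φ' z‖ ≤ ε * ρ₁ * w z) → (∀ z ∈ Ω, ‖r z - r' z‖ ≤ ε * ρ₂ * w z) →
      (∀ z ∈ Ω, ‖T1 φ r z - T1 φ' r' z‖ ≤ 2 / 3 * ε * ρ₁ * w z) ∧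
      (∀ z ∈ Ω, ‖T2 φ r z - T2 φ' r' z‖ ≤ 2 / 3 * ε * ρ₂ * w z)) :
    ∃ φ r, Good Ω w ρ₁ ρ₂ φ r ∧ (∀ z ∈ Ω, T1 φ r z = φ z) ∧ (∀ z ∈ Ω, T2 φ r z = r z) := by
  classical
  let S : ℕ → (ℂ → ℂ) × (ℂ → ℂ) := fun n =>
    Nat.rec ((fun _ => 0), (fun _ => 0)) (fun _ p => (T1 p.1 p.2, T2 p.1 p.2)) n
  have hS0 : S 0 = ((fun _ => 0), (fun _ => 0)) := rfl
  have hS1 : ∀ n, S (n + 1) = (T1 (S n).1 (S n).2, T2 (S n).1 (S n).2) := fun n => rfl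
  have hG : ∀ n, Good Ω w ρ₁ ρ₂ (S n).1 (S n).2 := by
    intro n
    induction n with
    | zero =>
      rw [hS0]
      refine ⟨differentiableOn_const 0, differentiableOn_const 0, ?_, ?_, ?_, ?_⟩
      · intro z hz
        simpa using mul_nonneg h1.le (hw z hz).1
      · intro z hz
        simpa using mul_nonneg h2.le (hw z hz).1
      · intro x; simp
      · intro x; simp
    | succ n ih =>
      rw [hS1]
      exact hmap _ _ ih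
  have hstep : ∀ n, (∀ z ∈ Ω, ‖(S (n + 1)).1 z - (S n).1 z‖ ≤ (2 / 3) ^ n * ρ₁ * w z) ∧
      (∀ z ∈ Ω, ‖(S (n + 1)).2 z - (S n).2 z‖ ≤ (2 / 3) ^ n * ρ₂ * w z) := by
    intro n
    induction n with
    | zero =>
      have hg := hG 1
      refine ⟨fun z hz => ?_, fun z hz => ?_⟩
      · rw [hS0]
        simpa using hg.2.2.1 z hz
      · rw [hS0]
        simpa using hg.2.2.2.1 z hz
    | succ n ih =>
      have hle : (2 / 3 : ℝ) ^ n ≤ 2 :=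
        (pow_le_one₀ (by norm_num) (by norm_num)).trans (by norm_num)
      have hc := hcon (S (n + 1)).1 (S (n + 1)).2 (S n).1 (S n).2 ((2 / 3) ^ n) (hG (n + 1)) (hG n)
        (by positivity) hle ih.1 ih.2
      refine ⟨fun z hz => ?_, fun z hz => ?_⟩
      · refine (hc.1 z hz).trans (le_of_eq (by ring))
      · refine (hc.2 z hz).trans (le_of_eq (by ring))
  obtain ⟨φ, a1, a2, a3, a4⟩ := fixed_point_aux hΩ hR w hw ρ₁ h1 (fun n => (S n).1)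
    (fun n => (hG n).1) (fun n => (hG n).2.2.1) (fun n => (hG n).2.2.2.2.1)
    (fun n => (hstep n).1)
  obtain ⟨r, b1, b2, b3, b4⟩ := fixed_point_aux hΩ hR w hw ρ₂ h2 (fun n => (S n).2)
    (fun n => (hG n).2.1) (fun n => (hG n).2.2.2.1) (fun n => (hG n).2.2.2.2.2)
    (fun n => (hstep n).2)
  have hgood : Good Ω w ρ₁ ρ₂ φ r := ⟨a1, b1, a2, b2, a3, b3⟩
  have key : ∀ n : ℕ, 1 ≤ n →
      (∀ z ∈ Ω, ‖T1 φ r z - (S (n + 1)).1 z‖ ≤ 2 / 3 * (3 * (2 / 3) ^ n) * ρ₁ * w z) ∧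
      (∀ z ∈ Ω, ‖T2 φ r z - (S (n + 1)).2 z‖ ≤ 2 / 3 * (3 * (2 / 3) ^ n) * ρ₂ * w z) := by
    intro n hn
    have hle : 3 * (2 / 3 : ℝ) ^ n ≤ 2 := by
      have : (2 / 3 : ℝ) ^ n ≤ (2 / 3) ^ 1 :=
        pow_le_pow_of_le_one (by norm_num) (by norm_num) hn
      linarith
    exact hcon φ r (S n).1 (S n).2 (3 * (2 / 3) ^ n) hgood (hG n) (by positivity) hle
      (a4 n) (b4 n)
  have conv : ∀ c : ℝ, Filter.Tendsto (fun n : ℕ => 4 * c * (2 / 3 : ℝ) ^ n) Filter.atTop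
      (nhds 0) := by
    intro c
    have := (tendsto_pow_atTop_nhds_zero_of_lt_one (r := (2 / 3 : ℝ)) (by norm_num)
      (by norm_num)).const_mul (4 * c)
    simpa using this
  refine ⟨φ, r, hgood, fun z hz => ?_, fun z hz => ?_⟩
  · have h : ‖T1 φ r z - φ z‖ ≤ 0 := by
      refine ge_of_tendsto (conv (ρ₁ * w z)) ?_
      filter_upwards [Filter.eventually_ge_atTop 1] with n hn
      have e1 := (key n hn).1 z hz
      have e2 := a4 (n + 1) z hz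
      have e3 : ‖T1 φ r z - φ z‖ ≤ ‖T1 φ r z - (S (n + 1)).1 z‖ + ‖φ z - (S (n + 1)).1 z‖ := by
        rw [norm_sub_rev (φ z)]
        exact norm_sub_le_norm_sub_add_norm_sub _ _ _
      refine e3.trans ((add_le_add e1 e2).trans (le_of_eq ?_))
      rw [pow_succ]; ring
    exact sub_eq_zero.1 (norm_le_zero_iff.1 h)
  · have h : ‖T2 φ r z - r z‖ ≤ 0 := by
      refine ge_of_tendsto (conv (ρ₂ * w z)) ?_
      filter_upwards [Filter.eventually_ge_atTop 1] with n hn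
      have e1 := (key n hn).2 z hz
      have e2 := b4 (n + 1) z hz
      have e3 : ‖T2 φ r z - r z‖ ≤ ‖T2 φ r z - (S (n + 1)).2 z‖ + ‖r z - (S (n + 1)).2 z‖ := by
        rw [norm_sub_rev (r z)]
        exact norm_sub_le_norm_sub_add_norm_sub _ _ _
      refine e3.trans ((add_le_add e1 e2).trans (le_of_eq ?_))
      rw [pow_succ]; ring
    exact sub_eq_zero.1 (norm_le_zero_iff.1 h)

end TC
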