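import Mathlib
import Pool.Agent.Helper822.TC.Defs

set_option autoImplicit false

open Complex Set Metric

namespace TC

theorem Strip_open (h : ℝ) : IsOpen (Strip h) := by
  unfold Strip
  exact isOpen_lt (by fun_prop) (by fun_prop)

section
variable {E : Type*} [NormedAddCommGroup E] [NormedSpace ℂ E]

theorem ana_comp_strip {F : ℂ → ℂ} {h : ℝ} (hF : DifferentiableOn ℂ F (Strip h)) {g : E → ℂ}
    {p : E} (hg : AnalyticAt ℂ g p) (hp : g p ∈ Strip h) :
    AnalyticAt ℂ (fun x => F (g x)) p := by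
  have h1 : AnalyticAt ℂ F (g p) := hF.analyticAt ((Strip_open h).mem_nhds hp)
  exact h1.comp hg

theorem ana_comp_set {F : ℂ → ℂ} {S : Set ℂ} (hS : IsOpen S) (hF : DifferentiableOn ℂ F S)
    {g : E → ℂ} {p : E} (hg : AnalyticAt ℂ g p) (hp : g p ∈ S) :
    AnalyticAt ℂ (fun x => F (g x)) p := by
  have h1 : AnalyticAt ℂ F (g p) := hF.analyticAt (hS.mem_nhds hp)
  exact h1.comp hg

theorem ana_deriv_comp_set {F : ℂ → ℂ} {S : Set ℂ} (hS : IsOpen S) (hF : DifferentiableOn ℂ F S)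
    {g : E → ℂ} {p : E} (hg : AnalyticAt ℂ g p) (hp : g p ∈ S) :
    AnalyticAt ℂ (fun x => deriv F (g x)) p := by
  have h1 : AnalyticAt ℂ (deriv F) (g p) := (hF.analyticAt (hS.mem_nhds hp)).deriv
  exact h1.comp hg

/-- analyticity of the integrand in parameters -/
theorem ana_Nv {δ h C V Cs η : ℝ} {X G m e Pi : ℂ → ℂ} (hB : BaseA δ h C X G)
    (hS : Small V Cs η m e Pi) {y σ a b : E → ℂ} {p : E}
    (hy : AnalyticAt ℂ y p) (hσ : AnalyticAt ℂ σ p) (ha : AnalyticAt ℂ a p)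
    (hb : AnalyticAt ℂ b p) (h1 : y p ∈ Strip h) (h2 : σ p ∈ Strip h)
    (h3 : σ p + δ + a p ∈ Strip h) (h4 : ‖X (σ p + δ + a p) - X (σ p)‖ < V)
    (h5 : ‖X (σ p + δ + a p) - X (y p)‖ < V) :
    AnalyticAt ℂ (fun x => Nv X G m e δ η (y x) (σ x) (a x) (b x)) p := by
  have hf : AnalyticAt ℂ (fun x => σ x + δ + a x) p := (hσ.add analyticAt_const).add ha
  have o := Strip_open h
  have hXf := ana_comp_set o hB.dX hf h3
  have hXσ := ana_comp_set o hB.dX hσ h2
  have hXy := ana_comp_set o hB.dX hy h1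
  have hX1σ := ana_deriv_comp_set o hB.dX hσ h2
  have hG1σ := ana_deriv_comp_set o hB.dG hσ h2
  have hX1f := ana_deriv_comp_set o hB.dX hf h3
  have v1 := hXf.sub hXσ
  have v2 := hXf.sub hXy
  have he := ana_comp_set (g := fun x => X (σ x + δ + a x) - X (σ x)) isOpen_ball hS.de v1
    (by simpa using h4)
  have hm1 := ana_comp_set (g := fun x => X (σ x + δ + a x) - X (σ x)) isOpen_ball hS.dm v1
    (by simpa using h4)
  have hm2 := ana_comp_set (g := fun x => X (σ x + δ + a x) - X (y x)) isOpen_ball hS.dm v2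
    (by simpa using h5)
  unfold Nv
  exact (analyticAt_const.mul (((analyticAt_const.mul he).mul hX1σ).sub hG1σ)).add
    (((hm1.sub hm2).mul hX1f).mul (analyticAt_const.add hb))

/-- integrand of the first component, in terms of values -/
noncomputable def TPv (X G Pi : ℂ → ℂ) (δ : ℝ) (s φs Rb N : ℂ) : ℂ :=
  φs - (Pi (X (s + δ + φs) - X s) - G (s + δ + φs) + G s + Rb * N) / DD X G δ s

theorem ana_DD {δ h C : ℝ} {X G : ℂ → ℂ} (hB : BaseA δ h C X G) {s : E → ℂ} {p : E}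
    (hs : AnalyticAt ℂ s p) (h1 : s p ∈ Strip h) :
    AnalyticAt ℂ (fun x => DD X G δ (s x)) p := by
  have o := Strip_open h
  have h2 : s p + δ ∈ Strip h := by
    simp only [Strip, mem_setOf_eq, add_im, ofReal_im, add_zero] at h1 ⊢; exact h1
  have hsd : AnalyticAt ℂ (fun x => s x + (δ : ℂ)) p := hs.add analyticAt_const
  have a1 := ana_comp_set o hB.dX hsd h2
  have a2 := ana_comp_set o hB.dX hs h1
  have a3 := ana_deriv_comp_set o hB.dX hsd h2
  have a4 := ana_deriv_comp_set o hB.dG hsd h2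
  unfold DD
  exact ((analyticAt_const.mul ((a1.sub a2).pow 2)).mul a3).sub a4

theorem om_pos (z : ℂ) : 0 < om z := Real.exp_pos _

theorem om_le_one (z : ℂ) : om z ≤ 1 := by
  unfold om
  rw [Real.exp_le_one_iff]
  have := abs_nonneg z.re
  linarith

theorem DD_ne {δ h C : ℝ} {X G : ℂ → ℂ} (hB : BaseA δ h C X G) {s : ℂ} (h1 : s ∈ Strip h) :
    DD X G δ s ≠ 0 := by
  intro h0
  have := hB.lD s h1
  rw [h0, norm_zero, mul_zero] at this
  have h2 := pow_pos (om_pos s) 3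
  linarith

theorem X1_ne {δ h C : ℝ} {X G : ℂ → ℂ} (hB : BaseA δ h C X G) {s : ℂ} (h1 : s ∈ Strip h) :
    deriv X s ≠ 0 := by
  intro h0
  have := hB.lX1 s h1
  rw [h0, norm_zero, mul_zero] at this
  have h2 := om_pos s
  linarith

theorem ana_R0 {δ h C : ℝ} {X G : ℂ → ℂ} (hB : BaseA δ h C X G) {s : E → ℂ} {p : E}
    (hs : AnalyticAt ℂ s p) (h1 : s p ∈ Strip h) :
    AnalyticAt ℂ (fun x => R0 X G δ (s x)) p := by
  have o := Strip_open h
  have h2 : s p + δ ∈ Strip h := by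
    simp only [Strip, mem_setOf_eq, add_im, ofReal_im, add_zero] at h1 ⊢; exact h1
  have h3 : s p + 2 * δ ∈ Strip h := by
    simp only [Strip, mem_setOf_eq, add_im, mul_im, ofReal_im] at h1 ⊢; simpa using h1
  have hsd : AnalyticAt ℂ (fun x => s x + (δ : ℂ)) p := hs.add analyticAt_const
  have hs2 : AnalyticAt ℂ (fun x => s x + 2 * (δ : ℂ)) p := hs.add analyticAt_const
  have a1 := ana_comp_set o hB.dX hsd h2
  have a2 := ana_comp_set o hB.dX hs2 h3
  have a3 := ana_deriv_comp_set o hB.dX hsd h2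
  have a4 := ana_deriv_comp_set o hB.dG hsd h2
  have a5 := ana_deriv_comp_set o hB.dX hs2 h3
  unfold R0
  refine AnalyticAt.div (((analyticAt_const.mul ((a2.sub a1).pow 2)).mul a3).sub a4)
    (a3.mul a5) ?_
  exact mul_ne_zero (X1_ne hB h2) (X1_ne hB h3)

theorem ana_TPv {δ h C V Cs η : ℝ} {X G m e Pi : ℂ → ℂ} (hB : BaseA δ h C X G)
    (hS : Small V Cs η m e Pi) {s φs Rb N : E → ℂ} {p : E}
    (hs : AnalyticAt ℂ s p) (hφ : AnalyticAt ℂ φs p) (hR : AnalyticAt ℂ Rb p)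
    (hN : AnalyticAt ℂ N p) (h1 : s p ∈ Strip h) (h2 : s p + δ + φs p ∈ Strip h)
    (h4 : ‖X (s p + δ + φs p) - X (s p)‖ < V) :
    AnalyticAt ℂ (fun x => TPv X G Pi δ (s x) (φs x) (Rb x) (N x)) p := by
  have o := Strip_open h
  have hy : AnalyticAt ℂ (fun x => s x + δ + φs x) p := (hs.add analyticAt_const).add hφ
  have a1 := ana_comp_set o hB.dX hy h2
  have a2 := ana_comp_set o hB.dX hs h1
  have a3 := ana_comp_set o hB.dG hy h2
  have a4 := ana_comp_set o hB.dG hs h1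
  have hPd : DifferentiableOn ℂ Pi (ball 0 V) := fun v hv =>
    (hS.dPi v hv).differentiableAt.differentiableWithinAt
  have a5 := ana_comp_set (g := fun x => X (s x + δ + φs x) - X (s x)) isOpen_ball hPd
    (a1.sub a2) (by simpa using h4)
  unfold TPv
  exact hφ.sub ((((a5.sub a3).add a4).add (hR.mul hN)).div (ana_DD hB hs h1) (DD_ne hB h1))

end

end TC
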