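import Mathlib
import Pool.Agent.Helper822.TC.Defs

set_option autoImplicit false

open Complex Set Metric

namespace TC



theorem om_pos' (z : ℂ) : 0 < om z := Real.exp_pos _

theorem om_le_of_abs {z s : ℂ} {L : ℝ} (h : |z.re - s.re| ≤ L) : om z ≤ Real.exp L * om s := by
  unfold om
  rw [← Real.exp_add]
  apply Real.exp_le_exp.2
  have h1 : |s.re| - |z.re| ≤ |s.re - z.re| := abs_sub_abs_le_abs_sub _ _
  rw [abs_sub_comm] at h1
  linarith

theorem isOpen_Strip (h : ℝ) : IsOpen (Strip h) :=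
  isOpen_lt (continuous_abs.comp Complex.continuous_im) continuous_const

theorem convex_Nb (δ h : ℝ) (s : ℂ) : Convex ℝ (Nb δ h s) := by
  have h1 : Nb δ h s = ({z : ℂ | z.im < 3 * h / 4} ∩ {z : ℂ | -(3 * h / 4) < z.im}) ∩
      ({z : ℂ | z.re ≤ s.re + (2 * δ + 1)} ∩ {z : ℂ | s.re - (2 * δ + 1) ≤ z.re}) := by
    ext z
    constructor
    · rintro ⟨h1, h2⟩
      rw [abs_lt] at h1
      rw [abs_le] at h2
      refine ⟨⟨h1.2, h1.1⟩, ?_, ?_⟩
      · show z.re ≤ s.re + (2 * δ + 1)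
        linarith [h2.2]
      · show s.re - (2 * δ + 1) ≤ z.re
        linarith [h2.1]
    · rintro ⟨⟨h1, h2⟩, h3, h4⟩
      have h3' : z.re ≤ s.re + (2 * δ + 1) := h3
      have h4' : s.re - (2 * δ + 1) ≤ z.re := h4
      refine ⟨abs_lt.2 ⟨h2, h1⟩, abs_le.2 ⟨by linarith, by linarith⟩⟩
  rw [h1]
  exact ((convex_halfSpace_im_lt _).inter (convex_halfSpace_im_gt _)).inter
    ((convex_halfSpace_re_le _).inter (convex_halfSpace_re_ge _))

theorem loc_of_base {δ h C V : ℝ} {X G : ℂ → ℂ} (hB : BaseA δ h C X G) (hV : 2 * C < V) :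
    ∃ M, 1 ≤ M ∧ ∀ s ∈ Strip (h / 2), Loc δ h M V X G s := by
  obtain ⟨Λ, hΛ⟩ : ∃ Λ, Λ = Real.exp (2 * δ + 1 + h) := ⟨_, rfl⟩
  have hδ := hB.δpos
  have hh := hB.hpos
  have hC1 := hB.C1
  have hΛ1 : 1 ≤ Λ := by
    rw [hΛ]
    apply Real.one_le_exp
    linarith
  have hΛ3 : Λ ≤ Λ ^ 3 := by
    have : Λ * 1 ≤ Λ * Λ ^ 2 := by
      apply mul_le_mul_of_nonneg_left _ (by linarith)
      exact one_le_pow₀ hΛ1
    nlinarith
  have hΛ31 : 1 ≤ Λ ^ 3 := hΛ1.trans hΛ3
  obtain ⟨M, hM⟩ : ∃ M, M = C * Λ ^ 3 * (1 + 8 / h) := ⟨_, rfl⟩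
  have h8 : 0 < 8 / h := by positivity
  have hC0 : 0 < C := by linarith
  have hCL3 : 0 < C * Λ ^ 3 := by positivity
  have hM3 : C * Λ ^ 3 ≤ M := by
    rw [hM]
    nlinarith [mul_pos hCL3 h8]
  have hM1 : C * Λ ≤ M := by
    refine le_trans ?_ hM3
    exact mul_le_mul_of_nonneg_left hΛ3 hC0.le
  have hM0 : C ≤ M := by
    refine le_trans ?_ hM1
    nlinarith
  have hM8 : C * Λ ^ 3 * (8 / h) ≤ M := by
    rw [hM]
    nlinarith
  have hM81 : C * Λ * (8 / h) ≤ M := by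
    refine le_trans ?_ hM8
    apply mul_le_mul_of_nonneg_right _ h8.le
    exact mul_le_mul_of_nonneg_left hΛ3 hC0.le
  refine ⟨M, by linarith, ?_⟩
  intro s hs
  have hs' : s ∈ Strip h := by
    have h1 : |s.im| < h / 2 := hs
    show |s.im| < h
    linarith
  have hsub : Nb δ h s ⊆ Strip h := by
    intro z hz
    have h1 : |z.im| < 3 * h / 4 := hz.1
    show |z.im| < h
    linarith
  have hoz : ∀ z ∈ Nb δ h s, om z ≤ Λ * om s := by
    intro z hz
    rw [hΛ]
    apply om_le_of_abs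
    have := hz.2
    linarith
  have hos : ∀ z ∈ Nb δ h s, om s ≤ Λ * om z := by
    intro z hz
    rw [hΛ]
    apply om_le_of_abs
    have := hz.2
    rw [abs_sub_comm]
    linarith
  have hball : ∀ z ∈ Nb δ h s, closedBall z (h / 8) ⊆ Strip h := by
    intro z hz w hw
    have h1 : |z.im| < 3 * h / 4 := hz.1
    have h2 : |(w - z).im| ≤ ‖w - z‖ := Complex.abs_im_le_norm _
    rw [mem_closedBall, dist_eq_norm] at hw
    rw [Complex.sub_im] at h2
    show |w.im| < h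
    have h3 : |w.im| ≤ |w.im - z.im| + |z.im| := by
      calc |w.im| = |(w.im - z.im) + z.im| := by ring_nf
        _ ≤ _ := abs_add_le _ _
    linarith
  have hosph : ∀ z ∈ Nb δ h s, ∀ w ∈ sphere z (h / 8), om w ≤ Λ * om s := by
    intro z hz w hw
    rw [hΛ]
    apply om_le_of_abs
    have h1 := hz.2
    have h2 : |(w - z).re| ≤ ‖w - z‖ := Complex.abs_re_le_norm _
    rw [mem_sphere, dist_eq_norm] at hw
    rw [Complex.sub_re] at h2
    have h3 : |w.re - s.re| ≤ |w.re - z.re| + |z.re - s.re| := abs_sub_le _ _ _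
    linarith
  have hos0 : 0 < om s := om_pos' s
  have hop := isOpen_Strip h
  have hX1 : ∀ z ∈ Strip h, DifferentiableAt ℂ X z := fun z hz =>
    hB.dX.differentiableAt (hop.mem_nhds hz)
  have hG1 : ∀ z ∈ Strip h, DifferentiableAt ℂ G z := fun z hz =>
    hB.dG.differentiableAt (hop.mem_nhds hz)
  have hdX : DifferentiableOn ℂ (deriv X) (Strip h) := hB.dX.deriv hop
  have hdG : DifferentiableOn ℂ (deriv G) (Strip h) := hB.dG.deriv hop
  have hcube : ∀ w, om w ≤ Λ * om s → om w ^ 3 ≤ Λ ^ 3 * om s ^ 3 := by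
    intro w hw
    rw [← mul_pow]
    exact pow_le_pow_left₀ (om_pos' w).le hw 3
  have bX1 : ∀ z ∈ Nb δ h s, ‖deriv X z‖ ≤ M * om s := by
    intro z hz
    calc ‖deriv X z‖ ≤ C * om z := hB.bX1 z (hsub hz)
      _ ≤ C * (Λ * om s) := mul_le_mul_of_nonneg_left (hoz z hz) hC0.le
      _ = C * Λ * om s := by ring
      _ ≤ M * om s := mul_le_mul_of_nonneg_right hM1 hos0.le
  have bG1 : ∀ z ∈ Nb δ h s, ‖deriv G z‖ ≤ M * om s ^ 3 := by
    intro z hz
    calc ‖deriv G z‖ ≤ C * om z ^ 3 := hB.bG1 z (hsub hz)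
      _ ≤ C * (Λ ^ 3 * om s ^ 3) := mul_le_mul_of_nonneg_left (hcube z (hoz z hz)) hC0.le
      _ = C * Λ ^ 3 * om s ^ 3 := by ring
      _ ≤ M * om s ^ 3 := mul_le_mul_of_nonneg_right hM3 (by positivity)
  have bX2 : ∀ z ∈ Nb δ h s, ‖deriv (deriv X) z‖ ≤ M * om s := by
    intro z hz
    have h1 := Complex.norm_deriv_le_of_forall_mem_sphere_norm_le (f := deriv X) (c := z)
      (R := h / 8) (C := C * (Λ * om s)) (by positivity)
      (hdX.diffContOnCl_ball (hball z hz)) (fun w hw => by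
        refine (hB.bX1 w (hball z hz (sphere_subset_closedBall hw))).trans ?_
        exact mul_le_mul_of_nonneg_left (hosph z hz w hw) hC0.le)
    calc ‖deriv (deriv X) z‖ ≤ C * (Λ * om s) / (h / 8) := h1
      _ = C * Λ * (8 / h) * om s := by
        field_simp
      _ ≤ M * om s := mul_le_mul_of_nonneg_right hM81 hos0.le
  have bG2 : ∀ z ∈ Nb δ h s, ‖deriv (deriv G) z‖ ≤ M * om s ^ 3 := by
    intro z hz
    have h1 := Complex.norm_deriv_le_of_forall_mem_sphere_norm_le (f := deriv G) (c := z)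
      (R := h / 8) (C := C * (Λ ^ 3 * om s ^ 3)) (by positivity)
      (hdG.diffContOnCl_ball (hball z hz)) (fun w hw => by
        refine (hB.bG1 w (hball z hz (sphere_subset_closedBall hw))).trans ?_
        exact mul_le_mul_of_nonneg_left (hcube w (hosph z hz w hw)) hC0.le)
    calc ‖deriv (deriv G) z‖ ≤ C * (Λ ^ 3 * om s ^ 3) / (h / 8) := h1
      _ = C * Λ ^ 3 * (8 / h) * om s ^ 3 := by
        field_simp
      _ ≤ M * om s ^ 3 := mul_le_mul_of_nonneg_right hM8 (by positivity)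
  refine ⟨fun z hz => (hX1 z (hsub hz)).hasDerivAt, fun z hz => (hG1 z (hsub hz)).hasDerivAt,
    ?_, ?_, ?_, ?_, bX1, ?_, bG1, hB.ident s hs', ?_⟩
  · intro z hz w hw
    have h1 := hB.bX z (hsub hz)
    have h2 := hB.bX w (hsub hw)
    have h3 := norm_sub_le (X z) (X w)
    linarith
  · intro z hz w hw
    exact (convex_Nb δ h s).norm_image_sub_le_of_norm_deriv_le
      (fun x hx => hX1 x (hsub hx)) bX1 hw hz
  · intro z hz w hw
    exact (convex_Nb δ h s).norm_image_sub_le_of_norm_deriv_le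
      (fun x hx => hdX.differentiableAt (hop.mem_nhds (hsub hx))) bX2 hw hz
  · intro z hz w hw
    exact (convex_Nb δ h s).norm_image_sub_le_of_norm_deriv_le
      (fun x hx => hdG.differentiableAt (hop.mem_nhds (hsub hx))) bG2 hw hz
  · intro z hz
    calc om s ≤ Λ * om z := hos z hz
      _ ≤ Λ * (C * ‖deriv X z‖) := mul_le_mul_of_nonneg_left (hB.lX1 z (hsub hz)) (by linarith)
      _ = C * Λ * ‖deriv X z‖ := by ring
      _ ≤ M * ‖deriv X z‖ := mul_le_mul_of_nonneg_right hM1 (norm_nonneg _)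
  · exact (hB.lD s hs').trans (mul_le_mul_of_nonneg_right hM0 (norm_nonneg _))

end TC
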