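import Mathlib
import Pool.Agent.Helper822.TC.Defs

set_option autoImplicit false

open Complex Set Metric

namespace TC



theorem P1 (δ h M V Cs : ℝ) (hδ : 0 < δ) (hh : 0 < h) (hM : 1 ≤ M) (hCs : 0 ≤ Cs) :
    ∃ C₁ > 0, ∀ (X G m e Pi : ℂ → ℂ) (η : ℝ) (s : ℂ), s ∈ Strip (h / 2) → Loc δ h M V X G s →
      0 < η → η ≤ 1 → Small V Cs η m e Pi → ∀ (K : ℝ) (y σ a b : ℂ), 0 ≤ K →
      ‖y - (s + δ)‖ ≤ kap h * om s → ‖σ - (s + δ)‖ ≤ kap h * om s → ‖σ - y‖ ≤ η * K * om s →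
      ‖a‖ ≤ kap h * om s → ‖b‖ ≤ 1 →
      ‖Nv X G m e δ η y σ a b‖ ≤ C₁ * (1 + K) * η * om s ^ 3 := by
  have hM0 : 0 < M := by linarith
  refine ⟨3 * M * ((M * (δ + 1)) ^ 2 + Cs * (M * (δ + 1)) ^ 4) + M + 2 * M ^ 2 * (1 + Cs) + 1,
    by positivity, ?_⟩
  intro X G m e Pi η s hs hL hη hη1 hS K y σ a b hK hy hσ hσy ha hb
  have hw0 : 0 < om s := Real.exp_pos _
  have hw1 : om s ≤ 1 := by
    unfold om
    rw [Real.exp_le_one_iff]
    linarith [abs_nonneg s.re]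
  have hk0 : 0 ≤ kap h := le_min (by linarith) (by norm_num)
  have hk1 : kap h ≤ h / 8 := min_le_left _ _
  have hk2 : kap h ≤ 1 / 2 := min_le_right _ _
  have hkw : kap h * om s ≤ kap h := mul_le_of_le_one_right hk0 hw1
  have hims : |s.im| < h / 2 := hs
  have him : ∀ z : ℂ, |z.im| ≤ ‖z‖ := fun z => Complex.abs_im_le_norm z
  have hre : ∀ z : ℂ, |z.re| ≤ ‖z‖ := fun z => Complex.abs_re_le_norm z
  have hNb : ∀ z : ℂ, ∀ t : ℝ, 0 ≤ t → t ≤ 2 * δ → ‖z - (s + t)‖ ≤ 2 * kap h → z ∈ Nb δ h s := by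
    intro z t ht0 ht hz
    have h1 := him (z - (s + t))
    have h2 := hre (z - (s + t))
    have h1' : (z - (s + t)).im = z.im - s.im := by simp
    have h2' : (z - (s + t)).re = z.re - s.re - t := by
      simp
      ring
    rw [h1'] at h1
    rw [h2'] at h2
    have h3 := abs_le.mp (h1.trans hz)
    have h4 := abs_le.mp (h2.trans hz)
    have h5 := abs_lt.mp hims
    refine ⟨?_, ?_⟩
    · rw [abs_lt]
      constructor
      · linarith [h3.1, h5.1]
      · linarith [h3.2, h5.2]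
    · rw [abs_le]
      constructor
      · linarith [h4.1]
      · linarith [h4.2]
  have hyN : y ∈ Nb δ h s := hNb y δ hδ.le (by linarith) (by linarith)
  have hσN : σ ∈ Nb δ h s := hNb σ δ hδ.le (by linarith) (by linarith)
  have hfN : σ + δ + a ∈ Nb δ h s := by
    refine hNb _ (2 * δ) (by linarith) le_rfl ?_
    have h1 : σ + δ + a - (s + ((2 * δ : ℝ) : ℂ)) = (σ - (s + δ)) + a := by
      push_cast
      ring
    rw [h1]
    refine (norm_add_le _ _).trans ?_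
    linarith
  set f : ℂ := σ + δ + a with hf
  have hfσ : ‖f - σ‖ ≤ δ + 1 := by
    have h1 : f - σ = (δ : ℂ) + a := by
      rw [hf]
      ring
    rw [h1]
    refine (norm_add_le _ _).trans ?_
    rw [Complex.norm_real, Real.norm_of_nonneg hδ.le]
    linarith
  set A : ℝ := M * (δ + 1) with hA
  have hA0 : 0 ≤ A := by positivity
  set w : ℝ := om s with hw
  have hv : ‖X f - X σ‖ ≤ A * w := by
    refine (hL.l0 f hfN σ hσN).trans ?_
    calc M * om s * ‖f - σ‖ ≤ M * om s * (δ + 1) :=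
          mul_le_mul_of_nonneg_left hfσ (by positivity)
      _ = A * w := by rw [hA, hw]; ring
  have hvV : X f - X σ ∈ ball (0 : ℂ) V := by
    rw [mem_ball_zero_iff]
    exact hL.hV f hfN σ hσN
  have hvV' : X f - X y ∈ ball (0 : ℂ) V := by
    rw [mem_ball_zero_iff]
    exact hL.hV f hfN y hyN
  -- bound for `e v`
  have he : ‖e (X f - X σ)‖ ≤ (A ^ 2 + Cs * A ^ 4) * w ^ 2 := by
    have h1 := hS.be _ hvV
    have h2 : ‖e (X f - X σ)‖ ≤ ‖X f - X σ‖ ^ 2 + Cs * η * ‖X f - X σ‖ ^ 4 := by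
      have h3 : e (X f - X σ) = (e (X f - X σ) - (X f - X σ) ^ 2) + (X f - X σ) ^ 2 := by ring
      rw [h3]
      refine (norm_add_le _ _).trans ?_
      rw [norm_pow]
      linarith
    refine h2.trans ?_
    have h4 : ‖X f - X σ‖ ^ 2 ≤ (A * w) ^ 2 := pow_le_pow_left₀ (norm_nonneg _) hv 2
    have h5 : ‖X f - X σ‖ ^ 4 ≤ (A * w) ^ 4 := pow_le_pow_left₀ (norm_nonneg _) hv 4
    have h6 : Cs * η * ‖X f - X σ‖ ^ 4 ≤ Cs * 1 * (A * w) ^ 4 :=
      mul_le_mul (mul_le_mul_of_nonneg_left hη1 hCs) h5 (by positivity) (by positivity)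
    have h7 : w ^ 4 ≤ w ^ 2 := pow_le_pow_of_le_one hw0.le hw1 (by norm_num)
    have h8 : Cs * 1 * (A * w) ^ 4 ≤ Cs * A ^ 4 * w ^ 2 := by
      have : Cs * 1 * (A * w) ^ 4 = Cs * A ^ 4 * w ^ 4 := by ring
      rw [this]
      exact mul_le_mul_of_nonneg_left h7 (by positivity)
    have h9 : (A * w) ^ 2 = A ^ 2 * w ^ 2 := by ring
    rw [h9] at h4
    linarith
  have hX1 : ‖deriv X σ‖ ≤ M * w := hL.bX1 σ hσN
  have hX1f : ‖deriv X f‖ ≤ M * w := hL.bX1 f hfN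
  have hG1 : ‖deriv G σ‖ ≤ M * w ^ 3 := hL.bG1 σ hσN
  -- bound for the difference of `m`
  have hm : ‖m (X f - X σ) - m (X f - X y)‖ ≤ (1 + Cs) * (M * w * (η * K * w)) := by
    have hdiff : ∀ x ∈ ball (0 : ℂ) V, DifferentiableAt ℂ m x := fun x hx =>
      (hS.dm x hx).differentiableAt (isOpen_ball.mem_nhds hx)
    have hbd : ∀ x ∈ ball (0 : ℂ) V, ‖deriv m x‖ ≤ 1 + Cs := by
      intro x hx
      have h1 := hS.bm x hx
      have h2 : deriv m x = (deriv m x - 1) + 1 := by ring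
      rw [h2]
      refine (norm_add_le _ _).trans ?_
      rw [norm_one]
      have h3 : Cs * η ≤ Cs := mul_le_of_le_one_right hCs hη1
      linarith
    have h1 := (convex_ball (0 : ℂ) V).norm_image_sub_le_of_norm_deriv_le hdiff hbd hvV' hvV
    refine h1.trans ?_
    have h2 : X f - X σ - (X f - X y) = X y - X σ := by ring
    rw [h2]
    refine mul_le_mul_of_nonneg_left ?_ (by linarith)
    refine (hL.l0 y hyN σ hσN).trans ?_
    refine mul_le_mul_of_nonneg_left ?_ (by positivity)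
    rw [norm_sub_rev]
    exact hσy
  have h1b : ‖1 + b‖ ≤ 2 := by
    refine (norm_add_le _ _).trans ?_
    rw [norm_one]
    linarith
  have hT1 : ‖(η : ℂ) * (3 * e (X f - X σ) * deriv X σ - deriv G σ)‖ ≤
      η * ((3 * M * (A ^ 2 + Cs * A ^ 4) + M) * w ^ 3) := by
    rw [norm_mul, Complex.norm_real, Real.norm_of_nonneg hη.le]
    refine mul_le_mul_of_nonneg_left ?_ hη.le
    refine (norm_sub_le _ _).trans ?_
    rw [norm_mul, norm_mul]
    have h3 : ‖(3 : ℂ)‖ = 3 := by simp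
    rw [h3]
    have h4 : 3 * ‖e (X f - X σ)‖ * ‖deriv X σ‖ ≤ 3 * ((A ^ 2 + Cs * A ^ 4) * w ^ 2) * (M * w) :=
      mul_le_mul (mul_le_mul_of_nonneg_left he (by norm_num)) hX1 (norm_nonneg _) (by positivity)
    have h5 : 3 * ((A ^ 2 + Cs * A ^ 4) * w ^ 2) * (M * w) + M * w ^ 3 =
        (3 * M * (A ^ 2 + Cs * A ^ 4) + M) * w ^ 3 := by ring
    linarith
  have hT2 : ‖(m (X f - X σ) - m (X f - X y)) * deriv X f * (1 + b)‖ ≤
      (1 + Cs) * (M * w * (η * K * w)) * (M * w) * 2 := by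
    rw [norm_mul, norm_mul]
    exact mul_le_mul (mul_le_mul hm hX1f (norm_nonneg _) (by positivity)) h1b (norm_nonneg _)
      (by positivity)
  unfold Nv
  rw [← hf]
  refine (norm_add_le _ _).trans ((add_le_add hT1 hT2).trans ?_)
  have hfin : (3 * M * (A ^ 2 + Cs * A ^ 4) + M + 2 * M ^ 2 * (1 + Cs) + 1) * (1 + K) * η * w ^ 3 -
      (η * ((3 * M * (A ^ 2 + Cs * A ^ 4) + M) * w ^ 3) +
        (1 + Cs) * (M * w * (η * K * w)) * (M * w) * 2) =
      ((3 * M * (A ^ 2 + Cs * A ^ 4) + M) * K + 2 * M ^ 2 * (1 + Cs) + (1 + K)) * η * w ^ 3 := by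
    ring
  have hpos : 0 ≤ ((3 * M * (A ^ 2 + Cs * A ^ 4) + M) * K + 2 * M ^ 2 * (1 + Cs) + (1 + K)) *
      η * w ^ 3 := by positivity
  linarith

end TC
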