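import Mathlib
import Pool.Agent.Helper822.TC.Defs

set_option autoImplicit false

open Complex Set Metric

namespace TC



theorem P2_auxA (M w η K τ Cs : ℝ) (Rb b X1 X2 F mm xx : ℂ) (hM : 1 ≤ M) (hw0 : 0 < w) (hw1 : w ≤ 1)
    (hη : 0 < η) (hK : 0 ≤ K) (hτ : 0 ≤ τ) (hCs : 0 ≤ Cs) (hx1 : 0 < ‖X1‖) (hx2 : 0 < ‖X2‖)
    (hww : w ^ 2 ≤ M ^ 2 * (‖X1‖ * ‖X2‖)) (hw43 : w ^ 4 ≤ w ^ 3)
    (hσy' : ‖(η : ℂ) * Rb‖ ≤ η * K * w) (h1b : ‖1 + b‖ ≤ 2) (hb : ‖b‖ ≤ τ)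
    (bX1 : ‖X1‖ ≤ M * w) (bX2 : ‖X2‖ ≤ M * w) (bXf : ‖F‖ ≤ M * w)
    (hF : ‖F - X2‖ ≤ M * w * ((2 * τ + η * K) * w))
    (hE1 : ‖mm + xx‖ ≤ Cs * η * (M * w * (η * K * w)))
    (hE2 : ‖xx - X1 * (η * Rb)‖ ≤ M * w * ((τ + η * K) * w) * (η * K * w)) :
    ‖(η * X1 * X2 * Rb + mm * F * (1 + b)) / (η * X1 * X2)‖
      ≤ M ^ 4 * w * K * (7 * τ + 4 * (η * K) + 2 * (Cs * η)) := by
  have hM0 : 0 < M := by linarith
  have hηK0 : 0 ≤ η * K := by positivity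
  have n1 : ‖η * X1 * X2 * Rb + mm * F * (1 + b)‖
      ≤ M ^ 2 * w ^ 3 * (η * K) * (7 * τ + 4 * (η * K) + 2 * (Cs * η)) := by
    have e1 : η * X1 * X2 * Rb + mm * F * (1 + b)
        = -(X1 * (η * Rb) * ((F - X2) * (1 + b) + X2 * b))
          + ((mm + xx) - (xx - X1 * (η * Rb))) * F * (1 + b) := by ring
    rw [e1]
    have t1 : ‖-(X1 * (η * Rb) * ((F - X2) * (1 + b) + X2 * b))‖
        ≤ (M * w) * (η * K * w) * (M * w * ((2 * τ + η * K) * w) * 2 + (M * w) * τ) := by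
      rw [norm_neg, norm_mul, norm_mul]
      have : ‖(F - X2) * (1 + b) + X2 * b‖ ≤ M * w * ((2 * τ + η * K) * w) * 2 + (M * w) * τ := by
        refine norm_add_le_of_le ?_ ?_
        · rw [norm_mul]; gcongr
        · rw [norm_mul]; gcongr
      gcongr
    have t2 : ‖((mm + xx) - (xx - X1 * (η * Rb))) * F * (1 + b)‖
        ≤ (Cs * η * (M * w * (η * K * w)) + M * w * ((τ + η * K) * w) * (η * K * w)) * (M * w) * 2 := by
      rw [norm_mul, norm_mul]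
      have : ‖(mm + xx) - (xx - X1 * (η * Rb))‖
          ≤ Cs * η * (M * w * (η * K * w)) + M * w * ((τ + η * K) * w) * (η * K * w) :=
        norm_sub_le_of_le hE1 hE2
      gcongr
    refine (norm_add_le_of_le t1 t2).trans ?_
    have h4 : 0 ≤ M ^ 2 * (η * K) * (2 * (2 * τ + η * K) + 2 * (τ + η * K)) * (w ^ 3 - w ^ 4) :=
      mul_nonneg (by positivity) (sub_nonneg.2 hw43)
    have h5 : 0 ≤ M ^ 2 * (η * K) * w ^ 3 * (0 * τ) := by positivity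
    nlinarith [h4, h5]
  rw [norm_div, norm_mul, norm_mul, Complex.norm_real, Real.norm_of_nonneg hη.le,
    div_le_iff₀ (by positivity)]
  refine n1.trans ?_
  calc M ^ 2 * w ^ 3 * (η * K) * (7 * τ + 4 * (η * K) + 2 * (Cs * η))
      = (M ^ 2 * w * (η * K) * (7 * τ + 4 * (η * K) + 2 * (Cs * η))) * w ^ 2 := by ring
    _ ≤ (M ^ 2 * w * (η * K) * (7 * τ + 4 * (η * K) + 2 * (Cs * η))) *
        (M ^ 2 * (‖X1‖ * ‖X2‖)) := by gcongr
    _ = _ := by ring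

theorem P2_auxB (δ M w η K τ Cs : ℝ) (X1 X2 Sg G1 Gs v v0 ev : ℂ) (hδ : 0 < δ) (hM : 1 ≤ M) (hw0 : 0 < w)
    (hη : 0 < η) (hK : 0 ≤ K) (hτ : 0 ≤ τ) (hCs : 0 ≤ Cs) (hx1 : 0 < ‖X1‖) (hx2 : 0 < ‖X2‖)
    (hww : w ^ 2 ≤ M ^ 2 * (‖X1‖ * ‖X2‖)) (hw43 : w ^ 4 ≤ w ^ 3) (hw53 : w ^ 5 ≤ w ^ 3)
    (bXσ : ‖Sg‖ ≤ M * w)
    (hS1 : ‖Sg - X1‖ ≤ M * w * ((τ + η * K) * w))
    (hG : ‖Gs - G1‖ ≤ M * w ^ 3 * ((τ + η * K) * w))
    (hv : ‖v‖ ≤ M * w * (δ + 1)) (hv0 : ‖v0‖ ≤ M * w * (δ + 1))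
    (hvv : ‖v - v0‖ ≤ M * w * ((2 * τ + η * K) * w) + M * w * ((τ + η * K) * w))
    (hev : ‖ev - v ^ 2‖ ≤ Cs * η * ‖v‖ ^ 4) :
    ‖((3 * ev * Sg - Gs) - (3 * v0 ^ 2 * X1 - G1)) / (X1 * X2)‖
      ≤ M ^ 2 * w * (3 * Cs * M ^ 5 * (δ + 1) ^ 4 + 18 * M ^ 3 * (δ + 1)
        + 3 * M ^ 3 * (δ + 1) ^ 2 + M) * (τ + η * (1 + K)) := by
  have hM0 : 0 < M := by linarith
  have hηK0 : 0 ≤ η * K := by positivity
  have n2 : ‖(3 * ev * Sg - Gs) - (3 * v0 ^ 2 * X1 - G1)‖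
      ≤ w ^ 3 * (3 * Cs * M ^ 5 * (δ + 1) ^ 4 + 18 * M ^ 3 * (δ + 1)
        + 3 * M ^ 3 * (δ + 1) ^ 2 + M) * (τ + η * (1 + K)) := by
    have e1 : (3 * ev * Sg - Gs) - (3 * v0 ^ 2 * X1 - G1)
        = 3 * (ev - v ^ 2) * Sg + 3 * ((v - v0) * (v + v0)) * Sg + 3 * v0 ^ 2 * (Sg - X1)
          - (Gs - G1) := by ring
    rw [e1]
    have c3 : ‖(3 : ℂ)‖ = 3 := by norm_num
    have t1 : ‖3 * (ev - v ^ 2) * Sg‖ ≤ 3 * (Cs * η * (M * w * (δ + 1)) ^ 4) * (M * w) := by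
      rw [norm_mul, norm_mul, c3]
      have : ‖ev - v ^ 2‖ ≤ Cs * η * (M * w * (δ + 1)) ^ 4 := hev.trans (by gcongr)
      gcongr
    have t2 : ‖3 * ((v - v0) * (v + v0)) * Sg‖
        ≤ 3 * ((M * w * ((2 * τ + η * K) * w) + M * w * ((τ + η * K) * w)) *
          (M * w * (δ + 1) + M * w * (δ + 1))) * (M * w) := by
      rw [norm_mul, norm_mul, norm_mul, c3]
      have : ‖v + v0‖ ≤ M * w * (δ + 1) + M * w * (δ + 1) := norm_add_le_of_le hv hv0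
      gcongr
    have t3 : ‖3 * v0 ^ 2 * (Sg - X1)‖ ≤ 3 * (M * w * (δ + 1)) ^ 2 * (M * w * ((τ + η * K) * w)) := by
      rw [norm_mul, norm_mul, c3, norm_pow]
      gcongr
    refine (norm_sub_le_of_le (norm_add_le_of_le (norm_add_le_of_le t1 t2) t3) hG).trans ?_
    have r1 : 3 * (Cs * η * (M * w * (δ + 1)) ^ 4) * (M * w)
        ≤ w ^ 3 * (3 * Cs * M ^ 5 * (δ + 1) ^ 4) * (τ + η * (1 + K)) := by
      calc 3 * (Cs * η * (M * w * (δ + 1)) ^ 4) * (M * w)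
          = w ^ 5 * (3 * Cs * M ^ 5 * (δ + 1) ^ 4) * η := by ring
        _ ≤ w ^ 3 * (3 * Cs * M ^ 5 * (δ + 1) ^ 4) * (τ + η * (1 + K)) := by
            gcongr
            nlinarith
    have r2 : 3 * ((M * w * ((2 * τ + η * K) * w) + M * w * ((τ + η * K) * w)) *
          (M * w * (δ + 1) + M * w * (δ + 1))) * (M * w)
        ≤ w ^ 3 * (18 * M ^ 3 * (δ + 1)) * (τ + η * (1 + K)) := by
      calc 3 * ((M * w * ((2 * τ + η * K) * w) + M * w * ((τ + η * K) * w)) *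
          (M * w * (δ + 1) + M * w * (δ + 1))) * (M * w)
          = w ^ 4 * (18 * M ^ 3 * (δ + 1)) * ((3 * τ + 2 * (η * K)) / 3) := by ring
        _ ≤ w ^ 3 * (18 * M ^ 3 * (δ + 1)) * (τ + η * (1 + K)) := by
            gcongr
            nlinarith
    have r3 : 3 * (M * w * (δ + 1)) ^ 2 * (M * w * ((τ + η * K) * w))
        ≤ w ^ 3 * (3 * M ^ 3 * (δ + 1) ^ 2) * (τ + η * (1 + K)) := by
      calc 3 * (M * w * (δ + 1)) ^ 2 * (M * w * ((τ + η * K) * w))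
          = w ^ 4 * (3 * M ^ 3 * (δ + 1) ^ 2) * (τ + η * K) := by ring
        _ ≤ w ^ 3 * (3 * M ^ 3 * (δ + 1) ^ 2) * (τ + η * (1 + K)) := by
            gcongr
            linarith
    have r4 : M * w ^ 3 * ((τ + η * K) * w) ≤ w ^ 3 * M * (τ + η * (1 + K)) := by
      calc M * w ^ 3 * ((τ + η * K) * w) = w ^ 4 * M * (τ + η * K) := by ring
        _ ≤ w ^ 3 * M * (τ + η * (1 + K)) := by
            gcongr
            linarith
    calc _ ≤ w ^ 3 * (3 * Cs * M ^ 5 * (δ + 1) ^ 4) * (τ + η * (1 + K))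
          + w ^ 3 * (18 * M ^ 3 * (δ + 1)) * (τ + η * (1 + K))
          + w ^ 3 * (3 * M ^ 3 * (δ + 1) ^ 2) * (τ + η * (1 + K))
          + w ^ 3 * M * (τ + η * (1 + K)) := add_le_add (add_le_add (add_le_add r1 r2) r3) r4
      _ = _ := by ring
  rw [norm_div, norm_mul, div_le_iff₀ (by positivity)]
  refine n2.trans ?_
  generalize hQ : 3 * Cs * M ^ 5 * (δ + 1) ^ 4 + 18 * M ^ 3 * (δ + 1)
      + 3 * M ^ 3 * (δ + 1) ^ 2 + M = Q
  have hQ0 : 0 ≤ Q := by rw [← hQ]; positivity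
  calc w ^ 3 * Q * (τ + η * (1 + K)) = (w * Q * (τ + η * (1 + K))) * w ^ 2 := by ring
    _ ≤ (w * Q * (τ + η * (1 + K))) * (M ^ 2 * (‖X1‖ * ‖X2‖)) := by gcongr
    _ = _ := by ring

theorem P2_auxC (δ M w η K τ Cs : ℝ) (hδ : 0 < δ) (hM : 1 ≤ M) (hw0 : 0 < w)
    (hη : 0 < η) (hK : 0 ≤ K) (hτ : 0 ≤ τ) (hCs : 0 ≤ Cs) :
    M ^ 4 * w * K * (7 * τ + 4 * (η * K) + 2 * (Cs * η)) +
      M ^ 2 * w * (3 * Cs * M ^ 5 * (δ + 1) ^ 4 + 18 * M ^ 3 * (δ + 1)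
        + 3 * M ^ 3 * (δ + 1) ^ 2 + M) * (τ + η * (1 + K)) ≤
    (M ^ 4 * (7 + 2 * Cs) + M ^ 2 * (3 * Cs * M ^ 5 * (δ + 1) ^ 4 + 18 * M ^ 3 * (δ + 1)
    + 3 * M ^ 3 * (δ + 1) ^ 2 + M)) * (1 + K) * (τ + η * (1 + K)) * w := by
  have hM0 : 0 < M := by linarith
  have hηK0 : 0 ≤ η * K := by positivity
  generalize hQ : 3 * Cs * M ^ 5 * (δ + 1) ^ 4 + 18 * M ^ 3 * (δ + 1)
        + 3 * M ^ 3 * (δ + 1) ^ 2 + M = Q
  have hQ0 : 0 ≤ Q := by rw [← hQ]; positivity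
  have t0 : 0 ≤ τ + η * (1 + K) := by positivity
  have u1 : K * (7 * τ + 4 * (η * K) + 2 * (Cs * η)) ≤ (1 + K) * ((7 + 2 * Cs) * (τ + η * (1 + K))) := by
    have : 7 * τ + 4 * (η * K) + 2 * (Cs * η) ≤ (7 + 2 * Cs) * (τ + η * (1 + K)) := by
      have a1 : 0 ≤ Cs * τ := by positivity
      have a2 : 0 ≤ Cs * (η * K) := by positivity
      nlinarith
    have h7 : 0 ≤ 7 * τ + 4 * (η * K) + 2 * (Cs * η) := by positivity
    exact mul_le_mul (by linarith) this h7 (by linarith)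
  have u2 : Q * (τ + η * (1 + K)) ≤ (1 + K) * (Q * (τ + η * (1 + K))) := by
    have : 0 ≤ Q * (τ + η * (1 + K)) := by positivity
    nlinarith
  calc M ^ 4 * w * K * (7 * τ + 4 * (η * K) + 2 * (Cs * η)) + M ^ 2 * w * Q * (τ + η * (1 + K))
      = (M ^ 4 * w) * (K * (7 * τ + 4 * (η * K) + 2 * (Cs * η)))
        + (M ^ 2 * w) * (Q * (τ + η * (1 + K))) := by ring
    _ ≤ (M ^ 4 * w) * ((1 + K) * ((7 + 2 * Cs) * (τ + η * (1 + K))))
        + (M ^ 2 * w) * ((1 + K) * (Q * (τ + η * (1 + K)))) := by gcongr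
    _ = _ := by ring

theorem P2 (δ h M V Cs : ℝ) (hδ : 0 < δ) (hh : 0 < h) (hM : 1 ≤ M) (hCs : 0 ≤ Cs) :
    ∃ C₂ > 0, ∀ (X G m e Pi : ℂ → ℂ) (η : ℝ) (s : ℂ), s ∈ Strip (h / 2) → Loc δ h M V X G s →
      0 < η → η ≤ 1 → Small V Cs η m e Pi → ∀ (K τ : ℝ) (y Rb a b : ℂ), 0 ≤ K →
      0 ≤ τ → τ ≤ kap h / 2 → η * K ≤ kap h / 2 →
      ‖y - (s + δ)‖ ≤ τ * om s → ‖Rb‖ ≤ K * om s → ‖a‖ ≤ τ * om s → ‖b‖ ≤ τ →
      ‖Rb + Nv X G m e δ η y (y + η * Rb) a b / (η * deriv X (s + δ) * deriv X (s + 2 * δ))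
          - R0 X G δ s‖ ≤ C₂ * (1 + K) * (τ + η * (1 + K)) * om s := by
  have hM0 : 0 < M := by linarith
  refine ⟨M ^ 4 * (7 + 2 * Cs) + M ^ 2 * (3 * Cs * M ^ 5 * (δ + 1) ^ 4 + 18 * M ^ 3 * (δ + 1)
    + 3 * M ^ 3 * (δ + 1) ^ 2 + M), by positivity, ?_⟩
  intro X G m e Pi η s hs L hη hη1 S K τ y Rb a b hK hτ hτk hηK hy hRb ha hb
  have hw0 : 0 < om s := Real.exp_pos _
  have hw1 : om s ≤ 1 := by
    rw [om, Real.exp_le_one_iff]; exact neg_nonpos.2 (abs_nonneg _)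
  generalize hw : om s = w at *
  have hk1 : kap h ≤ h / 8 := min_le_left _ _
  have hk2 : kap h ≤ 1 / 2 := min_le_right _ _
  have hk0 : 0 < kap h := lt_min (by positivity) (by norm_num)
  have hNb : ∀ (j : ℝ) (z : ℂ), 0 ≤ j → j ≤ 2 → ‖z - (s + (j : ℂ) * (δ : ℂ))‖ ≤ 3 / 2 * kap h →
      z ∈ Nb δ h s := by
    intro j z hj0 hj2 hz
    have h1 := (Complex.abs_im_le_norm (z - (s + (j : ℂ) * (δ : ℂ)))).trans hz
    have h2 := (Complex.abs_re_le_norm (z - (s + (j : ℂ) * (δ : ℂ)))).trans hz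
    have e1 : (z - (s + (j : ℂ) * (δ : ℂ))).im = z.im - s.im := by simp
    have e2 : (z - (s + (j : ℂ) * (δ : ℂ))).re = z.re - s.re - j * δ := by simp; ring
    rw [e1] at h1
    rw [e2] at h2
    have hs' : |s.im| < h / 2 := hs
    rw [abs_le] at h1 h2
    rw [abs_lt] at hs'
    have hjδ : j * δ ≤ 2 * δ := by nlinarith
    have hjδ0 : 0 ≤ j * δ := by positivity
    refine ⟨?_, ?_⟩
    · rw [abs_lt]; constructor <;> linarith
    · rw [abs_le]; constructor <;> linarith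
  have hN1 : ∀ z, ‖z - (s + δ)‖ ≤ 3 / 2 * kap h → z ∈ Nb δ h s := by
    intro z hz; exact hNb 1 z (by norm_num) (by norm_num) (by simpa using hz)
  have hN2 : ∀ z, ‖z - (s + 2 * δ)‖ ≤ 3 / 2 * kap h → z ∈ Nb δ h s := by
    intro z hz; exact hNb 2 z (by norm_num) (by norm_num) (by simpa using hz)
  have hηK0 : 0 ≤ η * K := by positivity
  have hσy' : ‖(η : ℂ) * Rb‖ ≤ η * K * w := by
    rw [norm_mul, Complex.norm_real, Real.norm_of_nonneg hη.le]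
    calc η * ‖Rb‖ ≤ η * (K * w) := by gcongr
      _ = η * K * w := by ring
  have hσy : ‖(y + η * Rb) - y‖ ≤ η * K * w := by rwa [add_sub_cancel_left]
  have hσ : ‖(y + η * Rb) - (s + δ)‖ ≤ (τ + η * K) * w := by
    calc ‖(y + η * Rb) - (s + δ)‖ = ‖(y - (s + δ)) + η * Rb‖ := by ring_nf
      _ ≤ τ * w + η * K * w := norm_add_le_of_le hy hσy'
      _ = (τ + η * K) * w := by ring
  have hRbdef : (η : ℂ) * Rb = (y + η * Rb) - y := by ring
  generalize hσdef : y + (η : ℂ) * Rb = σ at *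
  have hf : ‖(σ + δ + a) - (s + 2 * δ)‖ ≤ (2 * τ + η * K) * w := by
    calc ‖(σ + δ + a) - (s + 2 * δ)‖ = ‖(σ - (s + δ)) + a‖ := by ring_nf
      _ ≤ (τ + η * K) * w + τ * w := norm_add_le_of_le hσ ha
      _ = (2 * τ + η * K) * w := by ring
  have hfσ : ‖(σ + δ + a) - σ‖ ≤ δ + 1 := by
    calc ‖(σ + δ + a) - σ‖ = ‖(δ : ℂ) + a‖ := by ring_nf
      _ ≤ δ + τ * w := norm_add_le_of_le (by rw [Complex.norm_real, Real.norm_of_nonneg hδ.le]) ha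
      _ ≤ δ + 1 := by
          have : τ * w ≤ 1 * 1 := by
            apply mul_le_mul _ hw1 hw0.le (by norm_num)
            linarith
          linarith
  unfold Nv R0
  generalize hfdef : σ + δ + a = f at *
  have hTw : (τ + η * K) * w ≤ 3 / 2 * kap h := by
    calc (τ + η * K) * w ≤ (τ + η * K) * 1 := by gcongr
      _ ≤ 3 / 2 * kap h := by linarith
  have hσN : σ ∈ Nb δ h s := hN1 _ (hσ.trans hTw)
  have hyN : y ∈ Nb δ h s := hN1 _ (hy.trans (le_trans (by gcongr; linarith) hTw))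
  have hfN : f ∈ Nb δ h s := by
    refine hN2 _ (hf.trans ?_)
    calc (2 * τ + η * K) * w ≤ (2 * τ + η * K) * 1 := by gcongr
      _ ≤ 3 / 2 * kap h := by linarith
  have hp1 : (s + δ : ℂ) ∈ Nb δ h s := hN1 _ (by rw [sub_self, norm_zero]; positivity)
  have hp2 : (s + 2 * δ : ℂ) ∈ Nb δ h s := hN2 _ (by rw [sub_self, norm_zero]; positivity)
  have lX1 := L.lX1 _ hp1
  have lX2 := L.lX1 _ hp2
  have bX1 := L.bX1 _ hp1
  have bX2 := L.bX1 _ hp2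
  have bXf := L.bX1 _ hfN
  have bXσ := L.bX1 _ hσN
  -- mean value (ii)
  have hE2 : ‖(X σ - X y) - deriv X (s + δ) * (η * Rb)‖ ≤ M * w * ((τ + η * K) * w) * (η * K * w) := by
    have hball : ∀ z ∈ closedBall (s + δ : ℂ) ((τ + η * K) * w), z ∈ Nb δ h s := by
      intro z hz
      rw [mem_closedBall, dist_eq_norm] at hz
      exact hN1 z (hz.trans hTw)
    have hyb : y ∈ closedBall (s + δ : ℂ) ((τ + η * K) * w) := by
      rw [mem_closedBall, dist_eq_norm]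
      exact hy.trans (by gcongr; linarith)
    have hσb : σ ∈ closedBall (s + δ : ℂ) ((τ + η * K) * w) := by
      rw [mem_closedBall, dist_eq_norm]
      exact hσ
    have hmv := Convex.norm_image_sub_le_of_norm_hasDerivWithin_le
      (f := fun z => X z - deriv X (s + δ) * z) (f' := fun z => deriv X z - deriv X (s + δ) * 1)
      (s := closedBall (s + δ : ℂ) ((τ + η * K) * w)) (x := y) (y := σ)
      (C := M * w * ((τ + η * K) * w))
      (fun z hz => ((L.dX z (hball z hz)).sub ((hasDerivAt_id z).const_mul _)).hasDerivWithinAt)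
      (fun z hz => by
        rw [mul_one]
        refine (L.l1 z (hball z hz) _ hp1).trans ?_
        rw [hw]
        rw [mem_closedBall, dist_eq_norm] at hz
        gcongr) (convex_closedBall _ _) hyb hσb
    have e1 : (X σ - X y) - deriv X (s + δ) * (η * Rb)
        = (X σ - deriv X (s + δ) * σ) - (X y - deriv X (s + δ) * y) := by
      rw [hRbdef]; ring
    rw [e1]
    refine hmv.trans ?_
    gcongr
  have l0a := L.l0 _ hσN _ hyN
  have l0b := L.l0 _ hfN _ hσN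
  have l0c := L.l0 _ hp2 _ hp1
  have l0d := L.l0 _ hfN _ hp2
  have l0e := L.l0 _ hσN _ hp1
  have l1a := L.l1 _ hfN _ hp2
  have l1b := L.l1 _ hσN _ hp1
  have l2a := L.l2 _ hσN _ hp1
  rw [hw] at l0a l0b l0c l0d l0e l1a l1b l2a lX1 lX2 bX1 bX2 bXf bXσ
  have hvV : X f - X σ ∈ ball (0 : ℂ) V := by
    rw [mem_ball_zero_iff]; exact L.hV _ hfN _ hσN
  have hv'V : X f - X y ∈ ball (0 : ℂ) V := by
    rw [mem_ball_zero_iff]; exact L.hV _ hfN _ hyN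
  -- mean value (i)
  have hE1 : ‖(m (X f - X σ) - m (X f - X y)) + (X σ - X y)‖ ≤ Cs * η * (M * w * (η * K * w)) := by
    have hmv := Convex.norm_image_sub_le_of_norm_hasDerivWithin_le
      (f := fun z => m z - z) (f' := fun z => deriv m z - 1)
      (s := ball (0 : ℂ) V) (x := X f - X y) (y := X f - X σ) (C := Cs * η)
      (fun z hz => (((S.dm.differentiableAt (isOpen_ball.mem_nhds hz)).hasDerivAt).sub
        (hasDerivAt_id z)).hasDerivWithinAt)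
      (fun z hz => S.bm z hz) (convex_ball _ _) hv'V hvV
    have e1 : (m (X f - X σ) - m (X f - X y)) + (X σ - X y)
        = (m (X f - X σ) - (X f - X σ)) - (m (X f - X y) - (X f - X y)) := by ring
    rw [e1]
    refine hmv.trans ?_
    have e2 : ‖(X f - X σ) - (X f - X y)‖ = ‖X σ - X y‖ := by
      rw [← norm_neg]; ring_nf
    rw [e2]
    have : ‖X σ - X y‖ ≤ M * w * (η * K * w) := l0a.trans (by gcongr)
    gcongr
  -- abstract the values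
  have hF : ‖deriv X f - deriv X (s + 2 * δ)‖ ≤ M * w * ((2 * τ + η * K) * w) :=
    l1a.trans (by gcongr)
  have hS1 : ‖deriv X σ - deriv X (s + δ)‖ ≤ M * w * ((τ + η * K) * w) := l1b.trans (by gcongr)
  have hG : ‖deriv G σ - deriv G (s + δ)‖ ≤ M * w ^ 3 * ((τ + η * K) * w) := l2a.trans (by gcongr)
  have hv : ‖X f - X σ‖ ≤ M * w * (δ + 1) := l0b.trans (by gcongr)
  have hv0 : ‖X (s + 2 * δ) - X (s + δ)‖ ≤ M * w * (δ + 1) := by
    refine l0c.trans ?_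
    have : ‖(s + 2 * δ : ℂ) - (s + δ)‖ = δ := by
      rw [show (s + 2 * δ : ℂ) - (s + δ) = (δ : ℂ) by ring, Complex.norm_real,
        Real.norm_of_nonneg hδ.le]
    rw [this]
    gcongr
    linarith
  have hvv : ‖(X f - X σ) - (X (s + 2 * δ) - X (s + δ))‖
      ≤ M * w * ((2 * τ + η * K) * w) + M * w * ((τ + η * K) * w) := by
    have e1 : (X f - X σ) - (X (s + 2 * δ) - X (s + δ))
        = (X f - X (s + 2 * δ)) - (X σ - X (s + δ)) := by ring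
    rw [e1]
    refine norm_sub_le_of_le (l0d.trans ?_) (l0e.trans ?_)
    · gcongr
    · gcongr
  have hev := S.be _ hvV
  have hτ1 : τ ≤ 1 := by linarith
  have h1b : ‖1 + b‖ ≤ 2 := by
    refine (norm_add_le _ _).trans ?_
    rw [norm_one]; linarith
  clear l0a l0b l0c l0d l0e l1a l1b l2a
  generalize hX1 : deriv X (s + δ) = X1 at *
  generalize hX2 : deriv X (s + 2 * δ) = X2 at *
  generalize hFf : deriv X f = F at *
  generalize hSs : deriv X σ = Sg at *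
  generalize hG1 : deriv G (s + δ) = G1 at *
  generalize hGs : deriv G σ = Gs at *
  generalize hvd : X f - X σ = v at *
  generalize hv0d : X (s + 2 * δ) - X (s + δ) = v0 at *
  generalize hmd : m v - m (X f - X y) = mm at *
  generalize hxd : X σ - X y = xx at *
  generalize hed : e v = ev at *
  have hx1 : 0 < ‖X1‖ := by
    rcases eq_or_lt_of_le (norm_nonneg X1) with h0 | h0
    · rw [← h0, mul_zero] at lX1; linarith
    · exact h0
  have hx2 : 0 < ‖X2‖ := by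
    rcases eq_or_lt_of_le (norm_nonneg X2) with h0 | h0
    · rw [← h0, mul_zero] at lX2; linarith
    · exact h0
  have hX1n : X1 ≠ 0 := norm_pos_iff.1 hx1
  have hX2n : X2 ≠ 0 := norm_pos_iff.1 hx2
  have hηn : (η : ℂ) ≠ 0 := by exact_mod_cast hη.ne'
  have hww : w ^ 2 ≤ M ^ 2 * (‖X1‖ * ‖X2‖) := by
    calc w ^ 2 = w * w := by ring
      _ ≤ (M * ‖X1‖) * (M * ‖X2‖) := mul_le_mul lX1 lX2 hw0.le (by positivity)
      _ = _ := by ring
  have hw43 : w ^ 4 ≤ w ^ 3 := pow_le_pow_of_le_one hw0.le hw1 (by norm_num)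
  have hw53 : w ^ 5 ≤ w ^ 3 := pow_le_pow_of_le_one hw0.le hw1 (by norm_num)
  have key : Rb + (η * (3 * ev * Sg - Gs) + mm * F * (1 + b)) / (η * X1 * X2)
      - (3 * v0 ^ 2 * X1 - G1) / (X1 * X2)
      = (η * X1 * X2 * Rb + mm * F * (1 + b)) / (η * X1 * X2)
        + ((3 * ev * Sg - Gs) - (3 * v0 ^ 2 * X1 - G1)) / (X1 * X2) := by
    field_simp
    ring
  rw [key]
  have q1 := P2_auxA M w η K τ Cs Rb b X1 X2 F mm xx hM hw0 hw1 hη hK hτ hCs hx1 hx2 hww hw43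
    hσy' h1b hb bX1 bX2 bXf hF hE1 hE2
  have q2 := P2_auxB δ M w η K τ Cs X1 X2 Sg G1 Gs v v0 ev hδ hM hw0 hη hK hτ hCs hx1 hx2 hww hw43
    hw53 bXσ hS1 hG hv hv0 hvv hev
  exact (norm_add_le_of_le q1 q2).trans (P2_auxC δ M w η K τ Cs hδ hM hw0 hη hK hτ hCs)

end TC
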