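import Mathlib
import Pool.Agent.Helper822.TC.Defs

set_option autoImplicit false

open Complex Set Metric

namespace TC



theorem om_bounds7448 (z : ℂ) : 0 < om z ∧ om z ≤ 1 := by
  unfold om
  refine ⟨Real.exp_pos _, ?_⟩
  rw [Real.exp_le_one_iff]
  linarith [abs_nonneg z.re]

theorem mem_Nb7448 {δ h : ℝ} (hδ : 0 < δ) (hh : 0 < h) {s ζ : ℂ} (hs : s ∈ Strip (h / 2))
    (hζ : ‖ζ‖ ≤ kap h) : s + δ + ζ ∈ Nb δ h s := by
  have h1 : |ζ.im| ≤ h / 8 := (Complex.abs_im_le_norm ζ).trans (hζ.trans (min_le_left _ _))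
  have h2 : |ζ.re| ≤ 1 / 2 := (Complex.abs_re_le_norm ζ).trans (hζ.trans (min_le_right _ _))
  have h3 : |s.im| < h / 2 := hs
  rw [abs_le] at h1 h2
  rw [abs_lt] at h3
  constructor
  · rw [abs_lt]
    simp only [Complex.add_im, Complex.ofReal_im]
    constructor <;> linarith [h1.1, h1.2, h3.1, h3.2]
  · rw [abs_le]
    simp only [Complex.add_re, Complex.ofReal_re]
    constructor <;> linarith [h2.1, h2.2]

theorem Pi_bound7448 {V Cs η : ℝ} {m e Pi : ℂ → ℂ} (hη : 0 < η) (hCs : 0 ≤ Cs)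
    (hS : Small V Cs η m e Pi) (v : ℂ) (hv : ‖v‖ < V) :
    ‖Pi v - v ^ 3‖ ≤ 3 * Cs * η * ‖v‖ ^ 5 := by
  have hsub : ∀ u ∈ closedBall (0 : ℂ) ‖v‖, u ∈ ball (0 : ℂ) V := by
    intro u hu
    rw [mem_closedBall_zero_iff] at hu
    rw [mem_ball_zero_iff]
    linarith
  have h1 := Convex.norm_image_sub_le_of_norm_hasDerivWithin_le
    (f := fun u : ℂ => Pi u - u ^ 3) (f' := fun u => 3 * e u - 3 * u ^ 2)
    (s := closedBall (0 : ℂ) ‖v‖) (x := 0) (y := v) (C := 3 * Cs * η * ‖v‖ ^ 4)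
    (by
      intro u hu
      have h2 : HasDerivAt (fun u : ℂ => u ^ 3) (3 * u ^ 2) u := by
        simpa using hasDerivAt_pow 3 u
      exact ((hS.dPi u (hsub u hu)).sub h2).hasDerivWithinAt)
    (by
      intro u hu
      have h2 := hS.be u (hsub u hu)
      rw [mem_closedBall_zero_iff] at hu
      have h3 : 3 * e u - 3 * u ^ 2 = 3 * (e u - u ^ 2) := by ring
      rw [h3, norm_mul]
      have h4 : ‖(3 : ℂ)‖ = 3 := by simp
      rw [h4]
      have h5 : ‖u‖ ^ 4 ≤ ‖v‖ ^ 4 := pow_le_pow_left₀ (norm_nonneg _) hu 4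
      have h6 : Cs * η * ‖u‖ ^ 4 ≤ Cs * η * ‖v‖ ^ 4 :=
        mul_le_mul_of_nonneg_left h5 (by positivity)
      linarith)
    (convex_closedBall _ _) (by simp) (by simp)
  simp only [hS.Pi0, sub_zero] at h1
  have h2 : Pi v - v ^ 3 - (0 - (0 : ℂ) ^ 3) = Pi v - v ^ 3 := by ring
  rw [h2] at h1
  refine h1.trans (le_of_eq ?_)
  ring

theorem Q_bound7448 {δ h M V : ℝ} {X G : ℂ → ℂ} {s : ℂ} (hδ : 0 < δ) (hh : 0 < h) (hM : 1 ≤ M)
    (hs : s ∈ Strip (h / 2)) (hL : Loc δ h M V X G s) (p : ℂ) (hp : ‖p‖ ≤ kap h * om s) :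
    ‖((X (s + δ + p) - X s) ^ 3 - G (s + δ + p) + G s) - DD X G δ s * p‖ ≤
      ((3 * M ^ 3 * (2 * (δ + 1) + (δ + 1) ^ 2) + M) * om s ^ 3 * ‖p‖) * ‖p‖ := by
  obtain ⟨hw0, hw1⟩ := om_bounds7448 s
  have hk0 : 0 < kap h := by unfold kap; exact lt_min (by linarith) (by norm_num)
  have hk1 : kap h ≤ 1 / 2 := min_le_right _ _
  have hpk : ‖p‖ ≤ kap h := hp.trans (mul_le_of_le_one_right hk0.le hw1)
  have hmem : ∀ ζ ∈ closedBall (0 : ℂ) ‖p‖, s + δ + ζ ∈ Nb δ h s := by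
    intro ζ hζ
    rw [mem_closedBall_zero_iff] at hζ
    exact mem_Nb7448 hδ hh hs (hζ.trans hpk)
  have hsN : s ∈ Nb δ h s := by
    constructor
    · have : |s.im| < h / 2 := hs
      linarith
    · rw [sub_self, abs_zero]; linarith
  have hsd : s + δ ∈ Nb δ h s := by
    have := mem_Nb7448 (ζ := 0) hδ hh hs (by rw [norm_zero]; exact hk0.le)
    simpa using this
  have hdn : ‖(δ : ℂ)‖ = δ := by rw [Complex.norm_real, Real.norm_eq_abs, abs_of_pos hδ]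
  have h1 := Convex.norm_image_sub_le_of_norm_hasDerivWithin_le
    (f := fun ζ : ℂ => ((X (s + δ + ζ) - X s) ^ 3 - G (s + δ + ζ) + G s) - DD X G δ s * ζ)
    (f' := fun ζ => (3 * (X (s + δ + ζ) - X s) ^ 2 * deriv X (s + δ + ζ) - deriv G (s + δ + ζ)) -
      DD X G δ s)
    (s := closedBall (0 : ℂ) ‖p‖) (x := 0) (y := p)
    (C := (3 * M ^ 3 * (2 * (δ + 1) + (δ + 1) ^ 2) + M) * om s ^ 3 * ‖p‖)
    (by
      intro ζ hζ
      have dX : HasDerivAt (fun ζ : ℂ => X (s + δ + ζ)) (deriv X (s + δ + ζ)) ζ :=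
        HasDerivAt.comp_const_add (s + δ) ζ (hL.dX _ (hmem ζ hζ))
      have dG : HasDerivAt (fun ζ : ℂ => G (s + δ + ζ)) (deriv G (s + δ + ζ)) ζ :=
        HasDerivAt.comp_const_add (s + δ) ζ (hL.dG _ (hmem ζ hζ))
      have d1 := (((dX.sub_const (X s)).pow 3).sub dG).add_const (G s)
      have d2 : HasDerivAt (fun ζ : ℂ => DD X G δ s * ζ) (DD X G δ s) ζ := by
        simpa using (hasDerivAt_id ζ).const_mul (DD X G δ s)
      refine ((d1.sub d2).congr_deriv ?_).hasDerivWithinAt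
      norm_num)
    (by
      intro ζ hζ
      have hN := hmem ζ hζ
      rw [mem_closedBall_zero_iff] at hζ
      have hζ1 : ‖ζ‖ ≤ 1 := by linarith
      obtain ⟨A, hA⟩ : ∃ A, A = X (s + δ + ζ) - X s := ⟨_, rfl⟩
      obtain ⟨A0, hA0⟩ : ∃ A, A = X (s + δ) - X s := ⟨_, rfl⟩
      obtain ⟨B, hB⟩ : ∃ B, B = deriv X (s + δ + ζ) := ⟨_, rfl⟩
      obtain ⟨B0, hB0⟩ : ∃ B, B = deriv X (s + δ) := ⟨_, rfl⟩
      obtain ⟨w, hw⟩ : ∃ w, w = om s := ⟨_, rfl⟩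
      have e1 : s + δ + ζ - (s + δ) = ζ := by ring
      have e2 : s + δ + ζ - s = δ + ζ := by ring
      have e3 : s + δ - s = (δ : ℂ) := by ring
      have b1 : ‖A - A0‖ ≤ M * w * ‖ζ‖ := by
        have h2 := hL.l0 _ hN _ hsd
        rw [e1] at h2
        have h3 : A - A0 = X (s + δ + ζ) - X (s + δ) := by rw [hA, hA0]; ring
        rw [h3, hw]; exact h2
      have b2 : ‖A‖ ≤ M * w * (δ + 1) := by
        have h2 := hL.l0 _ hN _ hsN
        rw [e2] at h2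
        rw [hA, hw]
        refine h2.trans (mul_le_mul_of_nonneg_left ?_ (by positivity))
        refine (norm_add_le _ _).trans ?_
        rw [hdn]; linarith
      have b3 : ‖A0‖ ≤ M * w * (δ + 1) := by
        have h2 := hL.l0 _ hsd _ hsN
        rw [e3, hdn] at h2
        rw [hA0, hw]
        refine h2.trans (mul_le_mul_of_nonneg_left ?_ (by positivity))
        linarith
      have b4 : ‖B‖ ≤ M * w := by rw [hB, hw]; exact hL.bX1 _ hN
      have b5 : ‖B - B0‖ ≤ M * w * ‖ζ‖ := by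
        have h2 := hL.l1 _ hN _ hsd
        rw [e1] at h2
        rw [hB, hB0, hw]; exact h2
      have b6 : ‖deriv G (s + δ + ζ) - deriv G (s + δ)‖ ≤ M * w ^ 3 * ‖ζ‖ := by
        have h2 := hL.l2 _ hN _ hsd
        rw [e1] at h2
        rw [hw]; exact h2
      have e4 : (3 * (X (s + δ + ζ) - X s) ^ 2 * deriv X (s + δ + ζ) - deriv G (s + δ + ζ)) -
          DD X G δ s = 3 * ((A - A0) * (A + A0) * B + A0 ^ 2 * (B - B0)) -
          (deriv G (s + δ + ζ) - deriv G (s + δ)) := by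
        unfold DD
        rw [← hA, ← hA0, ← hB, ← hB0]
        ring
      have hw0' : 0 < w := by rw [hw]; exact hw0
      have c1 : ‖A + A0‖ ≤ 2 * (M * w * (δ + 1)) := (norm_add_le _ _).trans (by linarith)
      have c2 : ‖(A - A0) * (A + A0) * B‖ ≤ (M * w * ‖ζ‖) * (2 * (M * w * (δ + 1))) * (M * w) := by
        rw [norm_mul, norm_mul]
        apply mul_le_mul _ b4 (norm_nonneg _) (by positivity)
        exact mul_le_mul b1 c1 (norm_nonneg _) (by positivity)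
      have c3 : ‖A0 ^ 2 * (B - B0)‖ ≤ (M * w * (δ + 1)) ^ 2 * (M * w * ‖ζ‖) := by
        rw [norm_mul, norm_pow]
        apply mul_le_mul _ b5 (norm_nonneg _) (by positivity)
        exact pow_le_pow_left₀ (norm_nonneg _) b3 2
      rw [e4, ← hw]
      refine (norm_sub_le _ _).trans ?_
      rw [norm_mul]
      have h4 : ‖(3 : ℂ)‖ = 3 := by simp
      rw [h4]
      have c4 : ‖(A - A0) * (A + A0) * B + A0 ^ 2 * (B - B0)‖ ≤
          (M * w * ‖ζ‖) * (2 * (M * w * (δ + 1))) * (M * w) +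
          (M * w * (δ + 1)) ^ 2 * (M * w * ‖ζ‖) := (norm_add_le _ _).trans (by linarith)
      have c5 : (3 * M ^ 3 * (2 * (δ + 1) + (δ + 1) ^ 2) + M) * w ^ 3 * ‖ζ‖ ≤
          (3 * M ^ 3 * (2 * (δ + 1) + (δ + 1) ^ 2) + M) * w ^ 3 * ‖p‖ :=
        mul_le_mul_of_nonneg_left hζ (by positivity)
      refine le_trans ?_ c5
      linarith)
    (convex_closedBall _ _) (by simp) (by simp)
  simp only [add_zero, mul_zero, sub_zero] at h1
  have h2 : (X (s + δ) - X s) ^ 3 - G (s + δ) + G s = 0 := by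
    rw [← hL.ident]; ring
  rw [h2, sub_zero] at h1
  exact h1

theorem P3 (δ h M V Cs : ℝ) (hδ : 0 < δ) (hh : 0 < h) (hM : 1 ≤ M) (hCs : 0 ≤ Cs) :
    ∃ C₃ > 0, ∀ (X G m e Pi : ℂ → ℂ) (η : ℝ) (s : ℂ), s ∈ Strip (h / 2) → Loc δ h M V X G s →
      0 < η → η ≤ 1 → Small V Cs η m e Pi → ∀ (p : ℂ), ‖p‖ ≤ kap h * om s →
      ‖p - (Pi (X (s + δ + p) - X s) - G (s + δ + p) + G s) / DD X G δ s‖
        ≤ C₃ * (‖p‖ ^ 2 + η * om s ^ 2) := by
  obtain ⟨C0, hC0⟩ : ∃ C0 : ℝ, C0 = 3 * M ^ 3 * (2 * (δ + 1) + (δ + 1) ^ 2) + M := ⟨_, rfl⟩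
  have hC0p : 0 < C0 := by rw [hC0]; positivity
  obtain ⟨C1, hC1⟩ : ∃ C1 : ℝ, C1 = 3 * Cs * (M * (δ + 1)) ^ 5 := ⟨_, rfl⟩
  have hC1p : 0 ≤ C1 := by rw [hC1]; positivity
  refine ⟨M * (C0 + C1), by positivity, ?_⟩
  intro X G m e Pi η s hs hL hη hη1 hS p hp
  obtain ⟨hw0, hw1⟩ := om_bounds7448 s
  have hk0 : 0 < kap h := by unfold kap; exact lt_min (by linarith) (by norm_num)
  have hk1 : kap h ≤ 1 / 2 := min_le_right _ _
  have hpk : ‖p‖ ≤ kap h := hp.trans (mul_le_of_le_one_right hk0.le hw1)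
  have hN : s + δ + p ∈ Nb δ h s := mem_Nb7448 hδ hh hs hpk
  have hsN : s ∈ Nb δ h s := by
    constructor
    · have : |s.im| < h / 2 := hs
      linarith
    · rw [sub_self, abs_zero]; linarith
  have hdn : ‖(δ : ℂ)‖ = δ := by rw [Complex.norm_real, Real.norm_eq_abs, abs_of_pos hδ]
  have hQ := Q_bound7448 hδ hh hM hs hL p hp
  rw [← hC0] at hQ
  obtain ⟨v, hv⟩ : ∃ v, v = X (s + δ + p) - X s := ⟨_, rfl⟩
  obtain ⟨w, hw⟩ : ∃ w, w = om s := ⟨_, rfl⟩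
  obtain ⟨D, hD⟩ : ∃ D, D = DD X G δ s := ⟨_, rfl⟩
  rw [← hw] at hw0 hw1
  have hvV : ‖v‖ < V := by rw [hv]; exact hL.hV _ hN _ hsN
  have hPi := Pi_bound7448 hη hCs hS v hvV
  have hvb : ‖v‖ ≤ M * (δ + 1) * w := by
    have h2 := hL.l0 _ hN _ hsN
    have e2 : s + δ + p - s = δ + p := by ring
    rw [e2] at h2
    rw [hv, hw]
    have h3 : ‖(δ : ℂ) + p‖ ≤ δ + 1 := by
      refine (norm_add_le _ _).trans ?_
      rw [hdn]; linarith
    calc _ ≤ M * om s * ‖(δ : ℂ) + p‖ := h2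
      _ ≤ M * om s * (δ + 1) := mul_le_mul_of_nonneg_left h3 (by rw [← hw]; positivity)
      _ = _ := by ring
  have hPi2 : ‖Pi v - v ^ 3‖ ≤ C1 * η * w ^ 5 := by
    refine hPi.trans ?_
    have h2 : ‖v‖ ^ 5 ≤ (M * (δ + 1) * w) ^ 5 := pow_le_pow_left₀ (norm_nonneg _) hvb 5
    calc 3 * Cs * η * ‖v‖ ^ 5 ≤ 3 * Cs * η * (M * (δ + 1) * w) ^ 5 :=
          mul_le_mul_of_nonneg_left h2 (by positivity)
      _ = C1 * η * w ^ 5 := by rw [hC1]; ring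
  have hlD := hL.lD
  rw [← hw, ← hD] at hlD
  have hw3 : 0 < w ^ 3 := by positivity
  have hM0 : 0 < M := by linarith
  have hDn : 0 < ‖D‖ := by
    have : 0 < M * ‖D‖ := lt_of_lt_of_le hw3 hlD
    exact (mul_pos_iff_of_pos_left hM0).1 this
  have hD0 : D ≠ 0 := norm_pos_iff.1 hDn
  rw [← hv, ← hD, ← hw] at hQ
  rw [← hv, ← hD, ← hw]
  have e1 : p - (Pi v - G (s + δ + p) + G s) / D =
      -((v ^ 3 - G (s + δ + p) + G s - D * p) + (Pi v - v ^ 3)) / D := by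
    field_simp
    ring
  rw [e1, norm_div, norm_neg, div_le_iff₀ hDn]
  refine (norm_add_le _ _).trans ?_
  have h5 : w ^ 3 * ((C0 + C1) * (‖p‖ ^ 2 + η * w ^ 2)) ≤
      (M * ‖D‖) * ((C0 + C1) * (‖p‖ ^ 2 + η * w ^ 2)) :=
    mul_le_mul_of_nonneg_right hlD (by positivity)
  have h6 : C0 * w ^ 3 * ‖p‖ * ‖p‖ + C1 * η * w ^ 5 ≤
      w ^ 3 * ((C0 + C1) * (‖p‖ ^ 2 + η * w ^ 2)) := by
    have h7 : 0 ≤ w ^ 3 * (C1 * ‖p‖ ^ 2 + C0 * η * w ^ 2) := by positivity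
    have h8 : w ^ 3 * ((C0 + C1) * (‖p‖ ^ 2 + η * w ^ 2)) =
      C0 * w ^ 3 * ‖p‖ * ‖p‖ + C1 * η * w ^ 5 + w ^ 3 * (C1 * ‖p‖ ^ 2 + C0 * η * w ^ 2) := by ring
    linarith
  calc _ ≤ C0 * w ^ 3 * ‖p‖ * ‖p‖ + C1 * η * w ^ 5 := add_le_add hQ hPi2
    _ ≤ _ := h6
    _ ≤ _ := h5
    _ = _ := by ring

end TC
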