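import Mathlib
import Pool.Agent.Helper822.TC.Defs

set_option autoImplicit false

open Complex Set Metric

namespace TC



theorem Lr_cont : Continuous Lr := by
  unfold Lr
  refine Continuous.div continuous_const (by fun_prop) ?_
  intro x
  have := Real.exp_pos (-x)
  positivity

theorem Lr_pos (x : ℝ) : 0 < Lr x := by
  unfold Lr
  have := Real.exp_pos (-x)
  positivity

theorem Lr_le_one (x : ℝ) : Lr x ≤ 1 := by
  unfold Lr
  have := Real.exp_pos (-x)
  rw [div_le_one (by positivity)]
  linarith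

theorem Lr_mono {x y : ℝ} (h : x ≤ y) : Lr x ≤ Lr y := by
  unfold Lr
  have h1 := Real.exp_pos (-y)
  apply one_div_le_one_div_of_le (by positivity)
  have := Real.exp_le_exp.mpr (neg_le_neg h)
  linarith

theorem Lr_gain (t d : ℝ) (hd : 0 < d) :
    (1 - Real.exp (-d)) / 4 * Real.exp (-|t|) ≤ Lr (t + d) - Lr t := by
  unfold Lr
  have hr0 := Real.exp_pos (-d)
  have hr1 : Real.exp (-d) < 1 := by
    rw [Real.exp_lt_one_iff]
    linarith
  have he : Real.exp (-(t + d)) = Real.exp (-t) * Real.exp (-d) := by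
    rw [← Real.exp_add]
    congr 1
    ring
  rw [he]
  have hy := Real.exp_pos (-t)
  have hcase : Real.exp (-|t|) * (1 + Real.exp (-t)) ^ 2 ≤ 4 * Real.exp (-t) := by
    rcases le_total 0 t with ht | ht
    · rw [abs_of_nonneg ht]
      have h1 : Real.exp (-t) ≤ 1 := by
        rw [Real.exp_le_one_iff]
        linarith
      have h2 : (1 + Real.exp (-t)) ^ 2 ≤ 4 := by nlinarith
      nlinarith
    · rw [abs_of_nonpos ht, neg_neg]
      have h1 : 1 ≤ Real.exp (-t) := by
        rw [Real.one_le_exp_iff]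
        linarith
      have h2 : Real.exp t * Real.exp (-t) = 1 := by
        rw [← Real.exp_add]
        simp
      have h3 : (1 + Real.exp (-t)) ^ 2 ≤ 4 * Real.exp (-t) ^ 2 := by nlinarith
      have h4 : 0 < Real.exp t := Real.exp_pos t
      calc Real.exp t * (1 + Real.exp (-t)) ^ 2 ≤ Real.exp t * (4 * Real.exp (-t) ^ 2) :=
            mul_le_mul_of_nonneg_left h3 h4.le
        _ = 4 * (Real.exp t * Real.exp (-t)) * Real.exp (-t) := by ring
        _ = 4 * Real.exp (-t) := by rw [h2]; ring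
  set y := Real.exp (-t)
  set r := Real.exp (-d)
  set e := Real.exp (-|t|)
  have he0 : 0 < e := Real.exp_pos _
  have h5 : 1 / (1 + y * r) - 1 / (1 + y) = y * (1 - r) / ((1 + y * r) * (1 + y)) := by
    have h6 : 1 + y * r ≠ 0 := by positivity
    have h7 : 1 + y ≠ 0 := by positivity
    field_simp
    ring
  rw [h5, le_div_iff₀ (by positivity)]
  have h8 : (1 + y * r) * (1 + y) ≤ (1 + y) ^ 2 := by
    have : y * r ≤ y * 1 := mul_le_mul_of_nonneg_left hr1.le hy.le
    nlinarith
  have h9 : 0 ≤ (1 - r) / 4 * e := by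
    have : 0 < 1 - r := by linarith
    positivity
  calc (1 - r) / 4 * e * ((1 + y * r) * (1 + y)) ≤ (1 - r) / 4 * e * (1 + y) ^ 2 :=
        mul_le_mul_of_nonneg_left h8 h9
    _ = (1 - r) / 4 * (e * (1 + y) ^ 2) := by ring
    _ ≤ (1 - r) / 4 * (4 * y) := mul_le_mul_of_nonneg_left hcase (by linarith)
    _ = y * (1 - r) := by ring

theorem Dom_open (a : ℝ) : IsOpen (Dom a) := by
  unfold Dom
  have := Lr_cont
  exact isOpen_lt (by fun_prop) (by fun_prop)

theorem Strip_sub_Dom {a : ℝ} (ha : 0 < a) : Strip a ⊆ Dom a := by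
  intro z hz
  have hz' : |z.im| < a := hz
  show |z.im| < a * (1 + Lr z.re)
  have := Lr_pos z.re
  nlinarith

theorem Dom_sub_Strip {a : ℝ} (ha : 0 < a) : Dom a ⊆ Strip (2 * a) := by
  intro z hz
  have hz' : |z.im| < a * (1 + Lr z.re) := hz
  show |z.im| < 2 * a
  have := Lr_le_one z.re
  nlinarith

theorem room {δ a : ℝ} (hδ : 0 < δ) (ha : 0 < a) :
    ∃ c, 0 < c ∧ c ≤ 1 / 2 ∧ ∀ s ∈ Dom a, ball (s + (δ : ℂ)) (c * om s) ⊆ Dom a := by
  have hq : 0 < 1 - Real.exp (-(δ / 2)) := by
    have : Real.exp (-(δ / 2)) < 1 := by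
      rw [Real.exp_lt_one_iff]
      linarith
    linarith
  refine ⟨min (min (δ / 2) (1 / 2)) (a * (1 - Real.exp (-(δ / 2))) / 4), ?_, ?_, ?_⟩
  · positivity
  · exact (min_le_left _ _).trans (min_le_right _ _)
  · intro s hs w hw
    set c := min (min (δ / 2) (1 / 2)) (a * (1 - Real.exp (-(δ / 2))) / 4) with hc
    have hcp : 0 < c := by positivity
    have hc1 : c ≤ δ / 2 := (min_le_left _ _).trans (min_le_left _ _)
    have hc2 : c ≤ a * (1 - Real.exp (-(δ / 2))) / 4 := min_le_right _ _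
    have hs' : |s.im| < a * (1 + Lr s.re) := hs
    have hw' : ‖w - (s + (δ : ℂ))‖ < c * om s := by
      rw [← dist_eq_norm]
      exact mem_ball.mp hw
    have hom : om s = Real.exp (-|s.re|) := rfl
    have hom1 : om s ≤ 1 := by
      rw [hom, Real.exp_le_one_iff]
      linarith [abs_nonneg s.re]
    have hom0 : 0 < om s := Real.exp_pos _
    have him := (Complex.abs_im_le_norm (w - (s + (δ : ℂ))))
    have hre := (Complex.abs_re_le_norm (w - (s + (δ : ℂ))))
    simp only [Complex.sub_im, Complex.add_im, Complex.ofReal_im, add_zero, Complex.sub_re,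
      Complex.add_re, Complex.ofReal_re] at him hre
    have h1 : |w.im| ≤ |s.im| + |w.im - s.im| := by
      have := abs_add_le s.im (w.im - s.im)
      simpa using this
    have h2 : s.re + δ / 2 ≤ w.re := by
      have h3 := (abs_le.mp hre).1
      have h4 : c * om s ≤ c * 1 := mul_le_mul_of_nonneg_left hom1 hcp.le
      linarith
    have h3 := Lr_mono h2
    have h4 := Lr_gain s.re (δ / 2) (by linarith)
    have h5 : c * om s ≤ a * (Lr (s.re + δ / 2) - Lr s.re) := by
      calc c * om s ≤ (a * (1 - Real.exp (-(δ / 2))) / 4) * om s :=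
            mul_le_mul_of_nonneg_right hc2 hom0.le
        _ = a * ((1 - Real.exp (-(δ / 2))) / 4 * Real.exp (-|s.re|)) := by rw [hom]; ring
        _ ≤ _ := mul_le_mul_of_nonneg_left h4 ha.le
    show |w.im| < a * (1 + Lr w.re)
    have h6 : a * Lr (s.re + δ / 2) ≤ a * Lr w.re := mul_le_mul_of_nonneg_left h3 ha.le
    have h7 : a * (Lr (s.re + δ / 2) - Lr s.re) = a * Lr (s.re + δ / 2) - a * Lr s.re := by ring
    have h8 : a * (1 + Lr s.re) = a + a * Lr s.re := by ring
    have h9 : a * (1 + Lr w.re) = a + a * Lr w.re := by ring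
    linarith

end TC
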