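import Mathlib
import Pool.Agent.Helper822.TC.Defs
import Pool.Agent.Helper822.TC.Ana
import Pool.Agent.Helper822.TC.P1
import Pool.Agent.Helper822.TC.P2
import Pool.Agent.Helper822.TC.P3
import Pool.Agent.Helper822.TC.LocB
import Pool.Agent.Helper822.TC.Room

set_option autoImplicit false

open Complex Set Metric

namespace TC

noncomputable def NN (X G m e : ℂ → ℂ) (δ η : ℝ) (φ : ℂ → ℂ) (y σ : ℂ) : ℂ :=
  Nv X G m e δ η y σ (φ σ) (deriv φ σ)

noncomputable def TPt (X G m e Pi : ℂ → ℂ) (δ η : ℝ) (φ r : ℂ → ℂ) (s t : ℂ) : ℂ :=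
  TPv X G Pi δ s (φ s) (R0 X G δ s + r s)
    (NN X G m e δ η φ (s + δ + φ s) (s + δ + φ s + t * (η * (R0 X G δ s + r s))))

noncomputable def TP (X G m e Pi : ℂ → ℂ) (δ η : ℝ) (φ r : ℂ → ℂ) (s : ℂ) : ℂ :=
  ∫ t in (0:ℝ)..1, TPt X G m e Pi δ η φ r s t

noncomputable def TR (X G m e : ℂ → ℂ) (δ η : ℝ) (φ r : ℂ → ℂ) (s : ℂ) : ℂ :=
  r s + NN X G m e δ η φ (s + δ + φ s) (s + δ + φ s + η * (R0 X G δ s + r s)) /
    (η * deriv X (s + δ) * deriv X (s + 2 * δ))

theorem om_le_exp (z w : ℂ) : om z ≤ Real.exp ‖z - w‖ * om w := by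
  unfold om
  rw [← Real.exp_add, Real.exp_le_exp]
  have h1 : |z.re - w.re| ≤ ‖z - w‖ := by
    have := Complex.abs_re_le_norm (z - w)
    simpa using this
  have h2 : |w.re| ≤ |z.re| + |z.re - w.re| := by
    have := abs_sub_abs_le_abs_sub w.re z.re
    rw [abs_sub_comm w.re z.re] at this
    linarith
  linarith

/-- bounds for `φ` and `φ'` near `s + δ` -/
theorem phi_bounds {δ a c M : ℝ} (hδ : 0 < δ) (hc : 0 < c) (hc2 : c ≤ 1 / 2)
    (hroom : ∀ s ∈ Dom a, ball (s + (δ : ℂ)) (c * om s) ⊆ Dom a) (hM : 0 ≤ M)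
    {φ : ℂ → ℂ} (hφ : DifferentiableOn ℂ φ (Dom a)) (hb : ∀ z ∈ Dom a, ‖φ z‖ ≤ M * om z)
    {s σ : ℂ} (hs : s ∈ Dom a) (hσ : ‖σ - (s + δ)‖ ≤ c / 4 * om s) :
    σ ∈ Dom a ∧ ‖φ σ‖ ≤ (2 * Real.exp (δ + 1) / c * M) * om s ∧
      ‖deriv φ σ‖ ≤ 2 * Real.exp (δ + 1) / c * M := by
  have hos := om_pos s
  have hos1 := om_le_one s
  have key : ∀ w : ℂ, ‖w - (s + δ)‖ ≤ 3 * c / 4 * om s → w ∈ Dom a ∧
      ‖φ w‖ ≤ Real.exp (δ + 1) * M * om s := by
    intro w hw
    have hwD : w ∈ Dom a := by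
      apply hroom s hs
      rw [mem_ball, dist_eq_norm]
      refine lt_of_le_of_lt hw ?_
      nlinarith
    refine ⟨hwD, (hb w hwD).trans ?_⟩
    have h1 : om w ≤ Real.exp (δ + 1) * om s := by
      refine (om_le_exp w s).trans ?_
      refine mul_le_mul_of_nonneg_right (Real.exp_le_exp.2 ?_) hos.le
      calc ‖w - s‖ = ‖(w - (s + δ)) + (δ : ℂ)‖ := by congr 1; ring
        _ ≤ ‖w - (s + δ)‖ + ‖(δ : ℂ)‖ := norm_add_le _ _
        _ ≤ 3 * c / 4 * om s + δ := by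
          rw [Complex.norm_real, Real.norm_eq_abs, abs_of_pos hδ]; linarith
        _ ≤ δ + 1 := by nlinarith
    calc M * om w ≤ M * (Real.exp (δ + 1) * om s) := mul_le_mul_of_nonneg_left h1 hM
      _ = _ := by ring
  have hE : 0 < Real.exp (δ + 1) := Real.exp_pos _
  have h2c : (1 : ℝ) ≤ 2 / c := by
    rw [le_div_iff₀ hc]; linarith
  obtain ⟨h1, h2⟩ := key σ (hσ.trans (by nlinarith))
  refine ⟨h1, h2.trans ?_, ?_⟩
  · have : Real.exp (δ + 1) * M * om s ≤ (Real.exp (δ + 1) * M * om s) * (2 / c) := by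
      apply le_mul_of_one_le_right (by positivity) h2c
    calc _ ≤ _ := this
      _ = _ := by ring
  · have hr : 0 < c / 2 * om s := by positivity
    have hcl : closedBall σ (c / 2 * om s) ⊆ Dom a := by
      intro w hw
      refine (key w ?_).1
      rw [mem_closedBall, dist_eq_norm] at hw
      calc ‖w - (s + δ)‖ = ‖(w - σ) + (σ - (s + δ))‖ := by congr 1; ring
        _ ≤ ‖w - σ‖ + ‖σ - (s + δ)‖ := norm_add_le _ _
        _ ≤ c / 2 * om s + c / 4 * om s := add_le_add hw hσ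
        _ = _ := by ring
    have hd : DiffContOnCl ℂ φ (ball σ (c / 2 * om s)) := by
      apply DifferentiableOn.diffContOnCl
      rw [closure_ball σ hr.ne']
      exact hφ.mono hcl
    have := Complex.norm_deriv_le_of_forall_mem_sphere_norm_le hr hd
      (C := Real.exp (δ + 1) * M * om s) (by
        intro w hw
        refine (key w ?_).2
        rw [mem_sphere, dist_eq_norm] at hw
        calc ‖w - (s + δ)‖ = ‖(w - σ) + (σ - (s + δ))‖ := by congr 1; ring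
          _ ≤ ‖w - σ‖ + ‖σ - (s + δ)‖ := norm_add_le _ _
          _ ≤ c / 2 * om s + c / 4 * om s := add_le_add hw.le hσ
          _ = _ := by ring)
    refine this.trans (le_of_eq ?_)
    field_simp

theorem R0_bound {δ h M V : ℝ} (hδ : 0 < δ) (hh : 0 < h) (hM : 1 ≤ M) {X G : ℂ → ℂ} {s : ℂ}
    (hs : s ∈ Strip (h / 2)) (hL : Loc δ h M V X G s) :
    ‖R0 X G δ s‖ ≤ (3 * (M * δ) ^ 2 * M + M) * M ^ 2 * om s := by
  have hos := om_pos s
  have hos1 := om_le_one s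
  have hs' : |s.im| < h / 2 := hs
  have n1 : s + δ ∈ Nb δ h s := by
    constructor
    · simp only [add_im, ofReal_im, add_zero]; linarith
    · simp only [add_re, ofReal_re, add_sub_cancel_left]; rw [abs_of_pos hδ]; linarith
  have n2 : s + 2 * δ ∈ Nb δ h s := by
    constructor
    · simp only [add_im, mul_im, ofReal_im]; norm_num; linarith
    · simp only [add_re, mul_re, ofReal_re, ofReal_im]
      norm_num
      rw [abs_of_pos hδ]; linarith
  have b1 := hL.lX1 _ n1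
  have b2 := hL.lX1 _ n2
  have c1 := hL.bX1 _ n1
  have c3 := hL.bG1 _ n1
  have d1 := hL.l0 _ n2 _ n1
  have e1 : ‖s + 2 * (δ : ℂ) - (s + δ)‖ = δ := by
    have : s + 2 * (δ : ℂ) - (s + δ) = (δ : ℂ) := by ring
    rw [this, Complex.norm_real, Real.norm_eq_abs, abs_of_pos hδ]
  rw [e1] at d1
  have hM0 : 0 < M := by linarith
  have num : ‖3 * (X (s + 2 * δ) - X (s + δ)) ^ 2 * deriv X (s + δ) - deriv G (s + δ)‖ ≤
      (3 * (M * δ) ^ 2 * M + M) * om s ^ 3 := by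
    refine (norm_sub_le _ _).trans ?_
    rw [norm_mul, norm_mul, norm_pow]
    have : ‖(3 : ℂ)‖ = 3 := by norm_num
    rw [this]
    have h1 : ‖X (s + 2 * δ) - X (s + δ)‖ ^ 2 ≤ (M * om s * δ) ^ 2 :=
      pow_le_pow_left₀ (norm_nonneg _) d1 2
    have h2 : 3 * ‖X (s + 2 * δ) - X (s + δ)‖ ^ 2 * ‖deriv X (s + δ)‖ ≤
        3 * (M * om s * δ) ^ 2 * (M * om s) := by gcongr
    nlinarith [h2, c3]
  unfold R0
  rw [norm_div, norm_mul]
  have p1 : om s / M ≤ ‖deriv X (s + δ)‖ := by rw [div_le_iff₀ hM0]; linarith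
  have p2 : om s / M ≤ ‖deriv X (s + 2 * δ)‖ := by rw [div_le_iff₀ hM0]; linarith
  have p3 : 0 < om s / M := by positivity
  have p4 : om s / M * (om s / M) ≤ ‖deriv X (s + δ)‖ * ‖deriv X (s + 2 * δ)‖ :=
    mul_le_mul p1 p2 p3.le (norm_nonneg _)
  rw [div_le_iff₀ (lt_of_lt_of_le (by positivity) p4)]
  refine num.trans ?_
  have : (3 * (M * δ) ^ 2 * M + M) * om s ^ 3 =
      (3 * (M * δ) ^ 2 * M + M) * M ^ 2 * om s * (om s / M * (om s / M)) := by
    field_simp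
  rw [this]
  gcongr

end TC
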