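import Mathlib
import Pool.Agent.Helper822.TC.Core

set_option autoImplicit false

open Complex Set Metric

namespace TC

theorem sup_bound {δ h C V Cs : ℝ} {X G : ℂ → ℂ} (hB : BaseA δ h C X G) (hV : 2 * C < V)
    (hCs : 0 ≤ Cs) :
    ∃ K₁ > 0, ∃ K₂ > 0, ∃ η₀ > 0, η₀ ≤ 1 ∧ ∀ (η : ℝ) (m e Pi : ℂ → ℂ), 0 < η → η ≤ η₀ →
      Small V Cs η m e Pi → ∀ φ r : ℂ → ℂ, DifferentiableOn ℂ φ (Dom (h / 4)) →
      (∀ z ∈ Dom (h / 4), ‖φ z‖ ≤ 4 * (K₁ * η) * om z) →
      (∀ z ∈ Dom (h / 4), ‖r z‖ ≤ 4 * (K₂ * η) * om z) →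
      ∀ s ∈ Dom (h / 4),
        (∀ t : ℝ, t ∈ Icc (0:ℝ) 1 → 
          ‖TPt X G m e Pi δ η φ r s t‖ ≤ K₁ * η * om s ∧
          s + δ + φ s ∈ Strip h ∧
          ‖X (s + δ + φ s) - X s‖ < V ∧
          (s + δ + φ s + t * (η * (R0 X G δ s + r s)) ∈ Dom (h / 4)) ∧
          (s + δ + φ s + t * (η * (R0 X G δ s + r s)) + δ +
            φ (s + δ + φ s + t * (η * (R0 X G δ s + r s)))) ∈ Strip h ∧
          ‖X (s + δ + φ s + t * (η * (R0 X G δ s + r s)) + δ +
            φ (s + δ + φ s + t * (η * (R0 X G δ s + r s)))) -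
            X (s + δ + φ s + t * (η * (R0 X G δ s + r s)))‖ < V ∧
          ‖X (s + δ + φ s + t * (η * (R0 X G δ s + r s)) + δ +
            φ (s + δ + φ s + t * (η * (R0 X G δ s + r s)))) - X (s + δ + φ s)‖ < V) ∧
        ‖TR X G m e δ η φ r s‖ ≤ K₂ * η * om s ∧
        ‖η * (R0 X G δ s + r s)‖ ≤ K₂ * η * om s := by
  have hδ := hB.δpos
  have hh := hB.hpos
  obtain ⟨M, hM, hLoc⟩ := loc_of_base hB hV
  obtain ⟨c, hc, hc2, hroom⟩ := room (δ := δ) (a := h / 4) hδ (by positivity)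
  obtain ⟨C₁, hC₁, hP1⟩ := P1 δ h M V Cs hδ hh hM hCs
  obtain ⟨C₂, hC₂, hP2⟩ := P2 δ h M V Cs hδ hh hM hCs
  obtain ⟨C₃, hC₃, hP3⟩ := P3 δ h M V Cs hδ hh hM hCs
  set K₀ : ℝ := (3 * (M * δ) ^ 2 * M + M) * M ^ 2 with hK₀
  have hM0 : 0 < M := by linarith
  have hK₀p : 0 < K₀ := by positivity
  set K : ℝ := K₀ + 1 with hK
  have hKp : 0 < K := by positivity
  set K₁ : ℝ := 2 * (C₃ + M * C₁ * K * (1 + K)) with hK₁
  have hK₁p : 0 < K₁ := by positivity
  set A : ℝ := 8 * Real.exp (δ + 1) / c with hA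
  have hE : 1 ≤ Real.exp (δ + 1) := Real.one_le_exp (by linarith)
  have hA4 : 4 ≤ A := by
    rw [hA, le_div_iff₀ hc]; nlinarith
  set K₂ : ℝ := C₂ * (1 + K) * (A * K₁ + (1 + K)) + K with hK₂
  have hK₂p : 0 < K₂ := by positivity
  have hκ : 0 < kap h := by unfold kap; positivity
  obtain ⟨η₀, hη₀, hη1, hη2, hη3, hη4, hη5, hη6, hη7⟩ : ∃ η₀ > 0, η₀ ≤ 1 ∧
      A * K₁ * η₀ ≤ kap h / 2 ∧ η₀ * K ≤ kap h / 2 ∧ A * K₁ * η₀ ≤ c / 8 ∧ η₀ * K ≤ c / 8 ∧
      4 * (K₂ * η₀) ≤ 1 ∧ 16 * K₁ ^ 2 * η₀ ≤ 1 := by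
    have hz : ∀ (b q : ℝ), 0 < b → 0 < q → ∃ x > 0, ∀ y, 0 ≤ y → y ≤ x → b * y ≤ q := by
      intro b q hb hq
      refine ⟨q / b, by positivity, ?_⟩
      intro y _ hy
      rw [le_div_iff₀ hb] at hy
      linarith
    obtain ⟨x1, hx1, g1⟩ := hz (A * K₁) (kap h / 2) (by positivity) (by positivity)
    obtain ⟨x2, hx2, g2⟩ := hz K (kap h / 2) (by positivity) (by positivity)
    obtain ⟨x3, hx3, g3⟩ := hz (A * K₁) (c / 8) (by positivity) (by positivity)
    obtain ⟨x4, hx4, g4⟩ := hz K (c / 8) (by positivity) (by positivity)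
    obtain ⟨x5, hx5, g5⟩ := hz (4 * K₂) 1 (by positivity) (by positivity)
    obtain ⟨x6, hx6, g6⟩ := hz (16 * K₁ ^ 2) 1 (by positivity) (by positivity)
    set x : ℝ := min 1 (min x1 (min x2 (min x3 (min x4 (min x5 x6))))) with hx
    have hxp : 0 < x := by simp only [hx, lt_min_iff]; exact ⟨one_pos, hx1, hx2, hx3, hx4, hx5, hx6⟩
    have l1 : x ≤ 1 := min_le_left _ _
    have l2 : x ≤ x1 := (min_le_right _ _).trans (min_le_left _ _)
    have l3 : x ≤ x2 := (min_le_right _ _).trans ((min_le_right _ _).trans (min_le_left _ _))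
    have l4 : x ≤ x3 := (min_le_right _ _).trans ((min_le_right _ _).trans
      ((min_le_right _ _).trans (min_le_left _ _)))
    have l5 : x ≤ x4 := (min_le_right _ _).trans ((min_le_right _ _).trans
      ((min_le_right _ _).trans ((min_le_right _ _).trans (min_le_left _ _))))
    have l6 : x ≤ x5 := (min_le_right _ _).trans ((min_le_right _ _).trans
      ((min_le_right _ _).trans ((min_le_right _ _).trans ((min_le_right _ _).trans
      (min_le_left _ _)))))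
    have l7 : x ≤ x6 := (min_le_right _ _).trans ((min_le_right _ _).trans
      ((min_le_right _ _).trans ((min_le_right _ _).trans ((min_le_right _ _).trans
      (min_le_right _ _)))))
    exact ⟨x, hxp, l1, g1 x hxp.le l2, by linarith [g2 x hxp.le l3], g3 x hxp.le l4,
      by linarith [g4 x hxp.le l5], by linarith [g5 x hxp.le l6], g6 x hxp.le l7⟩
  refine ⟨K₁, hK₁p, K₂, hK₂p, η₀, hη₀, hη1, ?_⟩
  intro η m e Pi hη hηη hS φ r hφd hφb hrb s hs
  have hos := om_pos s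
  have hos1 := om_le_one s
  have hsS : s ∈ Strip (h / 2) := by
    have := Dom_sub_Strip (a := h / 4) (by positivity) hs
    convert this using 2; ring
  have hL := hLoc s hsS
  have q1 : A * K₁ * η ≤ kap h / 2 := le_trans (by gcongr) hη2
  have q2 : η * K ≤ kap h / 2 := le_trans (by gcongr) hη3
  have q3 : A * K₁ * η ≤ c / 8 := le_trans (by gcongr) hη4
  have q4 : η * K ≤ c / 8 := le_trans (by gcongr) hη5
  have q5 : 4 * (K₂ * η) ≤ 1 := le_trans (by gcongr) hη6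
  have q6 : 16 * K₁ ^ 2 * η ≤ 1 := le_trans (by gcongr) hη7
  have hκh : kap h ≤ 1 / 2 := min_le_right _ _
  have hκ8 : kap h ≤ h / 8 := min_le_left _ _
  set τ : ℝ := A * K₁ * η with hτ
  have hτ0 : 0 ≤ τ := by positivity
  set Rb : ℂ := R0 X G δ s + r s with hRb
  have hRbK : ‖Rb‖ ≤ K * om s := by
    refine (norm_add_le _ _).trans ?_
    have h1 := R0_bound hδ hh hM hsS hL
    have h2 := hrb s hs
    have h3 : 4 * (K₂ * η) * om s ≤ 1 * om s := mul_le_mul_of_nonneg_right q5 hos.le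
    rw [hK, add_mul]
    exact add_le_add h1 (h2.trans h3)
  have hφs : ‖φ s‖ ≤ 4 * (K₁ * η) * om s := hφb s hs
  have hφsτ : ‖φ s‖ ≤ τ * om s := by
    refine hφs.trans (mul_le_mul_of_nonneg_right ?_ hos.le)
    rw [hτ]; nlinarith [mul_pos hK₁p hη]
  set y : ℂ := s + δ + φ s with hy
  have hyd : ‖y - (s + δ)‖ ≤ τ * om s := by
    rw [hy, add_sub_cancel_left]; exact hφsτ
  have hφK : ‖φ s‖ ≤ kap h * om s := hφsτ.trans (mul_le_mul_of_nonneg_right (by linarith) hos.le)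
  have hηnorm : ‖(η : ℂ)‖ = η := by rw [Complex.norm_real, Real.norm_eq_abs, abs_of_pos hη]
  -- facts for σ_t
  have hσd : ∀ t : ℝ, t ∈ Icc (0:ℝ) 1 → ‖(y + t * (η * Rb)) - y‖ ≤ η * K * om s := by
    intro t ht
    rw [add_sub_cancel_left, norm_mul, norm_mul, hηnorm, Complex.norm_real, Real.norm_eq_abs,
      abs_of_nonneg ht.1]
    calc t * (η * ‖Rb‖) ≤ 1 * (η * (K * om s)) := by
          apply mul_le_mul ht.2 (by gcongr) (by positivity) (by norm_num)
      _ = _ := by ring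
  have hσ2 : ∀ t : ℝ, t ∈ Icc (0:ℝ) 1 → ‖(y + t * (η * Rb)) - (s + δ)‖ ≤ (τ + η * K) * om s := by
    intro t ht
    calc ‖(y + t * (η * Rb)) - (s + δ)‖ = ‖((y + t * (η * Rb)) - y) + (y - (s + δ))‖ := by
          congr 1; ring
      _ ≤ _ := norm_add_le _ _
      _ ≤ η * K * om s + τ * om s := add_le_add (hσd t ht) hyd
      _ = _ := by ring
  have hφσ : ∀ t : ℝ, t ∈ Icc (0:ℝ) 1 → (y + t * (η * Rb)) ∈ Dom (h / 4) ∧
      ‖φ (y + t * (η * Rb))‖ ≤ τ * om s ∧ ‖deriv φ (y + t * (η * Rb))‖ ≤ τ := by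
    intro t ht
    have h1 : ‖(y + t * (η * Rb)) - (s + δ)‖ ≤ c / 4 * om s :=
      (hσ2 t ht).trans (mul_le_mul_of_nonneg_right (by linarith) hos.le)
    obtain ⟨g1, g2, g3⟩ := phi_bounds hδ hc hc2 hroom (M := 4 * (K₁ * η)) (by positivity) hφd hφb
      hs h1
    have hAA : 2 * Real.exp (δ + 1) / c * (4 * (K₁ * η)) = τ := by
      rw [hτ, hA]; ring
    rw [hAA] at g2 g3
    exact ⟨g1, g2, g3⟩
  -- membership in Nb
  have hs' : |s.im| < h / 2 := hsS
  have nbs : ∀ z : ℂ, ‖z - (s + δ)‖ ≤ kap h * om s → z ∈ Nb δ h s := by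
    intro z hz
    have hz1 : ‖z - (s + δ)‖ ≤ kap h := hz.trans (by nlinarith)
    have i1 := (Complex.abs_im_le_norm (z - (s + δ))).trans hz1
    have i2 := (Complex.abs_re_le_norm (z - (s + δ))).trans hz1
    simp only [sub_im, add_im, ofReal_im, add_zero, sub_re, add_re, ofReal_re] at i1 i2
    constructor
    · have := abs_sub_abs_le_abs_sub z.im s.im
      linarith
    · rw [abs_le] at i2 ⊢
      constructor <;> linarith [i2.1, i2.2]
  have nbf : ∀ z : ℂ, ‖z - (s + 2 * δ)‖ ≤ 2 * kap h * om s → z ∈ Nb δ h s := by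
    intro z hz
    have hz1 : ‖z - (s + 2 * δ)‖ ≤ 2 * kap h := hz.trans (by nlinarith)
    have i1 := (Complex.abs_im_le_norm (z - (s + 2 * δ))).trans hz1
    have i2 := (Complex.abs_re_le_norm (z - (s + 2 * δ))).trans hz1
    have e1 : (z - (s + 2 * δ)).im = z.im - s.im := by simp
    have e2 : (z - (s + 2 * δ)).re = z.re - s.re - 2 * δ := by simp; ring
    rw [e1] at i1
    rw [e2] at i2
    constructor
    · have := abs_sub_abs_le_abs_sub z.im s.im
      linarith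
    · rw [abs_le] at i2 ⊢
      constructor <;> linarith [i2.1, i2.2]
  have nss : s ∈ Nb δ h s := by
    constructor
    · linarith
    · rw [sub_self, abs_zero]; positivity
  have hNbStrip : ∀ z ∈ Nb δ h s, z ∈ Strip h := by
    intro z hz
    have := hz.1
    show |z.im| < h
    linarith
  have hyN : y ∈ Nb δ h s := nbs y (hyd.trans (mul_le_mul_of_nonneg_right (by linarith) hos.le))
  have hfN : ∀ t : ℝ, t ∈ Icc (0:ℝ) 1 →
      (y + t * (η * Rb)) + δ + φ (y + t * (η * Rb)) ∈ Nb δ h s := by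
    intro t ht
    apply nbf
    calc ‖(y + t * (η * Rb)) + δ + φ (y + t * (η * Rb)) - (s + 2 * δ)‖
        = ‖((y + t * (η * Rb)) - (s + δ)) + φ (y + t * (η * Rb))‖ := by congr 1; ring
      _ ≤ _ := norm_add_le _ _
      _ ≤ (τ + η * K) * om s + τ * om s := add_le_add (hσ2 t ht) (hφσ t ht).2.1
      _ = (2 * τ + η * K) * om s := by ring
      _ ≤ 2 * kap h * om s := mul_le_mul_of_nonneg_right (by linarith) hos.le
  have hσN : ∀ t : ℝ, t ∈ Icc (0:ℝ) 1 → (y + t * (η * Rb)) ∈ Nb δ h s := by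
    intro t ht
    exact nbs _ ((hσ2 t ht).trans (mul_le_mul_of_nonneg_right (by linarith) hos.le))
  have hNN : ∀ t : ℝ, t ∈ Icc (0:ℝ) 1 →
      ‖NN X G m e δ η φ y (y + t * (η * Rb))‖ ≤ C₁ * (1 + K) * η * om s ^ 3 := by
    intro t ht
    refine hP1 X G m e Pi η s hsS hL hη (hηη.trans hη1) hS K y _ _ _ hKp.le
      (hyd.trans (mul_le_mul_of_nonneg_right (by linarith) hos.le))
      ((hσ2 t ht).trans (mul_le_mul_of_nonneg_right (by linarith) hos.le)) (hσd t ht)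
      ((hφσ t ht).2.1.trans (mul_le_mul_of_nonneg_right (by linarith) hos.le))
      ((hφσ t ht).2.2.trans (by linarith))
  refine ⟨?_, ?_, ?_⟩
  · intro t ht
    refine ⟨?_, hNbStrip _ hyN, hL.hV _ hyN _ nss, (hφσ t ht).1, hNbStrip _ (hfN t ht),
      hL.hV _ (hfN t ht) _ (hσN t ht), hL.hV _ (hfN t ht) _ hyN⟩
    have hD : 0 < ‖DD X G δ s‖ := by
      have := hL.lD
      by_contra hcon
      push Not at hcon
      have h0 : ‖DD X G δ s‖ = 0 := le_antisymm hcon (norm_nonneg _)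
      rw [h0, mul_zero] at this
      have := pow_pos hos 3
      linarith
    have hsplit : TPt X G m e Pi δ η φ r s t =
        (φ s - (Pi (X (s + δ + φ s) - X s) - G (s + δ + φ s) + G s) / DD X G δ s) -
        Rb * NN X G m e δ η φ y (y + t * (η * Rb)) / DD X G δ s := by
      unfold TPt TPv
      rw [← hRb, ← hy]
      ring
    rw [hsplit]
    refine (norm_sub_le _ _).trans ?_
    have b1 := hP3 X G m e Pi η s hsS hL hη (hηη.trans hη1) hS (φ s) hφK
    have b2 : ‖Rb * NN X G m e δ η φ y (y + t * (η * Rb)) / DD X G δ s‖ ≤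
        M * C₁ * K * (1 + K) * η * om s := by
      rw [norm_div, norm_mul, div_le_iff₀ hD]
      calc ‖Rb‖ * ‖NN X G m e δ η φ y (y + t * (η * Rb))‖
          ≤ (K * om s) * (C₁ * (1 + K) * η * om s ^ 3) := by
            apply mul_le_mul hRbK (hNN t ht) (norm_nonneg _) (by positivity)
        _ = (C₁ * K * (1 + K) * η * om s) * om s ^ 3 := by ring
        _ ≤ (C₁ * K * (1 + K) * η * om s) * (M * ‖DD X G δ s‖) :=
            mul_le_mul_of_nonneg_left hL.lD (by positivity)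
        _ = _ := by ring
    have b3 : C₃ * (‖φ s‖ ^ 2 + η * om s ^ 2) ≤ 2 * C₃ * η * om s := by
      have h1 : ‖φ s‖ ^ 2 ≤ (4 * (K₁ * η) * om s) ^ 2 := pow_le_pow_left₀ (norm_nonneg _) hφs 2
      have h2 : (4 * (K₁ * η) * om s) ^ 2 = (16 * K₁ ^ 2 * η) * (η * om s ^ 2) := by ring
      have h3 : (16 * K₁ ^ 2 * η) * (η * om s ^ 2) ≤ 1 * (η * om s ^ 2) :=
        mul_le_mul_of_nonneg_right q6 (by positivity)
      have h4 : η * om s ^ 2 ≤ η * om s := by
        apply mul_le_mul_of_nonneg_left _ hη.le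
        nlinarith
      have h5 : ‖φ s‖ ^ 2 + η * om s ^ 2 ≤ 2 * (η * om s) := by linarith
      calc C₃ * (‖φ s‖ ^ 2 + η * om s ^ 2) ≤ C₃ * (2 * (η * om s)) :=
            mul_le_mul_of_nonneg_left h5 hC₃.le
        _ = _ := by ring
    have : K₁ * η * om s = 2 * C₃ * η * om s + 2 * (M * C₁ * K * (1 + K) * η * om s) := by
      rw [hK₁]; ring
    have hpos : 0 ≤ M * C₁ * K * (1 + K) * η * om s := by positivity
    linarith
  · have h1 : (1 : ℝ) ∈ Icc (0:ℝ) 1 := by constructor <;> norm_num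
    have g := hP2 X G m e Pi η s hsS hL hη (hηη.trans hη1) hS K τ y Rb
      (φ (y + η * Rb)) (deriv φ (y + η * Rb)) hKp.le hτ0 (by linarith) (by linarith) hyd hRbK
      (by have := (hφσ 1 h1).2.1; simpa using this) (by have := (hφσ 1 h1).2.2; simpa using this)
    have e1 : TR X G m e δ η φ r s = Rb + Nv X G m e δ η y (y + η * Rb) (φ (y + η * Rb))
        (deriv φ (y + η * Rb)) / (η * deriv X (s + δ) * deriv X (s + 2 * δ)) - R0 X G δ s := by
      unfold TR NN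
      rw [← hRb, ← hy, hRb]
      ring
    rw [e1]
    refine g.trans ?_
    have : C₂ * (1 + K) * (τ + η * (1 + K)) * om s + K * η * om s = K₂ * η * om s := by
      rw [hτ, hK₂]; ring
    have hpos : 0 ≤ K * η * om s := by positivity
    linarith
  · rw [norm_mul, hηnorm]
    have h1 : η * ‖Rb‖ ≤ η * (K * om s) := mul_le_mul_of_nonneg_left hRbK hη.le
    have h2 : K ≤ K₂ := by
      rw [hK₂]
      have : 0 ≤ C₂ * (1 + K) * (A * K₁ + (1 + K)) := by positivity
      linarith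
    have h3 : η * (K * om s) ≤ K₂ * η * om s := by
      have : η * (K * om s) = K * (η * om s) := by ring
      rw [this, mul_assoc]
      exact mul_le_mul_of_nonneg_right h2 (by positivity)
    linarith

end TC
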