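import Mathlib
import Pool.Agent.Helper822.TC.Sup

set_option autoImplicit false

open Complex Set Metric Filter Topology

namespace TC

section
variable {E : Type*} [NormedAddCommGroup E] [NormedSpace ℂ E]

theorem Dom_sub_Strip_h {h : ℝ} (hh : 0 < h) {s : ℂ} (hs : s ∈ Dom (h / 4)) : s ∈ Strip h := by
  have := Dom_sub_Strip (a := h / 4) (by positivity) hs
  have h2 : |s.im| < 2 * (h / 4) := this
  show |s.im| < h
  linarith

theorem ana_NN_gen {δ h C V Cs η : ℝ} {X G m e Pi : ℂ → ℂ} (hB : BaseA δ h C X G)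
    (hS : Small V Cs η m e Pi) {φ d : ℂ → ℂ} (hφ : DifferentiableOn ℂ φ (Dom (h / 4)))
    (hd : DifferentiableOn ℂ d (Dom (h / 4))) {c y σ : E → ℂ} {p : E}
    (hc : AnalyticAt ℂ c p) (hy : AnalyticAt ℂ y p) (hσ : AnalyticAt ℂ σ p)
    (h1 : y p ∈ Strip h) (h2 : σ p ∈ Dom (h / 4))
    (h3 : σ p + δ + (φ (σ p) + c p * d (σ p)) ∈ Strip h)
    (h4 : ‖X (σ p + δ + (φ (σ p) + c p * d (σ p))) - X (σ p)‖ < V)
    (h5 : ‖X (σ p + δ + (φ (σ p) + c p * d (σ p))) - X (y p)‖ < V) :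
    AnalyticAt ℂ (fun x => NN X G m e δ η (fun z => φ z + c x * d z) (y x) (σ x)) p := by
  have o := Dom_open (h / 4)
  have hh := hB.hpos
  have a1 := ana_comp_set o hφ hσ h2
  have a2 := ana_comp_set o hd hσ h2
  have a3 := ana_deriv_comp_set o hφ hσ h2
  have a4 := ana_deriv_comp_set o hd hσ h2
  have main := ana_Nv hB hS (y := y) (σ := σ) (a := fun x => φ (σ x) + c x * d (σ x))
    (b := fun x => deriv φ (σ x) + c x * deriv d (σ x)) hy hσ (a1.add (hc.mul a2))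
    (a3.add (hc.mul a4)) h1 (Dom_sub_Strip_h hh h2) h3 h4 h5
  refine main.congr ?_
  have hev : ∀ᶠ x in 𝓝 p, σ x ∈ Dom (h / 4) := hσ.continuousAt.eventually_mem (o.mem_nhds h2)
  filter_upwards [hev] with x hx
  unfold NN
  have e1 : deriv (fun z => φ z + c x * d z) (σ x) = deriv φ (σ x) + c x * deriv d (σ x) := by
    have g1 : HasDerivAt φ (deriv φ (σ x)) (σ x) :=
      (hφ.differentiableAt (o.mem_nhds hx)).hasDerivAt
    have g2 : HasDerivAt d (deriv d (σ x)) (σ x) :=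
      (hd.differentiableAt (o.mem_nhds hx)).hasDerivAt
    exact (g1.add (g2.const_mul (c x))).deriv
  simp only [e1]

theorem ana_TPt_gen {δ h C V Cs η : ℝ} {X G m e Pi : ℂ → ℂ} (hB : BaseA δ h C X G)
    (hS : Small V Cs η m e Pi) {φ d r dr : ℂ → ℂ} (hφ : DifferentiableOn ℂ φ (Dom (h / 4)))
    (hd : DifferentiableOn ℂ d (Dom (h / 4))) (hr : DifferentiableOn ℂ r (Dom (h / 4)))
    (hdr : DifferentiableOn ℂ dr (Dom (h / 4))) {c s t : E → ℂ} {p : E}
    (hc : AnalyticAt ℂ c p) (hs : AnalyticAt ℂ s p) (ht : AnalyticAt ℂ t p)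
    (φ' r' : ℂ → ℂ) (hφ' : φ' = fun z => φ z + c p * d z) (hr' : r' = fun z => r z + c p * dr z)
    (h0 : s p ∈ Dom (h / 4))
    (h1 : s p + δ + φ' (s p) ∈ Strip h)
    (hV1 : ‖X (s p + δ + φ' (s p)) - X (s p)‖ < V)
    (h2 : s p + δ + φ' (s p) + t p * (η * (R0 X G δ (s p) + r' (s p))) ∈ Dom (h / 4))
    (h3 : s p + δ + φ' (s p) + t p * (η * (R0 X G δ (s p) + r' (s p))) + δ +
      φ' (s p + δ + φ' (s p) + t p * (η * (R0 X G δ (s p) + r' (s p)))) ∈ Strip h)
    (h4 : ‖X (s p + δ + φ' (s p) + t p * (η * (R0 X G δ (s p) + r' (s p))) + δ +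
      φ' (s p + δ + φ' (s p) + t p * (η * (R0 X G δ (s p) + r' (s p))))) -
      X (s p + δ + φ' (s p) + t p * (η * (R0 X G δ (s p) + r' (s p))))‖ < V)
    (h5 : ‖X (s p + δ + φ' (s p) + t p * (η * (R0 X G δ (s p) + r' (s p))) + δ +
      φ' (s p + δ + φ' (s p) + t p * (η * (R0 X G δ (s p) + r' (s p))))) -
      X (s p + δ + φ' (s p))‖ < V) :
    AnalyticAt ℂ (fun x => TPt X G m e Pi δ η (fun z => φ z + c x * d z)
      (fun z => r z + c x * dr z) (s x) (t x)) p := by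
  have o := Dom_open (h / 4)
  have hh := hB.hpos
  subst hφ' hr'
  have b1 := ana_comp_set o hφ hs h0
  have b2 := ana_comp_set o hd hs h0
  have b3 := ana_comp_set o hr hs h0
  have b4 := ana_comp_set o hdr hs h0
  have hφs : AnalyticAt ℂ (fun x => φ (s x) + c x * d (s x)) p := b1.add (hc.mul b2)
  have hrs : AnalyticAt ℂ (fun x => r (s x) + c x * dr (s x)) p := b3.add (hc.mul b4)
  have hR0 := ana_R0 hB hs (Dom_sub_Strip_h hh h0)
  have hRb : AnalyticAt ℂ (fun x => R0 X G δ (s x) + (r (s x) + c x * dr (s x))) p := hR0.add hrs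
  have hy : AnalyticAt ℂ (fun x => s x + δ + (φ (s x) + c x * d (s x))) p :=
    (hs.add analyticAt_const).add hφs
  have hσ : AnalyticAt ℂ (fun x => s x + δ + (φ (s x) + c x * d (s x)) +
      t x * (η * (R0 X G δ (s x) + (r (s x) + c x * dr (s x))))) p :=
    hy.add (ht.mul (analyticAt_const.mul hRb))
  have hN := ana_NN_gen hB hS hφ hd hc hy hσ h1 h2 h3 h4 h5
  exact ana_TPv hB hS hs hφs hRb hN (Dom_sub_Strip_h hh h0) h1 hV1

theorem ana_TR_gen {δ h C V Cs η : ℝ} {X G m e Pi : ℂ → ℂ} (hB : BaseA δ h C X G)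
    (hη : 0 < η)
    (hS : Small V Cs η m e Pi) {φ d r dr : ℂ → ℂ} (hφ : DifferentiableOn ℂ φ (Dom (h / 4)))
    (hd : DifferentiableOn ℂ d (Dom (h / 4))) (hr : DifferentiableOn ℂ r (Dom (h / 4)))
    (hdr : DifferentiableOn ℂ dr (Dom (h / 4))) {c s : E → ℂ} {p : E}
    (hc : AnalyticAt ℂ c p) (hs : AnalyticAt ℂ s p)
    (φ' r' : ℂ → ℂ) (hφ' : φ' = fun z => φ z + c p * d z) (hr' : r' = fun z => r z + c p * dr z)
    (h0 : s p ∈ Dom (h / 4))
    (h1 : s p + δ + φ' (s p) ∈ Strip h)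
    (h2 : s p + δ + φ' (s p) + (η * (R0 X G δ (s p) + r' (s p))) ∈ Dom (h / 4))
    (h3 : s p + δ + φ' (s p) + (η * (R0 X G δ (s p) + r' (s p))) + δ +
      φ' (s p + δ + φ' (s p) + (η * (R0 X G δ (s p) + r' (s p)))) ∈ Strip h)
    (h4 : ‖X (s p + δ + φ' (s p) + (η * (R0 X G δ (s p) + r' (s p))) + δ +
      φ' (s p + δ + φ' (s p) + (η * (R0 X G δ (s p) + r' (s p))))) -
      X (s p + δ + φ' (s p) + (η * (R0 X G δ (s p) + r' (s p))))‖ < V)
    (h5 : ‖X (s p + δ + φ' (s p) + (η * (R0 X G δ (s p) + r' (s p))) + δ +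
      φ' (s p + δ + φ' (s p) + (η * (R0 X G δ (s p) + r' (s p))))) -
      X (s p + δ + φ' (s p))‖ < V) :
    AnalyticAt ℂ (fun x => TR X G m e δ η (fun z => φ z + c x * d z)
      (fun z => r z + c x * dr z) (s x)) p := by
  have o := Dom_open (h / 4)
  have oS := Strip_open h
  have hh := hB.hpos
  subst hφ' hr'
  have b1 := ana_comp_set o hφ hs h0
  have b2 := ana_comp_set o hd hs h0
  have b3 := ana_comp_set o hr hs h0
  have b4 := ana_comp_set o hdr hs h0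
  have hφs : AnalyticAt ℂ (fun x => φ (s x) + c x * d (s x)) p := b1.add (hc.mul b2)
  have hrs : AnalyticAt ℂ (fun x => r (s x) + c x * dr (s x)) p := b3.add (hc.mul b4)
  have hsS := Dom_sub_Strip_h hh h0
  have hR0 := ana_R0 hB hs hsS
  have hRb : AnalyticAt ℂ (fun x => R0 X G δ (s x) + (r (s x) + c x * dr (s x))) p := hR0.add hrs
  have hy : AnalyticAt ℂ (fun x => s x + δ + (φ (s x) + c x * d (s x))) p :=
    (hs.add analyticAt_const).add hφs
  have hσ : AnalyticAt ℂ (fun x => s x + δ + (φ (s x) + c x * d (s x)) +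
      (η * (R0 X G δ (s x) + (r (s x) + c x * dr (s x))))) p :=
    hy.add (analyticAt_const.mul hRb)
  have hN := ana_NN_gen hB hS hφ hd hc hy hσ h1 h2 h3 h4 h5
  have i2 : s p + δ ∈ Strip h := by
    have : |(s p).im| < h := hsS
    show |(s p + (δ:ℂ)).im| < h
    simpa using this
  have i3 : s p + 2 * δ ∈ Strip h := by
    have : |(s p).im| < h := hsS
    show |(s p + 2 * (δ:ℂ)).im| < h
    simpa using this
  have d1 := ana_deriv_comp_set (g := fun x => s x + (δ:ℂ)) oS hB.dX (hs.add analyticAt_const) i2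
  have d2 := ana_deriv_comp_set (g := fun x => s x + 2 * (δ:ℂ)) oS hB.dX
    (hs.add analyticAt_const) i3
  unfold TR
  refine hrs.add (hN.div ((analyticAt_const.mul d1).mul d2) ?_)
  have hη' : (η : ℂ) ≠ 0 := by exact_mod_cast hη.ne'
  exact mul_ne_zero (mul_ne_zero hη' (X1_ne hB i2)) (X1_ne hB i3)

end

end TC
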