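import Mathlib
import Pool.Agent.Helper822.TC.Gen
import Pool.Agent.Helper822.TC.FP

set_option autoImplicit false

open Complex Set Metric Filter Topology

namespace TC

/-- conclusion of `sup_bound` for fixed data -/
def SupB (δ h V η K₁ K₂ : ℝ) (X G m e Pi : ℂ → ℂ) : Prop :=
  ∀ φ r : ℂ → ℂ, DifferentiableOn ℂ φ (Dom (h / 4)) →
      (∀ z ∈ Dom (h / 4), ‖φ z‖ ≤ 4 * (K₁ * η) * om z) →
      (∀ z ∈ Dom (h / 4), ‖r z‖ ≤ 4 * (K₂ * η) * om z) →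
      ∀ s ∈ Dom (h / 4),
        (∀ t : ℝ, t ∈ Icc (0:ℝ) 1 → 
          ‖TPt X G m e Pi δ η φ r s t‖ ≤ K₁ * η * om s ∧
          s + δ + φ s ∈ Strip h ∧
          ‖X (s + δ + φ s) - X s‖ < V ∧
          (s + δ + φ s + t * (η * (R0 X G δ s + r s)) ∈ Dom (h / 4)) ∧
          (s + δ + φ s + t * (η * (R0 X G δ s + r s)) + δ +
            φ (s + δ + φ s + t * (η * (R0 X G δ s + r s)))) ∈ Strip h ∧
          ‖X (s + δ + φ s + t * (η * (R0 X G δ s + r s)) + δ +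
            φ (s + δ + φ s + t * (η * (R0 X G δ s + r s)))) -
            X (s + δ + φ s + t * (η * (R0 X G δ s + r s)))‖ < V ∧
          ‖X (s + δ + φ s + t * (η * (R0 X G δ s + r s)) + δ +
            φ (s + δ + φ s + t * (η * (R0 X G δ s + r s)))) - X (s + δ + φ s)‖ < V) ∧
        ‖TR X G m e δ η φ r s‖ ≤ K₂ * η * om s ∧
        ‖η * (R0 X G δ s + r s)‖ ≤ K₂ * η * om s

theorem contraction {δ h C V Cs η K₁ K₂ : ℝ} {X G m e Pi : ℂ → ℂ} (hB : BaseA δ h C X G)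
    (hη : 0 < η) (hK₁ : 0 < K₁) (hK₂ : 0 < K₂)
    (hS : Small V Cs η m e Pi) (hsup : SupB δ h V η K₁ K₂ X G m e Pi)
    {φ r φ' r' : ℂ → ℂ} {ε : ℝ} (hε : 0 < ε) (hε2 : ε ≤ 2)
    (dφ : DifferentiableOn ℂ φ (Dom (h / 4))) (dr : DifferentiableOn ℂ r (Dom (h / 4)))
    (dφ' : DifferentiableOn ℂ φ' (Dom (h / 4))) (dr' : DifferentiableOn ℂ r' (Dom (h / 4)))
    (bφ : ∀ z ∈ Dom (h / 4), ‖φ z‖ ≤ K₁ * η * om z)
    (br : ∀ z ∈ Dom (h / 4), ‖r z‖ ≤ K₂ * η * om z)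
    (e1 : ∀ z ∈ Dom (h / 4), ‖φ z - φ' z‖ ≤ ε * (K₁ * η) * om z)
    (e2 : ∀ z ∈ Dom (h / 4), ‖r z - r' z‖ ≤ ε * (K₂ * η) * om z) :
    ∀ s ∈ Dom (h / 4),
      (∀ t : ℝ, t ∈ Icc (0:ℝ) 1 → 
        ‖TPt X G m e Pi δ η φ r s t - TPt X G m e Pi δ η φ' r' s t‖ ≤
          2 / 3 * ε * (K₁ * η) * om s) ∧
      ‖TR X G m e δ η φ r s - TR X G m e δ η φ' r' s‖ ≤ 2 / 3 * ε * (K₂ * η) * om s := by
  intro s hs
  have hos := om_pos s
  -- the family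
  set d : ℂ → ℂ := fun z => φ' z - φ z with hd
  set d2 : ℂ → ℂ := fun z => r' z - r z with hd2
  have dd : DifferentiableOn ℂ d (Dom (h / 4)) := dφ'.sub dφ
  have dd2 : DifferentiableOn ℂ d2 (Dom (h / 4)) := dr'.sub dr
  have fam1 : ∀ ζ : ℂ, ζ ∈ ball (0:ℂ) (3 / ε) → DifferentiableOn ℂ (fun z => φ z + ζ * d z)
      (Dom (h / 4)) := fun ζ _ => dφ.add (dd.const_mul ζ)
  have hζn : ∀ ζ : ℂ, ζ ∈ ball (0:ℂ) (3 / ε) → ‖ζ‖ * ε ≤ 3 := by
    intro ζ hζ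
    rw [mem_ball_zero_iff, lt_div_iff₀ hε] at hζ
    exact hζ.le
  have fam2 : ∀ ζ : ℂ, ζ ∈ ball (0:ℂ) (3 / ε) → ∀ z ∈ Dom (h / 4),
      ‖φ z + ζ * d z‖ ≤ 4 * (K₁ * η) * om z := by
    intro ζ hζ z hz
    refine (norm_add_le _ _).trans ?_
    rw [norm_mul]
    have h1 := bφ z hz
    have h2 : ‖d z‖ ≤ ε * (K₁ * η) * om z := by
      have := e1 z hz
      rw [hd]
      simpa [norm_sub_rev] using this
    have h3 : ‖ζ‖ * ‖d z‖ ≤ ‖ζ‖ * (ε * (K₁ * η) * om z) :=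
      mul_le_mul_of_nonneg_left h2 (norm_nonneg _)
    have h4 : ‖ζ‖ * (ε * (K₁ * η) * om z) ≤ 3 * ((K₁ * η) * om z) := by
      have : ‖ζ‖ * (ε * (K₁ * η) * om z) = (‖ζ‖ * ε) * ((K₁ * η) * om z) := by ring
      rw [this]
      exact mul_le_mul_of_nonneg_right (hζn ζ hζ) (mul_pos (mul_pos hK₁ hη) (om_pos z)).le
    linarith
  have fam3 : ∀ ζ : ℂ, ζ ∈ ball (0:ℂ) (3 / ε) → ∀ z ∈ Dom (h / 4),
      ‖r z + ζ * d2 z‖ ≤ 4 * (K₂ * η) * om z := by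
    intro ζ hζ z hz
    refine (norm_add_le _ _).trans ?_
    rw [norm_mul]
    have h1 := br z hz
    have h2 : ‖d2 z‖ ≤ ε * (K₂ * η) * om z := by
      have := e2 z hz
      rw [hd2]
      simpa [norm_sub_rev] using this
    have h3 : ‖ζ‖ * ‖d2 z‖ ≤ ‖ζ‖ * (ε * (K₂ * η) * om z) :=
      mul_le_mul_of_nonneg_left h2 (norm_nonneg _)
    have h4 : ‖ζ‖ * (ε * (K₂ * η) * om z) ≤ 3 * ((K₂ * η) * om z) := by
      have : ‖ζ‖ * (ε * (K₂ * η) * om z) = (‖ζ‖ * ε) * ((K₂ * η) * om z) := by ring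
      rw [this]
      exact mul_le_mul_of_nonneg_right (hζn ζ hζ) (mul_pos (mul_pos hK₂ hη) (om_pos z)).le
    linarith
  have sup : ∀ ζ : ℂ, ζ ∈ ball (0:ℂ) (3 / ε) → _ := fun ζ hζ =>
    hsup (fun z => φ z + ζ * d z) (fun z => r z + ζ * d2 z) (fam1 ζ hζ) (fam2 ζ hζ) (fam3 ζ hζ) s hs
  have m0 : (0:ℂ) ∈ ball (0:ℂ) (3 / ε) := mem_ball_self (by positivity)
  have m1 : (1:ℂ) ∈ ball (0:ℂ) (3 / ε) := by
    rw [mem_ball_zero_iff, norm_one, lt_div_iff₀ hε]; linarith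
  have f0 : (fun z => φ z + (0:ℂ) * d z) = φ := by funext z; ring
  have f0' : (fun z => r z + (0:ℂ) * d2 z) = r := by funext z; ring
  have f1 : (fun z => φ z + (1:ℂ) * d z) = φ' := by funext z; simp only [hd]; ring
  have f1' : (fun z => r z + (1:ℂ) * d2 z) = r' := by funext z; simp only [hd2]; ring
  have schwarz : ∀ (g : ℂ → ℂ) (B : ℝ), DifferentiableOn ℂ g (ball 0 (3 / ε)) →
      (∀ ζ ∈ ball (0:ℂ) (3 / ε), ‖g ζ‖ ≤ B) → ‖g 0 - g 1‖ ≤ 2 / 3 * ε * B := by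
    intro g B hg hb
    have hmaps : MapsTo g (ball 0 (3 / ε)) (closedBall (g 0) (2 * B)) := by
      intro ζ hζ
      rw [mem_closedBall, dist_eq_norm]
      refine (norm_sub_le _ _).trans ?_
      have := hb ζ hζ
      have := hb 0 m0
      linarith
    have := dist_le_div_mul_dist_of_mapsTo_ball hg hmaps m1
    rw [dist_eq_norm, dist_eq_norm, sub_zero, norm_one, mul_one, norm_sub_rev] at this
    refine this.trans (le_of_eq ?_)
    field_simp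
  refine ⟨?_, ?_⟩
  · intro t ht
    have hd0 : DifferentiableOn ℂ (fun ζ => TPt X G m e Pi δ η (fun z => φ z + ζ * d z)
        (fun z => r z + ζ * d2 z) s t) (ball 0 (3 / ε)) := by
      intro ζ hζ
      obtain ⟨-, g1, g2, g3, g4, g5, g6⟩ := (sup ζ hζ).1 t ht
      have := ana_TPt_gen (E := ℂ) (p := ζ) (c := fun x => x) (s := fun _ => s)
        (t := fun _ => (t : ℂ)) hB hS dφ dd dr dd2 analyticAt_id analyticAt_const
        analyticAt_const _ _ rfl rfl hs g1 g2 g3 g4 g5 g6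
      exact this.differentiableAt.differentiableWithinAt
    have := schwarz _ (K₁ * η * om s) hd0 (fun ζ hζ => ((sup ζ hζ).1 t ht).1)
    simp only [f0, f0', f1, f1'] at this
    calc _ ≤ _ := this
      _ = _ := by ring
  · have hd0 : DifferentiableOn ℂ (fun ζ => TR X G m e δ η (fun z => φ z + ζ * d z)
        (fun z => r z + ζ * d2 z) s) (ball 0 (3 / ε)) := by
      intro ζ hζ
      obtain ⟨-, g1, g2, g3, g4, g5, g6⟩ := (sup ζ hζ).1 1 ⟨by norm_num, by norm_num⟩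
      simp only [ofReal_one, one_mul] at g3 g4 g5 g6
      have := ana_TR_gen (E := ℂ) (p := ζ) (c := fun x => x) (s := fun _ => s)
        hB hη hS dφ dd dr dd2 analyticAt_id analyticAt_const
        _ _ rfl rfl hs g1 g3 g4 g5 g6
      exact this.differentiableAt.differentiableWithinAt
    have := schwarz _ (K₂ * η * om s) hd0 (fun ζ hζ => (sup ζ hζ).2.1)
    simp only [f0, f0', f1, f1'] at this
    calc _ ≤ _ := this
      _ = _ := by ring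

end TC
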