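import Mathlib

set_option autoImplicit false

open Set

namespace TC

/-- analyticity of a parameter integral (adapted from `Pool.Agent.Helper284.CPC`) -/
theorem param_analytic (H : ℂ × ℂ → ℂ) (z0 : ℂ) (a b : ℝ) (hab : a ≤ b)
    (hH : ∀ φ ∈ Icc a b, AnalyticAt ℂ H (z0, (φ:ℂ))) :
    AnalyticAt ℂ (fun z => ∫ φ in a..b, H (z, (φ:ℂ))) z0 := by
  have hUo : IsOpen {q | AnalyticAt ℂ H q} := isOpen_analyticAt ℂ H
  have hK : IsCompact (Complex.ofReal '' Icc a b) :=
    isCompact_Icc.image Complex.continuous_ofReal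
  obtain ⟨u, v, huo, hvo, hsu, htv, huv⟩ := generalized_tube_lemma (isCompact_singleton (x := z0))
    hK hUo (by
      rintro ⟨x, y⟩ ⟨hx, hy⟩
      simp only [mem_singleton_iff] at hx
      obtain ⟨φ, hφ, hφy⟩ := hy
      subst hx
      have := hH φ hφ
      simp only at hφy
      rw [← hφy]
      exact this)
  have hz0u : z0 ∈ u := hsu rfl
  obtain ⟨r, hr, hru⟩ := Metric.isOpen_iff.1 huo z0 hz0u
  have hr2 : (0:ℝ) < r / 2 := by linarith
  have hcb : Metric.closedBall z0 (r/2) ⊆ u := by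
    intro x hx
    apply hru
    rw [Metric.mem_closedBall] at hx
    rw [Metric.mem_ball]
    linarith
  have hanal : ∀ z ∈ Metric.closedBall z0 (r/2), ∀ φ ∈ Icc a b, AnalyticAt ℂ H (z, (φ:ℂ)) := by
    intro z hz φ hφ
    exact huv (show (z, (φ:ℂ)) ∈ u ×ˢ v from ⟨hcb hz, htv ⟨φ, hφ, rfl⟩⟩)
  have hcpt : IsCompact (Metric.closedBall z0 (r/2) ×ˢ (Complex.ofReal '' Icc a b)) :=
    (isCompact_closedBall z0 (r/2)).prod hK
  have hDcont : ContinuousOn (fun q : ℂ × ℂ => fderiv ℂ H q ((1:ℂ), (0:ℂ)))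
      (Metric.closedBall z0 (r/2) ×ˢ (Complex.ofReal '' Icc a b)) := by
    intro q hq
    obtain ⟨h1, φ, hφ, h2⟩ := hq
    have : AnalyticAt ℂ H q := by
      have := hanal q.1 h1 φ hφ
      rw [h2] at this
      exact this
    exact (this.fderiv.continuousAt.clm_apply continuousAt_const).continuousWithinAt
  obtain ⟨C, hC⟩ := hcpt.exists_bound_of_continuousOn hDcont
  have hIoc : ∀ {t : ℝ}, t ∈ Set.uIoc a b → t ∈ Icc a b := by
    intro t ht
    rw [Set.uIoc_of_le hab] at ht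
    exact ⟨ht.1.le, ht.2⟩
  have key : ∀ z ∈ Metric.ball z0 (r/2), HasDerivAt (fun z => ∫ φ in a..b, H (z, (φ:ℂ)))
      (∫ φ in a..b, fderiv ℂ H (z, (φ:ℂ)) ((1:ℂ), (0:ℂ))) z := by
    intro z hz
    have hcontφ : ∀ z ∈ Metric.closedBall z0 (r/2),
        ContinuousOn (fun φ : ℝ => H (z, (φ:ℂ))) (Icc a b) := by
      intro z hz φ hφ
      have h1 : ContinuousAt H (z, (φ:ℂ)) := (hanal z hz φ hφ).continuousAt
      have h2 : ContinuousAt (fun φ : ℝ => (z, (φ:ℂ))) φ := by fun_prop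
      exact (ContinuousAt.comp (f := fun φ : ℝ => (z, (φ:ℂ))) (g := H) h1 h2).continuousWithinAt
    have hcontD : ∀ z ∈ Metric.closedBall z0 (r/2),
        ContinuousOn (fun φ : ℝ => fderiv ℂ H (z, (φ:ℂ)) ((1:ℂ), (0:ℂ))) (Icc a b) := by
      intro z hz φ hφ
      have h1 : ContinuousAt (fun q : ℂ × ℂ => fderiv ℂ H q ((1:ℂ), (0:ℂ))) (z, (φ:ℂ)) :=
        ((hanal z hz φ hφ).fderiv.continuousAt.clm_apply continuousAt_const)
      have h2 : ContinuousAt (fun φ : ℝ => (z, (φ:ℂ))) φ := by fun_prop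
      exact (ContinuousAt.comp (f := fun φ : ℝ => (z, (φ:ℂ)))
        (g := fun q : ℂ × ℂ => fderiv ℂ H q ((1:ℂ), (0:ℂ))) h1 h2).continuousWithinAt
    have hballcl : ∀ z ∈ Metric.ball z0 (r/2), z ∈ Metric.closedBall z0 (r/2) :=
      fun z hz => Metric.ball_subset_closedBall hz
    refine (intervalIntegral.hasDerivAt_integral_of_dominated_loc_of_deriv_le
      (F := fun z φ => H (z, (φ:ℂ))) (F' := fun z φ => fderiv ℂ H (z, (φ:ℂ)) ((1:ℂ), (0:ℂ)))
      (s := Metric.ball z0 (r/2)) (bound := fun _ => C)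
      (Metric.isOpen_ball.mem_nhds hz) ?_ ?_ ?_ ?_ ?_ ?_).2
    · filter_upwards [Metric.isOpen_ball.mem_nhds hz] with x hx
      have := hcontφ x (hballcl x hx)
      rw [Set.uIoc_of_le hab]
      exact (this.mono Ioc_subset_Icc_self).aestronglyMeasurable measurableSet_Ioc
    · apply ContinuousOn.intervalIntegrable
      rw [Set.uIcc_of_le hab]
      exact hcontφ z (hballcl z hz)
    · have := hcontD z (hballcl z hz)
      rw [Set.uIoc_of_le hab]
      exact (this.mono Ioc_subset_Icc_self).aestronglyMeasurable measurableSet_Ioc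
    · refine Filter.Eventually.of_forall ?_
      intro t ht x hx
      exact hC (x, (t:ℂ)) ⟨hballcl x hx, t, hIoc ht, rfl⟩
    · exact intervalIntegrable_const
    · refine Filter.Eventually.of_forall ?_
      intro t ht x hx
      have h1 : HasFDerivAt H (fderiv ℂ H (x, (t:ℂ))) (x, (t:ℂ)) :=
        (hanal x (hballcl x hx) t (hIoc ht)).differentiableAt.hasFDerivAt
      have h2 : HasDerivAt (fun x : ℂ => (x, (t:ℂ))) ((1:ℂ), (0:ℂ)) x :=
        (hasDerivAt_id x).prodMk (hasDerivAt_const x (t:ℂ))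
      exact h1.comp_hasDerivAt x h2
  have hdiff : DifferentiableOn ℂ (fun z => ∫ φ in a..b, H (z, (φ:ℂ))) (Metric.ball z0 (r/2)) :=
    fun z hz => (key z hz).differentiableAt.differentiableWithinAt
  exact hdiff.analyticAt (Metric.isOpen_ball.mem_nhds (Metric.mem_ball_self hr2))

end TC
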