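import Mathlib
import Pool.Agent.Helper822.TC.Contr
import Pool.Agent.Helper822.TC.ParamInt

set_option autoImplicit false

open Complex Set Metric Filter Topology

namespace TC

theorem real_mem_Dom {a : ℝ} (ha : 0 < a) (x : ℝ) : (x : ℂ) ∈ Dom a := by
  apply Strip_sub_Dom ha
  show |(x : ℂ).im| < a
  simpa using ha

theorem real_mem_Strip {a : ℝ} (ha : 0 < a) (x : ℝ) : (x : ℂ) ∈ Strip a := by
  show |(x : ℂ).im| < a
  simpa using ha

theorem im_deriv_zero {F : ℂ → ℂ} {x : ℝ} (hd : DifferentiableAt ℂ F x)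
    (hF : ∀ x : ℝ, (F x).im = 0) : (deriv F x).im = 0 := by
  have h1 : HasDerivAt F (deriv F x) (x : ℂ) := hd.hasDerivAt
  have h2 : HasDerivAt (fun t : ℝ => F t) (deriv F x) x := by
    simpa using h1.comp_ofReal
  have h3 : HasDerivAt (fun t : ℝ => (F t).im) (deriv F x).im x := by
    have := (Complex.imCLM.hasFDerivAt (x := F x)).comp_hasDerivAt x h2
    exact this
  have h4 : (fun t : ℝ => (F t).im) = fun _ => 0 := by funext t; exact hF t
  rw [h4] at h3
  exact h3.unique (hasDerivAt_const x (0:ℝ))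

/-- real part equality for numbers with zero imaginary part -/
theorem eq_re {z : ℂ} (h : z.im = 0) : z = (z.re : ℂ) := by
  apply Complex.ext <;> simp [h]

theorem im0_comp {F : ℂ → ℂ} (hF : ∀ x : ℝ, (F x).im = 0) {z : ℂ} (h : z.im = 0) :
    (F z).im = 0 := by
  rw [eq_re h]; exact hF _

theorem im0_add {z w : ℂ} (h : z.im = 0) (h' : w.im = 0) : (z + w).im = 0 := by simp [h, h']
theorem im0_sub {z w : ℂ} (h : z.im = 0) (h' : w.im = 0) : (z - w).im = 0 := by simp [h, h']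
theorem im0_mul {z w : ℂ} (h : z.im = 0) (h' : w.im = 0) : (z * w).im = 0 := by simp [h, h']
theorem im0_div {z w : ℂ} (h : z.im = 0) (h' : w.im = 0) : (z / w).im = 0 := by
  rw [eq_re h, eq_re h', ← Complex.ofReal_div]; simp
theorem im0_pow {z : ℂ} (h : z.im = 0) (n : ℕ) : (z ^ n).im = 0 := by
  rw [eq_re h, ← Complex.ofReal_pow]; exact Complex.ofReal_im _
theorem im0_real (x : ℝ) : (x : ℂ).im = 0 := Complex.ofReal_im x

theorem im0_DD {δ h C : ℝ} {X G : ℂ → ℂ} (hB : BaseA δ h C X G) {s : ℂ} (hs : s.im = 0) :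
    (DD X G δ s).im = 0 := by
  have dX1 : ∀ x : ℝ, (deriv X x).im = 0 := fun x => im_deriv_zero
    (hB.dX.differentiableAt ((Strip_open h).mem_nhds (real_mem_Strip hB.hpos x))) hB.reX
  have dG1 : ∀ x : ℝ, (deriv G x).im = 0 := fun x => im_deriv_zero
    (hB.dG.differentiableAt ((Strip_open h).mem_nhds (real_mem_Strip hB.hpos x))) hB.reG
  unfold DD
  have h1 := im0_add hs (im0_real δ)
  exact im0_sub (im0_mul (im0_mul (by norm_num) (im0_pow (im0_sub (im0_comp hB.reX h1)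
    (im0_comp hB.reX hs)) 2)) (im0_comp dX1 h1)) (im0_comp dG1 h1)

theorem im0_R0 {δ h C : ℝ} {X G : ℂ → ℂ} (hB : BaseA δ h C X G) {s : ℂ} (hs : s.im = 0) :
    (R0 X G δ s).im = 0 := by
  have dX1 : ∀ x : ℝ, (deriv X x).im = 0 := fun x => im_deriv_zero
    (hB.dX.differentiableAt ((Strip_open h).mem_nhds (real_mem_Strip hB.hpos x))) hB.reX
  have dG1 : ∀ x : ℝ, (deriv G x).im = 0 := fun x => im_deriv_zero
    (hB.dG.differentiableAt ((Strip_open h).mem_nhds (real_mem_Strip hB.hpos x))) hB.reG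
  unfold R0
  have h1 := im0_add hs (im0_real δ)
  have h2 : (s + 2 * (δ : ℂ)).im = 0 := im0_add hs (im0_mul (by norm_num) (im0_real δ))
  exact im0_div (im0_sub (im0_mul (im0_mul (by norm_num) (im0_pow (im0_sub
    (im0_comp hB.reX h2) (im0_comp hB.reX h1)) 2)) (im0_comp dX1 h1)) (im0_comp dG1 h1))
    (im0_mul (im0_comp dX1 h1) (im0_comp dX1 h2))

theorem im0_NN {δ h C V Cs η : ℝ} {X G m e Pi : ℂ → ℂ} (hB : BaseA δ h C X G)
    (hS : Small V Cs η m e Pi) {φ : ℂ → ℂ} (hφ : DifferentiableOn ℂ φ (Dom (h / 4)))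
    (rφ : ∀ x : ℝ, (φ x).im = 0) {y σ : ℂ} (hy : y.im = 0) (hσ : σ.im = 0) :
    (NN X G m e δ η φ y σ).im = 0 := by
  have hh := hB.hpos
  have dX1 : ∀ x : ℝ, (deriv X x).im = 0 := fun x => im_deriv_zero
    (hB.dX.differentiableAt ((Strip_open h).mem_nhds (real_mem_Strip hB.hpos x))) hB.reX
  have dG1 : ∀ x : ℝ, (deriv G x).im = 0 := fun x => im_deriv_zero
    (hB.dG.differentiableAt ((Strip_open h).mem_nhds (real_mem_Strip hB.hpos x))) hB.reG
  have dφ1 : ∀ x : ℝ, (deriv φ x).im = 0 := fun x => im_deriv_zero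
    (hφ.differentiableAt ((Dom_open _).mem_nhds (real_mem_Dom (by positivity) x))) rφ
  unfold NN Nv
  have hf : (σ + δ + φ σ).im = 0 := im0_add (im0_add hσ (im0_real δ)) (im0_comp rφ hσ)
  have v1 := im0_sub (im0_comp hB.reX hf) (im0_comp hB.reX hσ)
  have v2 := im0_sub (im0_comp hB.reX hf) (im0_comp hB.reX hy)
  exact im0_add (im0_mul (im0_real η) (im0_sub (im0_mul (im0_mul (by norm_num)
    (im0_comp hS.ree v1)) (im0_comp dX1 hσ)) (im0_comp dG1 hσ)))
    (im0_mul (im0_mul (im0_sub (im0_comp hS.rem v1) (im0_comp hS.rem v2)) (im0_comp dX1 hf))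
      (im0_add (by norm_num) (im0_comp dφ1 hσ)))

theorem im0_TPt {δ h C V Cs η : ℝ} {X G m e Pi : ℂ → ℂ} (hB : BaseA δ h C X G)
    (hS : Small V Cs η m e Pi) {φ r : ℂ → ℂ} (hφ : DifferentiableOn ℂ φ (Dom (h / 4)))
    (rφ : ∀ x : ℝ, (φ x).im = 0) (rr : ∀ x : ℝ, (r x).im = 0) (x t : ℝ) :
    (TPt X G m e Pi δ η φ r x t).im = 0 := by
  unfold TPt TPv
  have hx := im0_real x
  have hy : ((x : ℂ) + δ + φ x).im = 0 := im0_add (im0_add hx (im0_real δ)) (rφ x)
  have hR : (R0 X G δ x + r x).im = 0 := im0_add (im0_R0 hB hx) (rr x)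
  have hσ : ((x : ℂ) + δ + φ x + t * (η * (R0 X G δ x + r x))).im = 0 :=
    im0_add hy (im0_mul (im0_real t) (im0_mul (im0_real η) hR))
  have hN := im0_NN hB hS hφ rφ hy hσ
  exact im0_sub (rφ x) (im0_div (im0_add (im0_add (im0_sub
    (im0_comp hS.rePi (im0_sub (im0_comp hB.reX hy) (hB.reX x))) (im0_comp hB.reG hy))
    (hB.reG x)) (im0_mul hR hN)) (im0_DD hB hx))

theorem im0_TP {δ h C V Cs η : ℝ} {X G m e Pi : ℂ → ℂ} (hB : BaseA δ h C X G)
    (hS : Small V Cs η m e Pi) {φ r : ℂ → ℂ} (hφ : DifferentiableOn ℂ φ (Dom (h / 4)))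
    (rφ : ∀ x : ℝ, (φ x).im = 0) (rr : ∀ x : ℝ, (r x).im = 0) (x : ℝ) :
    (TP X G m e Pi δ η φ r x).im = 0 := by
  unfold TP
  have : ∀ t : ℝ, TPt X G m e Pi δ η φ r x t = ((TPt X G m e Pi δ η φ r x t).re : ℂ) :=
    fun t => eq_re (im0_TPt hB hS hφ rφ rr x t)
  have h2 : (∫ t in (0:ℝ)..1, TPt X G m e Pi δ η φ r x t) =
      ∫ t in (0:ℝ)..1, (((TPt X G m e Pi δ η φ r x t).re : ℝ) : ℂ) := by
    congr 1; funext t; exact this t
  rw [h2, intervalIntegral.integral_ofReal]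
  exact Complex.ofReal_im _

theorem im0_TR {δ h C V Cs η : ℝ} {X G m e Pi : ℂ → ℂ} (hB : BaseA δ h C X G)
    (hS : Small V Cs η m e Pi) {φ r : ℂ → ℂ} (hφ : DifferentiableOn ℂ φ (Dom (h / 4)))
    (rφ : ∀ x : ℝ, (φ x).im = 0) (rr : ∀ x : ℝ, (r x).im = 0) (x : ℝ) :
    (TR X G m e δ η φ r x).im = 0 := by
  have dX1 : ∀ x : ℝ, (deriv X x).im = 0 := fun x => im_deriv_zero
    (hB.dX.differentiableAt ((Strip_open h).mem_nhds (real_mem_Strip hB.hpos x))) hB.reX
  unfold TR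
  have hx := im0_real x
  have hy : ((x : ℂ) + δ + φ x).im = 0 := im0_add (im0_add hx (im0_real δ)) (rφ x)
  have hR : (R0 X G δ x + r x).im = 0 := im0_add (im0_R0 hB hx) (rr x)
  have hσ : ((x : ℂ) + δ + φ x + (η * (R0 X G δ x + r x))).im = 0 :=
    im0_add hy (im0_mul (im0_real η) hR)
  have hN := im0_NN hB hS hφ rφ hy hσ
  exact im0_add (rr x) (im0_div hN (im0_mul (im0_mul (im0_real η)
    (im0_comp dX1 (im0_add hx (im0_real δ)))) (im0_comp dX1 (im0_add hx
      (im0_mul (by norm_num) (im0_real δ))))))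

theorem hol_TP {δ h C V Cs η K₁ K₂ : ℝ} {X G m e Pi : ℂ → ℂ} (hB : BaseA δ h C X G)
    (hS : Small V Cs η m e Pi) (hsup : SupB δ h V η K₁ K₂ X G m e Pi)
    {φ r : ℂ → ℂ}
    (dφ : DifferentiableOn ℂ φ (Dom (h / 4))) (dr : DifferentiableOn ℂ r (Dom (h / 4)))
    (bφ : ∀ z ∈ Dom (h / 4), ‖φ z‖ ≤ 4 * (K₁ * η) * om z)
    (br : ∀ z ∈ Dom (h / 4), ‖r z‖ ≤ 4 * (K₂ * η) * om z) :
    ∀ s ∈ Dom (h / 4), (∀ t : ℝ, t ∈ Icc (0:ℝ) 1 → AnalyticAt ℂ
      (fun q : ℂ × ℂ => TPt X G m e Pi δ η φ r q.1 q.2) (s, (t : ℂ))) ∧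
      AnalyticAt ℂ (TP X G m e Pi δ η φ r) s := by
  intro s hs
  have key : ∀ t : ℝ, t ∈ Icc (0:ℝ) 1 → AnalyticAt ℂ
      (fun q : ℂ × ℂ => TPt X G m e Pi δ η φ r q.1 q.2) (s, (t : ℂ)) := by
    intro t ht
    obtain ⟨-, g1, g2, g3, g4, g5, g6⟩ := (hsup φ r dφ bφ br s hs).1 t ht
    have := ana_TPt_gen (E := ℂ × ℂ) (p := (s, (t : ℂ))) (c := fun _ => 0)
      (s := fun q => q.1) (t := fun q => q.2) (d := fun _ => 0) (dr := fun _ => 0) hB hS dφ
      (differentiableOn_const 0) dr (differentiableOn_const 0) analyticAt_const analyticAt_fst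
      analyticAt_snd φ r (by funext z; simp) (by funext z; simp) hs g1 g2 g3 g4 g5 g6
    simpa using this
  exact ⟨key, param_analytic _ s 0 1 zero_le_one (fun t ht => key t ht)⟩

theorem hol_TR {δ h C V Cs η K₁ K₂ : ℝ} {X G m e Pi : ℂ → ℂ} (hB : BaseA δ h C X G)
    (hη : 0 < η)
    (hS : Small V Cs η m e Pi) (hsup : SupB δ h V η K₁ K₂ X G m e Pi)
    {φ r : ℂ → ℂ}
    (dφ : DifferentiableOn ℂ φ (Dom (h / 4))) (dr : DifferentiableOn ℂ r (Dom (h / 4)))
    (bφ : ∀ z ∈ Dom (h / 4), ‖φ z‖ ≤ 4 * (K₁ * η) * om z)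
    (br : ∀ z ∈ Dom (h / 4), ‖r z‖ ≤ 4 * (K₂ * η) * om z) :
    ∀ s ∈ Dom (h / 4), AnalyticAt ℂ (TR X G m e δ η φ r) s := by
  intro s hs
  obtain ⟨-, g1, g2, g3, g4, g5, g6⟩ := (hsup φ r dφ bφ br s hs).1 1 ⟨by norm_num, by norm_num⟩
  simp only [ofReal_one, one_mul] at g3 g4 g5 g6
  have := ana_TR_gen (E := ℂ) (p := s) (c := fun _ => 0) (s := fun x => x)
    (d := fun _ => 0) (dr := fun _ => 0)
    hB hη hS dφ (differentiableOn_const 0) dr (differentiableOn_const 0) analyticAt_const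
    analyticAt_id φ r (by funext z; simp) (by funext z; simp) hs g1 g3 g4 g5 g6
  simpa using this

theorem cont_NN {δ h C V Cs η K₁ K₂ : ℝ} {X G m e Pi : ℂ → ℂ} (hB : BaseA δ h C X G)
    (hS : Small V Cs η m e Pi) (hsup : SupB δ h V η K₁ K₂ X G m e Pi)
    {φ r : ℂ → ℂ}
    (dφ : DifferentiableOn ℂ φ (Dom (h / 4)))
    (bφ : ∀ z ∈ Dom (h / 4), ‖φ z‖ ≤ 4 * (K₁ * η) * om z)
    (br : ∀ z ∈ Dom (h / 4), ‖r z‖ ≤ 4 * (K₂ * η) * om z) :
    ∀ s ∈ Dom (h / 4), ContinuousOn (fun t : ℝ => NN X G m e δ η φ (s + δ + φ s)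
      (s + δ + φ s + t * (η * (R0 X G δ s + r s)))) (Icc 0 1) := by
  intro s hs t ht
  obtain ⟨-, g1, g2, g3, g4, g5, g6⟩ := (hsup φ r dφ bφ br s hs).1 t ht
  have := ana_NN_gen (E := ℂ) (p := (t : ℂ)) (c := fun _ => 0) (y := fun _ => s + δ + φ s)
    (σ := fun t => s + δ + φ s + t * (η * (R0 X G δ s + r s)))
    (d := fun _ => 0) hB hS dφ (differentiableOn_const 0) analyticAt_const
    analyticAt_const (analyticAt_const.add (analyticAt_id.mul analyticAt_const)) g1 g3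
    (by simpa using g4) (by simpa using g5) (by simpa using g6)
  have h2 : ContinuousAt (fun t : ℂ => NN X G m e δ η φ (s + δ + φ s)
      (s + δ + φ s + t * (η * (R0 X G δ s + r s)))) (t : ℂ) := by
    simpa using this.continuousAt
  exact (h2.comp (f := fun t : ℝ => (t : ℂ)) Complex.continuous_ofReal.continuousAt).continuousWithinAt

theorem A_main {δ h C V Cs : ℝ} {X G : ℂ → ℂ} (hB : BaseA δ h C X G) (hV : 2 * C < V)
    (hCs : 0 ≤ Cs) :
    ∃ K η₀ : ℝ, 0 < K ∧ 0 < η₀ ∧ ∀ (η : ℝ) (m e Pi : ℂ → ℂ), 0 < η → η ≤ η₀ →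
      Small V Cs η m e Pi → ∃ φ R : ℂ → ℂ,
      DifferentiableOn ℂ φ (Strip (h / 4)) ∧ DifferentiableOn ℂ R (Strip (h / 4)) ∧
      (∀ z ∈ Strip (h / 4), ‖φ z‖ ≤ K * η * om z) ∧
      (∀ z ∈ Strip (h / 4), ‖R z‖ ≤ K * η * om z) ∧
      (∀ x : ℝ, (φ x).im = 0) ∧ (∀ x : ℝ, (R x).im = 0) ∧
      (∀ s : ℝ, Pi (X (s + δ + φ s) - X s) - G (s + δ + φ s) + G s +
        R s / η * ∫ t in (0:ℝ)..1, NN X G m e δ η φ (s + δ + φ s) (s + δ + φ s + t * R s) = 0) ∧
      (∀ s : ℝ, NN X G m e δ η φ (s + δ + φ s) (s + δ + φ s + R s) = 0) := by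
  have hh := hB.hpos
  obtain ⟨K₁, hK₁, K₂, hK₂, η₀, hη₀, hη1, hsup0⟩ := sup_bound hB hV hCs
  refine ⟨K₁ + K₂, η₀, by positivity, hη₀, ?_⟩
  intro η m e Pi hη hηη hS
  have hsup : SupB δ h V η K₁ K₂ X G m e Pi := hsup0 η m e Pi hη hηη hS
  have four : ∀ (A : ℝ) (F : ℂ → ℂ), 0 ≤ A → (∀ z ∈ Dom (h / 4), ‖F z‖ ≤ A * om z) →
      ∀ z ∈ Dom (h / 4), ‖F z‖ ≤ 4 * A * om z := by
    intro A F hA hF z hz
    refine (hF z hz).trans ?_
    have := mul_nonneg hA (om_pos z).le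
    linarith
  have hfp := fixed_point (Ω := Dom (h / 4)) (Dom_open _) (real_mem_Dom (by positivity)) om
    (fun z _ => ⟨(om_pos z).le, om_le_one z⟩) (K₁ * η) (K₂ * η) (by positivity) (by positivity)
    (TP X G m e Pi δ η) (TR X G m e δ η) ?_ ?_
  · obtain ⟨φ, r, hgood, h1, h2⟩ := hfp
    obtain ⟨dφ, dr, bφ, br, rφ, rr⟩ := hgood
    have bφ4 := four _ _ (by positivity) bφ
    have br4 := four _ _ (by positivity) br
    have hSD : Strip (h / 4) ⊆ Dom (h / 4) := Strip_sub_Dom (by positivity)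
    refine ⟨φ, fun s => η * (R0 X G δ s + r s), dφ.mono hSD, ?_, ?_, ?_, rφ, ?_, ?_, ?_⟩
    · intro z hz
      have := ana_R0 (E := ℂ) (s := fun x => x) (p := z) hB analyticAt_id
        (Dom_sub_Strip_h hh (hSD hz))
      have h3 : DifferentiableAt ℂ r z := dr.differentiableAt ((Dom_open _).mem_nhds (hSD hz))
      exact ((this.differentiableAt.add h3).const_mul _).differentiableWithinAt
    · intro z hz
      refine (bφ z (hSD hz)).trans ?_
      have := mul_pos (mul_pos hK₂ hη) (om_pos z)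
      linarith
    · intro z hz
      refine (hsup φ r dφ bφ4 br4 z (hSD hz)).2.2.trans ?_
      have := mul_pos (mul_pos hK₁ hη) (om_pos z)
      linarith
    · intro x
      exact im0_mul (im0_real η) (im0_add (im0_R0 hB (im0_real x)) (rr x))
    · intro s
      have hs : (s : ℂ) ∈ Dom (h / 4) := real_mem_Dom (by positivity) s
      have e1 := h1 s hs
      have hD : DD X G δ (s : ℂ) ≠ 0 := DD_ne hB (Dom_sub_Strip_h hh hs)
      have hη' : (η : ℂ) ≠ 0 := by exact_mod_cast hη.ne'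
      have hc := cont_NN hB hS hsup dφ bφ4 br4 s hs
      have hint : IntervalIntegrable (fun t : ℝ => NN X G m e δ η φ (s + δ + φ s)
          (s + δ + φ s + t * (η * (R0 X G δ s + r s)))) MeasureTheory.volume 0 1 := by
        apply ContinuousOn.intervalIntegrable
        rw [uIcc_of_le zero_le_one]
        exact hc
      have e2 : TP X G m e Pi δ η φ r s = φ s - (Pi (X (s + δ + φ s) - X s) - G (s + δ + φ s)
          + G s + (R0 X G δ s + r s) * ∫ t in (0:ℝ)..1, NN X G m e δ η φ (s + δ + φ s)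
            (s + δ + φ s + t * (η * (R0 X G δ s + r s)))) / DD X G δ s := by
        unfold TP TPt TPv
        rw [intervalIntegral.integral_sub, intervalIntegral.integral_div,
          intervalIntegral.integral_add, intervalIntegral.integral_const_mul]
        · simp
        · exact intervalIntegrable_const
        · exact hint.const_mul _
        · exact intervalIntegrable_const
        · exact (intervalIntegrable_const.add (hint.const_mul _)).div_const _
      rw [e1] at e2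
      have e3 : (Pi (X (s + δ + φ s) - X s) - G (s + δ + φ s)
          + G s + (R0 X G δ s + r s) * ∫ t in (0:ℝ)..1, NN X G m e δ η φ (s + δ + φ s)
            (s + δ + φ s + t * (η * (R0 X G δ s + r s)))) / DD X G δ s = 0 := by
        linear_combination e2
      rw [div_eq_zero_iff] at e3
      rcases e3 with e3 | e3
      · have : η * (R0 X G δ s + r s) / η = R0 X G δ s + r s := by field_simp
        rw [this]
        exact e3
      · exact absurd e3 hD
    · intro s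
      have hs : (s : ℂ) ∈ Dom (h / 4) := real_mem_Dom (by positivity) s
      have e1 := h2 s hs
      have hη' : (η : ℂ) ≠ 0 := by exact_mod_cast hη.ne'
      have i2 : (s : ℂ) + δ ∈ Strip h := by
        have := real_mem_Strip hh (s + δ)
        push_cast at this; exact this
      have i3 : (s : ℂ) + 2 * δ ∈ Strip h := by
        have := real_mem_Strip hh (s + 2 * δ)
        push_cast at this; exact this
      unfold TR at e1
      have e2 : NN X G m e δ η φ (s + δ + φ s) (s + δ + φ s + η * (R0 X G δ s + r s)) /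
        (η * deriv X (s + δ) * deriv X (s + 2 * δ)) = 0 := by linear_combination e1
      rw [div_eq_zero_iff] at e2
      rcases e2 with e2 | e2
      · exact e2
      · exact absurd e2 (mul_ne_zero (mul_ne_zero hη' (X1_ne hB i2)) (X1_ne hB i3))
  · rintro φ r ⟨dφ, dr, bφ, br, rφ, rr⟩
    have bφ4 := four _ _ (by positivity) bφ
    have br4 := four _ _ (by positivity) br
    refine ⟨fun s hs => (hol_TP hB hS hsup dφ dr bφ4 br4 s hs).2.differentiableAt.differentiableWithinAt,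
      fun s hs => (hol_TR hB hη hS hsup dφ dr bφ4 br4 s hs).differentiableAt.differentiableWithinAt,
      ?_, fun s hs => (hsup φ r dφ bφ4 br4 s hs).2.1, im0_TP hB hS dφ rφ rr, im0_TR hB hS dφ rφ rr⟩
    intro s hs
    unfold TP
    have := intervalIntegral.norm_integral_le_of_norm_le_const (a := (0:ℝ)) (b := 1)
      (f := fun t : ℝ => TPt X G m e Pi δ η φ r s t) (C := K₁ * η * om s) (by
        intro t ht
        rw [uIoc_of_le zero_le_one] at ht
        exact ((hsup φ r dφ bφ4 br4 s hs).1 t ⟨ht.1.le, ht.2⟩).1)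
    simpa using this
  · rintro φ r φ' r' ε ⟨dφ, dr, bφ, br, rφ, rr⟩ ⟨dφ', dr', bφ', br', rφ', rr'⟩ hε hε2 e1 e2
    have bφ4 := four _ _ (by positivity) bφ
    have br4 := four _ _ (by positivity) br
    have bφ4' := four _ _ (by positivity) bφ'
    have br4' := four _ _ (by positivity) br'
    have hcon := contraction hB hη hK₁ hK₂ hS hsup hε hε2 dφ dr dφ' dr' bφ br e1 e2
    refine ⟨?_, fun s hs => (hcon s hs).2⟩
    intro s hs
    have ci : ∀ (ψ q : ℂ → ℂ), DifferentiableOn ℂ ψ (Dom (h / 4)) →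
        DifferentiableOn ℂ q (Dom (h / 4)) → (∀ z ∈ Dom (h / 4), ‖ψ z‖ ≤ 4 * (K₁ * η) * om z) →
        (∀ z ∈ Dom (h / 4), ‖q z‖ ≤ 4 * (K₂ * η) * om z) →
        IntervalIntegrable (fun t : ℝ => TPt X G m e Pi δ η ψ q s t) MeasureTheory.volume 0 1 := by
      intro ψ q h1 h2 h3 h4
      apply ContinuousOn.intervalIntegrable
      rw [uIcc_of_le zero_le_one]
      intro t ht
      have := ((hol_TP hB hS hsup h1 h2 h3 h4 s hs).1 t ht).continuousAt
      have h5 : ContinuousAt (fun t : ℝ => (s, (t : ℂ))) t := by fun_prop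
      exact (ContinuousAt.comp (f := fun t : ℝ => (s, (t : ℂ))) this h5).continuousWithinAt
    unfold TP
    rw [← intervalIntegral.integral_sub (ci _ _ dφ dr bφ4 br4) (ci _ _ dφ' dr' bφ4' br4')]
    have := intervalIntegral.norm_integral_le_of_norm_le_const (a := (0:ℝ)) (b := 1)
      (f := fun t : ℝ => TPt X G m e Pi δ η φ r s t - TPt X G m e Pi δ η φ' r' s t)
      (C := 2 / 3 * ε * (K₁ * η) * om s) (by
        intro t ht
        rw [uIoc_of_le zero_le_one] at ht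
        exact (hcon s hs).1 t ⟨ht.1.le, ht.2⟩)
    simpa using this

end TC
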