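import Mathlib

set_option autoImplicit false

open Complex Set Metric

namespace TC

/-- base profile as a function of `ξ = e^z` -/
noncomputable def XQ (b ξ : ℂ) : ℂ := (ξ / (ξ + 1 / 2) - b * (ξ / (ξ + 1)) + ξ / (ξ + 2)) / (2 - b)

noncomputable def gm1 (b : ℂ) : ℂ := 3 * (14 / 9 * (1 + b) + 8 / 49) + 3 * (2 / 3 * (1 + b) + 1 / 7) ^ 2
noncomputable def gm2 (b : ℂ) : ℂ := 3 * (2 / 3 * (1 + b) + 1 / 7)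
noncomputable def gz1 (b : ℂ) : ℂ := gm1 b + 3 * (1 + b) ^ 2 * (-(2 * (1 + b)) - 14 / 9)
  - 3 * (1 + b) * (7 / 3 - (1 + b)) ^ 2
noncomputable def gz2 (b : ℂ) : ℂ := gm2 b + 3 * (1 + b) ^ 2 * (7 / 3 - (1 + b))
noncomputable def gz3 (b : ℂ) : ℂ := 1 - (1 + b) ^ 3
noncomputable def gp1 (b : ℂ) : ℂ := 24 / 49 + 14 / 3 * (1 + b) + 3 * (8 / 7 + 2 / 3 * (1 + b)) ^ 2
noncomputable def gp2 (b : ℂ) : ℂ := -(3 * (8 / 7 + 2 / 3 * (1 + b)))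

/-- potential as a function of `ξ = e^z` -/
noncomputable def GQ (b ξ : ℂ) : ℂ :=
  (gm1 b * (ξ / (ξ + 1 / 2)) + gm2 b * (ξ / (ξ + 1 / 2)) ^ 2 + (ξ / (ξ + 1 / 2)) ^ 3
    + gz1 b * (ξ / (ξ + 1)) + gz2 b * (ξ / (ξ + 1)) ^ 2 + gz3 b * (ξ / (ξ + 1)) ^ 3
    + gp1 b * (ξ / (ξ + 2)) + gp2 b * (ξ / (ξ + 2)) ^ 2 + (ξ / (ξ + 2)) ^ 3) / (2 - b) ^ 3

/-- `z`-derivative of the base profile -/
noncomputable def XQ1 (b ξ : ℂ) : ℂ :=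
  ξ * ((5 / 2 - b) * ξ ^ 4 + (9 - 5 * b) * ξ ^ 3 + (13 - 33 / 4 * b) * ξ ^ 2 + (9 - 5 * b) * ξ
    + (5 / 2 - b)) / ((2 - b) * ((ξ + 1 / 2) * (ξ + 1) * (ξ + 2)) ^ 2)

/-- `z`-derivative of the potential -/
noncomputable def GQ1 (b ξ : ℂ) : ℂ :=
  ξ ^ 3 * ((23 / 6 * b ^ 2 - 695 / 84 * b + 2385 / 392) * ξ ^ 6
    + (28 * b ^ 2 - 97 / 2 * b + 174 / 7) * ξ ^ 5
    + (637 / 8 * b ^ 2 - 1849 / 16 * b + 5091 / 112) * ξ ^ 4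
    + (2669 / 24 * b ^ 2 - 25201 / 168 * b + 2628 / 49) * ξ ^ 3
    + (637 / 8 * b ^ 2 - 1849 / 16 * b + 5091 / 112) * ξ ^ 2
    + (28 * b ^ 2 - 97 / 2 * b + 174 / 7) * ξ
    + (23 / 6 * b ^ 2 - 695 / 84 * b + 2385 / 392)) /
    ((2 - b) ^ 3 * ((ξ + 1 / 2) * (ξ + 1) * (ξ + 2)) ^ 4)

/-- the function `DD` as a function of `y = e^(z+δ)` -/
noncomputable def DQ (b y : ℂ) : ℂ :=
  y ^ 3 * ((23 * b ^ 2 - 695 / 14 * b + 7155 / 196) * y ^ 6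
    + (252 * b ^ 2 - 873 / 2 * b + 1566 / 7) * y ^ 5
    + (4161 / 4 * b ^ 2 - 3027 / 2 * b + 16929 / 28) * y ^ 4
    + (2061 * b ^ 2 - 19728 / 7 * b + 50166 / 49) * y ^ 3
    + (4161 / 2 * b ^ 2 - 3027 * b + 16929 / 14) * y ^ 2
    + (1008 * b ^ 2 - 1746 * b + 6264 / 7) * y
    + (184 * b ^ 2 - 2780 / 7 * b + 14310 / 49)) /
    ((2 - b) ^ 3 * ((y + 1 / 2) ^ 2 * (y + 1) ^ 4 * (y + 2) ^ 4 * (y + 4) ^ 2))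

end TC
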