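import Mathlib
import Pool.Agent.Helper822.TC.Defs4

set_option autoImplicit false

open Set Filter Topology Metric

namespace TC

open Complex




theorem idG (b ξ : ℂ) (hb : 63 * b ^ 3 + 91 * b ^ 2 - 35 * b - 90 = 0) (h2 : 2 - b ≠ 0)
    (k1 : ξ + 1 / 4 ≠ 0) (k2 : ξ + 1 / 2 ≠ 0) (k3 : ξ + 1 ≠ 0) (k4 : ξ + 2 ≠ 0) :
    GQ b (2 * ξ) - GQ b ξ = (XQ b (2 * ξ) - XQ b ξ) ^ 3 := by
  have k1' : 2 * ξ + 1 / 2 ≠ 0 := by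
    intro h; apply k1; linear_combination h / 2
  have k2' : 2 * ξ + 1 ≠ 0 := by
    intro h; apply k2; linear_combination h / 2
  have k3' : 2 * ξ + 2 ≠ 0 := by
    intro h; apply k3; linear_combination h / 2
  have eA : 2 * ξ / (2 * ξ + 1 / 2) = ξ / (ξ + 1 / 4) := by
    rw [div_eq_div_iff k1' k1]; ring
  have eB : 2 * ξ / (2 * ξ + 1) = ξ / (ξ + 1 / 2) := by
    rw [div_eq_div_iff k2' k2]; ring
  have eC : 2 * ξ / (2 * ξ + 2) = ξ / (ξ + 1) := by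
    rw [div_eq_div_iff k3' k3]; ring
  unfold GQ XQ
  rw [eA, eB, eC]
  obtain ⟨A, hA⟩ : ∃ A, A = ξ / (ξ + 1 / 4) := ⟨_, rfl⟩
  obtain ⟨B, hB⟩ : ∃ B, B = ξ / (ξ + 1 / 2) := ⟨_, rfl⟩
  obtain ⟨C, hC⟩ : ∃ C, C = ξ / (ξ + 1) := ⟨_, rfl⟩
  obtain ⟨D, hD⟩ : ∃ D, D = ξ / (ξ + 2) := ⟨_, rfl⟩
  have mA : A * (ξ + 1 / 4) = ξ := by rw [hA]; exact div_mul_cancel₀ _ k1
  have mB : B * (ξ + 1 / 2) = ξ := by rw [hB]; exact div_mul_cancel₀ _ k2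
  have mC : C * (ξ + 1) = ξ := by rw [hC]; exact div_mul_cancel₀ _ k3
  have mD : D * (ξ + 2) = ξ := by rw [hD]; exact div_mul_cancel₀ _ k4
  have aux : ∀ (X Y c d : ℂ), X * (ξ + c) = ξ → Y * (ξ + d) = ξ → ξ + c ≠ 0 → ξ + d ≠ 0 →
      (d - c) * (X * Y) = d * Y - c * X := by
    intro X Y c d hX hY hc hd
    apply mul_left_cancel₀ (mul_ne_zero hc hd)
    linear_combination ((d - c) * Y * (ξ + d) + c * (ξ + d)) * hX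
      + ((d - c) * ξ - d * (ξ + c)) * hY
  have r1 : A * B = 2 * B - A := by
    linear_combination 4 * aux A B (1/4) (1/2) mA mB k1 k2
  have r2 : A * C = (4 * C - A) / 3 := by
    linear_combination (4/3) * aux A C (1/4) 1 mA mC k1 k3
  have r3 : A * D = (8 * D - A) / 7 := by
    linear_combination (4/7) * aux A D (1/4) 2 mA mD k1 k4
  have r4 : B * C = 2 * C - B := by
    linear_combination 2 * aux B C (1/2) 1 mB mC k2 k3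
  have r5 : B * D = (4 * D - B) / 3 := by
    linear_combination (2/3) * aux B D (1/2) 2 mB mD k2 k4
  have r6 : C * D = 2 * D - C := by
    linear_combination aux C D 1 2 mC mD k3 k4
  rw [← hA, ← hB, ← hC, ← hD]
  rw [← sub_div, ← sub_div, div_pow]
  congr 1
  simp only [gz1, gz2, gz3, gp1, gp2, gm1, gm2]
  linear_combination (-(1/7)) * (C - C ^ 2) * hb
    - (-3 * (1 + b) * (A + 2) * r1 + 3 * (1 + b) * (A + 4/3) * r2 - 3 * (A + 8/7) * r3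
      + 3 * (1 + b) ^ 2 * (B - 1) * r1 + 3 * (1 + b) ^ 2 * (C - 1/3) * r2 + 3 * (D - 1/7) * r3
      - 6 * (1 + b) ^ 2 * (A * r4 + 2 * r2 - r1)
      + 6 * (1 + b) * (A * r5 + 4/3 * r3 - 1/3 * r1)
      - 6 * (1 + b) * (A * r6 + 2 * r3 - r2)
      + 3 * (1 + b) ^ 3 * (B + 2) * r4 - 3 * (1 + b) ^ 2 * (B + 4/3) * r5
      - 3 * (1 + b) ^ 3 * (C - 1) * r4 - 3 * (1 + b) * (D - 1/3) * r5
      + 6 * (1 + b) ^ 2 * (B * r6 + 2 * r5 - r4)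
      - 3 * (1 + b) ^ 2 * (C + 2) * r6 + 3 * (1 + b) * (D - 1) * r6)

theorem dc (c z : ℂ) (k : exp z + c ≠ 0) :
    HasDerivAt (fun z => exp z / (exp z + c)) (c * exp z / (exp z + c) ^ 2) z := by
  have h := (Complex.hasDerivAt_exp z).div ((Complex.hasDerivAt_exp z).add_const c) k
  have e : (exp z * (exp z + c) - exp z * exp z) / (exp z + c) ^ 2
      = c * exp z / (exp z + c) ^ 2 := by
    congr 1; ring
  rw [e] at h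
  exact h


theorem tt0 (c ξ : ℂ) (k : ξ + c ≠ 0) :
    (c * ξ / (ξ + c) ^ 2) * (ξ + c) ^ 4 = c * ξ * (ξ + c) ^ 2 := by
  have e : (ξ + c) ^ 4 = (ξ + c) ^ 2 * (ξ + c) ^ 2 := by ring
  rw [e, ← mul_assoc, div_mul_cancel₀ _ (pow_ne_zero 2 k)]

theorem tt1 (c ξ : ℂ) (k : ξ + c ≠ 0) :
    (ξ / (ξ + c)) ^ 1 * (c * ξ / (ξ + c) ^ 2) * (ξ + c) ^ 4 = c * ξ ^ 2 * (ξ + c) := by
  rw [mul_assoc, tt0 c ξ k, pow_one]
  have e : ξ / (ξ + c) * (c * ξ * (ξ + c) ^ 2) = (ξ / (ξ + c) * (ξ + c)) * (c * ξ * (ξ + c)) := by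
    ring
  rw [e, div_mul_cancel₀ _ k]; ring

theorem tt2 (c ξ : ℂ) (k : ξ + c ≠ 0) :
    (ξ / (ξ + c)) ^ 2 * (c * ξ / (ξ + c) ^ 2) * (ξ + c) ^ 4 = c * ξ ^ 3 := by
  rw [mul_assoc, tt0 c ξ k]
  have e : (ξ / (ξ + c)) ^ 2 * (c * ξ * (ξ + c) ^ 2) = (ξ / (ξ + c) * (ξ + c)) ^ 2 * (c * ξ) := by
    ring
  rw [e, div_mul_cancel₀ _ k]; ring

theorem ss0 (c ξ : ℂ) (k : ξ + c ≠ 0) :
    (c * ξ / (ξ + c) ^ 2) * (ξ + c) ^ 2 = c * ξ :=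
  div_mul_cancel₀ _ (pow_ne_zero 2 k)

theorem dXQ (b z : ℂ) (h2 : 2 - b ≠ 0)
    (k2 : exp z + 1 / 2 ≠ 0) (k3 : exp z + 1 ≠ 0) (k4 : exp z + 2 ≠ 0) :
    HasDerivAt (fun z => XQ b (exp z)) (XQ1 b (exp z)) z := by
  have h := (((dc (1/2) z k2).sub ((dc 1 z k3).const_mul b)).add (dc 2 z k4)).div_const (2 - b)
  refine HasDerivAt.congr_deriv (f' := _) h ?_
  clear h
  generalize exp z = ξ at *
  unfold XQ1
  have hd : (2 - b) * ((ξ + 1 / 2) * (ξ + 1) * (ξ + 2)) ^ 2 ≠ 0 :=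
    mul_ne_zero h2 (pow_ne_zero _ (mul_ne_zero (mul_ne_zero k2 k3) k4))
  rw [div_eq_div_iff h2 hd]
  have a1 := ss0 (1/2) ξ k2
  have a2 := ss0 1 ξ k3
  have a3 := ss0 2 ξ k4
  linear_combination (2 - b) * ((ξ + 1) * (ξ + 2)) ^ 2 * a1
    - b * (2 - b) * ((ξ + 1 / 2) * (ξ + 2)) ^ 2 * a2
    + (2 - b) * ((ξ + 1 / 2) * (ξ + 1)) ^ 2 * a3

theorem dpow (c z : ℂ) (n : ℕ) (k : exp z + c ≠ 0) :
    HasDerivAt (fun z => (exp z / (exp z + c)) ^ (n + 1))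
      (((n + 1 : ℕ) : ℂ) * (exp z / (exp z + c)) ^ n * (c * exp z / (exp z + c) ^ 2)) z := by
  exact (dc c z k).pow (n + 1)

theorem dGQ (b z : ℂ) (hb : 63 * b ^ 3 + 91 * b ^ 2 - 35 * b - 90 = 0) (h2 : 2 - b ≠ 0)
    (k2 : exp z + 1 / 2 ≠ 0) (k3 : exp z + 1 ≠ 0) (k4 : exp z + 2 ≠ 0) :
    HasDerivAt (fun z => GQ b (exp z)) (GQ1 b (exp z)) z := by
  have h := (((((((((dc (1/2) z k2).const_mul (gm1 b)).add ((dpow (1/2) z 1 k2).const_mul (gm2 b))).add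
    (dpow (1/2) z 2 k2)).add ((dc 1 z k3).const_mul (gz1 b))).add
    ((dpow 1 z 1 k3).const_mul (gz2 b))).add ((dpow 1 z 2 k3).const_mul (gz3 b))).add
    ((dc 2 z k4).const_mul (gp1 b))).add ((dpow 2 z 1 k4).const_mul (gp2 b))).add
    (dpow 2 z 2 k4)
  have h' := h.div_const ((2 - b) ^ 3)
  refine HasDerivAt.congr_deriv (f' := _) h' ?_
  clear h h'
  generalize exp z = ξ at *
  unfold GQ1
  have hc : (2 - b) ^ 3 ≠ 0 := pow_ne_zero _ h2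
  have hd : (2 - b) ^ 3 * ((ξ + 1 / 2) * (ξ + 1) * (ξ + 2)) ^ 4 ≠ 0 :=
    mul_ne_zero hc (pow_ne_zero _ (mul_ne_zero (mul_ne_zero k2 k3) k4))
  rw [div_eq_div_iff hc hd]
  have a0 := tt0 (1/2) ξ k2
  have a1 := tt1 (1/2) ξ k2
  have a2 := tt2 (1/2) ξ k2
  have b0 := tt0 1 ξ k3
  have b1 := tt1 1 ξ k3
  have b2 := tt2 1 ξ k3
  have c0 := tt0 2 ξ k4
  have c1 := tt1 2 ξ k4
  have c2 := tt2 2 ξ k4
  simp only [gz1, gz2, gz3, gp1, gp2, gm1, gm2]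
  push_cast
  linear_combination (2 - b) ^ 3 * ((ξ + 1) * (ξ + 2)) ^ 4 * (
      (3 * (14 / 9 * (1 + b) + 8 / 49) + 3 * (2 / 3 * (1 + b) + 1 / 7) ^ 2) * a0
      + 2 * (3 * (2 / 3 * (1 + b) + 1 / 7)) * a1 + 3 * a2)
    + (2 - b) ^ 3 * ((ξ + 1 / 2) * (ξ + 2)) ^ 4 * (
      (3 * (14 / 9 * (1 + b) + 8 / 49) + 3 * (2 / 3 * (1 + b) + 1 / 7) ^ 2
        + 3 * (1 + b) ^ 2 * (-(2 * (1 + b)) - 14 / 9)
        - 3 * (1 + b) * (7 / 3 - (1 + b)) ^ 2) * b0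
      + 2 * (3 * (2 / 3 * (1 + b) + 1 / 7) + 3 * (1 + b) ^ 2 * (7 / 3 - (1 + b))) * b1
      + 3 * (1 - (1 + b) ^ 3) * b2)
    + (2 - b) ^ 3 * ((ξ + 1 / 2) * (ξ + 1)) ^ 4 * (
      (24 / 49 + 14 / 3 * (1 + b) + 3 * (8 / 7 + 2 / 3 * (1 + b)) ^ 2) * c0
      + 2 * (-(3 * (8 / 7 + 2 / 3 * (1 + b)))) * c1 + 3 * c2)
    + (2 - b) ^ 3 * ((-2/7) * ξ^11 - 68/21 * ξ^10 - 332/21 * ξ^9 - 131/3 * ξ^8 - 12679/168 * ξ^7
      - 1793/21 * ξ^6 - 21587/336 * ξ^5 - 1339/42 * ξ^4 - 421/42 * ξ^3 - 38/21 * ξ^2 - 1/7 * ξ) * hb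

theorem idD (b y : ℂ) (hb : 63 * b ^ 3 + 91 * b ^ 2 - 35 * b - 90 = 0) (h2 : 2 - b ≠ 0)
    (k2 : y + 1 / 2 ≠ 0) (k3 : y + 1 ≠ 0) (k4 : y + 2 ≠ 0) (k5 : y + 4 ≠ 0) :
    3 * (XQ b y - XQ b (y / 2)) ^ 2 * XQ1 b y - GQ1 b y = DQ b y := by
  have k3' : y / 2 + 1 / 2 ≠ 0 := by
    intro h; apply k3; linear_combination h * 2
  have k4' : y / 2 + 1 ≠ 0 := by
    intro h; apply k4; linear_combination h * 2
  have k5' : y / 2 + 2 ≠ 0 := by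
    intro h; apply k5; linear_combination h * 2
  have e1 : (y / 2) / (y / 2 + 1 / 2) = y / (y + 1) := by
    rw [div_eq_div_iff k3' k3]; ring
  have e2 : (y / 2) / (y / 2 + 1) = y / (y + 2) := by
    rw [div_eq_div_iff k4' k4]; ring
  have e3 : (y / 2) / (y / 2 + 2) = y / (y + 4) := by
    rw [div_eq_div_iff k5' k5]; ring
  have P1 : y / (y + 1 / 2) * (y + 1 / 2) = y := div_mul_cancel₀ _ k2
  have P2 : y / (y + 1) * (y + 1) = y := div_mul_cancel₀ _ k3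
  have P3 : y / (y + 2) * (y + 2) = y := div_mul_cancel₀ _ k4
  have P4 : y / (y + 4) * (y + 4) = y := div_mul_cancel₀ _ k5
  have hpq : (y + 1 / 2) * (y + 1) * (y + 2) ≠ 0 := mul_ne_zero (mul_ne_zero k2 k3) k4
  have hX : XQ b y - XQ b (y / 2) = y * (7 / 2 * ((y + 1) * (y + 2)) - (1 + b) * ((y + 1 / 2) * (y + 4)))
      / ((2 - b) * (((y + 1 / 2) * (y + 1) * (y + 2)) * (y + 4))) := by
    unfold XQ
    rw [e1, e2, e3, ← sub_div, div_eq_div_iff h2 (mul_ne_zero h2 (mul_ne_zero hpq k5))]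
    linear_combination (2 - b) * ((y + 1) * (y + 2) * (y + 4)) * P1
      - (1 + b) * (2 - b) * ((y + 1 / 2) * (y + 2) * (y + 4)) * P2
      + (1 + b) * (2 - b) * ((y + 1 / 2) * (y + 1) * (y + 4)) * P3
      - (2 - b) * ((y + 1 / 2) * (y + 1) * (y + 2)) * P4
  rw [hX]
  unfold XQ1 GQ1 DQ
  have hc : (2 - b) ^ 3 ≠ 0 := pow_ne_zero _ h2
  have hD : (2 - b) ^ 3 * ((y + 1 / 2) * (y + 1) * (y + 2)) ^ 4 * (y + 4) ^ 2 ≠ 0 :=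
    mul_ne_zero (mul_ne_zero hc (pow_ne_zero _ hpq)) (pow_ne_zero _ k5)
  have t1 : 3 * (y * (7 / 2 * ((y + 1) * (y + 2)) - (1 + b) * ((y + 1 / 2) * (y + 4)))
      / ((2 - b) * (((y + 1 / 2) * (y + 1) * (y + 2)) * (y + 4)))) ^ 2 *
      (y * ((5 / 2 - b) * y ^ 4 + (9 - 5 * b) * y ^ 3 + (13 - 33 / 4 * b) * y ^ 2 + (9 - 5 * b) * y
        + (5 / 2 - b)) / ((2 - b) * ((y + 1 / 2) * (y + 1) * (y + 2)) ^ 2))
      = (3 * y ^ 3 * (7 / 2 * ((y + 1) * (y + 2)) - (1 + b) * ((y + 1 / 2) * (y + 4))) ^ 2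
        * ((5 / 2 - b) * y ^ 4 + (9 - 5 * b) * y ^ 3 + (13 - 33 / 4 * b) * y ^ 2 + (9 - 5 * b) * y
        + (5 / 2 - b))) / ((2 - b) ^ 3 * ((y + 1 / 2) * (y + 1) * (y + 2)) ^ 4 * (y + 4) ^ 2) := by
    have key : ∀ (a p m q : ℂ), 3 * (a / p) ^ 2 * (m / q) = (3 * a ^ 2 * m) / (p ^ 2 * q) := by
      intro a p m q
      ring
    rw [key]
    congr 1 <;> ring
  have t2 : ∀ G : ℂ, y ^ 3 * G / ((2 - b) ^ 3 * ((y + 1 / 2) * (y + 1) * (y + 2)) ^ 4)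
      = (y ^ 3 * G * (y + 4) ^ 2)
        / ((2 - b) ^ 3 * ((y + 1 / 2) * (y + 1) * (y + 2)) ^ 4 * (y + 4) ^ 2) := by
    intro G
    rw [mul_div_mul_right _ _ (pow_ne_zero 2 k5)]
  have t3 : ∀ G : ℂ, y ^ 3 * G / ((2 - b) ^ 3 * ((y + 1 / 2) ^ 2 * (y + 1) ^ 4 * (y + 2) ^ 4 * (y + 4) ^ 2))
      = (y ^ 3 * G * (y + 1 / 2) ^ 2)
        / ((2 - b) ^ 3 * ((y + 1 / 2) * (y + 1) * (y + 2)) ^ 4 * (y + 4) ^ 2) := by
    intro G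
    have e : (2 - b) ^ 3 * ((y + 1 / 2) * (y + 1) * (y + 2)) ^ 4 * (y + 4) ^ 2
        = ((2 - b) ^ 3 * ((y + 1 / 2) ^ 2 * (y + 1) ^ 4 * (y + 2) ^ 4 * (y + 4) ^ 2))
          * (y + 1 / 2) ^ 2 := by ring
    rw [e, mul_div_mul_right _ _ (pow_ne_zero 2 k2)]
  rw [t1, t2, t3, ← sub_div]
  congr 1
  linear_combination y ^ 3 * (y + 1 / 2) ^ 2 * (-1/21 * y^6 - 13/21 * y^5 - 257/84 * y^4
    - 151/21 * y^3 - 173/21 * y^2 - 88/21 * y - 16/21) * hb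

end TC
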