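import Mathlib

set_option autoImplicit false

open Set Filter Topology Metric

namespace TC

/-- base profile as a function of `x = e^z` -/
noncomputable def XA (β x : ℝ) : ℝ :=
  (x / (x + 1 / 2) - β * (x / (x + 1)) + x / (x + 2)) / (2 - β)

/-- first derivative (in `z`) of the base profile, as a function of `x = e^z` -/
noncomputable def XB (β x : ℝ) : ℝ :=
  (1 / 2 * x / (x + 1 / 2) ^ 2 - β * (x / (x + 1) ^ 2) + 2 * x / (x + 2) ^ 2) / (2 - β)

/-- second derivative (in `z`) of the base profile, as a function of `x = e^z` -/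
noncomputable def XC (β x : ℝ) : ℝ :=
  (1 / 2 * x * (1 / 2 - x) / (x + 1 / 2) ^ 3 - β * (x * (1 - x) / (x + 1) ^ 3)
    + 2 * x * (2 - x) / (x + 2) ^ 3) / (2 - β)

end TC
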