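import Mathlib
import Pool.Agent.Helper822.TC.Defs3

set_option autoImplicit false

open Set Filter Topology Metric

namespace TC



/-- common algebra -/
theorem alg (D p q r s A1 A2 B1 B2 C1 C2 : ℝ) (hD : D ≠ 0) (hp : p ≠ 0) (hq : q ≠ 0) (hr : r ≠ 0)
    (hs : s ≠ 0) :
    2 * (B2 / (D * (p ^ 2 * q ^ 2 * r ^ 2))) *
        (B1 / (D * (q ^ 2 * r ^ 2 * s ^ 2)) + B2 / (D * (p ^ 2 * q ^ 2 * r ^ 2))) *
        (B1 / (D * (q ^ 2 * r ^ 2 * s ^ 2))) -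
      (1 + A2 / (D * (p * q * r)) - A1 / (D * (q * r * s))) *
        (C2 / (D * (p ^ 3 * q ^ 3 * r ^ 3)) * (B1 / (D * (q ^ 2 * r ^ 2 * s ^ 2))) -
          (B2 / (D * (p ^ 2 * q ^ 2 * r ^ 2))) * (C1 / (D * (q ^ 3 * r ^ 3 * s ^ 3)))) =
    (2 * B2 * B1 * (B1 * p ^ 2 + B2 * s ^ 2) -
      (D * (p * q * r * s) + A2 * s - A1 * p) * (C2 * B1 * s - B2 * C1 * p)) /
      (D ^ 3 * (p ^ 4 * q ^ 6 * r ^ 6 * s ^ 4)) := by
  field_simp

theorem fin_step (D p q r s N x c0 K : ℝ) (hD : 0 < D) (hp : 0 < p) (hq : 0 < q) (hr : 0 < r)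
    (hs : 0 < s) (hx : 0 < x) (hc0 : 0 < c0) (hK : 0 < K)
    (hN : c0 * x ^ 3 * r ^ 12 ≤ N) (hden : p ^ 3 * q ^ 6 * r ^ 6 * s ^ 3 ≤ K * r ^ 18) :
    c0 / (K * D ^ 3) * x ^ 3 / r ^ 6 ≤ (N * p * s) / (D ^ 3 * (p ^ 4 * q ^ 6 * r ^ 6 * s ^ 4)) := by
  have e1 : (N * p * s) / (D ^ 3 * (p ^ 4 * q ^ 6 * r ^ 6 * s ^ 4)) =
      N / (D ^ 3 * (p ^ 3 * q ^ 6 * r ^ 6 * s ^ 3)) := by
    field_simp
  have e2 : c0 / (K * D ^ 3) * x ^ 3 / r ^ 6 = (c0 * x ^ 3 * r ^ 12) / (D ^ 3 * (K * r ^ 18)) := by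
    field_simp
  rw [e1, e2]
  have hN0 : 0 ≤ c0 * x ^ 3 * r ^ 12 := by positivity
  exact div_le_div₀ (hN0.trans hN) hN (by positivity) (mul_le_mul_of_nonneg_left hden (by positivity))

theorem num_plus_le (β x : ℝ) (h1 : 0.9065 ≤ β) (h2 : β ≤ 0.9066) (hx : 0 < x) :
    0.0001 * x ^ 3 * (x + 1) ^ 12 ≤ ((545/16) + (-643/16) * β + (125/8) * β^2 + (-2) * β^3) * x ^ 15 +
      ((8505/32) + (-5661/16) * β + (621/4) * β^2 + (-45/2) * β^3) * x ^ 14 +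
      ((61215/64) + (-22557/16) * β + (43959/64) * β^2 + (-885/8) * β^3) * x ^ 13 +
      ((269847/128) + (-863767/256) * β + (457835/256) * β^2 + (-10035/32) * β^3) * x ^ 12 +
      ((407499/128) + (-173307/32) * β + (390747/128) * β^2 + (-36471/64) * β^3) * x ^ 11 +
      ((445959/128) + (-3151101/512) * β + (1843791/512) * β^2 + (-89415/128) * β^3) * x ^ 10 +
      ((1454863/512) + (-1301479/256) * β + (1542269/512) * β^2 + (-151535/256) * β^3) * x ^ 9 +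
      ((445959/256) + (-3151101/1024) * β + (1843791/1024) * β^2 + (-89415/256) * β^3) * x ^ 8 +
      ((407499/512) + (-173307/128) * β + (390747/512) * β^2 + (-36471/256) * β^3) * x ^ 7 +
      ((269847/1024) + (-863767/2048) * β + (457835/2048) * β^2 + (-10035/256) * β^3) * x ^ 6 +
      ((61215/1024) + (-22557/256) * β + (43959/1024) * β^2 + (-885/128) * β^3) * x ^ 5 +
      ((8505/1024) + (-5661/512) * β + (621/128) * β^2 + (-45/64) * β^3) * x ^ 4 +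
      ((545/1024) + (-643/1024) * β + (125/512) * β^2 + (-1/32) * β^3) * x ^ 3 := by
  have b2l : (0.9065:ℝ) ^ 2 ≤ β ^ 2 := pow_le_pow_left₀ (by norm_num) h1 2
  have b2u : β ^ 2 ≤ (0.9066:ℝ) ^ 2 := pow_le_pow_left₀ (by linarith) h2 2
  have b3l : (0.9065:ℝ) ^ 3 ≤ β ^ 3 := pow_le_pow_left₀ (by norm_num) h1 3
  have b3u : β ^ 3 ≤ (0.9066:ℝ) ^ 3 := pow_le_pow_left₀ (by linarith) h2 3
  norm_num at b2l b2u b3l b3u
  have k3 : 0.0001 * 1 ≤ ((545/1024) + (-643/1024) * β + (125/512) * β^2 + (-1/32) * β^3) := by linarith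
  have k4 : 0.0001 * 12 ≤ ((8505/1024) + (-5661/512) * β + (621/128) * β^2 + (-45/64) * β^3) := by linarith
  have k5 : 0.0001 * 66 ≤ ((61215/1024) + (-22557/256) * β + (43959/1024) * β^2 + (-885/128) * β^3) := by linarith
  have k6 : 0.0001 * 220 ≤ ((269847/1024) + (-863767/2048) * β + (457835/2048) * β^2 + (-10035/256) * β^3) := by linarith
  have k7 : 0.0001 * 495 ≤ ((407499/512) + (-173307/128) * β + (390747/512) * β^2 + (-36471/256) * β^3) := by linarith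
  have k8 : 0.0001 * 792 ≤ ((445959/256) + (-3151101/1024) * β + (1843791/1024) * β^2 + (-89415/256) * β^3) := by linarith
  have k9 : 0.0001 * 924 ≤ ((1454863/512) + (-1301479/256) * β + (1542269/512) * β^2 + (-151535/256) * β^3) := by linarith
  have k10 : 0.0001 * 792 ≤ ((445959/128) + (-3151101/512) * β + (1843791/512) * β^2 + (-89415/128) * β^3) := by linarith
  have k11 : 0.0001 * 495 ≤ ((407499/128) + (-173307/32) * β + (390747/128) * β^2 + (-36471/64) * β^3) := by linarith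
  have k12 : 0.0001 * 220 ≤ ((269847/128) + (-863767/256) * β + (457835/256) * β^2 + (-10035/32) * β^3) := by linarith
  have k13 : 0.0001 * 66 ≤ ((61215/64) + (-22557/16) * β + (43959/64) * β^2 + (-885/8) * β^3) := by linarith
  have k14 : 0.0001 * 12 ≤ ((8505/32) + (-5661/16) * β + (621/4) * β^2 + (-45/2) * β^3) := by linarith
  have k15 : 0.0001 * 1 ≤ ((545/16) + (-643/16) * β + (125/8) * β^2 + (-2) * β^3) := by linarith
  have t3 := mul_nonneg (sub_nonneg.2 k3) (pow_nonneg hx.le 3)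
  have t4 := mul_nonneg (sub_nonneg.2 k4) (pow_nonneg hx.le 4)
  have t5 := mul_nonneg (sub_nonneg.2 k5) (pow_nonneg hx.le 5)
  have t6 := mul_nonneg (sub_nonneg.2 k6) (pow_nonneg hx.le 6)
  have t7 := mul_nonneg (sub_nonneg.2 k7) (pow_nonneg hx.le 7)
  have t8 := mul_nonneg (sub_nonneg.2 k8) (pow_nonneg hx.le 8)
  have t9 := mul_nonneg (sub_nonneg.2 k9) (pow_nonneg hx.le 9)
  have t10 := mul_nonneg (sub_nonneg.2 k10) (pow_nonneg hx.le 10)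
  have t11 := mul_nonneg (sub_nonneg.2 k11) (pow_nonneg hx.le 11)
  have t12 := mul_nonneg (sub_nonneg.2 k12) (pow_nonneg hx.le 12)
  have t13 := mul_nonneg (sub_nonneg.2 k13) (pow_nonneg hx.le 13)
  have t14 := mul_nonneg (sub_nonneg.2 k14) (pow_nonneg hx.le 14)
  have t15 := mul_nonneg (sub_nonneg.2 k15) (pow_nonneg hx.le 15)
  have e : (0.0001:ℝ) * x ^ 3 * (x + 1) ^ 12 = 0.0001 * 1 * x ^ 3 + 0.0001 * 12 * x ^ 4 + 0.0001 * 66 * x ^ 5 + 0.0001 * 220 * x ^ 6 + 0.0001 * 495 * x ^ 7 + 0.0001 * 792 * x ^ 8 + 0.0001 * 924 * x ^ 9 + 0.0001 * 792 * x ^ 10 + 0.0001 * 495 * x ^ 11 + 0.0001 * 220 * x ^ 12 + 0.0001 * 66 * x ^ 13 + 0.0001 * 12 * x ^ 14 + 0.0001 * 1 * x ^ 15 := by ring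
  rw [e]
  linarith

theorem num_minus_le (β x : ℝ) (h1 : 0.9065 ≤ β) (h2 : β ≤ 0.9066) (hx : 0 < x) :
    0.0001 * x ^ 3 * (x + 1) ^ 12 ≤ ((205/2) + (-257/2) * β + 55 * β^2 + (-8) * β^3) * x ^ 15 +
      ((3645/2) + (-2574) * β + 1188 * β^2 + (-180) * β^3) * x ^ 14 +
      ((29595/2) + (-22413) * β + (22083/2) * β^2 + (-1770) * β^3) * x ^ 13 +
      ((144783/2) + (-456415/4) * β + (236411/4) * β^2 + (-10035) * β^3) * x ^ 12 +
      (237081 + (-381651) * β + 204621 * β^2 + (-36471) * β^3) * x ^ 11 +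
      (546372 + (-1776315/2) * β + (971511/2) * β^2 + (-89415) * β^3) * x ^ 10 +
      (907157 + (-1478713) * β + 814003 * β^2 + (-151535) * β^3) * x ^ 9 +
      (1092744 + (-1776315) * β + 971511 * β^2 + (-178830) * β^3) * x ^ 8 +
      (948324 + (-1526604) * β + 818484 * β^2 + (-145884) * β^3) * x ^ 7 +
      (579132 + (-912830) * β + 472822 * β^2 + (-80280) * β^3) * x ^ 6 +
      (236760 + (-358608) * β + 176664 * β^2 + (-28320) * β^3) * x ^ 5 +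
      (58320 + (-82368) * β + 38016 * β^2 + (-5760) * β^3) * x ^ 4 +
      (6560 + (-8224) * β + 3520 * β^2 + (-512) * β^3) * x ^ 3 := by
  have b2l : (0.9065:ℝ) ^ 2 ≤ β ^ 2 := pow_le_pow_left₀ (by norm_num) h1 2
  have b2u : β ^ 2 ≤ (0.9066:ℝ) ^ 2 := pow_le_pow_left₀ (by linarith) h2 2
  have b3l : (0.9065:ℝ) ^ 3 ≤ β ^ 3 := pow_le_pow_left₀ (by norm_num) h1 3
  have b3u : β ^ 3 ≤ (0.9066:ℝ) ^ 3 := pow_le_pow_left₀ (by linarith) h2 3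
  norm_num at b2l b2u b3l b3u
  have k3 : 0.0001 * 1 ≤ (6560 + (-8224) * β + 3520 * β^2 + (-512) * β^3) := by linarith
  have k4 : 0.0001 * 12 ≤ (58320 + (-82368) * β + 38016 * β^2 + (-5760) * β^3) := by linarith
  have k5 : 0.0001 * 66 ≤ (236760 + (-358608) * β + 176664 * β^2 + (-28320) * β^3) := by linarith
  have k6 : 0.0001 * 220 ≤ (579132 + (-912830) * β + 472822 * β^2 + (-80280) * β^3) := by linarith
  have k7 : 0.0001 * 495 ≤ (948324 + (-1526604) * β + 818484 * β^2 + (-145884) * β^3) := by linarith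
  have k8 : 0.0001 * 792 ≤ (1092744 + (-1776315) * β + 971511 * β^2 + (-178830) * β^3) := by linarith
  have k9 : 0.0001 * 924 ≤ (907157 + (-1478713) * β + 814003 * β^2 + (-151535) * β^3) := by linarith
  have k10 : 0.0001 * 792 ≤ (546372 + (-1776315/2) * β + (971511/2) * β^2 + (-89415) * β^3) := by linarith
  have k11 : 0.0001 * 495 ≤ (237081 + (-381651) * β + 204621 * β^2 + (-36471) * β^3) := by linarith
  have k12 : 0.0001 * 220 ≤ ((144783/2) + (-456415/4) * β + (236411/4) * β^2 + (-10035) * β^3) := by linarith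
  have k13 : 0.0001 * 66 ≤ ((29595/2) + (-22413) * β + (22083/2) * β^2 + (-1770) * β^3) := by linarith
  have k14 : 0.0001 * 12 ≤ ((3645/2) + (-2574) * β + 1188 * β^2 + (-180) * β^3) := by linarith
  have k15 : 0.0001 * 1 ≤ ((205/2) + (-257/2) * β + 55 * β^2 + (-8) * β^3) := by linarith
  have t3 := mul_nonneg (sub_nonneg.2 k3) (pow_nonneg hx.le 3)
  have t4 := mul_nonneg (sub_nonneg.2 k4) (pow_nonneg hx.le 4)
  have t5 := mul_nonneg (sub_nonneg.2 k5) (pow_nonneg hx.le 5)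
  have t6 := mul_nonneg (sub_nonneg.2 k6) (pow_nonneg hx.le 6)
  have t7 := mul_nonneg (sub_nonneg.2 k7) (pow_nonneg hx.le 7)
  have t8 := mul_nonneg (sub_nonneg.2 k8) (pow_nonneg hx.le 8)
  have t9 := mul_nonneg (sub_nonneg.2 k9) (pow_nonneg hx.le 9)
  have t10 := mul_nonneg (sub_nonneg.2 k10) (pow_nonneg hx.le 10)
  have t11 := mul_nonneg (sub_nonneg.2 k11) (pow_nonneg hx.le 11)
  have t12 := mul_nonneg (sub_nonneg.2 k12) (pow_nonneg hx.le 12)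
  have t13 := mul_nonneg (sub_nonneg.2 k13) (pow_nonneg hx.le 13)
  have t14 := mul_nonneg (sub_nonneg.2 k14) (pow_nonneg hx.le 14)
  have t15 := mul_nonneg (sub_nonneg.2 k15) (pow_nonneg hx.le 15)
  have e : (0.0001:ℝ) * x ^ 3 * (x + 1) ^ 12 = 0.0001 * 1 * x ^ 3 + 0.0001 * 12 * x ^ 4 + 0.0001 * 66 * x ^ 5 + 0.0001 * 220 * x ^ 6 + 0.0001 * 495 * x ^ 7 + 0.0001 * 792 * x ^ 8 + 0.0001 * 924 * x ^ 9 + 0.0001 * 792 * x ^ 10 + 0.0001 * 495 * x ^ 11 + 0.0001 * 220 * x ^ 12 + 0.0001 * 66 * x ^ 13 + 0.0001 * 12 * x ^ 14 + 0.0001 * 1 * x ^ 15 := by ring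
  rw [e]
  linarith

theorem ident_plus (β x : ℝ) :
    2 * (1 / 4 * x * (x + 1 / 2) ^ 2 * (x + 1) ^ 2 - β * (1 / 2 * x * (x + 1 / 4) ^ 2 * (x + 1) ^ 2) + x * (x + 1 / 4) ^ 2 * (x + 1 / 2) ^ 2) * (1 / 2 * x * (x + 1) ^ 2 * (x + 2) ^ 2 - β * (x * (x + 1 / 2) ^ 2 * (x + 2) ^ 2) + 2 * x * (x + 1 / 2) ^ 2 * (x + 1) ^ 2) * ((1 / 2 * x * (x + 1) ^ 2 * (x + 2) ^ 2 - β * (x * (x + 1 / 2) ^ 2 * (x + 2) ^ 2) + 2 * x * (x + 1 / 2) ^ 2 * (x + 1) ^ 2) * (x + 1 / 4) ^ 2 + (1 / 4 * x * (x + 1 / 2) ^ 2 * (x + 1) ^ 2 - β * (1 / 2 * x * (x + 1 / 4) ^ 2 * (x + 1) ^ 2) + x * (x + 1 / 4) ^ 2 * (x + 1 / 2) ^ 2) * (x + 2) ^ 2) -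
      ((2 - β) * ((x + 1 / 4) * (x + 1 / 2) * (x + 1) * (x + 2)) + (x * (x + 1 / 2) * (x + 1) - β * (x * (x + 1 / 4) * (x + 1)) + x * (x + 1 / 4) * (x + 1 / 2)) * (x + 2) - (x * (x + 1) * (x + 2) - β * (x * (x + 1 / 2) * (x + 2)) + x * (x + 1 / 2) * (x + 1)) * (x + 1 / 4)) *
        ((1 / 4 * x * (1 / 4 - x) * (x + 1 / 2) ^ 3 * (x + 1) ^ 3 - β * (1 / 2 * x * (1 / 2 - x) * (x + 1 / 4) ^ 3 * (x + 1) ^ 3) + x * (1 - x) * (x + 1 / 4) ^ 3 * (x + 1 / 2) ^ 3) * (1 / 2 * x * (x + 1) ^ 2 * (x + 2) ^ 2 - β * (x * (x + 1 / 2) ^ 2 * (x + 2) ^ 2) + 2 * x * (x + 1 / 2) ^ 2 * (x + 1) ^ 2) * (x + 2) - (1 / 4 * x * (x + 1 / 2) ^ 2 * (x + 1) ^ 2 - β * (1 / 2 * x * (x + 1 / 4) ^ 2 * (x + 1) ^ 2) + x * (x + 1 / 4) ^ 2 * (x + 1 / 2) ^ 2) * (1 / 2 * x * (1 / 2 - x) * (x + 1) ^ 3 * (x + 2) ^ 3 - β * (x * (1 - x) * (x + 1 / 2) ^ 3 * (x + 2) ^ 3) + 2 * x * (2 - x) * (x + 1 / 2) ^ 3 * (x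 + 1) ^ 3) * (x + 1 / 4)) =
    (((545/16) + (-643/16) * β + (125/8) * β^2 + (-2) * β^3) * x ^ 15 +
      ((8505/32) + (-5661/16) * β + (621/4) * β^2 + (-45/2) * β^3) * x ^ 14 +
      ((61215/64) + (-22557/16) * β + (43959/64) * β^2 + (-885/8) * β^3) * x ^ 13 +
      ((269847/128) + (-863767/256) * β + (457835/256) * β^2 + (-10035/32) * β^3) * x ^ 12 +
      ((407499/128) + (-173307/32) * β + (390747/128) * β^2 + (-36471/64) * β^3) * x ^ 11 +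
      ((445959/128) + (-3151101/512) * β + (1843791/512) * β^2 + (-89415/128) * β^3) * x ^ 10 +
      ((1454863/512) + (-1301479/256) * β + (1542269/512) * β^2 + (-151535/256) * β^3) * x ^ 9 +
      ((445959/256) + (-3151101/1024) * β + (1843791/1024) * β^2 + (-89415/256) * β^3) * x ^ 8 +
      ((407499/512) + (-173307/128) * β + (390747/512) * β^2 + (-36471/256) * β^3) * x ^ 7 +
      ((269847/1024) + (-863767/2048) * β + (457835/2048) * β^2 + (-10035/256) * β^3) * x ^ 6 +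
      ((61215/1024) + (-22557/256) * β + (43959/1024) * β^2 + (-885/128) * β^3) * x ^ 5 +
      ((8505/1024) + (-5661/512) * β + (621/128) * β^2 + (-45/64) * β^3) * x ^ 4 +
      ((545/1024) + (-643/1024) * β + (125/512) * β^2 + (-1/32) * β^3) * x ^ 3) * (x + 1 / 4) * (x + 2) := by
  ring

theorem ident_minus (β x : ℝ) :
    2 * (x * (x + 2) ^ 2 * (x + 4) ^ 2 - β * (2 * x * (x + 1) ^ 2 * (x + 4) ^ 2) + 4 * x * (x + 1) ^ 2 * (x + 2) ^ 2) * (1 / 2 * x * (x + 1) ^ 2 * (x + 2) ^ 2 - β * (x * (x + 1 / 2) ^ 2 * (x + 2) ^ 2) + 2 * x * (x + 1 / 2) ^ 2 * (x + 1) ^ 2) * ((1 / 2 * x * (x + 1) ^ 2 * (x + 2) ^ 2 - β * (x * (x + 1 / 2) ^ 2 * (x + 2) ^ 2) + 2 * x * (x + 1 / 2) ^ 2 * (x + 1) ^ 2) * (x + 4) ^ 2 + (x * (x + 2) ^ 2 * (x + 4) ^ 2 - β * (2 * x * (x + 1) ^ 2 * (x + 4) ^ 2) + 4 * x * (x + 1) ^ 2 * (x + 2) ^ 2) * (x + 1 / 2) ^ 2) -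
      ((2 - β) * ((x + 4) * (x + 2) * (x + 1) * (x + 1 / 2)) + (x * (x + 2) * (x + 4) - β * (x * (x + 1) * (x + 4)) + x * (x + 1) * (x + 2)) * (x + 1 / 2) - (x * (x + 1) * (x + 2) - β * (x * (x + 1 / 2) * (x + 2)) + x * (x + 1 / 2) * (x + 1)) * (x + 4)) *
        ((x * (1 - x) * (x + 2) ^ 3 * (x + 4) ^ 3 - β * (2 * x * (2 - x) * (x + 1) ^ 3 * (x + 4) ^ 3) + 4 * x * (4 - x) * (x + 1) ^ 3 * (x + 2) ^ 3) * (1 / 2 * x * (x + 1) ^ 2 * (x + 2) ^ 2 - β * (x * (x + 1 / 2) ^ 2 * (x + 2) ^ 2) + 2 * x * (x + 1 / 2) ^ 2 * (x + 1) ^ 2) * (x + 1 / 2) - (x * (x + 2) ^ 2 * (x + 4) ^ 2 - β * (2 * x * (x + 1) ^ 2 * (x + 4) ^ 2) + 4 * x * (x + 1) ^ 2 * (x + 2) ^ 2) * (1 / 2 * x * (1 / 2 - x) * (x + 1) ^ 3 * (x + 2) ^ 3 - β * (x * (1 - x) * (x + 1 / 2) ^ 3 * (x + 2) ^ 3) + 2 * x * (2 - x) * (x + 1 / 2) ^ 3 * (x + 1) ^ 3) * (x + 4)) =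
    (((205/2) + (-257/2) * β + 55 * β^2 + (-8) * β^3) * x ^ 15 +
      ((3645/2) + (-2574) * β + 1188 * β^2 + (-180) * β^3) * x ^ 14 +
      ((29595/2) + (-22413) * β + (22083/2) * β^2 + (-1770) * β^3) * x ^ 13 +
      ((144783/2) + (-456415/4) * β + (236411/4) * β^2 + (-10035) * β^3) * x ^ 12 +
      (237081 + (-381651) * β + 204621 * β^2 + (-36471) * β^3) * x ^ 11 +
      (546372 + (-1776315/2) * β + (971511/2) * β^2 + (-89415) * β^3) * x ^ 10 +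
      (907157 + (-1478713) * β + 814003 * β^2 + (-151535) * β^3) * x ^ 9 +
      (1092744 + (-1776315) * β + 971511 * β^2 + (-178830) * β^3) * x ^ 8 +
      (948324 + (-1526604) * β + 818484 * β^2 + (-145884) * β^3) * x ^ 7 +
      (579132 + (-912830) * β + 472822 * β^2 + (-80280) * β^3) * x ^ 6 +
      (236760 + (-358608) * β + 176664 * β^2 + (-28320) * β^3) * x ^ 5 +
      (58320 + (-82368) * β + 38016 * β^2 + (-5760) * β^3) * x ^ 4 +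
      (6560 + (-8224) * β + 3520 * β^2 + (-512) * β^3) * x ^ 3) * (x + 4) * (x + 1 / 2) := by
  ring

theorem forms_plus (β x : ℝ) (hD : 2 - β ≠ 0) (hx : 0 < x) :
    XA β (2 * x) = (x * (x + 1 / 2) * (x + 1) - β * (x * (x + 1 / 4) * (x + 1)) + x * (x + 1 / 4) * (x + 1 / 2)) / ((2 - β) * ((x + 1 / 4) * (x + 1 / 2) * (x + 1))) ∧
    XB β (2 * x) = (1 / 4 * x * (x + 1 / 2) ^ 2 * (x + 1) ^ 2 - β * (1 / 2 * x * (x + 1 / 4) ^ 2 * (x + 1) ^ 2) + x * (x + 1 / 4) ^ 2 * (x + 1 / 2) ^ 2) / ((2 - β) * ((x + 1 / 4) ^ 2 * (x + 1 / 2) ^ 2 * (x + 1) ^ 2)) ∧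
    XC β (2 * x) = (1 / 4 * x * (1 / 4 - x) * (x + 1 / 2) ^ 3 * (x + 1) ^ 3 - β * (1 / 2 * x * (1 / 2 - x) * (x + 1 / 4) ^ 3 * (x + 1) ^ 3) + x * (1 - x) * (x + 1 / 4) ^ 3 * (x + 1 / 2) ^ 3) / ((2 - β) * ((x + 1 / 4) ^ 3 * (x + 1 / 2) ^ 3 * (x + 1) ^ 3)) ∧
    XA β x = (x * (x + 1) * (x + 2) - β * (x * (x + 1 / 2) * (x + 2)) + x * (x + 1 / 2) * (x + 1)) / ((2 - β) * ((x + 1 / 2) * (x + 1) * (x + 2))) ∧
    XB β x = (1 / 2 * x * (x + 1) ^ 2 * (x + 2) ^ 2 - β * (x * (x + 1 / 2) ^ 2 * (x + 2) ^ 2) + 2 * x * (x + 1 / 2) ^ 2 * (x + 1) ^ 2) / ((2 - β) * ((x + 1 / 2) ^ 2 * (x + 1) ^ 2 * (x + 2) ^ 2)) ∧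
    XC β x = (1 / 2 * x * (1 / 2 - x) * (x + 1) ^ 3 * (x + 2) ^ 3 - β * (x * (1 - x) * (x + 1 / 2) ^ 3 * (x + 2) ^ 3) + 2 * x * (2 - x) * (x + 1 / 2) ^ 3 * (x + 1) ^ 3) / ((2 - β) * ((x + 1 / 2) ^ 3 * (x + 1) ^ 3 * (x + 2) ^ 3)) := by
  have a1 : x + 1 / 4 ≠ 0 := by positivity
  have a2 : x + 1 / 2 ≠ 0 := by positivity
  have a3 : x + 1 ≠ 0 := by positivity
  have a4 : x + 2 ≠ 0 := by positivity
  have c1 : 2 * x + 1 / 2 = 2 * (x + 1 / 4) := by ring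
  have c2 : 2 * x + 1 = 2 * (x + 1 / 2) := by ring
  have c3 : 2 * x + 2 = 2 * (x + 1) := by ring
  have c4 : 1 / 2 - 2 * x = 2 * (1 / 4 - x) := by ring
  have c5 : 1 - 2 * x = 2 * (1 / 2 - x) := by ring
  have c6 : 2 - 2 * x = 2 * (1 - x) := by ring
  have c7 : x + 2⁻¹ = x + 1 / 2 := by ring
  refine ⟨?_, ?_, ?_, ?_, ?_, ?_⟩
  · unfold XA
    rw [c1, c2, c3]
    generalize x + 1 / 4 = p at *
    generalize x + 1 / 2 = q at *
    generalize x + 1 = r at *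
    field_simp
  · unfold XB
    rw [c1, c2, c3]
    generalize x + 1 / 4 = p at *
    generalize x + 1 / 2 = q at *
    generalize x + 1 = r at *
    field_simp
    ring
  · unfold XC
    rw [c1, c2, c3, c4, c5, c6]
    generalize x + 1 / 4 = p at *
    generalize x + 1 / 2 = q at *
    generalize x + 1 = r at *
    field_simp
    ring
  · unfold XA
    generalize x + 1 / 2 = q at *
    generalize x + 1 = r at *
    generalize x + 2 = s at *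
    field_simp
  · unfold XB
    generalize x + 1 / 2 = q at *
    generalize x + 1 = r at *
    generalize x + 2 = s at *
    field_simp
  · unfold XC
    generalize x + 1 / 2 = q at *
    generalize x + 1 = r at *
    generalize x + 2 = s at *
    field_simp

theorem forms_minus (β x : ℝ) (hD : 2 - β ≠ 0) (hx : 0 < x) :
    XA β (x / 2) = (x * (x + 2) * (x + 4) - β * (x * (x + 1) * (x + 4)) + x * (x + 1) * (x + 2)) / ((2 - β) * ((x + 4) * (x + 2) * (x + 1))) ∧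
    XB β (x / 2) = (x * (x + 2) ^ 2 * (x + 4) ^ 2 - β * (2 * x * (x + 1) ^ 2 * (x + 4) ^ 2) + 4 * x * (x + 1) ^ 2 * (x + 2) ^ 2) / ((2 - β) * ((x + 4) ^ 2 * (x + 2) ^ 2 * (x + 1) ^ 2)) ∧
    XC β (x / 2) = (x * (1 - x) * (x + 2) ^ 3 * (x + 4) ^ 3 - β * (2 * x * (2 - x) * (x + 1) ^ 3 * (x + 4) ^ 3) + 4 * x * (4 - x) * (x + 1) ^ 3 * (x + 2) ^ 3) / ((2 - β) * ((x + 4) ^ 3 * (x + 2) ^ 3 * (x + 1) ^ 3)) ∧
    XA β x = (x * (x + 1) * (x + 2) - β * (x * (x + 1 / 2) * (x + 2)) + x * (x + 1 / 2) * (x + 1)) / ((2 - β) * ((x + 2) * (x + 1) * (x + 1 / 2))) ∧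
    XB β x = (1 / 2 * x * (x + 1) ^ 2 * (x + 2) ^ 2 - β * (x * (x + 1 / 2) ^ 2 * (x + 2) ^ 2) + 2 * x * (x + 1 / 2) ^ 2 * (x + 1) ^ 2) / ((2 - β) * ((x + 2) ^ 2 * (x + 1) ^ 2 * (x + 1 / 2) ^ 2)) ∧
    XC β x = (1 / 2 * x * (1 / 2 - x) * (x + 1) ^ 3 * (x + 2) ^ 3 - β * (x * (1 - x) * (x + 1 / 2) ^ 3 * (x + 2) ^ 3) + 2 * x * (2 - x) * (x + 1 / 2) ^ 3 * (x + 1) ^ 3) / ((2 - β) * ((x + 2) ^ 3 * (x + 1) ^ 3 * (x + 1 / 2) ^ 3)) := by
  have a1 : x + 4 ≠ 0 := by positivity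
  have a2 : x + 1 / 2 ≠ 0 := by positivity
  have a3 : x + 1 ≠ 0 := by positivity
  have a4 : x + 2 ≠ 0 := by positivity
  have c1 : x / 2 + 1 / 2 = (x + 1) / 2 := by ring
  have c2 : x / 2 + 1 = (x + 2) / 2 := by ring
  have c3 : x / 2 + 2 = (x + 4) / 2 := by ring
  have c4 : 1 / 2 - x / 2 = (1 - x) / 2 := by ring
  have c5 : 1 - x / 2 = (2 - x) / 2 := by ring
  have c6 : 2 - x / 2 = (4 - x) / 2 := by ring
  refine ⟨?_, ?_, ?_, ?_, ?_, ?_⟩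
  · unfold XA
    rw [c1, c2, c3]
    generalize x + 1 = r at *
    generalize x + 2 = q at *
    generalize x + 4 = p at *
    field_simp
  · unfold XB
    rw [c1, c2, c3]
    generalize x + 1 = r at *
    generalize x + 2 = q at *
    generalize x + 4 = p at *
    field_simp
    ring
  · unfold XC
    rw [c1, c2, c3, c4, c5, c6]
    generalize x + 1 = r at *
    generalize x + 2 = q at *
    generalize x + 4 = p at *
    field_simp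
    ring
  · unfold XA
    generalize x + 1 / 2 = q at *
    generalize x + 1 = r at *
    generalize x + 2 = s at *
    field_simp
  · unfold XB
    generalize x + 1 / 2 = q at *
    generalize x + 1 = r at *
    generalize x + 2 = s at *
    field_simp
  · unfold XC
    generalize x + 1 / 2 = q at *
    generalize x + 1 = r at *
    generalize x + 2 = s at *
    field_simp

theorem conv_plus (β : ℝ) (h1 : 0.9065 ≤ β) (h2 : β ≤ 0.9066) : ∃ c > 0, ∀ x : ℝ, 0 < x →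
    c * x ^ 3 / (1 + x) ^ 6 ≤ 2 * XB β (2 * x) * (XB β x + XB β (2 * x)) * XB β x
      - (1 + XA β (2 * x) - XA β x) * (XC β (2 * x) * XB β x - XB β (2 * x) * XC β x) := by
  have hD : 0 < 2 - β := by linarith
  refine ⟨0.0001 / (8 * (2 - β) ^ 3), by positivity, fun x hx => ?_⟩
  obtain ⟨f1, f2, f3, f4, f5, f6⟩ := forms_plus β x hD.ne' hx
  rw [f1, f2, f3, f4, f5, f6, alg _ _ _ _ _ _ _ _ _ _ _ hD.ne' (by positivity) (by positivity)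
    (by positivity) (by positivity), ident_plus, add_comm 1 x]
  refine fin_step _ _ _ _ _ _ _ _ _ hD (by positivity) (by positivity) (by positivity) (by positivity) hx
    (by norm_num) (by norm_num) (num_plus_le β x h1 h2 hx) ?_
  calc (x + 1 / 4) ^ 3 * (x + 1 / 2) ^ 6 * (x + 1) ^ 6 * (x + 2) ^ 3
      ≤ (x + 1) ^ 3 * (x + 1) ^ 6 * (x + 1) ^ 6 * (2 * (x + 1)) ^ 3 := by
        gcongr <;> linarith
    _ = 8 * (x + 1) ^ 18 := by ring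

theorem conv_minus (β : ℝ) (h1 : 0.9065 ≤ β) (h2 : β ≤ 0.9066) : ∃ c > 0, ∀ x : ℝ, 0 < x →
    c * x ^ 3 / (1 + x) ^ 6 ≤ 2 * XB β (x / 2) * (XB β x + XB β (x / 2)) * XB β x
      - (1 + XA β (x / 2) - XA β x) * (XC β (x / 2) * XB β x - XB β (x / 2) * XC β x) := by
  have hD : 0 < 2 - β := by linarith
  refine ⟨0.0001 / (4096 * (2 - β) ^ 3), by positivity, fun x hx => ?_⟩
  obtain ⟨f1, f2, f3, f4, f5, f6⟩ := forms_minus β x hD.ne' hx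
  rw [f1, f2, f3, f4, f5, f6, alg _ _ _ _ _ _ _ _ _ _ _ hD.ne' (by positivity) (by positivity)
    (by positivity) (by positivity), ident_minus, add_comm 1 x]
  refine fin_step _ _ _ _ _ _ _ _ _ hD (by positivity) (by positivity) (by positivity) (by positivity) hx
    (by norm_num) (by norm_num) (num_minus_le β x h1 h2 hx) ?_
  calc (x + 4) ^ 3 * (x + 2) ^ 6 * (x + 1) ^ 6 * (x + 1 / 2) ^ 3
      ≤ (4 * (x + 1)) ^ 3 * (2 * (x + 1)) ^ 6 * (x + 1) ^ 6 * (x + 1) ^ 3 := by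
        gcongr <;> linarith
    _ = 4096 * (x + 1) ^ 18 := by ring

end TC
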