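import Mathlib
import Pool.Agent.Helper822.TC.Defs3

set_option autoImplicit false

open Set Filter Topology Metric

namespace TC

theorem XB_bd (β x : ℝ) (h1 : 0.9065 ≤ β) (h2 : β ≤ 0.9066) (hx : 0 < x) :
    |XB β x| ≤ 10 * x ∧ |XB β x| ≤ 10 / x := by
  have hb : 1 ≤ 2 - β := by norm_num at h2; linarith
  have hb0 : 0 < β := by norm_num at h1; linarith
  have hb1 : β ≤ 1 := by norm_num at h2; linarith
  have key : ∀ c : ℝ, 0 < c → 0 ≤ c * x / (x + c) ^ 2 ∧ c * x / (x + c) ^ 2 ≤ x / c ∧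
      c * x / (x + c) ^ 2 ≤ c / x := by
    intro c hc
    refine ⟨by positivity, ?_, ?_⟩
    · rw [div_le_div_iff₀ (by positivity) hc]
      nlinarith [mul_pos hx hc, mul_pos hx hx, mul_pos (mul_pos hx hx) hc, pow_pos hx 3]
    · rw [div_le_div_iff₀ (by positivity) hx]
      nlinarith [mul_pos hx hc, mul_pos hx hx, mul_pos (mul_pos hx hc) hc, pow_pos hc 3]
  obtain ⟨a1, a2, a3⟩ := key (1 / 2) (by norm_num)
  obtain ⟨b1, b2, b3⟩ := key 1 one_pos
  obtain ⟨c1, c2, c3⟩ := key 2 (by norm_num)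
  have e : XB β x = (1 / 2 * x / (x + 1 / 2) ^ 2 - β * (1 * x / (x + 1) ^ 2)
      + 2 * x / (x + 2) ^ 2) / (2 - β) := by
    unfold XB; rw [one_mul]
  rw [e]
  set u := 1 / 2 * x / (x + 1 / 2) ^ 2
  set v := 1 * x / (x + 1) ^ 2
  set w := 2 * x / (x + 2) ^ 2
  have habs : |(u - β * v + w) / (2 - β)| ≤ u + v + w := by
    rw [abs_div, abs_of_pos (by linarith : 0 < 2 - β), div_le_iff₀ (by linarith)]
    have : |u - β * v + w| ≤ u + v + w := by
      rw [abs_le]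
      constructor <;> nlinarith
    nlinarith
  constructor
  · refine habs.trans ?_
    have : x / (1 / 2) = 2 * x := by ring
    have : x / 1 = x := by ring
    linarith [this]
  · refine habs.trans ?_
    have t1 : (1 / 2 : ℝ) / x = (1 / 2) * (1 / x) := by ring
    have t2 : (2 : ℝ) / x = 2 * (1 / x) := by ring
    have t3 : (10 : ℝ) / x = 10 * (1 / x) := by ring
    have t4 : 0 < 1 / x := by positivity
    linarith

theorem XC_bd (β x : ℝ) (h1 : 0.9065 ≤ β) (h2 : β ≤ 0.9066) (hx : 0 < x) :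
    |XC β x - XB β x| ≤ 20 * x ^ 2 ∧ |XC β x + XB β x| ≤ 20 / x ^ 2 := by
  have hb : 1 ≤ 2 - β := by norm_num at h2; linarith
  have hb0 : 0 < β := by norm_num at h1; linarith
  have hb1 : β ≤ 1 := by norm_num at h2; linarith
  have key : ∀ c : ℝ, 0 < c → 0 ≤ c * x ^ 2 / (x + c) ^ 3 ∧ c * x ^ 2 / (x + c) ^ 3 ≤ x ^ 2 / c ^ 2 := by
    intro c hc
    refine ⟨by positivity, ?_⟩
    rw [div_le_div_iff₀ (by positivity) (by positivity)]
    have : c * x ^ 2 * c ^ 2 = x ^ 2 * c ^ 3 := by ring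
    rw [this]
    have h3 : c ^ 3 ≤ (x + c) ^ 3 := pow_le_pow_left₀ hc.le (by linarith) 3
    exact mul_le_mul_of_nonneg_left h3 (by positivity)
  have key2 : ∀ c : ℝ, 0 < c → 0 ≤ c ^ 2 * x / (x + c) ^ 3 ∧ c ^ 2 * x / (x + c) ^ 3 ≤ c ^ 2 / x ^ 2 := by
    intro c hc
    refine ⟨by positivity, ?_⟩
    rw [div_le_div_iff₀ (by positivity) (by positivity)]
    have : c ^ 2 * x * x ^ 2 = c ^ 2 * x ^ 3 := by ring
    rw [this]
    have h3 : x ^ 3 ≤ (x + c) ^ 3 := pow_le_pow_left₀ hx.le (by linarith) 3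
    exact mul_le_mul_of_nonneg_left h3 (by positivity)
  constructor
  · obtain ⟨a1, a2⟩ := key (1 / 2) (by norm_num)
    obtain ⟨b1, b2⟩ := key 1 one_pos
    obtain ⟨c1, c2⟩ := key 2 (by norm_num)
    have e : XC β x - XB β x = (-2 * (1 / 2 * x ^ 2 / (x + 1 / 2) ^ 3)
        + 2 * β * (1 * x ^ 2 / (x + 1) ^ 3) - 2 * (2 * x ^ 2 / (x + 2) ^ 3)) / (2 - β) := by
      unfold XC XB
      have n1 : x + 1 / 2 ≠ 0 := by positivity
      have n2 : x + 1 ≠ 0 := by positivity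
      have n3 : x + 2 ≠ 0 := by positivity
      have n4 : 2 - β ≠ 0 := by linarith
      rw [← sub_div]
      congr 1
      have s1 : 1 / 2 * x * (1 / 2 - x) / (x + 1 / 2) ^ 3 - 1 / 2 * x / (x + 1 / 2) ^ 2 =
          -2 * (1 / 2 * x ^ 2 / (x + 1 / 2) ^ 3) := by field_simp; ring
      have s2 : x * (1 - x) / (x + 1) ^ 3 - x / (x + 1) ^ 2 = -2 * (1 * x ^ 2 / (x + 1) ^ 3) := by
        field_simp; ring
      have s3 : 2 * x * (2 - x) / (x + 2) ^ 3 - 2 * x / (x + 2) ^ 2 =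
          -2 * (2 * x ^ 2 / (x + 2) ^ 3) := by field_simp; ring
      linear_combination s1 - β * s2 + s3
    rw [e]
    set u := 1 / 2 * x ^ 2 / (x + 1 / 2) ^ 3
    set v := 1 * x ^ 2 / (x + 1) ^ 3
    set w := 2 * x ^ 2 / (x + 2) ^ 3
    have habs : |(-2 * u + 2 * β * v - 2 * w) / (2 - β)| ≤ 2 * (u + v + w) := by
      rw [abs_div, abs_of_pos (by linarith : 0 < 2 - β), div_le_iff₀ (by linarith)]
      have : |-2 * u + 2 * β * v - 2 * w| ≤ 2 * (u + v + w) := by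
        rw [abs_le]
        constructor <;> nlinarith
      nlinarith
    refine habs.trans ?_
    have t1 : x ^ 2 / (1 / 2) ^ 2 = 4 * x ^ 2 := by ring
    have t2 : x ^ 2 / 1 ^ 2 = x ^ 2 := by ring
    have t3 : x ^ 2 / 2 ^ 2 = x ^ 2 / 4 := by ring
    have t4 : 0 < x ^ 2 := by positivity
    linarith
  · obtain ⟨a1, a2⟩ := key2 (1 / 2) (by norm_num)
    obtain ⟨b1, b2⟩ := key2 1 one_pos
    obtain ⟨c1, c2⟩ := key2 2 (by norm_num)
    have e : XC β x + XB β x = (2 * ((1 / 2) ^ 2 * x / (x + 1 / 2) ^ 3)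
        - 2 * β * (1 ^ 2 * x / (x + 1) ^ 3) + 2 * (2 ^ 2 * x / (x + 2) ^ 3)) / (2 - β) := by
      unfold XC XB
      have n1 : x + 1 / 2 ≠ 0 := by positivity
      have n2 : x + 1 ≠ 0 := by positivity
      have n3 : x + 2 ≠ 0 := by positivity
      have n4 : 2 - β ≠ 0 := by linarith
      rw [← add_div]
      congr 1
      have s1 : 1 / 2 * x * (1 / 2 - x) / (x + 1 / 2) ^ 3 + 1 / 2 * x / (x + 1 / 2) ^ 2 =
          2 * ((1 / 2) ^ 2 * x / (x + 1 / 2) ^ 3) := by field_simp; ring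
      have s2 : x * (1 - x) / (x + 1) ^ 3 + x / (x + 1) ^ 2 = 2 * (1 ^ 2 * x / (x + 1) ^ 3) := by
        field_simp; ring
      have s3 : 2 * x * (2 - x) / (x + 2) ^ 3 + 2 * x / (x + 2) ^ 2 =
          2 * (2 ^ 2 * x / (x + 2) ^ 3) := by field_simp; ring
      linear_combination s1 - β * s2 + s3
    rw [e]
    set u := (1 / 2) ^ 2 * x / (x + 1 / 2) ^ 3
    set v := 1 ^ 2 * x / (x + 1) ^ 3
    set w := 2 ^ 2 * x / (x + 2) ^ 3
    have habs : |(2 * u - 2 * β * v + 2 * w) / (2 - β)| ≤ 2 * (u + v + w) := by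
      rw [abs_div, abs_of_pos (by linarith : 0 < 2 - β), div_le_iff₀ (by linarith)]
      have : |2 * u - 2 * β * v + 2 * w| ≤ 2 * (u + v + w) := by
        rw [abs_le]
        constructor <;> nlinarith
      nlinarith
    refine habs.trans ?_
    have t1 : (1 / 2 : ℝ) ^ 2 / x ^ 2 = 1 / 4 * (1 / x ^ 2) := by ring
    have t2 : (1 : ℝ) ^ 2 / x ^ 2 = 1 / x ^ 2 := by ring
    have t3 : (2 : ℝ) ^ 2 / x ^ 2 = 4 * (1 / x ^ 2) := by ring
    have t5 : (20 : ℝ) / x ^ 2 = 20 * (1 / x ^ 2) := by ring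
    have t4 : 0 < 1 / x ^ 2 := by positivity
    rw [t5]
    linarith

theorem W_bd (β x y : ℝ) (h1 : 0.9065 ≤ β) (h2 : β ≤ 0.9066) (hx : 0 < x)
    (hy : y = 2 * x ∨ y = x / 2) :
    |XC β y * XB β x - XB β y * XC β x| ≤ 5000 * x ^ 3 ∧
    |XC β y * XB β x - XB β y * XC β x| ≤ 5000 / x ^ 3 := by
  have hy0 : 0 < y := by rcases hy with rfl | rfl <;> positivity
  obtain ⟨a1, a2⟩ := XB_bd β x h1 h2 hx
  obtain ⟨b1, b2⟩ := XB_bd β y h1 h2 hy0
  obtain ⟨c1, c2⟩ := XC_bd β x h1 h2 hx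
  obtain ⟨d1, d2⟩ := XC_bd β y h1 h2 hy0
  constructor
  · have e : XC β y * XB β x - XB β y * XC β x =
        (XC β y - XB β y) * XB β x - XB β y * (XC β x - XB β x) := by ring
    rw [e]
    refine (abs_sub _ _).trans ?_
    rw [abs_mul, abs_mul]
    have hy2 : y ≤ 2 * x := by rcases hy with rfl | rfl <;> linarith
    have m1 : |XC β y - XB β y| * |XB β x| ≤ (20 * y ^ 2) * (10 * x) :=
      mul_le_mul d1 a1 (abs_nonneg _) (by positivity)
    have m2 : |XB β y| * |XC β x - XB β x| ≤ (10 * y) * (20 * x ^ 2) :=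
      mul_le_mul b1 c1 (abs_nonneg _) (by positivity)
    have m3 : y ^ 2 ≤ (2 * x) ^ 2 := pow_le_pow_left₀ hy0.le hy2 2
    have m4 : (20 * y ^ 2) * (10 * x) ≤ (20 * (2 * x) ^ 2) * (10 * x) := by gcongr
    have m5 : (10 * y) * (20 * x ^ 2) ≤ (10 * (2 * x)) * (20 * x ^ 2) := by gcongr
    have m6 : (20 * (2 * x) ^ 2) * (10 * x) + (10 * (2 * x)) * (20 * x ^ 2) = 1200 * x ^ 3 := by ring
    have m7 : 0 < x ^ 3 := by positivity
    linarith
  · have e : XC β y * XB β x - XB β y * XC β x =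
        (XC β y + XB β y) * XB β x - XB β y * (XC β x + XB β x) := by ring
    rw [e]
    refine (abs_sub _ _).trans ?_
    rw [abs_mul, abs_mul]
    have hy2 : 1 / y ≤ 2 / x := by
      rcases hy with rfl | rfl
      · rw [div_le_div_iff₀ (by positivity) hx]; linarith
      · rw [div_le_div_iff₀ (by positivity) hx]; linarith
    have hy1 : 0 < 1 / y := by positivity
    have m1 : |XC β y + XB β y| * |XB β x| ≤ (20 / y ^ 2) * (10 / x) :=
      mul_le_mul d2 a2 (abs_nonneg _) (by positivity)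
    have m2 : |XB β y| * |XC β x + XB β x| ≤ (10 / y) * (20 / x ^ 2) :=
      mul_le_mul b2 c2 (abs_nonneg _) (by positivity)
    have m3 : (1 / y) ^ 2 ≤ (2 / x) ^ 2 := pow_le_pow_left₀ hy1.le hy2 2
    have m4 : (20 / y ^ 2) * (10 / x) ≤ 800 / x ^ 3 := by
      have : (20 / y ^ 2) * (10 / x) = (20 * (1 / y) ^ 2) * (10 / x) := by ring
      rw [this]
      have h5 : (20 * (1 / y) ^ 2) * (10 / x) ≤ (20 * (2 / x) ^ 2) * (10 / x) := by gcongr
      refine h5.trans (le_of_eq ?_)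
      field_simp; norm_num
    have m5 : (10 / y) * (20 / x ^ 2) ≤ 400 / x ^ 3 := by
      have : (10 / y) * (20 / x ^ 2) = (10 * (1 / y)) * (20 / x ^ 2) := by ring
      rw [this]
      have h5 : (10 * (1 / y)) * (20 / x ^ 2) ≤ (10 * (2 / x)) * (20 / x ^ 2) := by gcongr
      refine h5.trans (le_of_eq ?_)
      field_simp; norm_num
    have m6 : (800:ℝ) / x ^ 3 + 400 / x ^ 3 ≤ 5000 / x ^ 3 := by
      rw [← add_div]; gcongr; norm_num
    linarith

theorem nb_bd (β : ℝ) (h1 : 0.9065 ≤ β) (h2 : β ≤ 0.9066) (κ : ℝ)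
    (hκ : κ = Real.log 2 ∨ κ = -Real.log 2) (z : ℝ) :
    |XC β (Real.exp (z + κ)) * XB β (Real.exp z) - XB β (Real.exp (z + κ)) * XC β (Real.exp z)| ≤
      5000 * Real.exp (-|z|) ^ 3 := by
  have hx := Real.exp_pos z
  have hy : Real.exp (z + κ) = 2 * Real.exp z ∨ Real.exp (z + κ) = Real.exp z / 2 := by
    rcases hκ with rfl | rfl
    · left; rw [Real.exp_add, Real.exp_log (by norm_num)]; ring
    · right; rw [Real.exp_add, Real.exp_neg, Real.exp_log (by norm_num)]; ring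
  obtain ⟨w1, w2⟩ := W_bd β (Real.exp z) (Real.exp (z + κ)) h1 h2 hx hy
  rcases le_total 0 z with hz | hz
  · rw [abs_of_nonneg hz]
    refine w2.trans (le_of_eq ?_)
    rw [Real.exp_neg]; field_simp
  · rw [abs_of_nonpos hz, neg_neg]
    exact w1

end TC
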