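import Mathlib
import Pool.Agent.Helper822.TC.Defs3

set_option autoImplicit false

open Set Filter Topology Metric

namespace TC



theorem tcb_d1 (c : ℝ) (hc : 0 < c) (z : ℝ) :
    HasDerivAt (fun z => Real.exp z / (Real.exp z + c)) (c * Real.exp z / (Real.exp z + c) ^ 2) z := by
  have hx := Real.exp_pos z
  have h := (Real.hasDerivAt_exp z).div ((Real.hasDerivAt_exp z).add_const c) (by positivity)
  refine h.congr_deriv ?_
  field_simp
  ring

theorem tcb_d2 (c : ℝ) (hc : 0 < c) (z : ℝ) :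
    HasDerivAt (fun z => c * Real.exp z / (Real.exp z + c) ^ 2)
      (c * Real.exp z * (c - Real.exp z) / (Real.exp z + c) ^ 3) z := by
  have hx := Real.exp_pos z
  have h := ((Real.hasDerivAt_exp z).const_mul c).div
    (((Real.hasDerivAt_exp z).add_const c).pow 2)
    (ne_of_gt (show 0 < (Real.exp z + c) ^ 2 by positivity))
  refine h.congr_deriv ?_
  simp only [Nat.cast_ofNat, Nat.add_one_sub_one, pow_one, Pi.pow_apply]
  field_simp
  ring

theorem tcb_d3 (c : ℝ) (hc : 0 < c) (z : ℝ) :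
    HasDerivAt (fun z => c * Real.exp z * (c - Real.exp z) / (Real.exp z + c) ^ 3)
      (c * Real.exp z * (c ^ 2 - 4 * c * Real.exp z + Real.exp z ^ 2) / (Real.exp z + c) ^ 4) z := by
  have hx := Real.exp_pos z
  have h := ((((Real.hasDerivAt_exp z).const_mul c)).mul
    ((hasDerivAt_const z c).sub (Real.hasDerivAt_exp z))).div
    (((Real.hasDerivAt_exp z).add_const c).pow 3)
    (ne_of_gt (show 0 < (Real.exp z + c) ^ 3 by positivity))
  refine h.congr_deriv ?_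
  simp only [Nat.cast_ofNat, Nat.add_one_sub_one, Pi.pow_apply, Pi.mul_apply, Pi.sub_apply]
  field_simp
  ring

/-- third derivative -/
noncomputable def tcbXD (β x : ℝ) : ℝ :=
  (1 / 2 * x * ((1 / 2) ^ 2 - 4 * (1 / 2) * x + x ^ 2) / (x + 1 / 2) ^ 4
    - β * (x * (1 - 4 * x + x ^ 2) / (x + 1) ^ 4)
    + 2 * x * (2 ^ 2 - 4 * 2 * x + x ^ 2) / (x + 2) ^ 4) / (2 - β)

theorem tcb_D1 (β z : ℝ) : HasDerivAt (fun z => XA β (Real.exp z)) (XB β (Real.exp z)) z := by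
  unfold XA XB
  have h := ((((tcb_d1 (1 / 2) (by norm_num) z).sub
    ((tcb_d1 1 (by norm_num) z).const_mul β)).add (tcb_d1 2 (by norm_num) z))).div_const (2 - β)
  refine h.congr_deriv ?_
  rw [one_mul]

theorem tcb_D2 (β z : ℝ) : HasDerivAt (fun z => XB β (Real.exp z)) (XC β (Real.exp z)) z := by
  unfold XB XC
  have h := ((((tcb_d2 (1 / 2) (by norm_num) z).sub
    ((tcb_d2 1 (by norm_num) z).const_mul β)).add (tcb_d2 2 (by norm_num) z))).div_const (2 - β)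
  simp only [one_mul] at h
  exact h

theorem tcb_D3 (β z : ℝ) : HasDerivAt (fun z => XC β (Real.exp z)) (tcbXD β (Real.exp z)) z := by
  unfold XC tcbXD
  have h := ((((tcb_d3 (1 / 2) (by norm_num) z).sub
    ((tcb_d3 1 (by norm_num) z).const_mul β)).add (tcb_d3 2 (by norm_num) z))).div_const (2 - β)
  simp only [one_mul, one_pow, mul_one] at h
  exact h

theorem tcb_E1 (z : ℝ) : Real.exp (-|z|) ≤ 4 * (Real.exp z / (1 + Real.exp z) ^ 2) := by
  have hx := Real.exp_pos z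
  rcases le_total 0 z with h | h
  · rw [abs_of_nonneg h, Real.exp_neg]
    have h1 : 1 ≤ Real.exp z := Real.one_le_exp h
    rw [inv_eq_one_div, ← mul_div_assoc, div_le_div_iff₀ hx (by positivity)]
    nlinarith
  · rw [abs_of_nonpos h, neg_neg]
    have h1 : Real.exp z ≤ 1 := Real.exp_le_one_iff.2 h
    rw [← mul_div_assoc, le_div_iff₀ (by positivity)]
    have : (1 + Real.exp z) ^ 2 ≤ 4 := by nlinarith
    nlinarith

theorem tcb_E2 (z : ℝ) : Real.exp z / (1 + Real.exp z) ^ 2 ≤ Real.exp (-|z|) := by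
  have hx := Real.exp_pos z
  rcases le_total 0 z with h | h
  · rw [abs_of_nonneg h, Real.exp_neg]
    rw [inv_eq_one_div, div_le_div_iff₀ (by positivity) hx]
    nlinarith
  · rw [abs_of_nonpos h, neg_neg]
    rw [div_le_iff₀ (by positivity)]
    nlinarith [mul_pos hx hx, mul_pos (mul_pos hx hx) hx]

theorem tcb_t1 (c : ℝ) (hc : c = 1 / 2 ∨ c = 2) (x : ℝ) (hx : 0 < x) :
    c * x / (x + c) ^ 2 ≤ 2 * (x / (1 + x) ^ 2) := by
  rcases hc with rfl | rfl
  · rw [← mul_div_assoc, div_le_div_iff₀ (by positivity) (by positivity)]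
    nlinarith [mul_pos hx hx, mul_pos (mul_pos hx hx) hx]
  · rw [← mul_div_assoc, div_le_div_iff₀ (by positivity) (by positivity)]
    nlinarith [mul_pos hx hx, mul_pos (mul_pos hx hx) hx]

theorem tcb_t2 (c : ℝ) (hc : 0 < c) (x : ℝ) (hx : 0 < x) :
    |c * x * (c - x) / (x + c) ^ 3| ≤ c * x / (x + c) ^ 2 := by
  have h : c * x * (c - x) / (x + c) ^ 3 = c * x / (x + c) ^ 2 * ((c - x) / (x + c)) := by
    field_simp
  rw [h, abs_mul, abs_of_pos (show 0 < c * x / (x + c) ^ 2 by positivity)]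
  have h2 : |(c - x) / (x + c)| ≤ 1 := by
    rw [abs_div, abs_of_pos (show 0 < x + c by positivity), div_le_one (by positivity), abs_le]
    constructor <;> linarith
  nlinarith [show 0 < c * x / (x + c) ^ 2 by positivity]

theorem tcb_t3 (c : ℝ) (hc : 0 < c) (x : ℝ) (hx : 0 < x) :
    |c * x * (c ^ 2 - 4 * c * x + x ^ 2) / (x + c) ^ 4| ≤ c * x / (x + c) ^ 2 := by
  have h : c * x * (c ^ 2 - 4 * c * x + x ^ 2) / (x + c) ^ 4 =
      c * x / (x + c) ^ 2 * ((c ^ 2 - 4 * c * x + x ^ 2) / (x + c) ^ 2) := by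
    field_simp
  rw [h, abs_mul, abs_of_pos (show 0 < c * x / (x + c) ^ 2 by positivity)]
  have h2 : |(c ^ 2 - 4 * c * x + x ^ 2) / (x + c) ^ 2| ≤ 1 := by
    rw [abs_div, abs_of_pos (show 0 < (x + c) ^ 2 by positivity), div_le_one (by positivity), abs_le]
    constructor
    · nlinarith [sq_nonneg (x - c), mul_pos hx hc]
    · nlinarith [mul_pos hx hc]
  nlinarith [show 0 < c * x / (x + c) ^ 2 by positivity]

theorem tcb_comb (β : ℝ) (h1 : 0.9065 ≤ β) (h2 : β ≤ 0.9066) (a b c w : ℝ)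
    (ha : |a| ≤ 2 * w) (hb : |b| ≤ w) (hc : |c| ≤ 2 * w) : |(a - β * b + c) / (2 - β)| ≤ 5 * w := by
  have hw : 0 ≤ w := le_trans (abs_nonneg _) hb
  have hβ : 0 < 2 - β := by linarith
  rw [abs_div, abs_of_pos hβ, div_le_iff₀ hβ]
  have h3 : |a - β * b + c| ≤ |a| + β * |b| + |c| := by
    calc |a - β * b + c| ≤ |a - β * b| + |c| := abs_add_le _ _
      _ ≤ |a| + |β * b| + |c| := by gcongr; exact abs_sub _ _
      _ = |a| + β * |b| + |c| := by rw [abs_mul, abs_of_pos (show 0 < β by linarith)]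
  have h4 : β * |b| ≤ 0.9066 * w := by
    have : β * |b| ≤ 0.9066 * |b| := by
      apply mul_le_mul_of_nonneg_right h2 (abs_nonneg _)
    nlinarith
  nlinarith

theorem tcb_XB_abs (β : ℝ) (h1 : 0.9065 ≤ β) (h2 : β ≤ 0.9066) (x : ℝ) (hx : 0 < x) :
    |XB β x| ≤ 5 * (x / (1 + x) ^ 2) := by
  unfold XB
  apply tcb_comb β h1 h2
  · rw [abs_of_pos (by positivity)]
    exact tcb_t1 (1 / 2) (Or.inl rfl) x hx
  · rw [abs_of_pos (by positivity), add_comm]
  · rw [abs_of_pos (by positivity)]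
    exact tcb_t1 2 (Or.inr rfl) x hx

theorem tcb_XC_abs (β : ℝ) (h1 : 0.9065 ≤ β) (h2 : β ≤ 0.9066) (x : ℝ) (hx : 0 < x) :
    |XC β x| ≤ 5 * (x / (1 + x) ^ 2) := by
  unfold XC
  apply tcb_comb β h1 h2
  · exact (tcb_t2 (1 / 2) (by norm_num) x hx).trans (tcb_t1 (1 / 2) (Or.inl rfl) x hx)
  · have := tcb_t2 1 (by norm_num) x hx
    rw [one_mul] at this
    rwa [add_comm 1 x]
  · exact (tcb_t2 2 (by norm_num) x hx).trans (tcb_t1 2 (Or.inr rfl) x hx)

theorem tcb_XD_abs (β : ℝ) (h1 : 0.9065 ≤ β) (h2 : β ≤ 0.9066) (x : ℝ) (hx : 0 < x) :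
    |tcbXD β x| ≤ 5 * (x / (1 + x) ^ 2) := by
  unfold tcbXD
  apply tcb_comb β h1 h2
  · exact (tcb_t3 (1 / 2) (by norm_num) x hx).trans (tcb_t1 (1 / 2) (Or.inl rfl) x hx)
  · have := tcb_t3 1 (by norm_num) x hx
    simp only [one_mul, one_pow, mul_one] at this
    rwa [add_comm 1 x]
  · exact (tcb_t3 2 (by norm_num) x hx).trans (tcb_t1 2 (Or.inr rfl) x hx)

theorem tcb_XB_lower (β : ℝ) (h1 : 0.9065 ≤ β) (h2 : β ≤ 0.9066) (x : ℝ) (hx : 0 < x) :
    1 / 5 * (x / (1 + x) ^ 2) ≤ XB β x := by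
  unfold XB
  have hβ : 0 < 2 - β := by linarith
  rw [le_div_iff₀ hβ]
  have hw : 0 < x / (x + 1) ^ 2 := by positivity
  have key : 1.13 * (x / (x + 1) ^ 2) ≤ 1 / 2 * x / (x + 1 / 2) ^ 2 + 2 * x / (x + 2) ^ 2 := by
    rw [← mul_div_assoc, div_add_div _ _ (by positivity) (by positivity),
      div_le_div_iff₀ (by positivity) (by positivity)]
    have : 0 ≤ ((1 / 2 * x * (x + 2) ^ 2 + (x + 1 / 2) ^ 2 * (2 * x)) * (x + 1) ^ 2
      - 1.13 * x * ((x + 1 / 2) ^ 2 * (x + 2) ^ 2)) := by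
      have e : ((1 / 2 * x * (x + 2) ^ 2 + (x + 1 / 2) ^ 2 * (2 * x)) * (x + 1) ^ 2
        - 1.13 * x * ((x + 1 / 2) ^ 2 * (x + 2) ^ 2)) = x * ((5 / 2 - 1.13) * x ^ 4
          + (9 - 5 * 1.13) * x ^ 3 + (13 - 33 / 4 * 1.13) * x ^ 2 + (9 - 5 * 1.13) * x
          + (5 / 2 - 1.13)) := by ring
      rw [e]
      norm_num
      positivity
    linarith
  rw [add_comm 1 x]
  have h3 : β * (x / (x + 1) ^ 2) ≤ 0.9066 * (x / (x + 1) ^ 2) :=
    mul_le_mul_of_nonneg_right h2 hw.le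
  nlinarith

theorem tcb_XB_inv (β x : ℝ) (hx : 0 < x) : XB β x⁻¹ = XB β x := by
  unfold XB
  congr 1
  have a : 1 / 2 * x⁻¹ / (x⁻¹ + 1 / 2) ^ 2 = 2 * x / (x + 2) ^ 2 := by
    have : x⁻¹ + 1 / 2 = (x + 2) / (2 * x) := by field_simp; ring
    rw [this]; field_simp
    try ring
  have b : x⁻¹ / (x⁻¹ + 1) ^ 2 = x / (x + 1) ^ 2 := by
    have : x⁻¹ + 1 = (x + 1) / x := by field_simp; ring
    rw [this]; field_simp
  have c : 2 * x⁻¹ / (x⁻¹ + 2) ^ 2 = 1 / 2 * x / (x + 1 / 2) ^ 2 := by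
    have : x⁻¹ + 2 = 2 * (x + 1 / 2) / x := by field_simp; ring
    rw [this]; field_simp
    try ring
  rw [a, b, c]; ring

/-- `XB β x = x * K x` -/
noncomputable def tcbK (β x : ℝ) : ℝ :=
  (1 / 2 / (x + 1 / 2) ^ 2 - β * (1 / (x + 1) ^ 2) + 2 / (x + 2) ^ 2) / (2 - β)

theorem tcb_K (β x : ℝ) : XB β x = x * tcbK β x := by
  unfold XB tcbK
  ring

theorem tcb_K_cont (β : ℝ) (h2 : β ≤ 0.9066) : ContinuousAt (tcbK β) 0 := by
  unfold tcbK
  have hβ : 2 - β ≠ 0 := by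
    have : 0 < 2 - β := by linarith
    exact this.ne'
  fun_prop (disch := norm_num)

theorem tcb_K_zero (β : ℝ) (h2 : β ≤ 0.9066) : tcbK β 0 ≠ 0 := by
  unfold tcbK
  have hβ : 0 < 2 - β := by linarith
  apply ne_of_gt
  apply div_pos _ hβ
  norm_num
  linarith

theorem tcb_ratio (β : ℝ) (h2 : β ≤ 0.9066) (a : ℝ) :
    Tendsto (fun x => XB β (a * x) / XB β x) (𝓝[>] 0) (𝓝 a) := by
  have hK := tcb_K_cont β h2
  have hK0 := tcb_K_zero β h2
  have h1 : Tendsto (fun x : ℝ => tcbK β (a * x)) (𝓝[>] 0) (𝓝 (tcbK β 0)) := by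
    have : Tendsto (fun x : ℝ => a * x) (𝓝[>] 0) (𝓝 0) := by
      have h : Tendsto (fun x : ℝ => a * x) (𝓝 0) (𝓝 (a * 0)) :=
        (continuous_const.mul continuous_id).tendsto 0
      rw [mul_zero] at h
      exact h.mono_left nhdsWithin_le_nhds
    exact hK.tendsto.comp this
  have h3 : Tendsto (fun x : ℝ => tcbK β x) (𝓝[>] 0) (𝓝 (tcbK β 0)) :=
    hK.tendsto.mono_left nhdsWithin_le_nhds
  have h4 : Tendsto (fun x : ℝ => a * (tcbK β (a * x) / tcbK β x)) (𝓝[>] 0)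
      (𝓝 (a * (tcbK β 0 / tcbK β 0))) := (h1.div h3 hK0).const_mul a
  rw [div_self hK0, mul_one] at h4
  refine h4.congr' ?_
  filter_upwards [self_mem_nhdsWithin] with x hx
  have hx' : x ≠ 0 := ne_of_gt hx
  rw [tcb_K, tcb_K β x]
  rw [mul_assoc, mul_div_assoc, mul_div_mul_left _ _ hx']

theorem tcb_lim0 (β : ℝ) (h2 : β ≤ 0.9066) :
    Tendsto (fun z => XA β (Real.exp z)) atBot (𝓝 0) := by
  have hβ : 2 - β ≠ 0 := by
    have : 0 < 2 - β := by linarith
    exact this.ne'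
  have hc : ContinuousAt (XA β) 0 := by
    unfold XA
    fun_prop (disch := norm_num)
  have h0 : XA β 0 = 0 := by unfold XA; simp
  have := hc.tendsto.comp Real.tendsto_exp_atBot
  rw [h0] at this
  exact this

theorem tcb_lim1 (β : ℝ) (h2 : β ≤ 0.9066) :
    Tendsto (fun z => XA β (Real.exp z)) atTop (𝓝 1) := by
  have hβ : 2 - β ≠ 0 := by
    have : 0 < 2 - β := by linarith
    exact this.ne'
  have hc : ContinuousAt (fun y : ℝ => (1 / (1 + 1 / 2 * y) - β * (1 / (1 + y)) + 1 / (1 + 2 * y)) /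
      (2 - β)) 0 := by
    fun_prop (disch := norm_num)
  have h0 : Tendsto (fun z : ℝ => Real.exp (-z)) atTop (𝓝 0) :=
    Real.tendsto_exp_neg_atTop_nhds_zero
  have := hc.tendsto.comp h0
  have e1 : (1 / (1 + 1 / 2 * (0:ℝ)) - β * (1 / (1 + 0)) + 1 / (1 + 2 * 0)) / (2 - β) = 1 := by
    rw [div_eq_one_iff_eq hβ]; norm_num; ring
  rw [e1] at this
  refine this.congr fun z => ?_
  have hx := Real.exp_pos z
  simp only [Function.comp_apply, Real.exp_neg]
  unfold XA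
  have a : 1 / (1 + 1 / 2 * (Real.exp z)⁻¹) = Real.exp z / (Real.exp z + 1 / 2) := by
    field_simp
  have b : 1 / (1 + (Real.exp z)⁻¹) = Real.exp z / (Real.exp z + 1) := by
    field_simp
  have c : 1 / (1 + 2 * (Real.exp z)⁻¹) = Real.exp z / (Real.exp z + 2) := by
    field_simp
  rw [a, b, c]

theorem tcb_lip (β : ℝ) (h1 : 0.9065 ≤ β) (h2 : β ≤ 0.9066) (z w : ℝ) (hzw : |z - w| ≤ 1) :
    |XC β (Real.exp z) - XC β (Real.exp w)| ≤ 20 * Real.exp (-|z|) * |z - w| := by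
  have hb : ∀ u ∈ Set.uIcc w z, ‖tcbXD β (Real.exp u)‖ ≤ 20 * Real.exp (-|z|) := by
    intro u hu
    have h3 := tcb_XD_abs β h1 h2 (Real.exp u) (Real.exp_pos u)
    have h4 := tcb_E2 u
    have h5 : |z| ≤ |u| + 1 := by
      have h6 : |z - u| ≤ |z - w| := by
        rw [Set.mem_uIcc] at hu
        rcases hu with ⟨ha, hb⟩ | ⟨ha, hb⟩
        · rw [abs_of_nonneg (by linarith), abs_of_nonneg (by linarith)]; linarith
        · rw [abs_of_nonpos (by linarith), abs_of_nonpos (by linarith)]; linarith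
      have h7 : |z| ≤ |u| + |z - u| := by
        calc |z| = |u + (z - u)| := by ring_nf
          _ ≤ _ := abs_add_le _ _
      linarith
    have h6 : Real.exp (-|u|) ≤ Real.exp 1 * Real.exp (-|z|) := by
      rw [← Real.exp_add]
      exact Real.exp_le_exp.2 (by linarith)
    have h7 : Real.exp 1 < 3 := Real.exp_one_lt_three
    have h8 := Real.exp_pos (-|z|)
    rw [Real.norm_eq_abs]
    nlinarith
  have := Convex.norm_image_sub_le_of_norm_hasDerivWithin_le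
    (f := fun z => XC β (Real.exp z)) (f' := fun z => tcbXD β (Real.exp z))
    (s := Set.uIcc w z) (x := w) (y := z) (C := 20 * Real.exp (-|z|))
    (fun u _ => (tcb_D3 β u).hasDerivWithinAt) hb (convex_uIcc w z) Set.left_mem_uIcc
    Set.right_mem_uIcc
  simpa only [Real.norm_eq_abs] using this

theorem base_real (β : ℝ) (h1 : 0.9065 ≤ β) (h2 : β ≤ 0.9066)
    (hcp : ∃ c > 0, ∀ x : ℝ, 0 < x →
      c * x ^ 3 / (1 + x) ^ 6 ≤ 2 * XB β (2 * x) * (XB β x + XB β (2 * x)) * XB β x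
        - (1 + XA β (2 * x) - XA β x) * (XC β (2 * x) * XB β x - XB β (2 * x) * XC β x))
    (hcm : ∃ c > 0, ∀ x : ℝ, 0 < x →
      c * x ^ 3 / (1 + x) ^ 6 ≤ 2 * XB β (x / 2) * (XB β x + XB β (x / 2)) * XB β x
        - (1 + XA β (x / 2) - XA β x) * (XC β (x / 2) * XB β x - XB β (x / 2) * XC β x))
    (X X1 X2 : ℝ → ℝ) (hX : ∀ z, X z = XA β (Real.exp z)) (hX1 : ∀ z, X1 z = XB β (Real.exp z))
    (hX2 : ∀ z, X2 z = XC β (Real.exp z)) :
    ∃ c M : ℝ, 0 < c ∧
      (∀ z, HasDerivAt X (X1 z) z) ∧ (∀ z, HasDerivAt X1 (X2 z) z) ∧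
      (∀ z, c * Real.exp (-|z|) ≤ X1 z) ∧ (∀ z, X1 z ≤ M * Real.exp (-|z|)) ∧
      (∀ z, |X2 z| ≤ M * Real.exp (-|z|)) ∧
      (∀ z w, |z - w| ≤ 1 → |X2 z - X2 w| ≤ M * Real.exp (-|z|) * |z - w|) ∧
      Tendsto X atBot (𝓝 0) ∧ Tendsto X atTop (𝓝 1) ∧
      (∀ z, c * Real.exp (-|z|) ^ 3 ≤
        2 * X1 (z + Real.log 2) * (X1 z + X1 (z + Real.log 2)) * X1 z
        - (1 + X (z + Real.log 2) - X z) *
          (X2 (z + Real.log 2) * X1 z - X1 (z + Real.log 2) * X2 z)) ∧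
      (∀ z, c * Real.exp (-|z|) ^ 3 ≤
        2 * X1 (z + -Real.log 2) * (X1 z + X1 (z + -Real.log 2)) * X1 z
        - (1 + X (z + -Real.log 2) - X z) *
          (X2 (z + -Real.log 2) * X1 z - X1 (z + -Real.log 2) * X2 z)) ∧
      Tendsto (fun z => X1 (z + Real.log 2) / X1 z) atBot (𝓝 2) ∧
      Tendsto (fun z => X1 (z + Real.log 2) / X1 z) atTop (𝓝 (1 / 2)) ∧
      Tendsto (fun z => X1 (z + -Real.log 2) / X1 z) atBot (𝓝 (1 / 2)) ∧
      Tendsto (fun z => X1 (z + -Real.log 2) / X1 z) atTop (𝓝 2) := by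
  obtain ⟨c1, hc1, hp⟩ := hcp
  obtain ⟨c2, hc2, hm⟩ := hcm
  have hXe : X = fun z => XA β (Real.exp z) := funext hX
  have hX1e : X1 = fun z => XB β (Real.exp z) := funext hX1
  have hX2e : X2 = fun z => XC β (Real.exp z) := funext hX2
  subst hXe hX1e hX2e
  have e1 : ∀ z, Real.exp (z + Real.log 2) = 2 * Real.exp z := fun z => by
    rw [Real.exp_add, Real.exp_log (by norm_num), mul_comm]
  have e2 : ∀ z, Real.exp (z + -Real.log 2) = Real.exp z / 2 := fun z => by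
    rw [Real.exp_add, Real.exp_neg, Real.exp_log (by norm_num)]; rfl
  have hE3 : ∀ z, Real.exp (-|z|) ^ 3 ≤ 64 * (Real.exp z ^ 3 / (1 + Real.exp z) ^ 6) := fun z => by
    have h := tcb_E1 z
    have h0 := Real.exp_pos (-|z|)
    calc Real.exp (-|z|) ^ 3 ≤ (4 * (Real.exp z / (1 + Real.exp z) ^ 2)) ^ 3 :=
          pow_le_pow_left₀ h0.le h 3
      _ = _ := by rw [mul_pow, div_pow]; ring
  refine ⟨min (1 / 20) (min (c1 / 64) (c2 / 64)), 20, by positivity, fun z => tcb_D1 β z,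
    fun z => tcb_D2 β z, ?_, ?_, ?_, ?_, tcb_lim0 β h2, tcb_lim1 β h2, ?_, ?_, ?_, ?_, ?_, ?_⟩
  · intro z
    have h3 := tcb_XB_lower β h1 h2 (Real.exp z) (Real.exp_pos z)
    have h4 := tcb_E1 z
    have h5 : min (1 / 20) (min (c1 / 64) (c2 / 64)) * Real.exp (-|z|) ≤
      1 / 20 * Real.exp (-|z|) := mul_le_mul_of_nonneg_right (min_le_left _ _) (Real.exp_pos _).le
    linarith
  · intro z
    have h3 := tcb_XB_abs β h1 h2 (Real.exp z) (Real.exp_pos z)
    have h4 := tcb_E2 z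
    have h5 := Real.exp_pos (-|z|)
    have h6 := le_abs_self (XB β (Real.exp z))
    show XB β (Real.exp z) ≤ _
    linarith
  · intro z
    have h3 := tcb_XC_abs β h1 h2 (Real.exp z) (Real.exp_pos z)
    have h4 := tcb_E2 z
    have h5 := Real.exp_pos (-|z|)
    show |XC β (Real.exp z)| ≤ _
    linarith
  · intro z w hzw
    exact tcb_lip β h1 h2 z w hzw
  · intro z
    have h3 := hp (Real.exp z) (Real.exp_pos z)
    have h4 := hE3 z
    have h5 : min (1 / 20) (min (c1 / 64) (c2 / 64)) * Real.exp (-|z|) ^ 3 ≤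
      c1 / 64 * Real.exp (-|z|) ^ 3 :=
      mul_le_mul_of_nonneg_right ((min_le_right _ _).trans (min_le_left _ _)) (by positivity)
    have h6 : c1 / 64 * Real.exp (-|z|) ^ 3 ≤
      c1 / 64 * (64 * (Real.exp z ^ 3 / (1 + Real.exp z) ^ 6)) :=
      mul_le_mul_of_nonneg_left h4 (by positivity)
    have h7 : c1 / 64 * (64 * (Real.exp z ^ 3 / (1 + Real.exp z) ^ 6)) =
      c1 * Real.exp z ^ 3 / (1 + Real.exp z) ^ 6 := by ring
    simp only [e1]
    linarith
  · intro z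
    have h3 := hm (Real.exp z) (Real.exp_pos z)
    have h4 := hE3 z
    have h5 : min (1 / 20) (min (c1 / 64) (c2 / 64)) * Real.exp (-|z|) ^ 3 ≤
      c2 / 64 * Real.exp (-|z|) ^ 3 :=
      mul_le_mul_of_nonneg_right ((min_le_right _ _).trans (min_le_right _ _)) (by positivity)
    have h6 : c2 / 64 * Real.exp (-|z|) ^ 3 ≤
      c2 / 64 * (64 * (Real.exp z ^ 3 / (1 + Real.exp z) ^ 6)) :=
      mul_le_mul_of_nonneg_left h4 (by positivity)
    have h7 : c2 / 64 * (64 * (Real.exp z ^ 3 / (1 + Real.exp z) ^ 6)) =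
      c2 * Real.exp z ^ 3 / (1 + Real.exp z) ^ 6 := by ring
    simp only [e2]
    linarith
  · simp only [e1]
    exact (tcb_ratio β h2 2).comp Real.tendsto_exp_atBot_nhdsGT
  · have h := ((tcb_ratio β h2 (1 / 2)).comp Real.tendsto_exp_atBot_nhdsGT).comp
      tendsto_neg_atTop_atBot
    refine h.congr fun z => ?_
    simp only [Function.comp_apply]
    rw [← tcb_XB_inv β (Real.exp z) (Real.exp_pos z), ← tcb_XB_inv β (Real.exp (z + Real.log 2))
      (Real.exp_pos _), e1, Real.exp_neg]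
    congr 2
    rw [mul_inv]; norm_num
  · simp only [e2]
    have h := (tcb_ratio β h2 (1 / 2)).comp Real.tendsto_exp_atBot_nhdsGT
    refine h.congr fun z => ?_
    simp only [Function.comp_apply]
    congr 2
    ring
  · have h := ((tcb_ratio β h2 2).comp Real.tendsto_exp_atBot_nhdsGT).comp
      tendsto_neg_atTop_atBot
    refine h.congr fun z => ?_
    simp only [Function.comp_apply]
    rw [← tcb_XB_inv β (Real.exp z) (Real.exp_pos z), ← tcb_XB_inv β (Real.exp (z + -Real.log 2))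
      (Real.exp_pos _), e2, Real.exp_neg]
    congr 2
    rw [inv_div]; rfl

end TC
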