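import Mathlib
import Pool.Agent.Helper822.TC.Defs4
import Pool.Agent.Helper822.TC.Defs

set_option autoImplicit false

open Complex Set Metric

namespace TC





lemma tube_re {z : ℂ} (hz : |z.im| < 1 / 20) {k : ℕ} (hk : k ≤ 12) :
    Real.exp z.re ^ k / 2 ≤ (exp z ^ k).re := by
  rw [← Complex.exp_nat_mul, Complex.exp_re]
  have h1 : ((k : ℂ) * z).re = k * z.re := by simp
  have h2 : ((k : ℂ) * z).im = k * z.im := by simp
  rw [h1, h2, Real.exp_nat_mul]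
  have hk' : (k : ℝ) ≤ 12 := by exact_mod_cast hk
  have hk0 : (0 : ℝ) ≤ k := Nat.cast_nonneg k
  have h3 : |(k : ℝ) * z.im| ≤ 3 / 5 := by
    rw [abs_mul, abs_of_nonneg hk0]
    nlinarith [abs_nonneg z.im]
  have h4 : 1 / 2 ≤ Real.cos ((k : ℝ) * z.im) := by
    have h5 := Real.one_sub_sq_div_two_le_cos (x := (k : ℝ) * z.im)
    have h6 : ((k : ℝ) * z.im) ^ 2 ≤ (3 / 5) ^ 2 := by
      rw [← sq_abs]
      exact pow_le_pow_left₀ (abs_nonneg _) h3 2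
    linarith
  have h7 : 0 < Real.exp z.re ^ k := pow_pos (Real.exp_pos _) _
  nlinarith

lemma nexp (z : ℂ) : ‖exp z‖ = Real.exp z.re := Complex.norm_exp z

/-- sector bounds for a polynomial of degree at most 12 with nonnegative real coefficients -/
lemma poly_bd {z : ℂ} (hz : |z.im| < 1 / 20) (n : ℕ) (hn : n ≤ 13) (c : ℕ → ℝ)
    (hc : ∀ k < n, 0 ≤ c k) :
    (∑ k ∈ Finset.range n, c k * Real.exp z.re ^ k) / 2
      ≤ ‖∑ k ∈ Finset.range n, (c k : ℂ) * exp z ^ k‖ ∧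
    ‖∑ k ∈ Finset.range n, (c k : ℂ) * exp z ^ k‖
      ≤ ∑ k ∈ Finset.range n, c k * Real.exp z.re ^ k := by
  constructor
  · refine le_trans ?_ (Complex.re_le_norm _)
    rw [Complex.re_sum, Finset.sum_div]
    refine Finset.sum_le_sum fun k hk => ?_
    have hk' := Finset.mem_range.1 hk
    rw [Complex.re_ofReal_mul]
    have h1 := tube_re hz (k := k) (by omega)
    have h2 := hc k hk'
    nlinarith
  · refine (norm_sum_le _ _).trans (Finset.sum_le_sum fun k hk => ?_)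
    have hk' := Finset.mem_range.1 hk
    rw [norm_mul, norm_pow, nexp, Complex.norm_real, Real.norm_of_nonneg (hc k hk')]

lemma add_bd {z : ℂ} (hz : |z.im| < 1 / 20) {c : ℝ} (hc : 0 ≤ c) :
    (Real.exp z.re + c) / 2 ≤ ‖exp z + (c : ℂ)‖ ∧ ‖exp z + (c : ℂ)‖ ≤ Real.exp z.re + c := by
  have h := poly_bd hz 2 (by norm_num) (fun k => if k = 0 then c else 1) (by
    intro k hk
    split_ifs
    · exact hc
    · exact zero_le_one)
  simp only [Finset.sum_range_succ, Finset.sum_range_zero] at h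
  simp only [if_true, one_ne_zero, if_false, pow_zero, pow_one, Complex.ofReal_one, zero_add,
    one_mul, mul_one] at h
  rw [add_comm (Real.exp z.re), add_comm (exp z)]
  exact h

lemma poly4_bd {z : ℂ} (hz : |z.im| < 1 / 20) {a0 a1 a2 a3 a4 : ℝ} (h0 : 0 ≤ a0) (h1 : 0 ≤ a1)
    (h2 : 0 ≤ a2) (h3 : 0 ≤ a3) (h4 : 0 ≤ a4) :
    (a4 * Real.exp z.re ^ 4 + a3 * Real.exp z.re ^ 3 + a2 * Real.exp z.re ^ 2
      + a1 * Real.exp z.re + a0) / 2 ≤
      ‖(a4 : ℂ) * exp z ^ 4 + a3 * exp z ^ 3 + a2 * exp z ^ 2 + a1 * exp z + a0‖ ∧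
    ‖(a4 : ℂ) * exp z ^ 4 + a3 * exp z ^ 3 + a2 * exp z ^ 2 + a1 * exp z + a0‖ ≤
      a4 * Real.exp z.re ^ 4 + a3 * Real.exp z.re ^ 3 + a2 * Real.exp z.re ^ 2
      + a1 * Real.exp z.re + a0 := by
  have h := poly_bd hz 5 (by norm_num)
    (fun k => match k with
      | 0 => a0 | 1 => a1 | 2 => a2 | 3 => a3 | _ => a4) (by
    intro k hk
    interval_cases k <;> assumption)
  simp only [Finset.sum_range_succ, Finset.sum_range_zero] at h
  have e1 : (a4 : ℂ) * exp z ^ 4 + a3 * exp z ^ 3 + a2 * exp z ^ 2 + a1 * exp z + a0 =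
    0 + (a0 : ℂ) * exp z ^ 0 + a1 * exp z ^ 1 + a2 * exp z ^ 2 + a3 * exp z ^ 3
      + a4 * exp z ^ 4 := by ring
  have e2 : a4 * Real.exp z.re ^ 4 + a3 * Real.exp z.re ^ 3 + a2 * Real.exp z.re ^ 2
      + a1 * Real.exp z.re + a0 = 0 + a0 * Real.exp z.re ^ 0 + a1 * Real.exp z.re ^ 1
      + a2 * Real.exp z.re ^ 2 + a3 * Real.exp z.re ^ 3 + a4 * Real.exp z.re ^ 4 := by ring
  rw [e1, e2]
  exact h

lemma poly6_bd {z : ℂ} (hz : |z.im| < 1 / 20) {a0 a1 a2 a3 a4 a5 a6 : ℝ} (h0 : 0 ≤ a0)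
    (h1 : 0 ≤ a1) (h2 : 0 ≤ a2) (h3 : 0 ≤ a3) (h4 : 0 ≤ a4) (h5 : 0 ≤ a5) (h6 : 0 ≤ a6) :
    (a6 * Real.exp z.re ^ 6 + a5 * Real.exp z.re ^ 5 + a4 * Real.exp z.re ^ 4
      + a3 * Real.exp z.re ^ 3 + a2 * Real.exp z.re ^ 2 + a1 * Real.exp z.re + a0) / 2 ≤
      ‖(a6 : ℂ) * exp z ^ 6 + a5 * exp z ^ 5 + a4 * exp z ^ 4 + a3 * exp z ^ 3
        + a2 * exp z ^ 2 + a1 * exp z + a0‖ ∧
    ‖(a6 : ℂ) * exp z ^ 6 + a5 * exp z ^ 5 + a4 * exp z ^ 4 + a3 * exp z ^ 3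
        + a2 * exp z ^ 2 + a1 * exp z + a0‖ ≤
      a6 * Real.exp z.re ^ 6 + a5 * Real.exp z.re ^ 5 + a4 * Real.exp z.re ^ 4
      + a3 * Real.exp z.re ^ 3 + a2 * Real.exp z.re ^ 2 + a1 * Real.exp z.re + a0 := by
  have h := poly_bd hz 7 (by norm_num)
    (fun k => match k with
      | 0 => a0 | 1 => a1 | 2 => a2 | 3 => a3 | 4 => a4 | 5 => a5 | _ => a6) (by
    intro k hk
    interval_cases k <;> assumption)
  simp only [Finset.sum_range_succ, Finset.sum_range_zero] at h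
  have e1 : (a6 : ℂ) * exp z ^ 6 + a5 * exp z ^ 5 + a4 * exp z ^ 4 + a3 * exp z ^ 3
        + a2 * exp z ^ 2 + a1 * exp z + a0 =
    0 + (a0 : ℂ) * exp z ^ 0 + a1 * exp z ^ 1 + a2 * exp z ^ 2 + a3 * exp z ^ 3
      + a4 * exp z ^ 4 + a5 * exp z ^ 5 + a6 * exp z ^ 6 := by ring
  have e2 : a6 * Real.exp z.re ^ 6 + a5 * Real.exp z.re ^ 5 + a4 * Real.exp z.re ^ 4
      + a3 * Real.exp z.re ^ 3 + a2 * Real.exp z.re ^ 2 + a1 * Real.exp z.re + a0 =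
      0 + a0 * Real.exp z.re ^ 0 + a1 * Real.exp z.re ^ 1
      + a2 * Real.exp z.re ^ 2 + a3 * Real.exp z.re ^ 3 + a4 * Real.exp z.re ^ 4
      + a5 * Real.exp z.re ^ 5 + a6 * Real.exp z.re ^ 6 := by ring
  rw [e1, e2]
  exact h

lemma om_bd (z : ℂ) : Real.exp z.re / (1 + Real.exp z.re) ^ 2 ≤ om z ∧
    om z ≤ 4 * (Real.exp z.re / (1 + Real.exp z.re) ^ 2) := by
  unfold om
  have ht := Real.exp_pos z.re
  rcases le_total 0 z.re with h | h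
  · have h1 : 1 ≤ Real.exp z.re := Real.one_le_exp h
    rw [abs_of_nonneg h, Real.exp_neg]
    constructor
    · rw [div_le_iff₀ (by positivity), inv_mul_eq_div, le_div_iff₀ ht]
      nlinarith
    · rw [← mul_div_assoc, le_div_iff₀ (by positivity), inv_mul_eq_div, div_le_iff₀ ht]
      nlinarith
  · have h1 : Real.exp z.re ≤ 1 := Real.exp_le_one_iff.2 h
    rw [abs_of_nonpos h, neg_neg]
    constructor
    · rw [div_le_iff₀ (by positivity)]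
      nlinarith [mul_pos ht ht, mul_pos (mul_pos ht ht) ht]
    · rw [← mul_div_assoc, le_div_iff₀ (by positivity)]
      have : (1 + Real.exp z.re) ^ 2 ≤ 4 := by nlinarith
      nlinarith

lemma two_sub {β : ℝ} (h1 : 0.9065 ≤ β) (h2 : β ≤ 0.9066) :
    1 ≤ ‖(2 : ℂ) - β‖ ∧ ‖(2 : ℂ) - β‖ ≤ 11 / 10 := by
  have e : (2 : ℂ) - β = ((2 - β : ℝ) : ℂ) := by push_cast; rfl
  rw [e, Complex.norm_real, Real.norm_of_nonneg (by linarith)]
  constructor <;> linarith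

lemma den_bd {z : ℂ} (hz : |z.im| < 1 / 20) :
    (Real.exp z.re + 1) ^ 3 / 16 ≤ ‖(exp z + 1 / 2) * (exp z + 1) * (exp z + 2)‖ ∧
    ‖(exp z + 1 / 2) * (exp z + 1) * (exp z + 2)‖ ≤ 2 * (Real.exp z.re + 1) ^ 3 := by
  have ht := Real.exp_pos z.re
  have h1 := add_bd hz (c := 1 / 2) (by norm_num)
  have h2 := add_bd hz (c := 1) (by norm_num)
  have h3 := add_bd hz (c := 2) (by norm_num)
  push_cast at h1 h2 h3
  rw [norm_mul, norm_mul]
  generalize Real.exp z.re = t at *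
  generalize ‖exp z + 1 / 2‖ = A at *
  generalize ‖exp z + 1‖ = B at *
  generalize ‖exp z + 2‖ = D at *
  obtain ⟨a1, a2⟩ := h1
  obtain ⟨b1, b2⟩ := h2
  obtain ⟨d1, d2⟩ := h3
  have a1' : (t + 1) / 4 ≤ A := by linarith
  have b1' : (t + 1) / 2 ≤ B := by linarith
  have d1' : (t + 1) / 2 ≤ D := by linarith
  have a2' : A ≤ t + 1 := by linarith
  have d2' : D ≤ 2 * (t + 1) := by linarith
  constructor
  · have := mul_le_mul (mul_le_mul a1' b1' (by positivity) (by linarith)) d1' (by positivity)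
      (mul_nonneg (by linarith) (by linarith))
    calc (t + 1) ^ 3 / 16 = (t + 1) / 4 * ((t + 1) / 2) * ((t + 1) / 2) := by ring
      _ ≤ _ := this
  · have := mul_le_mul (mul_le_mul a2' b2 (by linarith) (by linarith)) d2' (by linarith)
      (by positivity)
    calc _ ≤ (t + 1) * (t + 1) * (2 * (t + 1)) := this
      _ = _ := by ring

lemma add_ne {z : ℂ} (hz : |z.im| < 1 / 20) {c : ℝ} (hc : 0 ≤ c) : exp z + (c : ℂ) ≠ 0 := by
  have h := (add_bd hz hc).1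
  have ht := Real.exp_pos z.re
  rw [← norm_pos_iff]
  linarith

lemma XQ1_bd {β : ℝ} (h1 : 0.9065 ≤ β) (h2 : β ≤ 0.9066) {z : ℂ} (hz : |z.im| < 1 / 20) :
    Real.exp z.re / (1 + Real.exp z.re) ^ 2 ≤ 100 * ‖XQ1 β (exp z)‖ ∧
    ‖XQ1 β (exp z)‖ ≤ 10000 * (Real.exp z.re / (1 + Real.exp z.re) ^ 2) := by
  have ht := Real.exp_pos z.re
  have hp := poly4_bd hz (a0 := 5 / 2 - β) (a1 := 9 - 5 * β) (a2 := 13 - 33 / 4 * β)
    (a3 := 9 - 5 * β) (a4 := 5 / 2 - β) (by linarith) (by linarith) (by linarith)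
    (by linarith) (by linarith)
  have hd := den_bd hz
  have h2b := two_sub h1 h2
  push_cast at hp
  unfold XQ1
  rw [norm_div, norm_mul, norm_mul, norm_pow, nexp]
  generalize ‖(5 / 2 - (β : ℂ)) * exp z ^ 4 + (9 - 5 * (β : ℂ)) * exp z ^ 3
    + (13 - 33 / 4 * (β : ℂ)) * exp z ^ 2 + (9 - 5 * (β : ℂ)) * exp z + (5 / 2 - (β : ℂ))‖ = P at *
  generalize ‖(exp z + 1 / 2) * (exp z + 1) * (exp z + 2)‖ = D at *
  generalize ‖(2 : ℂ) - β‖ = E at *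
  generalize Real.exp z.re = t at *
  obtain ⟨p1, p2⟩ := hp
  obtain ⟨d1, d2⟩ := hd
  obtain ⟨e1, e2⟩ := h2b
  have tp : 0 < (1 + t) := by linarith
  have hD0 : 0 < D := lt_of_lt_of_le (by positivity) d1
  have P1 : (t + 1) ^ 4 / 12 ≤ P := by
    refine le_trans ?_ p1
    have : (t + 1) ^ 4 ≤ 6 * (t ^ 4 + t ^ 3 + t ^ 2 + t + 1) := by
      nlinarith [pow_pos ht 2, pow_pos ht 3, pow_pos ht 4]
    have : t ^ 4 + t ^ 3 + t ^ 2 + t + 1 ≤ (5 / 2 - β) * t ^ 4 + (9 - 5 * β) * t ^ 3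
        + (13 - 33 / 4 * β) * t ^ 2 + (9 - 5 * β) * t + (5 / 2 - β) := by
      have q1 : 0 ≤ (5 / 2 - β - 1) * t ^ 4 := mul_nonneg (by linarith) (by positivity)
      have q2 : 0 ≤ (9 - 5 * β - 1) * t ^ 3 := mul_nonneg (by linarith) (by positivity)
      have q3 : 0 ≤ (13 - 33 / 4 * β - 1) * t ^ 2 := mul_nonneg (by linarith) (by positivity)
      have q4 : 0 ≤ (9 - 5 * β - 1) * t := mul_nonneg (by linarith) (by positivity)
      nlinarith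
    linarith
  have P2 : P ≤ 10 * (t + 1) ^ 4 := by
    refine le_trans p2 ?_
    have : (t ^ 4 + t ^ 3 + t ^ 2 + t + 1) ≤ (t + 1) ^ 4 := by
      nlinarith [pow_pos ht 2, pow_pos ht 3, pow_pos ht 4]
    have : (5 / 2 - β) * t ^ 4 + (9 - 5 * β) * t ^ 3
        + (13 - 33 / 4 * β) * t ^ 2 + (9 - 5 * β) * t + (5 / 2 - β) ≤
          10 * (t ^ 4 + t ^ 3 + t ^ 2 + t + 1) := by
      have q1 : 0 ≤ (10 - (5 / 2 - β)) * t ^ 4 := mul_nonneg (by linarith) (by positivity)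
      have q2 : 0 ≤ (10 - (9 - 5 * β)) * t ^ 3 := mul_nonneg (by linarith) (by positivity)
      have q3 : 0 ≤ (10 - (13 - 33 / 4 * β)) * t ^ 2 := mul_nonneg (by linarith) (by positivity)
      have q4 : 0 ≤ (10 - (9 - 5 * β)) * t := mul_nonneg (by linarith) (by positivity)
      nlinarith
    linarith
  have D1 : (t + 1) ^ 6 / 256 ≤ D ^ 2 := by
    have := pow_le_pow_left₀ (by positivity) d1 2
    calc (t + 1) ^ 6 / 256 = ((t + 1) ^ 3 / 16) ^ 2 := by ring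
      _ ≤ _ := this
  have D2 : D ^ 2 ≤ 4 * (t + 1) ^ 6 := by
    have := pow_le_pow_left₀ hD0.le d2 2
    calc _ ≤ _ := this
      _ = _ := by ring
  have hE0 : 0 < E := by linarith
  constructor
  · rw [← mul_div_assoc, div_le_div_iff₀ (by positivity) (by positivity)]
    calc t * (E * D ^ 2) ≤ t * ((11 / 10) * (4 * (t + 1) ^ 6)) := by gcongr
      _ ≤ 100 * (t * ((t + 1) ^ 4 / 12)) * (1 + t) ^ 2 := by
          have : 0 < t * (t + 1) ^ 6 := by positivity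
          nlinarith
      _ ≤ 100 * (t * P) * (1 + t) ^ 2 := by gcongr
  · rw [← mul_div_assoc, div_le_div_iff₀ (by positivity) (by positivity)]
    calc t * P * (1 + t) ^ 2 ≤ t * (10 * (t + 1) ^ 4) * (1 + t) ^ 2 := by gcongr
      _ ≤ 10000 * t * (1 * ((t + 1) ^ 6 / 256)) := by
          have : 0 < t * (t + 1) ^ 6 := by positivity
          nlinarith
      _ ≤ 10000 * t * (E * D ^ 2) := by gcongr

lemma GQ1_bd {β : ℝ} (h1 : 0.9065 ≤ β) (h2 : β ≤ 0.9066) {z : ℂ} (hz : |z.im| < 1 / 20) :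
    ‖GQ1 β (exp z)‖ ≤ 1000000 * (Real.exp z.re / (1 + Real.exp z.re) ^ 2) ^ 3 := by
  have ht := Real.exp_pos z.re
  have b1 : 0.82174 ≤ β ^ 2 := by nlinarith
  have b2 : β ^ 2 ≤ 0.82193 := by nlinarith
  have hp := (poly6_bd hz (a0 := 23 / 6 * β ^ 2 - 695 / 84 * β + 2385 / 392)
    (a1 := 28 * β ^ 2 - 97 / 2 * β + 174 / 7)
    (a2 := 637 / 8 * β ^ 2 - 1849 / 16 * β + 5091 / 112)
    (a3 := 2669 / 24 * β ^ 2 - 25201 / 168 * β + 2628 / 49)
    (a4 := 637 / 8 * β ^ 2 - 1849 / 16 * β + 5091 / 112)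
    (a5 := 28 * β ^ 2 - 97 / 2 * β + 174 / 7)
    (a6 := 23 / 6 * β ^ 2 - 695 / 84 * β + 2385 / 392)
    (by linarith) (by linarith) (by linarith) (by linarith) (by linarith) (by linarith)
    (by linarith)).2
  have hd := (den_bd hz).1
  have h2b := (two_sub h1 h2).1
  push_cast at hp
  unfold GQ1
  rw [norm_div, norm_mul, norm_mul, norm_pow, norm_pow, norm_pow, nexp]
  generalize ‖(23 / 6 * (β : ℂ) ^ 2 - 695 / 84 * (β : ℂ) + 2385 / 392) * exp z ^ 6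
    + (28 * (β : ℂ) ^ 2 - 97 / 2 * (β : ℂ) + 174 / 7) * exp z ^ 5
    + (637 / 8 * (β : ℂ) ^ 2 - 1849 / 16 * (β : ℂ) + 5091 / 112) * exp z ^ 4
    + (2669 / 24 * (β : ℂ) ^ 2 - 25201 / 168 * (β : ℂ) + 2628 / 49) * exp z ^ 3
    + (637 / 8 * (β : ℂ) ^ 2 - 1849 / 16 * (β : ℂ) + 5091 / 112) * exp z ^ 2
    + (28 * (β : ℂ) ^ 2 - 97 / 2 * (β : ℂ) + 174 / 7) * exp z
    + (23 / 6 * (β : ℂ) ^ 2 - 695 / 84 * (β : ℂ) + 2385 / 392)‖ = P at *
  generalize ‖(exp z + 1 / 2) * (exp z + 1) * (exp z + 2)‖ = D at *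
  generalize ‖(2 : ℂ) - β‖ = E at *
  generalize Real.exp z.re = t at *
  have tp : 0 < (1 + t) := by linarith
  have hD0 : 0 < D := lt_of_lt_of_le (by positivity) hd
  have P2 : P ≤ 10 * (t + 1) ^ 6 := by
    refine le_trans hp ?_
    have : (t ^ 6 + t ^ 5 + t ^ 4 + t ^ 3 + t ^ 2 + t + 1) ≤ (t + 1) ^ 6 := by
      have := pow_pos ht 2
      have := pow_pos ht 3
      have := pow_pos ht 4
      have := pow_pos ht 5
      have e : (t + 1) ^ 6 = t ^ 6 + 6 * t ^ 5 + 15 * t ^ 4 + 20 * t ^ 3 + 15 * t ^ 2 + 6 * t + 1 := by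
        ring
      rw [e]
      linarith
    have q6 : 0 ≤ (10 - (23 / 6 * β ^ 2 - 695 / 84 * β + 2385 / 392)) * t ^ 6 :=
      mul_nonneg (by linarith) (by positivity)
    have q5 : 0 ≤ (10 - (28 * β ^ 2 - 97 / 2 * β + 174 / 7)) * t ^ 5 :=
      mul_nonneg (by linarith) (by positivity)
    have q4 : 0 ≤ (10 - (637 / 8 * β ^ 2 - 1849 / 16 * β + 5091 / 112)) * t ^ 4 :=
      mul_nonneg (by linarith) (by positivity)
    have q3 : 0 ≤ (10 - (2669 / 24 * β ^ 2 - 25201 / 168 * β + 2628 / 49)) * t ^ 3 :=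
      mul_nonneg (by linarith) (by positivity)
    have q2 : 0 ≤ (10 - (637 / 8 * β ^ 2 - 1849 / 16 * β + 5091 / 112)) * t ^ 2 :=
      mul_nonneg (by linarith) (by positivity)
    have q1 : 0 ≤ (10 - (28 * β ^ 2 - 97 / 2 * β + 174 / 7)) * t :=
      mul_nonneg (by linarith) (by positivity)
    linarith
  have D1 : (t + 1) ^ 12 / 65536 ≤ D ^ 4 := by
    have := pow_le_pow_left₀ (by positivity) hd 4
    calc (t + 1) ^ 12 / 65536 = ((t + 1) ^ 3 / 16) ^ 4 := by ring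
      _ ≤ _ := this
  have hE0 : 0 < E := by linarith
  have hE3 : 1 ≤ E ^ 3 := one_le_pow₀ h2b
  rw [div_pow, ← mul_div_assoc, div_le_div_iff₀ (by positivity) (by positivity)]
  calc t ^ 3 * P * ((1 + t) ^ 2) ^ 3 ≤ t ^ 3 * (10 * (t + 1) ^ 6) * ((1 + t) ^ 2) ^ 3 := by gcongr
    _ ≤ 1000000 * t ^ 3 * (1 * ((t + 1) ^ 12 / 65536)) := by
        have : 0 < t ^ 3 * (t + 1) ^ 12 := by positivity
        nlinarith
    _ ≤ 1000000 * t ^ 3 * (E ^ 3 * D ^ 4) := by gcongr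

lemma DQ_bd {β : ℝ} (h1 : 0.9065 ≤ β) (h2 : β ≤ 0.9066) {z : ℂ} (hz : |z.im| < 1 / 20) :
    (Real.exp z.re / (1 + Real.exp z.re) ^ 2) ^ 3 ≤ 1000000 * ‖DQ β (exp z)‖ := by
  have ht := Real.exp_pos z.re
  have b1 : 0.82174 ≤ β ^ 2 := by nlinarith
  have b2 : β ^ 2 ≤ 0.82193 := by nlinarith
  have hp := (poly6_bd hz (a0 := 184 * β ^ 2 - 2780 / 7 * β + 14310 / 49)
    (a1 := 1008 * β ^ 2 - 1746 * β + 6264 / 7)
    (a2 := 4161 / 2 * β ^ 2 - 3027 * β + 16929 / 14)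
    (a3 := 2061 * β ^ 2 - 19728 / 7 * β + 50166 / 49)
    (a4 := 4161 / 4 * β ^ 2 - 3027 / 2 * β + 16929 / 28)
    (a5 := 252 * β ^ 2 - 873 / 2 * β + 1566 / 7)
    (a6 := 23 * β ^ 2 - 695 / 14 * β + 7155 / 196)
    (by linarith) (by linarith) (by linarith) (by linarith) (by linarith) (by linarith)
    (by linarith)).1
  have k1 := add_bd hz (c := 1 / 2) (by norm_num)
  have k2 := add_bd hz (c := 1) (by norm_num)
  have k3 := add_bd hz (c := 2) (by norm_num)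
  have k4 := add_bd hz (c := 4) (by norm_num)
  have h2b := (two_sub h1 h2)
  push_cast at hp k1 k2 k3 k4
  unfold DQ
  rw [norm_div, norm_mul, norm_mul, norm_mul, norm_mul, norm_mul, norm_pow, norm_pow, norm_pow,
    norm_pow, norm_pow, norm_pow, nexp]
  generalize ‖(23 * (β : ℂ) ^ 2 - 695 / 14 * (β : ℂ) + 7155 / 196) * exp z ^ 6
    + (252 * (β : ℂ) ^ 2 - 873 / 2 * (β : ℂ) + 1566 / 7) * exp z ^ 5
    + (4161 / 4 * (β : ℂ) ^ 2 - 3027 / 2 * (β : ℂ) + 16929 / 28) * exp z ^ 4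
    + (2061 * (β : ℂ) ^ 2 - 19728 / 7 * (β : ℂ) + 50166 / 49) * exp z ^ 3
    + (4161 / 2 * (β : ℂ) ^ 2 - 3027 * (β : ℂ) + 16929 / 14) * exp z ^ 2
    + (1008 * (β : ℂ) ^ 2 - 1746 * (β : ℂ) + 6264 / 7) * exp z
    + (184 * (β : ℂ) ^ 2 - 2780 / 7 * (β : ℂ) + 14310 / 49)‖ = P at *
  generalize ‖exp z + 1 / 2‖ = A1 at *
  generalize ‖exp z + 1‖ = A2 at *
  generalize ‖exp z + 2‖ = A3 at *
  generalize ‖exp z + 4‖ = A4 at *
  generalize ‖(2 : ℂ) - β‖ = E at *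
  generalize Real.exp z.re = t at *
  have tp : 0 < (1 + t) := by linarith
  obtain ⟨k1a, k1b⟩ := k1
  obtain ⟨k2a, k2b⟩ := k2
  obtain ⟨k3a, k3b⟩ := k3
  obtain ⟨k4a, k4b⟩ := k4
  obtain ⟨e1, e2⟩ := h2b
  have P1 : (t + 1) ^ 6 / 8 ≤ P := by
    refine le_trans ?_ hp
    have : (t + 1) ^ 6 ≤ 20 * (t ^ 6 + t ^ 5 + t ^ 4 + t ^ 3 + t ^ 2 + t + 1) := by
      have := pow_pos ht 2
      have := pow_pos ht 3
      have := pow_pos ht 4
      have := pow_pos ht 5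
      have := pow_pos ht 6
      have e : (t + 1) ^ 6 = t ^ 6 + 6 * t ^ 5 + 15 * t ^ 4 + 20 * t ^ 3 + 15 * t ^ 2 + 6 * t + 1 := by
        ring
      rw [e]
      linarith
    have q6 : 0 ≤ ((23 * β ^ 2 - 695 / 14 * β + 7155 / 196) - 5) * t ^ 6 :=
      mul_nonneg (by linarith) (by positivity)
    have q5 : 0 ≤ ((252 * β ^ 2 - 873 / 2 * β + 1566 / 7) - 5) * t ^ 5 :=
      mul_nonneg (by linarith) (by positivity)
    have q4 : 0 ≤ ((4161 / 4 * β ^ 2 - 3027 / 2 * β + 16929 / 28) - 5) * t ^ 4 :=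
      mul_nonneg (by linarith) (by positivity)
    have q3 : 0 ≤ ((2061 * β ^ 2 - 19728 / 7 * β + 50166 / 49) - 5) * t ^ 3 :=
      mul_nonneg (by linarith) (by positivity)
    have q2 : 0 ≤ ((4161 / 2 * β ^ 2 - 3027 * β + 16929 / 14) - 5) * t ^ 2 :=
      mul_nonneg (by linarith) (by positivity)
    have q1 : 0 ≤ ((1008 * β ^ 2 - 1746 * β + 6264 / 7) - 5) * t :=
      mul_nonneg (by linarith) (by positivity)
    have q0 : 0 ≤ ((184 * β ^ 2 - 2780 / 7 * β + 14310 / 49) - 5) := by linarith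
    linarith
  have hE0 : 0 < E := by linarith
  have hA1 : 0 < A1 := by linarith
  have hA2 : 0 < A2 := by linarith
  have hA3 : 0 < A3 := by linarith
  have hA4 : 0 < A4 := by linarith
  have A1' : A1 ≤ t + 1 := by linarith
  have A3' : A3 ≤ 2 * (t + 1) := by linarith
  have A4' : A4 ≤ 4 * (t + 1) := by linarith
  rw [div_pow, ← mul_div_assoc, div_le_div_iff₀ (by positivity) (by positivity)]
  calc t ^ 3 * (E ^ 3 * (A1 ^ 2 * A2 ^ 4 * A3 ^ 4 * A4 ^ 2))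
      ≤ t ^ 3 * ((11 / 10) ^ 3 * ((t + 1) ^ 2 * (t + 1) ^ 4 * (2 * (t + 1)) ^ 4
          * (4 * (t + 1)) ^ 2)) := by gcongr
    _ = (t ^ 3 * (t + 1) ^ 12) * ((11 / 10) ^ 3 * 256) := by ring
    _ ≤ (t ^ 3 * (t + 1) ^ 12) * (1000000 / 8) := by
        gcongr
        norm_num
    _ = 1000000 * (t ^ 3 * ((t + 1) ^ 6 / 8)) * ((1 + t) ^ 2) ^ 3 := by ring
    _ ≤ 1000000 * (t ^ 3 * P) * ((1 + t) ^ 2) ^ 3 := by gcongr

lemma frac_bd {z : ℂ} (hz : |z.im| < 1 / 20) {c : ℝ} (hc : 0 ≤ c) :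
    ‖exp z / (exp z + (c : ℂ))‖ ≤ 2 := by
  have h := (add_bd hz hc).1
  have ht := Real.exp_pos z.re
  rw [norm_div, nexp, div_le_iff₀ (by linarith)]
  linarith

lemma XQ_bd {β : ℝ} (h1 : 0.9065 ≤ β) (h2 : β ≤ 0.9066) {z : ℂ} (hz : |z.im| < 1 / 20) :
    ‖XQ β (exp z)‖ ≤ 10 := by
  have k1 := frac_bd hz (c := 1 / 2) (by norm_num)
  have k2 := frac_bd hz (c := 1) (by norm_num)
  have k3 := frac_bd hz (c := 2) (by norm_num)
  push_cast at k1 k2 k3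
  have h2b := (two_sub h1 h2).1
  unfold XQ
  rw [norm_div, div_le_iff₀ (by linarith)]
  have hb : ‖(β : ℂ)‖ ≤ 1 := by
    rw [Complex.norm_real, Real.norm_of_nonneg (by linarith)]
    linarith
  calc _ ≤ ‖exp z / (exp z + 1 / 2) - β * (exp z / (exp z + 1))‖ + ‖exp z / (exp z + 2)‖ :=
        norm_add_le _ _
    _ ≤ ‖exp z / (exp z + 1 / 2)‖ + ‖(β : ℂ) * (exp z / (exp z + 1))‖ + ‖exp z / (exp z + 2)‖ := by
        gcongr
        exact norm_sub_le _ _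
    _ ≤ 2 + 1 * 2 + 2 := by
        gcongr
        rw [norm_mul]
        gcongr
    _ ≤ 10 * ‖(2 : ℂ) - β‖ := by linarith

lemma exp_log2 (z : ℂ) : exp (z + ((Real.log 2 : ℝ) : ℂ)) = 2 * exp z := by
  rw [Complex.exp_add, ← Complex.ofReal_exp, Real.exp_log (by norm_num)]
  push_cast
  ring

noncomputable def GR (b ξ : ℝ) : ℝ :=
  ((3 * (14 / 9 * (1 + b) + 8 / 49) + 3 * (2 / 3 * (1 + b) + 1 / 7) ^ 2) * (ξ / (ξ + 1 / 2))
    + (3 * (2 / 3 * (1 + b) + 1 / 7)) * (ξ / (ξ + 1 / 2)) ^ 2 + (ξ / (ξ + 1 / 2)) ^ 3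
    + ((3 * (14 / 9 * (1 + b) + 8 / 49) + 3 * (2 / 3 * (1 + b) + 1 / 7) ^ 2)
        + 3 * (1 + b) ^ 2 * (-(2 * (1 + b)) - 14 / 9)
        - 3 * (1 + b) * (7 / 3 - (1 + b)) ^ 2) * (ξ / (ξ + 1))
    + ((3 * (2 / 3 * (1 + b) + 1 / 7)) + 3 * (1 + b) ^ 2 * (7 / 3 - (1 + b))) * (ξ / (ξ + 1)) ^ 2
    + (1 - (1 + b) ^ 3) * (ξ / (ξ + 1)) ^ 3
    + (24 / 49 + 14 / 3 * (1 + b) + 3 * (8 / 7 + 2 / 3 * (1 + b)) ^ 2) * (ξ / (ξ + 2))
    + (-(3 * (8 / 7 + 2 / 3 * (1 + b)))) * (ξ / (ξ + 2)) ^ 2 + (ξ / (ξ + 2)) ^ 3) / (2 - b) ^ 3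

theorem base_strip (β : ℝ) (h1 : 0.9065 ≤ β) (h2 : β ≤ 0.9066) (X G : ℂ → ℂ)
    (hX : ∀ z, X z = XQ β (exp z)) (hG : ∀ z, G z = GQ β (exp z))
    (hidG : ∀ ξ : ℂ, ξ + 1 / 4 ≠ 0 → ξ + 1 / 2 ≠ 0 → ξ + 1 ≠ 0 → ξ + 2 ≠ 0 →
      GQ β (2 * ξ) - GQ β ξ = (XQ β (2 * ξ) - XQ β ξ) ^ 3)
    (hdX : ∀ z : ℂ, exp z + 1 / 2 ≠ 0 → exp z + 1 ≠ 0 → exp z + 2 ≠ 0 →
      HasDerivAt (fun z => XQ β (exp z)) (XQ1 β (exp z)) z)
    (hdG : ∀ z : ℂ, exp z + 1 / 2 ≠ 0 → exp z + 1 ≠ 0 → exp z + 2 ≠ 0 →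
      HasDerivAt (fun z => GQ β (exp z)) (GQ1 β (exp z)) z)
    (hidD : ∀ y : ℂ, y + 1 / 2 ≠ 0 → y + 1 ≠ 0 → y + 2 ≠ 0 → y + 4 ≠ 0 →
      3 * (XQ β y - XQ β (y / 2)) ^ 2 * XQ1 β y - GQ1 β y = DQ β y) :
    ∃ C : ℝ, BaseA (Real.log 2) (1 / 20) C X G := by
  have hXf : X = fun z => XQ β (exp z) := funext hX
  have hGf : G = fun z => GQ β (exp z) := funext hG
  have nz : ∀ z : ℂ, |z.im| < 1 / 20 → exp z + 1 / 4 ≠ 0 ∧ exp z + 1 / 2 ≠ 0 ∧ exp z + 1 ≠ 0 ∧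
      exp z + 2 ≠ 0 ∧ exp z + 4 ≠ 0 := by
    intro z hz
    have k0 := add_ne hz (c := 1 / 4) (by norm_num)
    have k1 := add_ne hz (c := 1 / 2) (by norm_num)
    have k2 := add_ne hz (c := 1) (by norm_num)
    have k3 := add_ne hz (c := 2) (by norm_num)
    have k4 := add_ne hz (c := 4) (by norm_num)
    push_cast at k0 k1 k2 k3 k4
    exact ⟨k0, k1, k2, k3, k4⟩
  have dX : ∀ z : ℂ, |z.im| < 1 / 20 → HasDerivAt X (XQ1 β (exp z)) z := by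
    intro z hz
    obtain ⟨-, a, b, c, -⟩ := nz z hz
    rw [hXf]
    exact hdX z a b c
  have dG : ∀ z : ℂ, |z.im| < 1 / 20 → HasDerivAt G (GQ1 β (exp z)) z := by
    intro z hz
    obtain ⟨-, a, b, c, -⟩ := nz z hz
    rw [hGf]
    exact hdG z a b c
  have him : ∀ z : ℂ, |z.im| < 1 / 20 → |(z + ((Real.log 2 : ℝ) : ℂ)).im| < 1 / 20 := by
    intro z hz
    rw [Complex.add_im, Complex.ofReal_im, add_zero]
    exact hz
  have om0 : ∀ z : ℂ, 0 < om z := fun z => Real.exp_pos _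
  refine ⟨1000000000, Real.log_pos (by norm_num), by norm_num, by norm_num, ?_, ?_, ?_, ?_, ?_,
    ?_, ?_, ?_, ?_, ?_⟩
  · intro z hz
    exact (dX z hz).differentiableAt.differentiableWithinAt
  · intro z hz
    exact (dG z hz).differentiableAt.differentiableWithinAt
  · intro z hz
    rw [hX]
    exact (XQ_bd h1 h2 hz).trans (by norm_num)
  · intro z hz
    rw [(dX z hz).deriv]
    have := (XQ1_bd h1 h2 hz).2
    have := (om_bd z).1
    have := om0 z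
    linarith
  · intro z hz
    rw [(dX z hz).deriv]
    have := (XQ1_bd h1 h2 hz).1
    have := (om_bd z).2
    have := norm_nonneg (XQ1 β (exp z))
    linarith
  · intro z hz
    rw [(dG z hz).deriv]
    have k1 := (GQ1_bd h1 h2 hz)
    have k2 := pow_le_pow_left₀ (by positivity) (om_bd z).1 3
    have := pow_pos (om0 z) 3
    linarith
  · intro z hz
    rw [hX, hX, hG, hG, exp_log2]
    obtain ⟨a, b, c, d, -⟩ := nz z hz
    exact hidG _ a b c d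
  · intro z hz
    have hz' := him z hz
    obtain ⟨a, b, c, d, e⟩ := nz _ hz'
    have hDD : DD X G (Real.log 2) z = DQ β (exp (z + ((Real.log 2 : ℝ) : ℂ))) := by
      unfold DD
      rw [(dX _ hz').deriv, (dG _ hz').deriv, ← hidD _ b c d e, hX, hX]
      rw [exp_log2]
      rw [mul_div_cancel_left₀ (exp z) (two_ne_zero)]
    rw [hDD]
    have k1 := DQ_bd h1 h2 hz'
    have k2 := (om_bd z).2
    have hre : Real.exp (z + ((Real.log 2 : ℝ) : ℂ)).re = 2 * Real.exp z.re := by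
      rw [Complex.add_re, Complex.ofReal_re, Real.exp_add, Real.exp_log (by norm_num)]
      ring
    rw [hre] at k1
    have ht := Real.exp_pos z.re
    have k3 : Real.exp z.re / (1 + Real.exp z.re) ^ 2 ≤
        2 * (2 * Real.exp z.re / (1 + 2 * Real.exp z.re) ^ 2) := by
      rw [← mul_div_assoc, div_le_div_iff₀ (by positivity) (by positivity)]
      nlinarith [mul_pos ht ht, mul_pos (mul_pos ht ht) ht]
    have k4 : om z ≤ 8 * (2 * Real.exp z.re / (1 + 2 * Real.exp z.re) ^ 2) := by linarith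
    have k5 := pow_le_pow_left₀ (om0 z).le k4 3
    rw [mul_pow] at k5
    have := norm_nonneg (DQ β (exp (z + ((Real.log 2 : ℝ) : ℂ))))
    generalize ‖DQ β (exp (z + ((Real.log 2 : ℝ) : ℂ)))‖ = N at *
    generalize (2 * Real.exp z.re / (1 + 2 * Real.exp z.re) ^ 2) ^ 3 = M at *
    linarith
  · intro x
    rw [hX]
    have : XQ β (exp x) = (((Real.exp x / (Real.exp x + 1 / 2) - β * (Real.exp x / (Real.exp x + 1))
      + Real.exp x / (Real.exp x + 2)) / (2 - β) : ℝ) : ℂ) := by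
      unfold XQ
      push_cast
      rfl
    rw [this, Complex.ofReal_im]
  · intro x
    rw [hG]
    have : GQ β (exp x) = ((GR β (Real.exp x) : ℝ) : ℂ) := by
      unfold GQ GR
      unfold gm1 gm2 gz1 gz2 gz3 gp1 gp2 gm1 gm2
      push_cast
      rfl
    rw [this, Complex.ofReal_im]

end TC
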