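import Mathlib

set_option autoImplicit false

open Set Filter Topology Metric

namespace TC

open Real in
/-- unit vector -/
noncomputable def uu (θ : ℝ) : EuclideanSpace ℝ (Fin 2) := !₂[Real.cos θ, Real.sin θ]

/-- rotated unit vector -/
noncomputable def uv (θ : ℝ) : EuclideanSpace ℝ (Fin 2) := !₂[-Real.sin θ, Real.cos θ]


/-! auxiliary definitions and lemmas (job 7560) -/

noncomputable def ja (T : ℝ → ℝ) (θ : ℝ) : ℝ := Real.tan ((T θ - θ) / 2)

noncomputable def jb (T p : ℝ → ℝ) (θ : ℝ) : ℝ :=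
  (1 + Real.tan ((T θ - θ) / 2) ^ 2) * (p θ - 1) / 2

noncomputable def jP0 (T : ℝ → ℝ) (θ : ℝ) : ℝ := Real.cos θ - ja T θ * Real.sin θ

noncomputable def jP1 (T : ℝ → ℝ) (θ : ℝ) : ℝ := Real.sin θ + ja T θ * Real.cos θ

noncomputable def jn0 (T p : ℝ → ℝ) (θ : ℝ) : ℝ :=
  (1 + jb T p θ) * Real.cos θ - ja T θ * Real.sin θ

noncomputable def jn1 (T p : ℝ → ℝ) (θ : ℝ) : ℝ :=
  (1 + jb T p θ) * Real.sin θ + ja T θ * Real.cos θ

theorem j_inner (x y : EuclideanSpace ℝ (Fin 2)) :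
    inner ℝ x y = x 0 * y 0 + x 1 * y 1 := by
  simp [PiLp.inner_apply, Fin.sum_univ_two]
  ring

theorem ja_pos {T : ℝ → ℝ} (h0 : ∀ θ, θ < T θ) (h1 : ∀ θ, T θ < θ + Real.pi) (θ : ℝ) :
    0 < ja T θ := by
  unfold ja
  apply Real.tan_pos_of_pos_of_lt_pi_div_two
  · linarith [h0 θ]
  · linarith [h1 θ]

theorem jcos_pos {T : ℝ → ℝ} (h0 : ∀ θ, θ < T θ) (h1 : ∀ θ, T θ < θ + Real.pi) (θ : ℝ) :
    0 < Real.cos ((T θ - θ) / 2) := by
  apply Real.cos_pos_of_mem_Ioo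
  constructor
  · linarith [h0 θ, Real.pi_pos]
  · linarith [h1 θ]

theorem ja_deriv {T p : ℝ → ℝ} (hT : ∀ θ, HasDerivAt T (p θ) θ)
    (h0 : ∀ θ, θ < T θ) (h1 : ∀ θ, T θ < θ + Real.pi) (θ : ℝ) :
    HasDerivAt (ja T) (jb T p θ) θ := by
  have hc := jcos_pos h0 h1 θ
  have hd : HasDerivAt (fun t => (T t - t) / 2) ((p θ - 1) / 2) θ :=
    ((hT θ).sub (hasDerivAt_id θ)).div_const 2
  have ht := Real.hasDerivAt_tan hc.ne'
  have hcomp := HasDerivAt.comp (h₂ := Real.tan) (h := fun t => (T t - t) / 2) θ ht hd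
  have e : 1 + Real.tan ((T θ - θ) / 2) ^ 2 = 1 / Real.cos ((T θ - θ) / 2) ^ 2 := by
    rw [Real.tan_eq_sin_div_cos, div_pow, eq_div_iff (pow_ne_zero 2 hc.ne')]
    have hs := Real.sin_sq_add_cos_sq ((T θ - θ) / 2)
    have hne := hc.ne'
    field_simp
    linarith
  have he : 1 / Real.cos ((T θ - θ) / 2) ^ 2 * ((p θ - 1) / 2) = jb T p θ := by
    unfold jb
    rw [e]
    ring
  rw [he] at hcomp
  exact hcomp

theorem jP0_deriv {T p : ℝ → ℝ} (hT : ∀ θ, HasDerivAt T (p θ) θ)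
    (h0 : ∀ θ, θ < T θ) (h1 : ∀ θ, T θ < θ + Real.pi) (θ : ℝ) :
    HasDerivAt (jP0 T) (-jn1 T p θ) θ := by
  have h := (Real.hasDerivAt_cos θ).sub ((ja_deriv hT h0 h1 θ).mul (Real.hasDerivAt_sin θ))
  refine HasDerivAt.congr_deriv (f := jP0 T) h ?_
  unfold jn1
  ring

theorem jP1_deriv {T p : ℝ → ℝ} (hT : ∀ θ, HasDerivAt T (p θ) θ)
    (h0 : ∀ θ, θ < T θ) (h1 : ∀ θ, T θ < θ + Real.pi) (θ : ℝ) :
    HasDerivAt (jP1 T) (jn0 T p θ) θ := by
  have h := (Real.hasDerivAt_sin θ).add ((ja_deriv hT h0 h1 θ).mul (Real.hasDerivAt_cos θ))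
  refine HasDerivAt.congr_deriv (f := jP1 T) h ?_
  unfold jn0
  ring

theorem ja_per {T : ℝ → ℝ} (hper : ∀ θ, T (θ + 2 * Real.pi) = T θ + 2 * Real.pi) (θ : ℝ) :
    ja T (θ + 2 * Real.pi) = ja T θ := by
  unfold ja
  rw [hper]
  congr 2
  ring

theorem jp_per {T p : ℝ → ℝ} (hT : ∀ θ, HasDerivAt T (p θ) θ)
    (hper : ∀ θ, T (θ + 2 * Real.pi) = T θ + 2 * Real.pi) (θ : ℝ) :
    p (θ + 2 * Real.pi) = p θ := by
  have h1 : HasDerivAt (fun t => T (t + 2 * Real.pi)) (p (θ + 2 * Real.pi)) θ :=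
    (hT (θ + 2 * Real.pi)).comp_add_const θ (2 * Real.pi)
  have h2 : (fun t => T (t + 2 * Real.pi)) = fun t => T t + 2 * Real.pi := by
    ext t; exact hper t
  rw [h2] at h1
  exact h1.unique ((hT θ).add_const _)

theorem jb_per {T p : ℝ → ℝ} (hT : ∀ θ, HasDerivAt T (p θ) θ)
    (hper : ∀ θ, T (θ + 2 * Real.pi) = T θ + 2 * Real.pi) (θ : ℝ) :
    jb T p (θ + 2 * Real.pi) = jb T p θ := by
  have h1 := ja_per hper θ
  have h2 := jp_per hT hper θ
  unfold ja at h1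
  unfold jb
  rw [h1, h2]

theorem jP0_per {T : ℝ → ℝ} (hper : ∀ θ, T (θ + 2 * Real.pi) = T θ + 2 * Real.pi) (θ : ℝ) :
    jP0 T (θ + 2 * Real.pi) = jP0 T θ := by
  unfold jP0
  rw [ja_per hper, Real.cos_add_two_pi, Real.sin_add_two_pi]

theorem jP1_per {T : ℝ → ℝ} (hper : ∀ θ, T (θ + 2 * Real.pi) = T θ + 2 * Real.pi) (θ : ℝ) :
    jP1 T (θ + 2 * Real.pi) = jP1 T θ := by
  unfold jP1
  rw [ja_per hper, Real.cos_add_two_pi, Real.sin_add_two_pi]

/-- direction angle -/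
noncomputable def jpsi (T p : ℝ → ℝ) (θ : ℝ) : ℝ := θ - Real.arctan ((1 + jb T p θ) / ja T θ)

/-- length of the normal -/
noncomputable def jr (T p : ℝ → ℝ) (θ : ℝ) : ℝ :=
  ja T θ * Real.sqrt (1 + ((1 + jb T p θ) / ja T θ) ^ 2)

theorem jr_pos {T p : ℝ → ℝ} (h0 : ∀ θ, θ < T θ) (h1 : ∀ θ, T θ < θ + Real.pi) (θ : ℝ) :
    0 < jr T p θ :=
  mul_pos (ja_pos h0 h1 θ) (Real.sqrt_pos.2 (by positivity))

theorem jr_cos {T p : ℝ → ℝ} (θ : ℝ) :
    jr T p θ * Real.cos (Real.arctan ((1 + jb T p θ) / ja T θ)) = ja T θ := by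
  unfold jr
  rw [Real.cos_arctan]
  have : Real.sqrt (1 + ((1 + jb T p θ) / ja T θ) ^ 2) ≠ 0 :=
    (Real.sqrt_pos.2 (by positivity)).ne'
  field_simp

theorem jr_sin {T p : ℝ → ℝ} (h0 : ∀ θ, θ < T θ) (h1 : ∀ θ, T θ < θ + Real.pi) (θ : ℝ) :
    jr T p θ * Real.sin (Real.arctan ((1 + jb T p θ) / ja T θ)) = 1 + jb T p θ := by
  unfold jr
  rw [Real.sin_arctan]
  have h2 : Real.sqrt (1 + ((1 + jb T p θ) / ja T θ) ^ 2) ≠ 0 :=
    (Real.sqrt_pos.2 (by positivity)).ne'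
  have h3 : ja T θ ≠ 0 := (ja_pos h0 h1 θ).ne'
  rw [mul_assoc, mul_div_cancel₀ _ h2, mul_div_cancel₀ _ h3]

theorem jn0_eq {T p : ℝ → ℝ} (h0 : ∀ θ, θ < T θ) (h1 : ∀ θ, T θ < θ + Real.pi) (θ : ℝ) :
    jn0 T p θ = -(jr T p θ * Real.sin (jpsi T p θ)) := by
  have e1 := jr_cos (T := T) (p := p) θ
  have e2 := jr_sin (T := T) (p := p) h0 h1 θ
  unfold jpsi jn0
  rw [Real.sin_sub]
  linear_combination (Real.sin θ) * e1 - (Real.cos θ) * e2

theorem jn1_eq {T p : ℝ → ℝ} (h0 : ∀ θ, θ < T θ) (h1 : ∀ θ, T θ < θ + Real.pi) (θ : ℝ) :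
    jn1 T p θ = jr T p θ * Real.cos (jpsi T p θ) := by
  have e1 := jr_cos (T := T) (p := p) θ
  have e2 := jr_sin (T := T) (p := p) h0 h1 θ
  unfold jpsi jn1
  rw [Real.cos_sub]
  linear_combination -(Real.cos θ) * e1 - (Real.sin θ) * e2

/-- support inequality -/
theorem j_support {T p : ℝ → ℝ} (hT : ∀ θ, HasDerivAt T (p θ) θ)
    (hper : ∀ θ, T (θ + 2 * Real.pi) = T θ + 2 * Real.pi)
    (h0 : ∀ θ, θ < T θ) (h1 : ∀ θ, T θ < θ + Real.pi)
    (hmono : Monotone (jpsi T p)) (θ φ : ℝ) :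
    (jP0 T φ - jP0 T θ) * jn0 T p θ + (jP1 T φ - jP1 T θ) * jn1 T p θ ≤ 0 := by
  set g : ℝ → ℝ := fun φ =>
    (jP0 T φ - jP0 T θ) * jn0 T p θ + (jP1 T φ - jP1 T θ) * jn1 T p θ with hg
  have hpi := Real.pi_pos
  have hgper : Function.Periodic g (2 * Real.pi) := by
    intro t
    simp only [hg]
    rw [jP0_per hper, jP1_per hper]
  have hgd : ∀ t, HasDerivAt g (-(jr T p t * jr T p θ * Real.sin (jpsi T p t - jpsi T p θ))) t := by
    intro t
    have h := (((jP0_deriv hT h0 h1 t).sub_const (jP0 T θ)).mul_const (jn0 T p θ)).add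
      (((jP1_deriv hT h0 h1 t).sub_const (jP1 T θ)).mul_const (jn1 T p θ))
    refine HasDerivAt.congr_deriv (f := g) h ?_
    rw [jn0_eq h0 h1 t, jn1_eq h0 h1 t, jn0_eq h0 h1 θ, jn1_eq h0 h1 θ, Real.sin_sub]
    ring
  have hgc : Continuous g := continuous_iff_continuousAt.2 (fun t => (hgd t).continuousAt)
  have hpsiper : jpsi T p (θ + 2 * Real.pi) = jpsi T p θ + 2 * Real.pi := by
    unfold jpsi
    rw [jb_per hT hper, ja_per hper]
    ring
  have hgθ : g θ = 0 := by simp [hg]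
  have hg2 : g (θ + 2 * Real.pi) = 0 := by rw [hgper θ, hgθ]
  obtain ⟨y, hy, hgy⟩ := hgper.exists_mem_Ico (by positivity) φ θ
  show g φ ≤ 0
  rw [hgy]
  by_cases hcase : jpsi T p y - jpsi T p θ ≤ Real.pi
  · have hanti : AntitoneOn g (Icc θ y) := by
      apply antitoneOn_of_deriv_nonpos (convex_Icc θ y) hgc.continuousOn
      · intro t _
        exact (hgd t).differentiableAt.differentiableWithinAt
      · intro t ht
        rw [interior_Icc] at ht
        rw [(hgd t).deriv]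
        have h3 : 0 ≤ jpsi T p t - jpsi T p θ := by linarith [hmono ht.1.le]
        have h4 : jpsi T p t - jpsi T p θ ≤ Real.pi := by linarith [hmono ht.2.le]
        have h5 := Real.sin_nonneg_of_nonneg_of_le_pi h3 h4
        have h6 := jr_pos (p := p) h0 h1 t
        have h7 := jr_pos (p := p) h0 h1 θ
        have : 0 ≤ jr T p t * jr T p θ * Real.sin (jpsi T p t - jpsi T p θ) := by positivity
        linarith
    have := hanti (left_mem_Icc.2 hy.1) (right_mem_Icc.2 hy.1) hy.1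
    rw [hgθ] at this
    exact this
  · push Not at hcase
    have hmon : MonotoneOn g (Icc y (θ + 2 * Real.pi)) := by
      apply monotoneOn_of_deriv_nonneg (convex_Icc _ _) hgc.continuousOn
      · intro t _
        exact (hgd t).differentiableAt.differentiableWithinAt
      · intro t ht
        rw [interior_Icc] at ht
        rw [(hgd t).deriv]
        have h3 : Real.pi ≤ jpsi T p t - jpsi T p θ := by linarith [hmono ht.1.le]
        have h4 : jpsi T p t - jpsi T p θ ≤ 2 * Real.pi := by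
          have := hmono ht.2.le
          rw [hpsiper] at this
          linarith
        have h5 : Real.sin (jpsi T p t - jpsi T p θ) ≤ 0 := by
          have := Real.sin_nonneg_of_nonneg_of_le_pi
            (x := jpsi T p t - jpsi T p θ - Real.pi) (by linarith) (by linarith)
          rw [Real.sin_sub_pi] at this
          linarith
        have h6 := jr_pos (p := p) h0 h1 t
        have h7 := jr_pos (p := p) h0 h1 θ
        have : 0 ≤ jr T p t * jr T p θ * (-Real.sin (jpsi T p t - jpsi T p θ)) :=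
          mul_nonneg (by positivity) (by linarith)
        linarith
    have := hmon (left_mem_Icc.2 hy.2.le) (right_mem_Icc.2 hy.2.le) hy.2.le
    rw [hg2] at this
    exact this

theorem jPn {T p : ℝ → ℝ} (θ : ℝ) :
    jP0 T θ * jn0 T p θ + jP1 T θ * jn1 T p θ = 1 + jb T p θ + ja T θ ^ 2 := by
  unfold jP0 jP1 jn0 jn1
  have := Real.sin_sq_add_cos_sq θ
  linear_combination (1 + jb T p θ + ja T θ ^ 2) * this

/-- key positivity -/
theorem j_pos1 {T p : ℝ → ℝ} (hp : ∀ θ, 0 < p θ) (θ : ℝ) :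
    1 + 2 * jb T p θ + ja T θ ^ 2 = (1 + ja T θ ^ 2) * p θ ∧
    0 < 1 + 2 * jb T p θ + ja T θ ^ 2 ∧ 0 < 1 + jb T p θ + ja T θ ^ 2 := by
  have e : 1 + 2 * jb T p θ + ja T θ ^ 2 = (1 + ja T θ ^ 2) * p θ := by
    unfold jb ja
    ring
  have h2 : 0 < 1 + 2 * jb T p θ + ja T θ ^ 2 := by
    rw [e]
    exact mul_pos (by positivity) (hp θ)
  refine ⟨e, h2, ?_⟩
  nlinarith [sq_nonneg (ja T θ)]

theorem jr_sq {T p : ℝ → ℝ} (h0 : ∀ θ, θ < T θ) (h1 : ∀ θ, T θ < θ + Real.pi) (θ : ℝ) :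
    jr T p θ ^ 2 = ja T θ ^ 2 + (1 + jb T p θ) ^ 2 := by
  have e1 := jr_cos (T := T) (p := p) θ
  have e2 := jr_sin (T := T) (p := p) h0 h1 θ
  have := Real.sin_sq_add_cos_sq (Real.arctan ((1 + jb T p θ) / ja T θ))
  linear_combination (-(jr T p θ ^ 2)) * this +
    (jr T p θ * Real.cos (Real.arctan ((1 + jb T p θ) / ja T θ)) + ja T θ) * e1 +
    (jr T p θ * Real.sin (Real.arctan ((1 + jb T p θ) / ja T θ)) + (1 + jb T p θ)) * e2

theorem jr_lt {T p : ℝ → ℝ} (hp : ∀ θ, 0 < p θ) (h0 : ∀ θ, θ < T θ)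
    (h1 : ∀ θ, T θ < θ + Real.pi) (θ : ℝ) :
    jr T p θ < 1 + jb T p θ + ja T θ ^ 2 := by
  obtain ⟨-, e2, e3⟩ := j_pos1 (T := T) hp θ
  have hr := jr_pos (p := p) h0 h1 θ
  have ha := ja_pos h0 h1 θ
  have hsq := jr_sq (p := p) h0 h1 θ
  have hlt : jr T p θ ^ 2 < (1 + jb T p θ + ja T θ ^ 2) ^ 2 := by
    rw [hsq]
    have : 0 < ja T θ ^ 2 * (1 + 2 * jb T p θ + ja T θ ^ 2) := by positivity
    nlinarith
  exact lt_of_pow_lt_pow_left₀ 2 e3.le hlt

theorem ja_cont {T p : ℝ → ℝ} (hT : ∀ θ, HasDerivAt T (p θ) θ)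
    (h0 : ∀ θ, θ < T θ) (h1 : ∀ θ, T θ < θ + Real.pi) : Continuous (ja T) :=
  continuous_iff_continuousAt.2 (fun t => (ja_deriv hT h0 h1 t).continuousAt)

theorem jb_cont {T p : ℝ → ℝ} (hT : ∀ θ, HasDerivAt T (p θ) θ) (hpc : Continuous p)
    (h0 : ∀ θ, θ < T θ) (h1 : ∀ θ, T θ < θ + Real.pi) : Continuous (jb T p) := by
  have h := ja_cont hT h0 h1
  have : jb T p = fun θ => (1 + ja T θ ^ 2) * (p θ - 1) / 2 := rfl
  rw [this]
  exact (((continuous_const.add (h.pow 2)).mul (hpc.sub continuous_const))).div_const 2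

theorem jc_cont {T p : ℝ → ℝ} (hT : ∀ θ, HasDerivAt T (p θ) θ) (hpc : Continuous p)
    (h0 : ∀ θ, θ < T θ) (h1 : ∀ θ, T θ < θ + Real.pi) :
    Continuous (fun θ => (1 + jb T p θ) / ja T θ) :=
  (continuous_const.add (jb_cont hT hpc h0 h1)).div (ja_cont hT h0 h1)
    (fun θ => (ja_pos h0 h1 θ).ne')

theorem jr_cont {T p : ℝ → ℝ} (hT : ∀ θ, HasDerivAt T (p θ) θ) (hpc : Continuous p)
    (h0 : ∀ θ, θ < T θ) (h1 : ∀ θ, T θ < θ + Real.pi) : Continuous (jr T p) := by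
  unfold jr
  exact (ja_cont hT h0 h1).mul
    (Real.continuous_sqrt.comp (continuous_const.add ((jc_cont hT hpc h0 h1).pow 2)))

theorem jpsi_cont {T p : ℝ → ℝ} (hT : ∀ θ, HasDerivAt T (p θ) θ) (hpc : Continuous p)
    (h0 : ∀ θ, θ < T θ) (h1 : ∀ θ, T θ < θ + Real.pi) : Continuous (jpsi T p) := by
  unfold jpsi
  exact continuous_id.sub (Real.continuous_arctan.comp (jc_cont hT hpc h0 h1))

theorem jpsi_surj {T p : ℝ → ℝ} (hT : ∀ θ, HasDerivAt T (p θ) θ) (hpc : Continuous p)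
    (h0 : ∀ θ, θ < T θ) (h1 : ∀ θ, T θ < θ + Real.pi) : Function.Surjective (jpsi T p) := by
  apply (jpsi_cont hT hpc h0 h1).surjective
  · apply tendsto_atTop_mono (f := fun θ => θ - Real.pi / 2)
    · intro θ
      unfold jpsi
      linarith [Real.arctan_lt_pi_div_two ((1 + jb T p θ) / ja T θ)]
    · exact tendsto_atTop_add_const_right _ _ tendsto_id
  · apply tendsto_atBot_mono (f := fun θ => θ + Real.pi / 2)
    · intro θ
      unfold jpsi
      linarith [Real.neg_pi_div_two_lt_arctan ((1 + jb T p θ) / ja T θ)]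
    · exact tendsto_atBot_add_const_right _ _ tendsto_id

/-- ratio of support value and normal length -/
noncomputable def jq (T p : ℝ → ℝ) (θ : ℝ) : ℝ := (1 + jb T p θ + ja T θ ^ 2) / jr T p θ

theorem jq_cont {T p : ℝ → ℝ} (hT : ∀ θ, HasDerivAt T (p θ) θ) (hpc : Continuous p)
    (h0 : ∀ θ, θ < T θ) (h1 : ∀ θ, T θ < θ + Real.pi) : Continuous (jq T p) := by
  unfold jq
  exact ((continuous_const.add (jb_cont hT hpc h0 h1)).add ((ja_cont hT h0 h1).pow 2)).div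
    (jr_cont hT hpc h0 h1) (fun θ => (jr_pos h0 h1 θ).ne')

theorem jq_per {T p : ℝ → ℝ} (hT : ∀ θ, HasDerivAt T (p θ) θ)
    (hper : ∀ θ, T (θ + 2 * Real.pi) = T θ + 2 * Real.pi) :
    Function.Periodic (jq T p) (2 * Real.pi) := by
  intro θ
  unfold jq jr
  rw [jb_per hT hper, ja_per hper]

theorem jq_bounds {T p : ℝ → ℝ} (hT : ∀ θ, HasDerivAt T (p θ) θ) (hp : ∀ θ, 0 < p θ)
    (hpc : Continuous p) (hper : ∀ θ, T (θ + 2 * Real.pi) = T θ + 2 * Real.pi)
    (h0 : ∀ θ, θ < T θ) (h1 : ∀ θ, T θ < θ + Real.pi) :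
    ∃ q Q : ℝ, 1 < q ∧ ∀ θ, q ≤ jq T p θ ∧ jq T p θ ≤ Q := by
  have hc := jq_cont hT hpc h0 h1
  have hpi := Real.pi_pos
  have hne : (Icc (0 : ℝ) (2 * Real.pi)).Nonempty := ⟨0, by constructor <;> linarith⟩
  obtain ⟨x, hx, hxm⟩ := isCompact_Icc.exists_isMinOn hne hc.continuousOn
  obtain ⟨y, hy, hym⟩ := isCompact_Icc.exists_isMaxOn hne hc.continuousOn
  refine ⟨jq T p x, jq T p y, ?_, ?_⟩
  · unfold jq
    rw [one_lt_div (jr_pos h0 h1 x)]
    exact jr_lt hp h0 h1 x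
  · intro θ
    obtain ⟨z, hz, hqz⟩ := (jq_per hT hper).exists_mem_Ico₀ (by positivity) θ
    rw [hqz]
    exact ⟨hxm ⟨hz.1, hz.2.le⟩, hym ⟨hz.1, hz.2.le⟩⟩

/-- the body -/
def jK (T p : ℝ → ℝ) : Set (EuclideanSpace ℝ (Fin 2)) :=
  {x | ∀ θ, x 0 * jn0 T p θ + x 1 * jn1 T p θ ≤ 1 + jb T p θ + ja T θ ^ 2}

theorem jK_closed (T p : ℝ → ℝ) : IsClosed (jK T p) := by
  have : jK T p = ⋂ θ, {x : EuclideanSpace ℝ (Fin 2) |
      x 0 * jn0 T p θ + x 1 * jn1 T p θ ≤ 1 + jb T p θ + ja T θ ^ 2} := by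
    ext x
    simp [jK]
  rw [this]
  refine isClosed_iInter (fun θ => ?_)
  apply isClosed_le
  · fun_prop
  · exact continuous_const

theorem jK_convex (T p : ℝ → ℝ) : Convex ℝ (jK T p) := by
  intro x hx y hy s t hs ht hst θ
  have h1 := hx θ
  have h2 := hy θ
  simp only [PiLp.add_apply, PiLp.smul_apply, smul_eq_mul]
  have h3 : s * (x 0 * jn0 T p θ + x 1 * jn1 T p θ) ≤ s * (1 + jb T p θ + ja T θ ^ 2) :=
    mul_le_mul_of_nonneg_left h1 hs
  have h4 : t * (y 0 * jn0 T p θ + y 1 * jn1 T p θ) ≤ t * (1 + jb T p θ + ja T θ ^ 2) :=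
    mul_le_mul_of_nonneg_left h2 ht
  calc (s * x 0 + t * y 0) * jn0 T p θ + (s * x 1 + t * y 1) * jn1 T p θ
      = s * (x 0 * jn0 T p θ + x 1 * jn1 T p θ) + t * (y 0 * jn0 T p θ + y 1 * jn1 T p θ) := by ring
    _ ≤ s * (1 + jb T p θ + ja T θ ^ 2) + t * (1 + jb T p θ + ja T θ ^ 2) := add_le_add h3 h4
    _ = (s + t) * (1 + jb T p θ + ja T θ ^ 2) := by ring
    _ = _ := by rw [hst, one_mul]

theorem j_norm_sq (x : EuclideanSpace ℝ (Fin 2)) : ‖x‖ ^ 2 = x 0 ^ 2 + x 1 ^ 2 := by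
  rw [EuclideanSpace.norm_sq_eq]
  simp [Fin.sum_univ_two]

theorem j_ball {T p : ℝ → ℝ} (h0 : ∀ θ, θ < T θ) (h1 : ∀ θ, T θ < θ + Real.pi)
    {q : ℝ} (hq : ∀ θ, q ≤ jq T p θ) : ball (0 : EuclideanSpace ℝ (Fin 2)) q ⊆ jK T p := by
  intro x hx θ
  rw [mem_ball_zero_iff] at hx
  have hr := jr_pos (p := p) h0 h1 θ
  have hn := hq θ
  unfold jq at hn
  rw [le_div_iff₀ hr] at hn
  refine le_trans ?_ hn
  rw [jn0_eq h0 h1, jn1_eq h0 h1]
  have hcs : -(x 0 * Real.sin (jpsi T p θ)) + x 1 * Real.cos (jpsi T p θ) ≤ ‖x‖ := by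
    apply abs_le_of_sq_le_sq' _ (norm_nonneg x) |>.2
    rw [j_norm_sq]
    have := Real.sin_sq_add_cos_sq (jpsi T p θ)
    nlinarith [sq_nonneg (x 0 * Real.cos (jpsi T p θ) + x 1 * Real.sin (jpsi T p θ))]
  calc x 0 * -(jr T p θ * Real.sin (jpsi T p θ)) + x 1 * (jr T p θ * Real.cos (jpsi T p θ))
      = (-(x 0 * Real.sin (jpsi T p θ)) + x 1 * Real.cos (jpsi T p θ)) * jr T p θ := by ring
    _ ≤ ‖x‖ * jr T p θ := mul_le_mul_of_nonneg_right hcs hr.le
    _ ≤ q * jr T p θ := mul_le_mul_of_nonneg_right hx.le hr.le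

theorem j_bdd {T p : ℝ → ℝ} (hT : ∀ θ, HasDerivAt T (p θ) θ) (hpc : Continuous p)
    (h0 : ∀ θ, θ < T θ) (h1 : ∀ θ, T θ < θ + Real.pi)
    {Q : ℝ} (hQ : ∀ θ, jq T p θ ≤ Q) :
    jK T p ⊆ closedBall (0 : EuclideanSpace ℝ (Fin 2)) Q := by
  intro x hx
  rw [mem_closedBall_zero_iff]
  set z : ℂ := ⟨x 0, x 1⟩ with hz
  have e1 : ‖z‖ * Real.cos z.arg = x 0 := Complex.norm_mul_cos_arg z
  have e2 : ‖z‖ * Real.sin z.arg = x 1 := Complex.norm_mul_sin_arg z
  have e3 : ‖z‖ = ‖x‖ := by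
    have h3 : ‖z‖ ^ 2 = ‖x‖ ^ 2 := by
      rw [j_norm_sq, ← e1, ← e2]
      have := Real.sin_sq_add_cos_sq z.arg
      linear_combination (-(‖z‖ ^ 2)) * this
    exact (pow_left_inj₀ (norm_nonneg _) (norm_nonneg _) two_ne_zero).1 h3
  obtain ⟨θ, hθ⟩ := jpsi_surj hT hpc h0 h1 (z.arg - Real.pi / 2)
  have h2 := hx θ
  have hr := jr_pos (p := p) h0 h1 θ
  rw [jn0_eq h0 h1, jn1_eq h0 h1, hθ, Real.sin_sub_pi_div_two, Real.cos_sub_pi_div_two,
    ← e1, ← e2, e3] at h2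
  have h3 : ‖x‖ * jr T p θ ≤ 1 + jb T p θ + ja T θ ^ 2 := by
    refine le_trans (le_of_eq ?_) h2
    have := Real.sin_sq_add_cos_sq z.arg
    linear_combination (-(‖x‖ * jr T p θ)) * this
  have h4 : ‖x‖ ≤ jq T p θ := by
    unfold jq
    rw [le_div_iff₀ hr]
    exact h3
  exact h4.trans (hQ θ)

/-- second form of the point -/
theorem jP_second {T : ℝ → ℝ} (h0 : ∀ θ, θ < T θ) (h1 : ∀ θ, T θ < θ + Real.pi) (θ : ℝ) :
    jP0 T θ = Real.cos (T θ) + ja T θ * Real.sin (T θ) ∧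
    jP1 T θ = Real.sin (T θ) - ja T θ * Real.cos (T θ) := by
  have hc := (jcos_pos h0 h1 θ).ne'
  set d := (T θ - θ) / 2 with hd
  have hTθ : T θ = θ + d + d := by rw [hd]; ring
  have hθ : θ = (θ + d) - d := by ring
  have hT2 : T θ = (θ + d) + d := hTθ
  have ha : ja T θ = Real.sin d / Real.cos d := by
    unfold ja
    rw [Real.tan_eq_sin_div_cos]
  have hs := Real.sin_sq_add_cos_sq d
  constructor
  · unfold jP0
    rw [ha, hT2, Real.cos_add (θ + d) d, Real.sin_add (θ + d) d]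
    have c1 : Real.cos θ = Real.cos (θ + d) * Real.cos d + Real.sin (θ + d) * Real.sin d := by
      rw [← Real.cos_sub]; congr 1
    have c2 : Real.sin θ = Real.sin (θ + d) * Real.cos d - Real.cos (θ + d) * Real.sin d := by
      rw [← Real.sin_sub]; congr 1
    rw [c1, c2]
    field_simp
    ring
  · unfold jP1
    rw [ha, hT2, Real.cos_add (θ + d) d, Real.sin_add (θ + d) d]
    have c1 : Real.cos θ = Real.cos (θ + d) * Real.cos d + Real.sin (θ + d) * Real.sin d := by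
      rw [← Real.cos_sub]; congr 1
    have c2 : Real.sin θ = Real.sin (θ + d) * Real.cos d - Real.cos (θ + d) * Real.sin d := by
      rw [← Real.sin_sub]; congr 1
    rw [c1, c2]
    field_simp
    ring

/-- the normal in the frame at `T θ` -/
theorem jn_second {T p : ℝ → ℝ} (h0 : ∀ θ, θ < T θ) (h1 : ∀ θ, T θ < θ + Real.pi) (θ : ℝ) :
    jn0 T p θ * (-Real.sin (T θ)) + jn1 T p θ * Real.cos (T θ) = -(ja T θ * p θ) := by
  have hc := (jcos_pos h0 h1 θ).ne'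
  set d := (T θ - θ) / 2 with hd
  have hT2 : T θ = (θ + d) + d := by rw [hd]; ring
  have ha : ja T θ = Real.sin d / Real.cos d := by
    unfold ja
    rw [Real.tan_eq_sin_div_cos]
  have hb : jb T p θ = (1 + ja T θ ^ 2) * (p θ - 1) / 2 := rfl
  have hs := Real.sin_sq_add_cos_sq d
  have hs2 := Real.sin_sq_add_cos_sq θ
  -- angle between the frames is 2 d
  have k1 : Real.cos θ * Real.sin (T θ) - Real.sin θ * Real.cos (T θ) = 2 * Real.sin d * Real.cos d := by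
    have : Real.sin (T θ - θ) = 2 * Real.sin d * Real.cos d := by
      rw [← Real.sin_two_mul]; congr 1; rw [hd]; ring
    rw [← this, Real.sin_sub]; ring
  have k2 : Real.sin θ * Real.sin (T θ) + Real.cos θ * Real.cos (T θ) = 2 * Real.cos d ^ 2 - 1 := by
    have : Real.cos (T θ - θ) = 2 * Real.cos d ^ 2 - 1 := by
      rw [← Real.cos_two_mul]; congr 1; rw [hd]; ring
    rw [← this, Real.cos_sub]; ring
  have hexp : jn0 T p θ * (-Real.sin (T θ)) + jn1 T p θ * Real.cos (T θ) =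
      -(1 + jb T p θ) * (2 * Real.sin d * Real.cos d) + ja T θ * (2 * Real.cos d ^ 2 - 1) := by
    unfold jn0 jn1
    rw [← k1, ← k2]
    ring
  rw [hexp, hb, ha]
  field_simp
  have hs' : Real.sin d ^ 2 = 1 - Real.cos d ^ 2 := by linarith
  linear_combination (Real.sin d * (1 - p θ)) * hs

theorem body (T p : ℝ → ℝ) (hT : ∀ θ, HasDerivAt T (p θ) θ) (hp : ∀ θ, 0 < p θ)
    (hpc : Continuous p) (hper : ∀ θ, T (θ + 2 * Real.pi) = T θ + 2 * Real.pi)
    (h0 : ∀ θ, θ < T θ) (h1 : ∀ θ, T θ < θ + Real.pi)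
    (hmono : Monotone (fun θ => θ - Real.arctan
      ((1 + (1 + Real.tan ((T θ - θ) / 2) ^ 2) * (p θ - 1) / 2) / Real.tan ((T θ - θ) / 2)))) :
    ∃ K : Set (EuclideanSpace ℝ (Fin 2)), IsCompact K ∧ Convex ℝ K ∧
      closedBall (0 : EuclideanSpace ℝ (Fin 2)) 1 ⊆ interior K ∧
      ∀ θ, K ∩ {x | inner ℝ x (uu (T θ)) = (1 : ℝ)} =
        segment ℝ (uu (T θ) + Real.tan ((T (T θ) - T θ) / 2) • uv (T θ))
          (uu (T θ) - Real.tan ((T θ - θ) / 2) • uv (T θ)) := by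
  have hmono' : Monotone (jpsi T p) := hmono
  obtain ⟨q, Q, hq1, hqQ⟩ := jq_bounds hT hp hpc hper h0 h1
  have hPK : ∀ φ (x : EuclideanSpace ℝ (Fin 2)), x 0 = jP0 T φ → x 1 = jP1 T φ → x ∈ jK T p := by
    intro φ x hx0 hx1 θ
    have h := j_support hT hper h0 h1 hmono' θ φ
    have h2 := jPn (T := T) (p := p) θ
    rw [hx0, hx1]
    linarith
  refine ⟨jK T p, ?_, jK_convex T p, ?_, ?_⟩
  · exact Metric.isCompact_of_isClosed_isBounded (jK_closed T p)
      (Metric.isBounded_closedBall.subset (j_bdd hT hpc h0 h1 (fun θ => (hqQ θ).2)))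
  · have hsub := j_ball (T := T) (p := p) h0 h1 (fun θ => (hqQ θ).1)
    refine (closedBall_subset_ball hq1).trans (interior_maximal hsub isOpen_ball)
  · intro θ
    set τ := T θ with hτ
    have haτ : 0 < ja T τ := ja_pos h0 h1 τ
    have haθ : 0 < ja T θ := ja_pos h0 h1 θ
    have hcs := Real.sin_sq_add_cos_sq τ
    change jK T p ∩ {x | inner ℝ x (uu τ) = (1 : ℝ)} =
      segment ℝ (uu τ + ja T τ • uv τ) (uu τ - ja T θ • uv τ)
    have hu0 : (uu τ) 0 = Real.cos τ := by simp [uu]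
    have hu1 : (uu τ) 1 = Real.sin τ := by simp [uu]
    have hv0 : (uv τ) 0 = -Real.sin τ := by simp [uv]
    have hv1 : (uv τ) 1 = Real.cos τ := by simp [uv]
    apply Subset.antisymm
    · rintro x ⟨hxK, hx1⟩
      have hx1' : x 0 * Real.cos τ + x 1 * Real.sin τ = 1 := by
        have h := hx1
        rw [mem_ofPred_eq, j_inner, hu0, hu1] at h
        exact h
      set t : ℝ := -(x 0 * Real.sin τ) + x 1 * Real.cos τ with ht
      have hx0t : x 0 = Real.cos τ - t * Real.sin τ := by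
        rw [ht]
        linear_combination (-(x 0)) * hcs + (Real.cos τ) * hx1'
      have hx1t : x 1 = Real.sin τ + t * Real.cos τ := by
        rw [ht]
        linear_combination (-(x 1)) * hcs + (Real.sin τ) * hx1'
      -- upper bound
      have hub : t ≤ ja T τ := by
        have h := hxK τ
        have e : x 0 * jn0 T p τ + x 1 * jn1 T p τ = (1 + jb T p τ) + ja T τ * t := by
          rw [hx0t, hx1t]
          unfold jn0 jn1
          linear_combination (1 + jb T p τ + ja T τ * t) * hcs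
        rw [e] at h
        have h' : ja T τ * t ≤ ja T τ * ja T τ := by nlinarith
        exact le_of_mul_le_mul_left h' haτ
      have hlb : -ja T θ ≤ t := by
        have h := hxK θ
        have hs := jn_second (p := p) h0 h1 θ
        obtain ⟨s0, s1⟩ := jP_second h0 h1 θ
        have hpn := jPn (T := T) (p := p) θ
        rw [← hpn, s0, s1, hx0t, hx1t] at h
        rw [← hτ] at h hs
        have h' : (-(ja T θ * p θ)) * (t + ja T θ) ≤ 0 := by
          rw [← hs]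
          linarith
        have hap : 0 < ja T θ * p θ := mul_pos haθ (hp θ)
        nlinarith
      rw [segment_eq_image]
      refine ⟨(ja T τ - t) / (ja T τ + ja T θ), ⟨?_, ?_⟩, ?_⟩
      · apply div_nonneg <;> linarith
      · rw [div_le_one (by linarith)]; linarith
      · have hden : ja T τ + ja T θ ≠ 0 := by linarith
        have key : (1 - (ja T τ - t) / (ja T τ + ja T θ)) * ja T τ
            - (ja T τ - t) / (ja T τ + ja T θ) * ja T θ = t := by
          field_simp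
          ring
        ext i
        fin_cases i
        · simp only [Fin.zero_eta, PiLp.add_apply, PiLp.smul_apply, PiLp.sub_apply, smul_eq_mul,
            hu0, hv0]
          rw [hx0t]
          linear_combination (-Real.sin τ) * key
        · simp only [Fin.mk_one, PiLp.add_apply, PiLp.smul_apply, PiLp.sub_apply, smul_eq_mul,
            hu1, hv1]
          rw [hx1t]
          linear_combination (Real.cos τ) * key
    · have hmem1 : uu τ + ja T τ • uv τ ∈ jK T p := by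
        apply hPK τ
        · simp only [PiLp.add_apply, PiLp.smul_apply, smul_eq_mul, hu0, hv0]
          unfold jP0
          ring
        · simp only [PiLp.add_apply, PiLp.smul_apply, smul_eq_mul, hu1, hv1]
          unfold jP1
          ring
      have hmem2 : uu τ - ja T θ • uv τ ∈ jK T p := by
        obtain ⟨s0, s1⟩ := jP_second h0 h1 θ
        apply hPK θ
        · simp only [PiLp.sub_apply, PiLp.smul_apply, smul_eq_mul, hu0, hv0]
          rw [s0, ← hτ]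
          ring
        · simp only [PiLp.sub_apply, PiLp.smul_apply, smul_eq_mul, hu1, hv1]
          rw [s1, ← hτ]
      intro x hx
      refine ⟨(jK_convex T p).segment_subset hmem1 hmem2 hx, ?_⟩
      obtain ⟨s, t, hs, ht, hst, rfl⟩ := hx
      rw [mem_ofPred_eq, j_inner]
      simp only [PiLp.add_apply, PiLp.smul_apply, PiLp.sub_apply, smul_eq_mul, hu0, hv0, hu1, hv1]
      linear_combination (s + t) * hcs + hst


end TC
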