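import Mathlib

set_option autoImplicit false

open Set Filter Topology Metric

namespace TC

theorem chord_eq (X X1 G G1 f f1 fi R m mm e Pi : ℝ → ℝ) (η V : ℝ) (hη : 0 < η)
    (hX : ∀ x, HasDerivAt X (X1 x) x) (hX1 : ∀ x, 0 < X1 x) (hX1c : Continuous X1)
    (hV : ∀ x y, |X x - X y| < V)
    (hG : ∀ x, HasDerivAt G (G1 x) x) (hG1c : Continuous G1)
    (hf : ∀ x, HasDerivAt f (f1 x) x) (hf1 : ∀ x, 0 < f1 x) (hf1c : Continuous f1)
    (hfi : ∀ x, f (fi x) = x) (hif : ∀ x, fi (f x) = x)
    (hR : Differentiable ℝ R)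
    (hm : ContinuousOn m (Ioo (-V) V)) (he : ContinuousOn e (Ioo (-V) V))
    (hmm : ∀ v ∈ Ioo (-V) V, HasDerivAt mm (m v) v)
    (hPi : ∀ v ∈ Ioo (-V) V, HasDerivAt Pi (3 * e v) v)
    (K : ℝ → ℝ → ℝ)
    (hK : ∀ r y, K r y = η * (3 * e (X (f r) - X r) * X1 r - G1 r) +
      (m (X (f r) - X r) - m (X (f r) - X y)) * X1 (f r) * f1 r)
    (E1 : ∀ s, Pi (X (f s) - X s) - G (f s) + G s +
      R s / η * ∫ t in (0:ℝ)..1, K (f s + t * R s) (f s) = 0)
    (E2 : ∀ s, K (f s + R s) (f s) = 0) :
    ∀ y₀ y : ℝ, y = f (y₀ + R (fi y₀)) →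
      m (X (f y) - X y) + 3 * η * e (X (f y) - X y) - m (X (f (y + R (fi y))) - X y) =
      m (X y - X (fi y)) + 3 * η * e (X y - X (fi y)) - m (X y - X y₀) := by
  have hmem : ∀ a b, X a - X b ∈ Ioo (-V) V := fun a b => abs_lt.mp (hV a b)
  have hXc : Continuous X := continuous_iff_continuousAt.mpr fun x => (hX x).continuousAt
  have hfc : Continuous f := continuous_iff_continuousAt.mpr fun x => (hf x).continuousAt
  have hec : Continuous (fun t => e (X (f t) - X t)) :=
    he.comp_continuous (by fun_prop) (fun t => hmem _ _)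
  have hmc : Continuous (fun t => m (X (f t) - X t)) :=
    hm.comp_continuous (by fun_prop) (fun t => hmem _ _)
  have hmcy : ∀ y, Continuous (fun t => m (X (f t) - X y)) := fun y =>
    hm.comp_continuous (by fun_prop) (fun t => hmem _ _)
  obtain ⟨q, hq⟩ : ∃ q : ℝ → ℝ, q = fun t => η * (3 * e (X (f t) - X t) * X1 t - G1 t) +
    m (X (f t) - X t) * X1 (f t) * f1 t := ⟨_, rfl⟩
  have hqc : Continuous q := by
    rw [hq]
    have h1 : Continuous fun t => X1 (f t) := hX1c.comp hfc
    exact ((continuous_const.mul (((continuous_const.mul hec).mul hX1c).sub hG1c))).add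
      ((hmc.mul h1).mul hf1c)
  obtain ⟨Q, hQdef⟩ : ∃ Q : ℝ → ℝ, Q = fun r => ∫ t in (0:ℝ)..r, q t := ⟨_, rfl⟩
  have hQ : ∀ r, HasDerivAt Q (q r) r := by
    intro r
    rw [hQdef]
    exact intervalIntegral.integral_hasDerivAt_right (hqc.intervalIntegrable _ _)
      (hqc.stronglyMeasurableAtFilter _ _) hqc.continuousAt
  have hqv : ∀ t, q t = η * (3 * e (X (f t) - X t) * X1 t - G1 t) +
    m (X (f t) - X t) * X1 (f t) * f1 t := fun t => by rw [hq]
  have hKq : ∀ r y, K r y = q r - m (X (f r) - X y) * X1 (f r) * f1 r := by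
    intro r y
    rw [hK, hqv]; ring
  have hH : ∀ y r, HasDerivAt (fun r => Q r - mm (X (f r) - X y)) (K r y) r := by
    intro y r
    have h1 : HasDerivAt (fun r => X (f r) - X y) (X1 (f r) * f1 r) r :=
      ((hX (f r)).comp r (hf r)).sub_const _
    have h2 := (hmm _ (hmem (f r) y)).comp r h1
    have h3 := (hQ r).sub h2
    rw [hKq]
    exact h3.congr_deriv (by ring)
  have hint : ∀ y ρ, ρ * ∫ t in (0:ℝ)..1, K (y + t * ρ) y =
      (Q (y + ρ) - mm (X (f (y + ρ)) - X y)) - (Q y - mm (X (f y) - X y)) := by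
    intro y ρ
    rw [← intervalIntegral.integral_const_mul]
    have h1 : ∀ t ∈ Set.uIcc (0:ℝ) 1, HasDerivAt
        (fun t => Q (y + t * ρ) - mm (X (f (y + t * ρ)) - X y)) (ρ * K (y + t * ρ) y) t := by
      intro t _
      have h2 : HasDerivAt (fun t : ℝ => y + t * ρ) ρ t := by
        simpa using ((hasDerivAt_id t).mul_const ρ).const_add y
      have h3 := (hH y (y + t * ρ)).comp t h2
      exact h3.congr_deriv (by ring)
    have hcont : Continuous (fun t => ρ * K (y + t * ρ) y) := by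
      have h5 : Continuous fun r => K r y := by
        have : (fun r => K r y) = fun r => q r - m (X (f r) - X y) * X1 (f r) * f1 r := by
          funext r
          rw [hKq]
        rw [this]
        exact hqc.sub (((hmcy y).mul (hX1c.comp hfc)).mul hf1c)
      exact continuous_const.mul (h5.comp (by fun_prop))
    have h4 := intervalIntegral.integral_eq_sub_of_hasDerivAt h1 (hcont.intervalIntegrable _ _)
    rw [h4]
    simp only [one_mul, zero_mul, add_zero]
  -- the integrated equation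
  have hPhi : ∀ s, η * Pi (X (f s) - X s) - η * G (f s) + η * G s +
      ((Q (f s + R s) - mm (X (f (f s + R s)) - X (f s))) -
        (Q (f s) - mm (X (f (f s)) - X (f s)))) = 0 := by
    intro s
    rw [← hint (f s) (R s)]
    have h1 := E1 s
    have h2 : η * (Pi (X (f s) - X s) - G (f s) + G s +
      R s / η * ∫ t in (0:ℝ)..1, K (f s + t * R s) (f s)) = 0 := by rw [h1, mul_zero]
    have h3 : η * (R s / η) = R s := by field_simp
    linear_combination h2 - (∫ t in (0:ℝ)..1, K (f s + t * R s) (f s)) * h3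
  have hA : ∀ s, 3 * η * e (X (f s) - X s) * (X1 (f s) * f1 s) -
      η * (3 * e (X (f s) - X s) * X1 s - G1 s) +
      (m (X (f (f s + R s)) - X (f s)) - 3 * η * e (X (f (f s)) - X (f s)) -
        m (X (f (f s)) - X (f s))) * (X1 (f s) * f1 s) = 0 := by
    intro s
    have d1 : HasDerivAt (fun s => X (f s)) (X1 (f s) * f1 s) s := (hX (f s)).comp s (hf s)
    have d2 : HasDerivAt (fun s => η * Pi (X (f s) - X s))
        (η * (3 * e (X (f s) - X s) * (X1 (f s) * f1 s - X1 s))) s :=
      ((hPi _ (hmem (f s) s)).comp s (d1.sub (hX s))).const_mul η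
    have d3 : HasDerivAt (fun s => η * G (f s)) (η * (G1 (f s) * f1 s)) s :=
      ((hG (f s)).comp s (hf s)).const_mul η
    have d4 : HasDerivAt (fun s => η * G s) (η * G1 s) s := (hG s).const_mul η
    have d5 : HasDerivAt (fun s => f s + R s) (f1 s + deriv R s) s :=
      (hf s).add (hR s).hasDerivAt
    have d6 : HasDerivAt (fun s => Q (f s + R s)) (q (f s + R s) * (f1 s + deriv R s)) s :=
      (hQ _).comp s d5
    have d7 : HasDerivAt (fun s => f (f s + R s)) (f1 (f s + R s) * (f1 s + deriv R s)) s :=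
      (hf _).comp s d5
    have d8 : HasDerivAt (fun s => X (f (f s + R s)))
        (X1 (f (f s + R s)) * (f1 (f s + R s) * (f1 s + deriv R s))) s :=
      (hX _).comp s d7
    have d9 : HasDerivAt (fun s => mm (X (f (f s + R s)) - X (f s)))
        (m (X (f (f s + R s)) - X (f s)) *
          (X1 (f (f s + R s)) * (f1 (f s + R s) * (f1 s + deriv R s)) - X1 (f s) * f1 s)) s :=
      (hmm _ (hmem (f (f s + R s)) (f s))).comp s (d8.sub d1)
    have d10 : HasDerivAt (fun s => Q (f s)) (q (f s) * f1 s) s := (hQ _).comp s (hf s)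
    have d11 : HasDerivAt (fun s => f (f s)) (f1 (f s) * f1 s) s := (hf _).comp s (hf s)
    have d12 : HasDerivAt (fun s => X (f (f s))) (X1 (f (f s)) * (f1 (f s) * f1 s)) s :=
      (hX _).comp s d11
    have d13 : HasDerivAt (fun s => mm (X (f (f s)) - X (f s)))
        (m (X (f (f s)) - X (f s)) * (X1 (f (f s)) * (f1 (f s) * f1 s) - X1 (f s) * f1 s)) s :=
      (hmm _ (hmem (f (f s)) (f s))).comp s (d12.sub d1)
    have D := ((d2.sub d3).add d4).add ((d6.sub d9).sub (d10.sub d13))
    have D0 : HasDerivAt (fun _ : ℝ => (0 : ℝ)) 0 s := hasDerivAt_const s 0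
    have hfun : (fun s => η * Pi (X (f s) - X s) - η * G (f s) + η * G s +
      ((Q (f s + R s) - mm (X (f (f s + R s)) - X (f s))) -
        (Q (f s) - mm (X (f (f s)) - X (f s))))) = fun _ : ℝ => (0 : ℝ) := funext hPhi
    have D' : HasDerivAt (fun s => η * Pi (X (f s) - X s) - η * G (f s) + η * G s +
      ((Q (f s + R s) - mm (X (f (f s + R s)) - X (f s))) -
        (Q (f s) - mm (X (f (f s)) - X (f s))))) _ s := D
    rw [hfun] at D'
    have hz := D'.unique D0
    have hE2 := E2 s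
    rw [hKq] at hE2
    have hqy := hqv (f s)
    rw [hqy] at hz
    linear_combination hz - (f1 s + deriv R s) * hE2
  intro y₀ y hy
  obtain ⟨s, hs⟩ : ∃ s, s = y₀ + R (fi y₀) := ⟨_, rfl⟩
  rw [← hs] at hy
  have hB := E2 (fi y₀)
  rw [hfi, ← hs, hK, ← hy] at hB
  have hA' := hA s
  rw [← hy] at hA'
  have hfiy : fi y = s := by rw [hy, hif]
  rw [hfiy]
  have hpos : X1 y * f1 s ≠ 0 := (mul_pos (hX1 y) (hf1 s)).ne'
  apply mul_left_cancel₀ hpos
  linear_combination -hA' - hB

end TC
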