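import Mathlib

set_option autoImplicit false

open Set Filter Topology Metric

namespace TC

/-- `u` is `C²`-close to the translation by `κ`, with exponential weight -/
def Near (κ ε : ℝ) (u : ℝ → ℝ) : Prop :=
  ∃ u1 u2 : ℝ → ℝ, (∀ z, HasDerivAt u (u1 z) z) ∧ (∀ z, HasDerivAt u1 (u2 z) z) ∧
    (∀ z, |u z - z - κ| ≤ ε * Real.exp (-|z|)) ∧ (∀ z, |u1 z - 1| ≤ ε * Real.exp (-|z|)) ∧
    (∀ z, |u2 z| ≤ ε * Real.exp (-|z|))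

/-- admissible profile on `[0,1]` -/
structure Adm (c M l0 l1 : ℝ) (F p q : ℝ → ℝ) : Prop where
  cpos : 0 < c
  cont : ContinuousOn F (Icc 0 1)
  v0 : F 0 = 0
  v1 : F 1 = 1
  d1 : ∀ x ∈ Ioo (0:ℝ) 1, HasDerivAt F (p x) x
  d2 : ∀ x ∈ Ioo (0:ℝ) 1, HasDerivAt p (q x) x
  pl : ∀ x ∈ Ioo (0:ℝ) 1, c ≤ p x
  pu : ∀ x ∈ Ioo (0:ℝ) 1, p x ≤ M
  qu : ∀ x ∈ Ioo (0:ℝ) 1, |q x| ≤ M
  conv : ∀ x ∈ Ioo (0:ℝ) 1, c ≤ 2 * p x * (1 + p x) - (1 + F x - x) * q x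
  lim0 : Tendsto p (𝓝[>] 0) (𝓝 l0)
  lim1 : Tendsto p (𝓝[<] 1) (𝓝 l1)

/-- glued two-periodic profile on the line -/
structure Glued (c M : ℝ) (E p q : ℝ → ℝ) : Prop where
  cpos : 0 < c
  d1 : ∀ x, HasDerivAt E (p x) x
  pc : Continuous p
  d2 : ∀ x : ℝ, (∀ k : ℤ, x ≠ k) → HasDerivAt p (q x) x
  pl : ∀ x, c ≤ p x
  pu : ∀ x, p x ≤ M
  qu : ∀ x : ℝ, (∀ k : ℤ, x ≠ k) → |q x| ≤ M
  conv : ∀ x : ℝ, (∀ k : ℤ, x ≠ k) → c ≤ 2 * p x * (1 + p x) - (1 + E x - x) * q x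
  lo : ∀ x, 0 < 1 + E x - x
  hi : ∀ x, 1 + E x - x < 2

end TC
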