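import Mathlib
import Pool.Agent.Helper822.TC.Defs2

set_option autoImplicit false

open Set Filter Topology Metric

namespace TC



theorem exp_shift (a z D : ℝ) (h : |a - z| ≤ D) :
    Real.exp (-|a|) ≤ Real.exp D * Real.exp (-|z|) := by
  rw [← Real.exp_add]
  apply Real.exp_le_exp.mpr
  have h1 : |z| ≤ |a| + |a - z| := by
    have := abs_sub_abs_le_abs_sub z a
    rw [abs_sub_comm z a] at this
    linarith
  linarith

theorem exp_neg_abs_le (z : ℝ) : Real.exp (-|z|) ≤ 1 := by
  rw [← Real.exp_zero]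
  apply Real.exp_le_exp.mpr
  simp

theorem near_comp (κ κ' : ℝ) : ∃ C > 0, ∃ ε₀ > 0, ∀ ε, 0 ≤ ε → ε ≤ ε₀ → ∀ u v : ℝ → ℝ,
    Near κ ε u → Near κ' ε v → Near (κ + κ') (C * ε) (fun z => u (v z)) := by
  refine ⟨10 * Real.exp (|κ'| + 1), by positivity, 1 / 2, by norm_num, ?_⟩
  intro ε hε0 hε u v hu hv
  obtain ⟨u1, u2, hu1, hu2, hub, hu1b, hu2b⟩ := hu
  obtain ⟨v1, v2, hv1, hv2, hvb, hv1b, hv2b⟩ := hv
  have hK1 : 1 ≤ Real.exp (|κ'| + 1) := by
    rw [← Real.exp_zero]
    apply Real.exp_le_exp.mpr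
    positivity
  have hdist : ∀ z, |v z - z| ≤ |κ'| + 1 := by
    intro z
    have h1 := hvb z
    have h2 : ε * Real.exp (-|z|) ≤ 1 := by
      have := exp_neg_abs_le z
      have h3 := Real.exp_pos (-|z|)
      nlinarith
    have h3 : |v z - z| ≤ |v z - z - κ'| + |κ'| := by
      have := abs_add_le (v z - z - κ') κ'
      simpa using this
    linarith
  have hE : ∀ z, Real.exp (-|v z|) ≤ Real.exp (|κ'| + 1) * Real.exp (-|z|) :=
    fun z => exp_shift (v z) z _ (hdist z)
  refine ⟨fun z => u1 (v z) * v1 z, fun z => u2 (v z) * v1 z * v1 z + u1 (v z) * v2 z,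
    ?_, ?_, ?_, ?_, ?_⟩
  · intro z
    exact (hu1 (v z)).comp z (hv1 z)
  · intro z
    have h1 : HasDerivAt (fun z => u1 (v z)) (u2 (v z) * v1 z) z := (hu2 (v z)).comp z (hv1 z)
    exact h1.mul (hv2 z)
  · intro z
    have h1 := hub (v z)
    have h2 := hvb z
    have h3 := hE z
    have h4 : |u (v z) - z - (κ + κ')| ≤ |u (v z) - v z - κ| + |v z - z - κ'| := by
      have := abs_add_le (u (v z) - v z - κ) (v z - z - κ')
      have e : u (v z) - v z - κ + (v z - z - κ') = u (v z) - z - (κ + κ') := by ring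
      rwa [e] at this
    set K := Real.exp (|κ'| + 1)
    set E := Real.exp (-|z|) with hEdef
    have hEpos : 0 < E := Real.exp_pos _
    have h5 : ε * Real.exp (-|v z|) ≤ ε * (K * E) := mul_le_mul_of_nonneg_left h3 hε0
    have h6 : ε * E ≤ K * (ε * E) := by
      have : 0 ≤ ε * E := by positivity
      nlinarith
    have h7 : 0 ≤ K * (ε * E) := by positivity
    calc |u (v z) - z - (κ + κ')| ≤ ε * (K * E) + ε * E := by linarith
      _ ≤ 10 * K * ε * E := by nlinarith
  · intro z
    have h1 := hu1b (v z)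
    have h2 := hv1b z
    have h3 := hE z
    set K := Real.exp (|κ'| + 1)
    set E := Real.exp (-|z|) with hEdef
    have hEpos : 0 < E := Real.exp_pos _
    have hE1 : E ≤ 1 := exp_neg_abs_le z
    have h5 : ε * Real.exp (-|v z|) ≤ ε * (K * E) := mul_le_mul_of_nonneg_left h3 hε0
    have h6 : ε * E ≤ K * (ε * E) := by
      have : 0 ≤ ε * E := by positivity
      nlinarith
    have h7 : 0 ≤ K * (ε * E) := by positivity
    have h8 : |v1 z| ≤ 2 := by
      have : |v1 z| ≤ |v1 z - 1| + 1 := by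
        have := abs_add_le (v1 z - 1) 1
        simpa using this
      nlinarith
    have h9 : |u1 (v z) * v1 z - 1| ≤ |u1 (v z) - 1| * |v1 z| + |v1 z - 1| := by
      rw [← abs_mul]
      have := abs_add_le ((u1 (v z) - 1) * v1 z) (v1 z - 1)
      have e : (u1 (v z) - 1) * v1 z + (v1 z - 1) = u1 (v z) * v1 z - 1 := by ring
      rwa [e] at this
    have h10 : |u1 (v z) - 1| * |v1 z| ≤ (ε * (K * E)) * 2 :=
      mul_le_mul (h1.trans h5) h8 (abs_nonneg _) (by positivity)
    calc |u1 (v z) * v1 z - 1| ≤ (ε * (K * E)) * 2 + ε * E := by linarith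
      _ ≤ 10 * K * ε * E := by nlinarith
  · intro z
    have h1 := hu2b (v z)
    have h1' := hu1b (v z)
    have h2 := hv2b z
    have h2' := hv1b z
    have h3 := hE z
    set K := Real.exp (|κ'| + 1)
    set E := Real.exp (-|z|) with hEdef
    have hEpos : 0 < E := Real.exp_pos _
    have hE1 : E ≤ 1 := exp_neg_abs_le z
    have hE2 : Real.exp (-|v z|) ≤ 1 := exp_neg_abs_le (v z)
    have hE3 : 0 < Real.exp (-|v z|) := Real.exp_pos _
    have h5 : ε * Real.exp (-|v z|) ≤ ε * (K * E) := mul_le_mul_of_nonneg_left h3 hε0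
    have h6 : ε * E ≤ K * (ε * E) := by
      have : 0 ≤ ε * E := by positivity
      nlinarith
    have h7 : 0 ≤ K * (ε * E) := by positivity
    have h8 : |v1 z| ≤ 2 := by
      have : |v1 z| ≤ |v1 z - 1| + 1 := by
        have := abs_add_le (v1 z - 1) 1
        simpa using this
      nlinarith
    have h8' : |u1 (v z)| ≤ 2 := by
      have : |u1 (v z)| ≤ |u1 (v z) - 1| + 1 := by
        have := abs_add_le (u1 (v z) - 1) 1
        simpa using this
      nlinarith
    have h9 : |u2 (v z) * v1 z * v1 z + u1 (v z) * v2 z| ≤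
        |u2 (v z)| * |v1 z| * |v1 z| + |u1 (v z)| * |v2 z| := by
      have := abs_add_le (u2 (v z) * v1 z * v1 z) (u1 (v z) * v2 z)
      simpa [abs_mul] using this
    have h10 : |u2 (v z)| * |v1 z| ≤ (ε * (K * E)) * 2 :=
      mul_le_mul (h1.trans h5) h8 (abs_nonneg _) (by positivity)
    have h11 : |u2 (v z)| * |v1 z| * |v1 z| ≤ (ε * (K * E)) * 2 * 2 :=
      mul_le_mul h10 h8 (abs_nonneg _) (by positivity)
    have h12 : |u1 (v z)| * |v2 z| ≤ 2 * (ε * E) :=
      mul_le_mul h8' h2 (abs_nonneg _) (by norm_num)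
    calc |u2 (v z) * v1 z * v1 z + u1 (v z) * v2 z| ≤ (ε * (K * E)) * 2 * 2 + 2 * (ε * E) := by
          linarith
      _ ≤ 10 * K * ε * E := by nlinarith

theorem near_inv (κ : ℝ) : ∃ C > 0, ∃ ε₀ > 0, ∀ ε, 0 ≤ ε → ε ≤ ε₀ → ∀ u : ℝ → ℝ,
    Near κ ε u → ∃ v : ℝ → ℝ, (∀ x, v (u x) = x) ∧ (∀ x, u (v x) = x) ∧ Near (-κ) (C * ε) v := by
  refine ⟨10 * Real.exp (|κ| + 1), by positivity, 1 / 2, by norm_num, ?_⟩
  intro ε hε0 hε u hu
  obtain ⟨u1, u2, hu1, hu2, hub, hu1b, hu2b⟩ := hu
  have hεE : ∀ z, ε * Real.exp (-|z|) ≤ 1 / 2 := by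
    intro z
    have := exp_neg_abs_le z
    have h3 := Real.exp_pos (-|z|)
    nlinarith
  have hpos : ∀ z, 1 / 2 ≤ u1 z := by
    intro z
    have h1 := abs_le.mp ((hu1b z).trans (hεE z))
    linarith [h1.1]
  have hmono : StrictMono u := by
    apply strictMono_of_deriv_pos
    intro z
    rw [(hu1 z).deriv]
    have := hpos z
    linarith
  have hcont : Continuous u := by
    rw [continuous_iff_continuousAt]
    exact fun z => (hu1 z).continuousAt
  have hclose : ∀ z, |u z - z - κ| ≤ 1 := fun z => (hub z).trans ((hεE z).trans (by norm_num))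
  have hsurj : Function.Surjective u := by
    apply hcont.surjective
    · apply tendsto_atTop_mono (f := fun z => z + (κ - 1))
      · intro z
        have := (abs_le.mp (hclose z)).1
        linarith
      · exact tendsto_atTop_add_const_right _ _ tendsto_id
    · have hle : ∀ z, u z ≤ z + (κ + 1) := by
        intro z
        have := (abs_le.mp (hclose z)).2
        linarith
      exact tendsto_atBot_mono hle (tendsto_atBot_add_const_right _ _ tendsto_id)
  let e : ℝ ≃o ℝ := StrictMono.orderIsoOfSurjective u hmono hsurj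
  have he : ∀ x, e x = u x := fun x => rfl
  let v : ℝ → ℝ := fun x => e.symm x
  have hvu : ∀ x, v (u x) = x := by
    intro x
    show e.symm (u x) = x
    rw [← he x]
    exact e.symm_apply_apply x
  have huv : ∀ x, u (v x) = x := by
    intro x
    show u (e.symm x) = x
    rw [← he (e.symm x)]
    exact e.apply_symm_apply x
  have hvcont : Continuous v := e.symm.continuous
  have hvd : ∀ z, HasDerivAt v (u1 (v z))⁻¹ z := by
    intro z
    have hne : u1 (v z) ≠ 0 := by
      have := hpos (v z)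
      linarith
    exact HasDerivAt.of_local_left_inverse hvcont.continuousAt (hu1 (v z)) hne
      (Filter.Eventually.of_forall huv)
  have hdist : ∀ z, |v z - z| ≤ |κ| + 1 := by
    intro z
    have h1 := hclose (v z)
    rw [huv z] at h1
    have h3 : |v z - z| ≤ |z - v z - κ| + |κ| := by
      have := abs_add_le (z - v z - κ) κ
      rw [abs_sub_comm (v z) z]
      simpa using this
    linarith
  have hE : ∀ z, Real.exp (-|v z|) ≤ Real.exp (|κ| + 1) * Real.exp (-|z|) :=
    fun z => exp_shift (v z) z _ (hdist z)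
  refine ⟨v, hvu, huv, fun z => (u1 (v z))⁻¹,
    fun z => -(u2 (v z) * (u1 (v z))⁻¹) / (u1 (v z)) ^ 2, hvd, ?_, ?_, ?_, ?_⟩
  · intro z
    have hne : u1 (v z) ≠ 0 := by
      have := hpos (v z)
      linarith
    have h1 : HasDerivAt (fun z => u1 (v z)) (u2 (v z) * (u1 (v z))⁻¹) z :=
      (hu2 (v z)).comp z (hvd z)
    exact h1.inv hne
  · intro z
    have h1 := hub (v z)
    rw [huv z] at h1
    have h3 := hE z
    set K := Real.exp (|κ| + 1)
    set E := Real.exp (-|z|) with hEdef
    have hEpos : 0 < E := Real.exp_pos _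
    have hKpos : 0 < K := Real.exp_pos _
    have h5 : ε * Real.exp (-|v z|) ≤ ε * (K * E) := mul_le_mul_of_nonneg_left h3 hε0
    have e1 : |v z - z - -κ| = |z - v z - κ| := by
      rw [← abs_neg]
      congr 1
      ring
    rw [e1]
    have h7 : 0 ≤ K * (ε * E) := by positivity
    calc |z - v z - κ| ≤ ε * (K * E) := h1.trans h5
      _ ≤ 10 * K * ε * E := by nlinarith
  · intro z
    have h1 := hu1b (v z)
    have h2 := hpos (v z)
    have h3 := hE z
    set K := Real.exp (|κ| + 1)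
    set E := Real.exp (-|z|) with hEdef
    have hEpos : 0 < E := Real.exp_pos _
    have hKpos : 0 < K := Real.exp_pos _
    have h5 : ε * Real.exp (-|v z|) ≤ ε * (K * E) := mul_le_mul_of_nonneg_left h3 hε0
    have h7 : 0 ≤ K * (ε * E) := by positivity
    have hne : u1 (v z) ≠ 0 := by linarith
    have e1 : (u1 (v z))⁻¹ - 1 = (1 - u1 (v z)) / u1 (v z) := by
      field_simp
    rw [e1, abs_div, abs_sub_comm, abs_of_pos (by linarith : (0:ℝ) < u1 (v z)),
      div_le_iff₀ (by linarith)]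
    have h8 : 10 * K * ε * E * (1 / 2) ≤ 10 * K * ε * E * u1 (v z) :=
      mul_le_mul_of_nonneg_left h2 (by positivity)
    calc |u1 (v z) - 1| ≤ ε * (K * E) := h1.trans h5
      _ ≤ 10 * K * ε * E * (1 / 2) := by nlinarith
      _ ≤ _ := h8
  · intro z
    have h1 := hu2b (v z)
    have h2 := hpos (v z)
    have h3 := hE z
    set K := Real.exp (|κ| + 1)
    set E := Real.exp (-|z|) with hEdef
    have hEpos : 0 < E := Real.exp_pos _
    have hKpos : 0 < K := Real.exp_pos _
    have h5 : ε * Real.exp (-|v z|) ≤ ε * (K * E) := mul_le_mul_of_nonneg_left h3 hε0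
    have h7 : 0 ≤ K * (ε * E) := by positivity
    have hp : (0:ℝ) < u1 (v z) := by linarith
    have e1 : |-(u2 (v z) * (u1 (v z))⁻¹) / (u1 (v z)) ^ 2| = |u2 (v z)| / (u1 (v z)) ^ 3 := by
      rw [abs_div, abs_neg, abs_mul, abs_inv, abs_pow, abs_of_pos hp]
      field_simp
    rw [e1, div_le_iff₀ (by positivity)]
    have h9 : (1:ℝ) / 8 ≤ (u1 (v z)) ^ 3 := by
      have := pow_le_pow_left₀ (by norm_num : (0:ℝ) ≤ 1 / 2) h2 3
      norm_num at this
      linarith
    have h8 : 10 * K * ε * E * (1 / 8) ≤ 10 * K * ε * E * (u1 (v z)) ^ 3 :=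
      mul_le_mul_of_nonneg_left h9 (by positivity)
    calc |u2 (v z)| ≤ ε * (K * E) := h1.trans h5
      _ ≤ 10 * K * ε * E * (1 / 8) := by nlinarith
      _ ≤ _ := h8

end TC
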