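import Mathlib
import Pool.Agent.Helper822.TC.Defs

set_option autoImplicit false

open Complex Set Metric

namespace TC



lemma om_lip (z w : ℂ) : om w ≤ Real.exp ‖w - z‖ * om z := by
  unfold om
  rw [← Real.exp_add]
  apply Real.exp_le_exp.2
  have h1 : |z.re| - |w.re| ≤ |z.re - w.re| := abs_sub_abs_le_abs_sub _ _
  have h2 : |z.re - w.re| ≤ ‖w - z‖ := by
    rw [← Complex.sub_re, ← norm_neg, neg_sub]
    exact Complex.abs_re_le_norm _
  linarith

lemma strip_open (h : ℝ) : IsOpen (Strip h) :=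
  isOpen_lt (Complex.continuous_im.abs) continuous_const

lemma cauchy_strip {b r B : ℝ} (hr : 0 < r) (hB : 0 ≤ B) {F : ℂ → ℂ}
    (hd : DifferentiableOn ℂ F (Strip b)) (hb : ∀ z ∈ Strip b, ‖F z‖ ≤ B * om z) {z : ℂ}
    (hz : |z.im| + r < b) : ‖deriv F z‖ ≤ B * (Real.exp r / r) * om z := by
  have hsub : closedBall z r ⊆ Strip b := by
    intro w hw
    have h1 : ‖w - z‖ ≤ r := by simpa [dist_eq_norm] using hw
    have h2 : |w.im - z.im| ≤ ‖w - z‖ := by
      rw [← Complex.sub_im]
      exact Complex.abs_im_le_norm _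
    have h3 : |w.im| - |z.im| ≤ |w.im - z.im| := abs_sub_abs_le_abs_sub _ _
    change |w.im| < b
    linarith
  have h := Complex.norm_deriv_le_of_forall_mem_sphere_norm_le hr
    (hd.diffContOnCl_ball hsub) (C := B * (Real.exp r * om z)) (by
      intro w hw
      have h1 : ‖w - z‖ = r := by simpa [dist_eq_norm] using hw
      refine (hb w (hsub (sphere_subset_closedBall hw))).trans ?_
      have := om_lip z w
      rw [h1] at this
      gcongr)
  refine h.trans (le_of_eq ?_)
  field_simp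

lemma real_deriv_strip {a : ℝ} (ha : 0 < a) {F : ℂ → ℂ} (hd : DifferentiableOn ℂ F (Strip a))
    (hr : ∀ x : ℝ, (F x).im = 0) (x : ℝ) :
    HasDerivAt (fun t : ℝ => (F t).re) (deriv F x).re x ∧ (deriv F x).im = 0 := by
  have hx : (x : ℂ) ∈ Strip a := by
    change |(x : ℂ).im| < a
    simpa using ha
  have h1 : HasDerivAt F (deriv F x) x :=
    (hd.differentiableAt ((strip_open a).mem_nhds hx)).hasDerivAt
  have h2 : HasDerivAt (fun t : ℝ => F t) (deriv F x) x := h1.comp_ofReal
  refine ⟨h1.real_of_complex, ?_⟩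
  have h3 : HasDerivAt (fun t : ℝ => (F t).im) (deriv F x).im x :=
    (Complex.imCLM.hasFDerivAt.comp_hasDerivAt x h2)
  have h4 : (fun t : ℝ => (F t).im) = fun _ => 0 := funext hr
  rw [h4] at h3
  exact h3.unique (hasDerivAt_const x (0 : ℝ))

theorem real_c2 (a : ℝ) (ha : 0 < a) : ∃ C > 0, ∀ (F : ℂ → ℂ) (B : ℝ), 0 ≤ B →
    DifferentiableOn ℂ F (Strip a) → (∀ z ∈ Strip a, ‖F z‖ ≤ B * om z) →
    (∀ x : ℝ, (F x).im = 0) → ∃ F1 F2 : ℝ → ℝ,
      (∀ x : ℝ, HasDerivAt (fun t : ℝ => (F t).re) (F1 x) x) ∧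
      (∀ x : ℝ, HasDerivAt F1 (F2 x) x) ∧
      (∀ x : ℝ, deriv F x = (F1 x : ℂ)) ∧
      (∀ x : ℝ, |(F x).re| ≤ C * B * Real.exp (-|x|)) ∧
      (∀ x : ℝ, |F1 x| ≤ C * B * Real.exp (-|x|)) ∧
      (∀ x : ℝ, |F2 x| ≤ C * B * Real.exp (-|x|)) := by
  have hK : 0 < Real.exp (a / 4) / (a / 4) := by positivity
  generalize hKd : Real.exp (a / 4) / (a / 4) = K at hK
  refine ⟨1 + K + K ^ 2, by positivity, ?_⟩
  intro F B hB hd hb hr
  have hd1 : DifferentiableOn ℂ (deriv F) (Strip a) := hd.deriv (strip_open a)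
  have hsub : Strip (a / 2) ⊆ Strip a := by
    intro z hz
    have : |z.im| < a / 2 := hz
    change |z.im| < a
    linarith
  have b1 : ∀ z ∈ Strip (a / 2), ‖deriv F z‖ ≤ (B * K) * om z := by
    intro z hz
    have hz' : |z.im| < a / 2 := hz
    have := cauchy_strip (r := a / 4) (by positivity) hB hd hb (z := z) (by linarith)
    rwa [hKd] at this
  have b2 : ∀ x : ℝ, ‖deriv (deriv F) x‖ ≤ (B * K * K) * om x := by
    intro x
    have := cauchy_strip (r := a / 4) (by positivity) (by positivity) (hd1.mono hsub) b1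
      (z := (x : ℂ)) (by rw [Complex.ofReal_im, abs_zero]; linarith)
    rwa [hKd] at this
  have hx : ∀ x : ℝ, (x : ℂ) ∈ Strip (a / 2) := by
    intro x
    change |(x : ℂ).im| < a / 2
    rw [Complex.ofReal_im, abs_zero]
    linarith
  have hom : ∀ x : ℝ, om (x : ℂ) = Real.exp (-|x|) := by
    intro x
    unfold om
    rw [Complex.ofReal_re]
  refine ⟨fun x => (deriv F x).re, fun x => (deriv (deriv F) x).re, ?_, ?_, ?_, ?_, ?_, ?_⟩
  · intro x
    exact (real_deriv_strip ha hd hr x).1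
  · intro x
    exact (real_deriv_strip ha hd1 (fun y => (real_deriv_strip ha hd hr y).2) x).1
  · intro x
    apply Complex.ext
    · simp
    · simp [(real_deriv_strip ha hd hr x).2]
  · intro x
    have h1 := hb x (hsub (hx x))
    rw [hom] at h1
    refine (Complex.abs_re_le_norm _).trans (h1.trans ?_)
    have h0 : 0 ≤ B * Real.exp (-|x|) := by positivity
    have : (1 + K + K ^ 2) * B * Real.exp (-|x|) = B * Real.exp (-|x|) +
      (K + K ^ 2) * (B * Real.exp (-|x|)) := by ring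
    rw [this]
    have : 0 ≤ (K + K ^ 2) * (B * Real.exp (-|x|)) := by positivity
    linarith
  · intro x
    have h1 := b1 x (hx x)
    rw [hom] at h1
    refine (Complex.abs_re_le_norm _).trans (h1.trans ?_)
    have h0 : 0 ≤ B * Real.exp (-|x|) := by positivity
    have : (1 + K + K ^ 2) * B * Real.exp (-|x|) = B * K * Real.exp (-|x|) +
      (1 + K ^ 2) * (B * Real.exp (-|x|)) := by ring
    rw [this]
    have : 0 ≤ (1 + K ^ 2) * (B * Real.exp (-|x|)) := by positivity
    linarith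
  · intro x
    have h1 := b2 x
    rw [hom] at h1
    refine (Complex.abs_re_le_norm _).trans (h1.trans ?_)
    have h0 : 0 ≤ B * Real.exp (-|x|) := by positivity
    have : (1 + K + K ^ 2) * B * Real.exp (-|x|) = B * K * K * Real.exp (-|x|) +
      (1 + K) * (B * Real.exp (-|x|)) := by ring
    rw [this]
    have : 0 ≤ (1 + K) * (B * Real.exp (-|x|)) := by positivity
    linarith

end TC
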