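import Mathlib
import Pool.Agent.Helper822.TC.AMain
import Pool.Agent.Helper822.TC.NearC
import Pool.Agent.Helper822.TC.Chord
import Pool.Agent.Helper822.TC.RC2

set_option autoImplicit false

open Complex Set Metric Filter Topology

namespace TC

theorem near_mono {κ ε ε' : ℝ} {u : ℝ → ℝ} (h : Near κ ε u) (hε : ε ≤ ε') : Near κ ε' u := by
  obtain ⟨u1, u2, h1, h2, h3, h4, h5⟩ := h
  refine ⟨u1, u2, h1, h2, fun z => (h3 z).trans ?_, fun z => (h4 z).trans ?_,
    fun z => (h5 z).trans ?_⟩ <;> exact mul_le_mul_of_nonneg_right hε (Real.exp_pos _).le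

theorem real_transfer {δ h C V Cs : ℝ} {X G : ℂ → ℂ} (hB : BaseA δ h C X G) (hV : 2 * C < V)
    (hCs : 0 ≤ Cs) (hpos : ∀ x : ℝ, 0 < (deriv X x).re) :
    ∃ K η₀ : ℝ, 0 < K ∧ 0 < η₀ ∧ ∀ (η : ℝ) (m e Pi : ℂ → ℂ), 0 < η → η ≤ η₀ →
      Small V Cs η m e Pi → ∃ f fi g γ : ℝ → ℝ, Near δ (K * η) f ∧ Near (-δ) (K * η) g ∧
      (∀ x, f (fi x) = x) ∧ (∀ x, fi (f x) = x) ∧ (∀ x, g (γ x) = x) ∧ (∀ x, γ (g x) = x) ∧
      ∀ y : ℝ,
        (m (((X (f y)).re - (X y).re : ℝ) : ℂ)).re
          + 3 * η * (e (((X (f y)).re - (X y).re : ℝ) : ℂ)).re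
          - (m (((X (γ y)).re - (X y).re : ℝ) : ℂ)).re =
        (m (((X y).re - (X (fi y)).re : ℝ) : ℂ)).re
          + 3 * η * (e (((X y).re - (X (fi y)).re : ℝ) : ℂ)).re
          - (m (((X y).re - (X (g y)).re : ℝ) : ℂ)).re := by
  have hh := hB.hpos
  have hh4 : 0 < h / 4 := by positivity
  obtain ⟨K, η₁, hK, hη₁, hA⟩ := A_main hB hV hCs
  obtain ⟨C₀, hC₀, hR2⟩ := real_c2 (h / 4) hh4
  -- constants for composition and inversion
  obtain ⟨Ca, hCa, εa, hεa, hinvf⟩ := near_inv δ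
  obtain ⟨Cb, hCb, εb, hεb, hcomp1⟩ := near_comp δ (-δ)
  obtain ⟨Cc, hCc, εc, hεc, hcomp2⟩ := near_comp δ (δ + -δ)
  obtain ⟨Cd, hCd, εd, hεd, hinvγ⟩ := near_inv (δ + (δ + -δ))
  -- everything in terms of ε = 2*C₀*K*η
  set D : ℝ := 1 + Ca + Cb * (1 + Ca) + Cc * (1 + Cb * (1 + Ca)) +
    Cd * (Cc * (1 + Cb * (1 + Ca))) with hD
  have hDpos : 0 < D := by positivity
  set E : ℝ := 2 * C₀ * K * D with hE
  have hEpos : 0 < E := by positivity
  refine ⟨E, min (min η₁ (1 / (4 * E))) (min (min εa εb / E) (min εc εd / E)), hEpos, ?_, ?_⟩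
  · simp only [lt_min_iff]
    refine ⟨⟨hη₁, by positivity⟩, div_pos (lt_min hεa hεb) hEpos, div_pos (lt_min hεc hεd) hEpos⟩
  intro η m e Pi hη hηη hS
  have l1 : η ≤ η₁ := hηη.trans ((min_le_left _ _).trans (min_le_left _ _))
  have l2 : E * η ≤ 1 / 4 := by
    have : η ≤ 1 / (4 * E) := hηη.trans ((min_le_left _ _).trans (min_le_right _ _))
    rw [le_div_iff₀ (by positivity)] at this
    linarith
  have l3 : E * η ≤ min εa εb := by
    have : η ≤ min εa εb / E := hηη.trans ((min_le_right _ _).trans (min_le_left _ _))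
    rw [le_div_iff₀ hEpos] at this
    linarith
  have l4 : E * η ≤ min εc εd := by
    have : η ≤ min εc εd / E := hηη.trans ((min_le_right _ _).trans (min_le_right _ _))
    rw [le_div_iff₀ hEpos] at this
    linarith
  obtain ⟨φ, R, dφ, dR, bφ, bR, rφ, rR, hE1, hE2⟩ := hA η m e Pi hη l1 hS
  obtain ⟨p1, p2, hp1, hp2, hp3, hp4, hp5, hp6⟩ := hR2 φ (K * η) (by positivity) dφ bφ rφ
  obtain ⟨q1, q2, hq1, hq2, hq3, hq4, hq5, hq6⟩ := hR2 R (K * η) (by positivity) dR bR rR
  set ε : ℝ := 2 * C₀ * K * η with hε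
  have hε0 : 0 < ε := by positivity
  have hεD : ε * D = E * η := by rw [hε, hE]; ring
  set f : ℝ → ℝ := fun t => t + δ + (φ t).re with hf
  set u : ℝ → ℝ := fun t => t + δ + (φ t).re + (R t).re with hu
  have exppos : ∀ z : ℝ, 0 < Real.exp (-|z|) := fun z => Real.exp_pos _
  have hfd : ∀ z, HasDerivAt f (1 + p1 z) z := by
    intro z
    exact ((hasDerivAt_id z).add_const δ).add (hp1 z)
  have hud : ∀ z, HasDerivAt u (1 + p1 z + q1 z) z := by
    intro z
    exact (((hasDerivAt_id z).add_const δ).add (hp1 z)).add (hq1 z)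
  have hfN : Near δ ε f := by
    refine ⟨fun z => 1 + p1 z, p2, hfd, fun z => by simpa using (hp2 z).const_add 1, ?_, ?_, ?_⟩
    · intro z
      have : f z - z - δ = (φ z).re := by simp only [hf]; ring
      rw [this]
      refine (hp4 z).trans (mul_le_mul_of_nonneg_right ?_ (exppos z).le)
      rw [hε]; nlinarith [mul_pos (mul_pos hC₀ hK) hη]
    · intro z
      rw [add_sub_cancel_left]
      refine (hp5 z).trans (mul_le_mul_of_nonneg_right ?_ (exppos z).le)
      rw [hε]; nlinarith [mul_pos (mul_pos hC₀ hK) hη]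
    · intro z
      refine (hp6 z).trans (mul_le_mul_of_nonneg_right ?_ (exppos z).le)
      rw [hε]; nlinarith [mul_pos (mul_pos hC₀ hK) hη]
  have hsum : ∀ (a b z : ℝ), |a| ≤ C₀ * (K * η) * Real.exp (-|z|) →
      |b| ≤ C₀ * (K * η) * Real.exp (-|z|) → |a + b| ≤ ε * Real.exp (-|z|) := by
    intro a b z ha hb
    refine (abs_add_le a b).trans ?_
    rw [hε]
    linarith
  have huN : Near δ ε u := by
    refine ⟨fun z => 1 + p1 z + q1 z, fun z => p2 z + q2 z, hud, fun z =>
      ((hp2 z).const_add 1).add (hq2 z), ?_, ?_, ?_⟩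
    · intro z
      have : u z - z - δ = (φ z).re + (R z).re := by simp only [hu]; ring
      rw [this]
      exact hsum _ _ z (hp4 z) (hq4 z)
    · intro z
      have : 1 + p1 z + q1 z - 1 = p1 z + q1 z := by ring
      rw [this]
      exact hsum _ _ z (hp5 z) (hq5 z)
    · intro z
      exact hsum _ _ z (hp6 z) (hq6 z)
  have ha0 : ε ≤ ε * D := by
    apply le_mul_of_one_le_right hε0.le
    rw [hD]
    have : 0 ≤ Ca + Cb * (1 + Ca) + Cc * (1 + Cb * (1 + Ca)) +
      Cd * (Cc * (1 + Cb * (1 + Ca))) := by positivity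
    linarith
  have hle : ∀ A : ℝ, A ≤ D → A * ε ≤ E * η := by
    intro A hA'
    rw [← hεD, mul_comm A ε]
    exact mul_le_mul_of_nonneg_left hA' hε0.le
  have p0 : 0 < Cb * (1 + Ca) := by positivity
  have p00 : 0 < Cc * (1 + Cb * (1 + Ca)) := by positivity
  have p000 : 0 < Cd * (Cc * (1 + Cb * (1 + Ca))) := by positivity
  -- inverse of f
  obtain ⟨fi, hfi1, hfi2, hfiN⟩ := hinvf ε hε0.le (by
    calc ε = 1 * ε := by ring
      _ ≤ E * η := hle 1 (by rw [hD]; linarith)
      _ ≤ _ := l3.trans (min_le_left _ _)) f hfN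
  -- u ∘ fi
  have hw := hcomp1 ((1 + Ca) * ε) (by positivity) ((hle _ (by rw [hD]; linarith)).trans
    (l3.trans (min_le_right _ _))) u fi (near_mono huN (by nlinarith [mul_pos hCa hε0]))
    (near_mono hfiN (by nlinarith [mul_pos hCa hε0]))
  set ε2 : ℝ := (1 + Cb * (1 + Ca)) * ε with hε2
  have hγ := hcomp2 ε2 (by positivity) ((hle _ (by rw [hD]; linarith)).trans
    (l4.trans (min_le_left _ _))) f (fun z => u (fi z))
    (near_mono hfN (by rw [hε2]; nlinarith [mul_pos p0 hε0]))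
    (near_mono hw (by rw [hε2]; nlinarith [hε0]))
  set γ : ℝ → ℝ := fun z => f (u (fi z)) with hγdef
  set ε3 : ℝ := Cc * ε2 with hε3
  obtain ⟨g, hg1, hg2, hgN⟩ := hinvγ ε3 (by positivity) (by
    have : ε3 = (Cc * (1 + Cb * (1 + Ca))) * ε := by rw [hε3, hε2]; ring
    rw [this]
    exact (hle _ (by rw [hD]; linarith)).trans (l4.trans (min_le_right _ _))) γ hγ
  have hgN' : Near (-δ) (E * η) g := by
    have e1 : -(δ + (δ + -δ)) = -δ := by ring
    rw [e1] at hgN
    refine near_mono hgN ?_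
    have : Cd * ε3 = (Cd * (Cc * (1 + Cb * (1 + Ca)))) * ε := by rw [hε3, hε2]; ring
    rw [this]
    exact hle _ (by rw [hD]; linarith)
  refine ⟨f, fi, g, γ, near_mono hfN (by rw [← hεD]; exact ha0), hgN', hfi2, hfi1, hg1, hg2, ?_⟩
  -- real functions
  have sX : ∀ x : ℝ, (x : ℂ) ∈ Strip h := real_mem_Strip hh
  have nX : ∀ x : ℝ, Strip h ∈ 𝓝 (x : ℂ) := fun x => (Strip_open h).mem_nhds (sX x)
  have dX : ∀ x : ℝ, HasDerivAt X (deriv X x) (x : ℂ) := fun x =>
    (hB.dX.differentiableAt (nX x)).hasDerivAt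
  have dG : ∀ x : ℝ, HasDerivAt G (deriv G x) (x : ℂ) := fun x =>
    (hB.dG.differentiableAt (nX x)).hasDerivAt
  have contX1 : Continuous (fun x : ℝ => (deriv X x).re) := by
    have h1 : ContinuousOn (deriv X) (Strip h) := (hB.dX.deriv (Strip_open h)).continuousOn
    have h2 : Continuous (fun x : ℝ => deriv X (x : ℂ)) :=
      h1.comp_continuous Complex.continuous_ofReal sX
    exact Complex.continuous_re.comp h2
  have contG1 : Continuous (fun x : ℝ => (deriv G x).re) := by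
    have h1 : ContinuousOn (deriv G) (Strip h) := (hB.dG.deriv (Strip_open h)).continuousOn
    have h2 : Continuous (fun x : ℝ => deriv G (x : ℂ)) :=
      h1.comp_continuous Complex.continuous_ofReal sX
    exact Complex.continuous_re.comp h2
  have hVr : ∀ x y : ℝ, |(X x).re - (X y).re| < V := by
    intro x y
    have h1 : |(X x).re| ≤ C := (Complex.abs_re_le_norm _).trans (hB.bX _ (sX x))
    have h2 : |(X y).re| ≤ C := (Complex.abs_re_le_norm _).trans (hB.bX _ (sX y))
    have h3 := abs_sub (X x).re (X y).re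
    linarith
  have ballr : ∀ v : ℝ, v ∈ Ioo (-V) V → (v : ℂ) ∈ ball (0 : ℂ) V := by
    intro v hv
    rw [mem_ball_zero_iff, Complex.norm_real, Real.norm_eq_abs, abs_lt]
    exact hv
  have contm : ContinuousOn (fun v : ℝ => (m v).re) (Ioo (-V) V) :=
    Complex.continuous_re.comp_continuousOn
      (hS.dm.continuousOn.comp Complex.continuous_ofReal.continuousOn ballr)
  have conte : ContinuousOn (fun v : ℝ => (e v).re) (Ioo (-V) V) :=
    Complex.continuous_re.comp_continuousOn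
      (hS.de.continuousOn.comp Complex.continuous_ofReal.continuousOn ballr)
  obtain ⟨P, hP⟩ := hS.dm.isExactOn_ball
  have hmm : ∀ v ∈ Ioo (-V) V, HasDerivAt (fun v : ℝ => (P v).re) ((m v).re) v :=
    fun v hv => (hP _ (ballr v hv)).real_of_complex
  have hPi : ∀ v ∈ Ioo (-V) V, HasDerivAt (fun v : ℝ => (Pi v).re) (3 * (e v).re) v := by
    intro v hv
    have := (hS.dPi _ (ballr v hv)).real_of_complex
    simpa using this
  -- casts
  have cX : ∀ x : ℝ, X x = (((X x).re : ℝ) : ℂ) := fun x => eq_re (hB.reX x)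
  have cG : ∀ x : ℝ, G x = (((G x).re : ℝ) : ℂ) := fun x => eq_re (hB.reG x)
  have cX1 : ∀ x : ℝ, deriv X x = (((deriv X x).re : ℝ) : ℂ) := fun x =>
    eq_re (im_deriv_zero (dX x).differentiableAt hB.reX)
  have cG1 : ∀ x : ℝ, deriv G x = (((deriv G x).re : ℝ) : ℂ) := fun x =>
    eq_re (im_deriv_zero (dG x).differentiableAt hB.reG)
  have cφ : ∀ x : ℝ, φ x = (((φ x).re : ℝ) : ℂ) := fun x => eq_re (rφ x)
  have cR : ∀ x : ℝ, R x = (((R x).re : ℝ) : ℂ) := fun x => eq_re (rR x)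
  have cf : ∀ x : ℝ, (x : ℂ) + δ + φ x = ((f x : ℝ) : ℂ) := by
    intro x; rw [cφ x]; simp only [hf]; push_cast; rfl
  set Kr : ℝ → ℝ → ℝ := fun r y => η * (3 * (e (((X (f r)).re - (X r).re : ℝ) : ℂ)).re *
    (deriv X r).re - (deriv G r).re) +
      ((m (((X (f r)).re - (X r).re : ℝ) : ℂ)).re - (m (((X (f r)).re - (X y).re : ℝ) : ℂ)).re) *
      (deriv X (f r)).re * (1 + p1 r) with hKr
  have cNN : ∀ y r : ℝ, NN X G m e δ η φ y r = ((Kr r y : ℝ) : ℂ) := by
    intro y r
    unfold NN Nv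
    rw [cf r, hp3 r, cX1 r, cG1 r, cX1 (f r)]
    have v1 : X ((f r : ℝ) : ℂ) - X r = (((X (f r)).re - (X r).re : ℝ) : ℂ) := by
      rw [cX (f r), cX r]; push_cast; simp
    have v2 : X ((f r : ℝ) : ℂ) - X y = (((X (f r)).re - (X y).re : ℝ) : ℂ) := by
      rw [cX (f r), cX y]; push_cast; simp
    rw [v1, v2, eq_re (hS.ree ((X (f r)).re - (X r).re)), eq_re (hS.rem ((X (f r)).re - (X r).re)),
      eq_re (hS.rem ((X (f r)).re - (X y).re))]
    simp only [hKr]
    push_cast
    simp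
  have hp1small : ∀ z, 0 < 1 + p1 z := by
    intro z
    have h1 := hp5 z
    have h2 : Real.exp (-|z|) ≤ 1 := by
      rw [Real.exp_le_one_iff]; have := abs_nonneg z; linarith
    have h3 : C₀ * (K * η) * Real.exp (-|z|) ≤ C₀ * (K * η) * 1 :=
      mul_le_mul_of_nonneg_left h2 (by positivity)
    have h4 : C₀ * (K * η) * 2 = ε := by rw [hε]; ring
    have h5 : ε ≤ 1 / 4 := (ha0.trans (by rw [hεD])).trans l2
    have h6 := neg_abs_le (p1 z)
    linarith
  have contf1 : Continuous (fun z => 1 + p1 z) := by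
    have : Differentiable ℝ p1 := fun z => (hp2 z).differentiableAt
    exact continuous_const.add this.continuous
  have main := chord_eq (fun x : ℝ => (X x).re) (fun x : ℝ => (deriv X x).re)
    (fun x : ℝ => (G x).re) (fun x : ℝ => (deriv G x).re) f (fun z => 1 + p1 z) fi
    (fun x : ℝ => (R x).re) (fun v : ℝ => (m v).re) (fun v : ℝ => (P v).re)
    (fun v : ℝ => (e v).re) (fun v : ℝ => (Pi v).re) η V hη
    (fun x => (dX x).real_of_complex) hpos contX1 hVr
    (fun x => (dG x).real_of_complex) contG1 hfd hp1small contf1 hfi2 hfi1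
    (fun x => (hq1 x).differentiableAt) contm conte hmm hPi Kr (fun r y => rfl) ?_ ?_
  · intro y
    have h1 : γ y = f (y + (R (fi y)).re) := by
      simp only [hγdef]
      congr 1
      have : u (fi y) = f (fi y) + (R (fi y)).re := by simp only [hu, hf]
      rw [this, hfi2]
    have h2 : y = f (g y + (R (fi (g y))).re) := by
      have h3 : γ (g y) = y := hg2 y
      have h4 : γ (g y) = f (g y + (R (fi (g y))).re) := by
        simp only [hγdef]
        congr 1
        have : u (fi (g y)) = f (fi (g y)) + (R (fi (g y))).re := by simp only [hu, hf]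
        rw [this, hfi2]
      rw [← h4, h3]
    have := main (g y) y h2
    rw [h1]
    exact this
  · intro s
    have h1 := hE1 s
    rw [cf s] at h1
    have hint : (∫ t in (0:ℝ)..1, NN X G m e δ η φ ((f s : ℝ) : ℂ)
        (((f s : ℝ) : ℂ) + t * R s)) =
        ((∫ t in (0:ℝ)..1, Kr (f s + t * (R s).re) (f s) : ℝ) : ℂ) := by
      rw [← intervalIntegral.integral_ofReal]
      congr 1
      funext t
      rw [← cNN]
      congr 1
      rw [cR s]; push_cast; simp
    rw [hint, cR s, cG (f s), cG s] at h1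
    have v1 : X ((f s : ℝ) : ℂ) - X s = (((X (f s)).re - (X s).re : ℝ) : ℂ) := by
      rw [cX (f s), cX s]; push_cast; simp
    rw [v1, eq_re (hS.rePi ((X (f s)).re - (X s).re))] at h1
    have h2 := congrArg Complex.re h1
    simp only [Complex.ofReal_re] at h2
    have h3 : ((((Pi (((X (f s)).re - (X s).re : ℝ) : ℂ)).re : ℝ) : ℂ) -
        (((G (f s)).re : ℝ) : ℂ) + (((G s).re : ℝ) : ℂ) + (((R s).re : ℝ) : ℂ) / η *
        ((∫ t in (0:ℝ)..1, Kr (f s + t * (R s).re) (f s) : ℝ) : ℂ)).re =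
        (Pi (((X (f s)).re - (X s).re : ℝ) : ℂ)).re - (G (f s)).re + (G s).re +
        (R s).re / η * ∫ t in (0:ℝ)..1, Kr (f s + t * (R s).re) (f s) := by
      have : (((R s).re : ℝ) : ℂ) / (η : ℂ) = (((R s).re / η : ℝ) : ℂ) := by push_cast; rfl
      rw [this, ← Complex.ofReal_sub, ← Complex.ofReal_add, ← Complex.ofReal_mul,
        ← Complex.ofReal_add, Complex.ofReal_re]
    rw [h3] at h2
    simpa using h2
  · intro s
    have h1 := hE2 s
    rw [cf s, cR s, ← Complex.ofReal_add, cNN] at h1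
    exact_mod_cast h1

end TC
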