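import Mathlib
import Pool.Agent.Helper822.TC.Defs
import Pool.Agent.Helper822.TC.Defs2

set_option autoImplicit false

open Complex Set Metric

namespace TC



theorem cos_near7651 (w : ℂ) (hw : ‖w‖ ≤ 1) : ‖Complex.cos w - 1‖ ≤ ‖w‖ ^ 2 := by
  have h1 := Complex.norm_exp_sub_one_sub_id_le (x := w * I) (by simpa using hw)
  have h2 := Complex.norm_exp_sub_one_sub_id_le (x := -w * I) (by simpa using hw)
  have h3 : Complex.cos w - 1 = ((Complex.exp (w * I) - 1 - w * I) +
      (Complex.exp (-w * I) - 1 - -w * I)) / 2 := by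
    rw [Complex.cos]; ring
  have h4 : ‖w * I‖ = ‖w‖ := by simp
  have h5 : ‖-w * I‖ = ‖w‖ := by simp
  rw [h4] at h1
  rw [h5] at h2
  rw [h3, norm_div]
  have h6 := norm_add_le (Complex.exp (w * I) - 1 - w * I) (Complex.exp (-w * I) - 1 - -w * I)
  simp only [Complex.norm_ofNat]
  linarith

theorem sin_near7651 (w : ℂ) (hw : ‖w‖ ≤ 1) : ‖Complex.sin w - w‖ ≤ ‖w‖ ^ 3 := by
  have h1 := Complex.exp_bound (x := w * I) (by simpa using hw) (n := 3) (by norm_num)
  have h2 := Complex.exp_bound (x := -w * I) (by simpa using hw) (n := 3) (by norm_num)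
  have h4 : ‖w * I‖ = ‖w‖ := by simp
  have h5 : ‖-w * I‖ = ‖w‖ := by simp
  rw [h4] at h1
  rw [h5] at h2
  simp only [Finset.sum_range_succ, Finset.sum_range_zero, Nat.factorial] at h1 h2
  norm_num at h1 h2
  have h3 : Complex.sin w - w = ((Complex.exp (-(w * I)) - (1 + -(w * I) + (w * I) ^ 2 / 2)) -
      (Complex.exp (w * I) - (1 + w * I + (w * I) ^ 2 / 2))) * I / 2 := by
    rw [Complex.sin]
    have : -w * I = -(w * I) := by ring
    rw [this]
    have hI : I * I = -1 := Complex.I_mul_I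
    linear_combination (-w) * hI
  have h6 := norm_sub_le (Complex.exp (-(w * I)) - (1 + -(w * I) + (w * I) ^ 2 / 2))
    (Complex.exp (w * I) - (1 + w * I + (w * I) ^ 2 / 2))
  rw [h3, norm_div, norm_mul]
  simp only [Complex.norm_ofNat, Complex.norm_I, mul_one]
  have h7 : 0 ≤ ‖w‖ ^ 3 := by positivity
  linarith

theorem cos_ge7651 (w : ℂ) (hw : ‖w‖ ≤ 1 / 8) : 63 / 64 ≤ ‖Complex.cos w‖ := by
  have h1 := cos_near7651 w (by linarith)
  have h2 : ‖(1 : ℂ)‖ ≤ ‖Complex.cos w‖ + ‖Complex.cos w - 1‖ := by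
    have := norm_sub_le (Complex.cos w) (Complex.cos w - 1)
    simpa using this
  have h3 : ‖w‖ ^ 2 ≤ 1 / 64 := by
    have := norm_nonneg w
    nlinarith
  rw [norm_one] at h2
  linarith

theorem sin_le7651 (w : ℂ) (hw : ‖w‖ ≤ 1 / 8) : ‖Complex.sin w‖ ≤ 2 * ‖w‖ := by
  have h1 := sin_near7651 w (by linarith)
  have h2 : ‖Complex.sin w‖ ≤ ‖Complex.sin w - w‖ + ‖w‖ := by
    have := norm_add_le (Complex.sin w - w) w
    simpa using this
  have h0 := norm_nonneg w
  have h3 : ‖w‖ ^ 3 ≤ ‖w‖ := by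
    have : ‖w‖ ^ 2 ≤ 1 := by nlinarith
    nlinarith
  linarith

theorem prod7651 (A B : ℂ) : Complex.cos (A + B) * Complex.cos (A - B) =
    Complex.cos A ^ 2 - Complex.sin B ^ 2 := by
  rw [Complex.cos_add, Complex.cos_sub]
  have h1 := Complex.sin_sq_add_cos_sq A
  have h2 := Complex.sin_sq_add_cos_sq B
  linear_combination (Complex.cos A ^ 2) * h2 - (Complex.sin B ^ 2) * h1


theorem eta_bounds7651 (α : ℝ) (h0 : 0 < α) (h1 : α ≤ 1 / 4) :
    0 < α * Real.tan (α / 2) / (3 * Real.cos (α / 2) ^ 2) ∧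
    α * Real.tan (α / 2) / (3 * Real.cos (α / 2) ^ 2) ≤ α ^ 2 ∧
    α ^ 2 ≤ 6 * (α * Real.tan (α / 2) / (3 * Real.cos (α / 2) ^ 2)) := by
  have hpi := Real.pi_gt_three
  have hA0 : 0 < α / 2 := by linarith
  have hA1 : α / 2 ≤ 1 / 8 := by linarith
  have hcos1 : Real.cos (α / 2) ≤ 1 := Real.cos_le_one _
  have hcos2 : 127 / 128 ≤ Real.cos (α / 2) := by
    have := Real.one_sub_sq_div_two_le_cos (x := α / 2)
    nlinarith
  have hcpos : 0 < Real.cos (α / 2) := by linarith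
  have htan1 : α / 2 < Real.tan (α / 2) := Real.lt_tan hA0 (by linarith)
  have hsin : Real.sin (α / 2) ≤ α / 2 := Real.sin_le hA0.le
  have htan2 : Real.tan (α / 2) * Real.cos (α / 2) = Real.sin (α / 2) :=
    Real.tan_mul_cos hcpos.ne'
  have hc2 : Real.cos (α / 2) ^ 2 ≤ 1 := by nlinarith
  have hc3 : 9 / 10 ≤ Real.cos (α / 2) ^ 2 := by nlinarith
  have hD : 0 < 3 * Real.cos (α / 2) ^ 2 := by positivity
  refine ⟨div_pos (mul_pos h0 (by linarith)) hD, ?_, ?_⟩
  · rw [div_le_iff₀ hD]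
    have h3 : Real.tan (α / 2) ≤ α := by
      by_contra hcon
      push Not at hcon
      have : α * Real.cos (α / 2) < Real.tan (α / 2) * Real.cos (α / 2) :=
        mul_lt_mul_of_pos_right hcon hcpos
      rw [htan2] at this
      nlinarith
    nlinarith
  · rw [← mul_div_assoc, le_div_iff₀ hD]
    nlinarith

set_option maxHeartbeats 1000000 in
theorem tan_small (V : ℝ) (hV : 0 < V) : ∃ Cs α₀ : ℝ, 0 ≤ Cs ∧ 0 < α₀ ∧ α₀ ≤ 1 ∧
    ∀ α : ℝ, 0 < α → α ≤ α₀ → ∃ (η : ℝ) (m e Pi : ℂ → ℂ), 0 < η ∧ η ≤ α ^ 2 ∧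
      Small V Cs η m e Pi ∧
      (∀ v : ℝ, |v| < V → (m v).re =
        (2 / α) * (Real.tan (α / 2) - Real.tan (α * (1 - v) / 2))) ∧
      (∀ v : ℝ, |v| < V → (m v).re + 3 * η * (e v).re =
        (2 / α) * (Real.tan (α * (1 + v) / 2) - Real.tan (α / 2))) := by
  refine ⟨12 * (1 + V) ^ 2 + 60, 1 / (4 * (1 + V)), by positivity, by positivity, ?_, ?_⟩
  · rw [div_le_one (by positivity)]; linarith
  intro α hα hα0
  have hαV : α * (1 + V) ≤ 1 / 4 := by
    rw [le_div_iff₀ (by positivity)] at hα0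
    linarith
  have hα4 : α ≤ 1 / 4 := by nlinarith
  obtain ⟨hη0, hη1, hη2⟩ := eta_bounds7651 α hα hα4
  set η := α * Real.tan (α / 2) / (3 * Real.cos (α / 2) ^ 2) with hη
  have hαc : (α : ℂ) ≠ 0 := by exact_mod_cast hα.ne'
  -- norms of arguments
  have harg : ∀ v : ℂ, ‖v‖ ≤ V → ‖(α : ℂ) * (1 - v) / 2‖ ≤ 1 / 8 ∧
      ‖(α : ℂ) * (1 + v) / 2‖ ≤ 1 / 8 ∧ ‖(α : ℂ) * v / 2‖ ≤ 1 / 8 ∧
      ‖(α : ℂ) * (1 - v) / 2‖ ≤ α * (1 + V) / 2 := by
    intro v hv
    have h1 : ‖(1 : ℂ) - v‖ ≤ 1 + V := by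
      have := norm_sub_le (1 : ℂ) v
      rw [norm_one] at this
      linarith
    have h2 : ‖(1 : ℂ) + v‖ ≤ 1 + V := by
      have := norm_add_le (1 : ℂ) v
      rw [norm_one] at this
      linarith
    have hn : ∀ u : ℂ, ‖(α : ℂ) * u / 2‖ = α * ‖u‖ / 2 := by
      intro u
      rw [norm_div, norm_mul, Complex.norm_real, Real.norm_eq_abs, abs_of_pos hα]
      simp
    rw [hn, hn, hn]
    refine ⟨?_, ?_, ?_, ?_⟩ <;> nlinarith
  have hA8 : ‖(α : ℂ) / 2‖ ≤ 1 / 8 := by
    have := (harg 0 (by simpa using hV.le)).1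
    simpa using this
  -- nonvanishing
  have hcne : ∀ w : ℂ, ‖w‖ ≤ 1 / 8 → Complex.cos w ≠ 0 := by
    intro w hw h
    have := cos_ge7651 w hw
    rw [h, norm_zero] at this
    linarith
  have hD : ∀ v : ℂ, ‖v‖ ≤ V → 1 / 2 ≤
      ‖Complex.cos ((α : ℂ) / 2) ^ 2 - Complex.sin ((α : ℂ) * v / 2) ^ 2‖ := by
    intro v hv
    obtain ⟨h1, h2, h3, -⟩ := harg v hv
    rw [← prod7651, norm_mul]
    have e1 : (α : ℂ) / 2 + (α : ℂ) * v / 2 = (α : ℂ) * (1 + v) / 2 := by ring
    have e2 : (α : ℂ) / 2 - (α : ℂ) * v / 2 = (α : ℂ) * (1 - v) / 2 := by ring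
    rw [e1, e2]
    have h4 := cos_ge7651 _ h1
    have h5 := cos_ge7651 _ h2
    nlinarith
  have hDne : ∀ v : ℂ, ‖v‖ ≤ V →
      Complex.cos ((α : ℂ) / 2) ^ 2 - Complex.sin ((α : ℂ) * v / 2) ^ 2 ≠ 0 := by
    intro v hv h
    have := hD v hv
    rw [h, norm_zero] at this
    linarith
  let m : ℂ → ℂ := fun v =>
    (2 / (α : ℂ)) * (Complex.tan ((α : ℂ) / 2) - Complex.tan ((α : ℂ) * (1 - v) / 2))
  let e : ℂ → ℂ := fun v =>
    (4 / (α : ℂ) ^ 2) * Complex.cos ((α : ℂ) / 2) ^ 2 * Complex.sin ((α : ℂ) * v / 2) ^ 2 /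
      (Complex.cos ((α : ℂ) / 2) ^ 2 - Complex.sin ((α : ℂ) * v / 2) ^ 2)
  -- derivative of m
  have hdm : ∀ v : ℂ, ‖v‖ ≤ V →
      HasDerivAt m (1 / Complex.cos ((α : ℂ) * (1 - v) / 2) ^ 2) v := by
    intro v hv
    have hc := hcne _ (harg v hv).1
    have h1 : HasDerivAt (fun v : ℂ => (α : ℂ) * (1 - v) / 2) ((α : ℂ) * (-1) / 2) v := by
      have h2 : HasDerivAt (fun v : ℂ => 1 - v) (-1) v := by
        simpa using (hasDerivAt_id v).const_sub 1
      exact (h2.const_mul (α : ℂ)).div_const 2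
    have h3 : HasDerivAt (fun v : ℂ => Complex.tan ((α : ℂ) * (1 - v) / 2))
        (1 / Complex.cos ((α : ℂ) * (1 - v) / 2) ^ 2 * ((α : ℂ) * (-1) / 2)) v := by
      have h3' := HasDerivAt.comp v (Complex.hasDerivAt_tan hc) h1
      exact h3'
    have h4 := (h3.const_sub (Complex.tan ((α : ℂ) / 2))).const_mul (2 / (α : ℂ))
    convert! h4 using 1
    field_simp
  have hde : ∀ v : ℂ, ‖v‖ ≤ V → DifferentiableAt ℂ e v := by
    intro v hv
    have h1 : DifferentiableAt ℂ (fun v : ℂ => Complex.sin ((α : ℂ) * v / 2)) v := by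
      fun_prop
    exact ((h1.pow 2).const_mul _).div ((h1.pow 2).const_sub _) (hDne v hv)
  have heconj : ∀ v : ℂ, e (starRingEnd ℂ v) = starRingEnd ℂ (e v) := by
    intro v
    simp only [e, map_div₀, map_mul, map_pow, map_sub, Complex.conj_ofReal, map_ofNat,
      ← Complex.cos_conj, ← Complex.sin_conj]
  -- primitive
  have hdeon : DifferentiableOn ℂ (fun v => 3 * e v) (ball 0 V) := by
    intro v hv
    have hv' : ‖v‖ ≤ V := by
      have := mem_ball_zero_iff.1 hv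
      exact this.le
    exact ((hde v hv').const_mul 3).differentiableWithinAt
  obtain ⟨P, hP0, hP⟩ := (hdeon.isExactOn_ball).with_val_at 0 0
  let Pi : ℂ → ℂ := fun v => (P v + starRingEnd ℂ (P (starRingEnd ℂ v))) / 2
  have hrem : ∀ x : ℝ, m x = (((2 / α) * (Real.tan (α / 2) - Real.tan (α * (1 - x) / 2)) : ℝ) : ℂ) := by
    intro x
    simp only [m]
    push_cast
    rfl
  have hree : ∀ x : ℝ, e x = (((4 / α ^ 2) * Real.cos (α / 2) ^ 2 * Real.sin (α * x / 2) ^ 2 /
      (Real.cos (α / 2) ^ 2 - Real.sin (α * x / 2) ^ 2) : ℝ) : ℂ) := by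
    intro x
    simp only [e]
    push_cast
    rfl
  refine ⟨η, m, e, Pi, hη0, hη1, ?_, ?_, ?_⟩
  · refine ⟨?_, ?_, ?_, ?_, ?_, ?_, ?_, ?_, ?_, ?_⟩
    · intro v hv
      exact (hdm v (mem_ball_zero_iff.1 hv).le).differentiableAt.differentiableWithinAt
    · intro v hv
      exact (hde v (mem_ball_zero_iff.1 hv).le).differentiableWithinAt
    · simp [m]
    · intro v hv
      have hv' := (mem_ball_zero_iff.1 hv).le
      rw [(hdm v hv').deriv]
      obtain ⟨h1, -, -, h2⟩ := harg v hv'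
      have hc := hcne _ h1
      set w := (α : ℂ) * (1 - v) / 2 with hw
      have h3 : 1 / Complex.cos w ^ 2 - 1 = Complex.sin w ^ 2 / Complex.cos w ^ 2 := by
        have := Complex.sin_sq_add_cos_sq w
        field_simp
        linear_combination -this
      rw [h3, norm_div, norm_pow, norm_pow]
      have h4 := cos_ge7651 w h1
      have h5 := sin_le7651 w h1
      have h6 : (1 / 2 : ℝ) ≤ ‖Complex.cos w‖ ^ 2 := by nlinarith
      have h7 : ‖Complex.sin w‖ ^ 2 ≤ 4 * ‖w‖ ^ 2 := by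
        have := norm_nonneg (Complex.sin w)
        nlinarith
      have h8 : ‖w‖ ^ 2 ≤ (α * (1 + V) / 2) ^ 2 := by
        have := norm_nonneg w
        nlinarith
      rw [div_le_iff₀ (by positivity)]
      have h9 : ‖Complex.sin w‖ ^ 2 ≤ α ^ 2 * (1 + V) ^ 2 := by nlinarith
      have h10 : α ^ 2 * (1 + V) ^ 2 ≤ 6 * η * (1 + V) ^ 2 := by
        have : 0 ≤ (1 + V) ^ 2 := by positivity
        nlinarith
      have h11 : 6 * η * (1 + V) ^ 2 ≤ (12 * (1 + V) ^ 2 + 60) * η * (1 / 2) := by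
        nlinarith
      have h12 : (12 * (1 + V) ^ 2 + 60) * η * (1 / 2) ≤
          (12 * (1 + V) ^ 2 + 60) * η * ‖Complex.cos w‖ ^ 2 := by
        apply mul_le_mul_of_nonneg_left h6
        positivity
      linarith
    · intro v hv
      have hv' := (mem_ball_zero_iff.1 hv).le
      obtain ⟨-, -, h1, -⟩ := harg v hv'
      have hD1 := hD v hv'
      have hDn := hDne v hv'
      set B := (α : ℂ) * v / 2 with hB
      set D := Complex.cos ((α : ℂ) / 2) ^ 2 - Complex.sin B ^ 2 with hDdef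
      have hBn : ‖B‖ = α * ‖v‖ / 2 := by
        rw [hB, norm_div, norm_mul, Complex.norm_real, Real.norm_eq_abs, abs_of_pos hα]
        simp
      have h2 : e v - v ^ 2 = (4 / (α : ℂ) ^ 2) *
          ((Complex.sin B - B) * (Complex.sin B + B) + Complex.sin B ^ 4 / D) := by
        have hvB : v = 2 * B / α := by
          rw [hB]; field_simp
        have h3 : e v = (4 / (α : ℂ) ^ 2) * Complex.cos ((α : ℂ) / 2) ^ 2 *
          Complex.sin B ^ 2 / D := rfl
        have h4 : Complex.cos ((α : ℂ) / 2) ^ 2 = D + Complex.sin B ^ 2 := by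
          rw [hDdef]; ring
        have hv2 : v ^ 2 = (2 * B / α) ^ 2 := by rw [← hvB]
        rw [h3, h4, hv2]
        field_simp
        ring
      rw [h2, norm_mul, norm_div, norm_pow, Complex.norm_real, Real.norm_eq_abs, abs_of_pos hα]
      have h5 := sin_near7651 B (by linarith)
      have h6 := sin_le7651 B h1
      have hB0 := norm_nonneg B
      have h7 : ‖(Complex.sin B - B) * (Complex.sin B + B)‖ ≤ 3 * ‖B‖ ^ 4 := by
        rw [norm_mul]
        have h8 : ‖Complex.sin B + B‖ ≤ 3 * ‖B‖ := by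
          have := norm_add_le (Complex.sin B) B
          linarith
        calc ‖Complex.sin B - B‖ * ‖Complex.sin B + B‖ ≤ ‖B‖ ^ 3 * (3 * ‖B‖) := by
              apply mul_le_mul h5 h8 (norm_nonneg _) (by positivity)
          _ = 3 * ‖B‖ ^ 4 := by ring
      have h9 : ‖Complex.sin B ^ 4 / D‖ ≤ 32 * ‖B‖ ^ 4 := by
        rw [norm_div, norm_pow, div_le_iff₀ (by linarith)]
        have h10 : ‖Complex.sin B‖ ^ 4 ≤ (2 * ‖B‖) ^ 4 :=
          pow_le_pow_left₀ (norm_nonneg _) h6 4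
        have h11 : 0 ≤ ‖B‖ ^ 4 := by positivity
        nlinarith
      have h12 := norm_add_le ((Complex.sin B - B) * (Complex.sin B + B)) (Complex.sin B ^ 4 / D)
      have h13 : ‖(Complex.sin B - B) * (Complex.sin B + B) + Complex.sin B ^ 4 / D‖ ≤
          35 * ‖B‖ ^ 4 := by linarith
      have h14 : ‖(4 : ℂ)‖ = 4 := by simp
      rw [h14]
      have h15 : 4 / α ^ 2 * ‖(Complex.sin B - B) * (Complex.sin B + B) + Complex.sin B ^ 4 / D‖ ≤
          4 / α ^ 2 * (35 * ‖B‖ ^ 4) := by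
        apply mul_le_mul_of_nonneg_left h13
        positivity
      refine h15.trans ?_
      rw [hBn]
      have h16 : 4 / α ^ 2 * (35 * (α * ‖v‖ / 2) ^ 4) = 35 / 4 * (α ^ 2 * ‖v‖ ^ 4) := by
        field_simp
        ring
      rw [h16]
      have h17 : α ^ 2 * ‖v‖ ^ 4 ≤ 6 * η * ‖v‖ ^ 4 := by
        apply mul_le_mul_of_nonneg_right hη2
        positivity
      have h18 : 0 ≤ η * ‖v‖ ^ 4 := by positivity
      have h19 : 0 ≤ (1 + V) ^ 2 * (η * ‖v‖ ^ 4) := by positivity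
      nlinarith
    · intro v hv
      have hv2 : starRingEnd ℂ v ∈ ball (0 : ℂ) V := by
        rw [mem_ball_zero_iff] at hv ⊢
        rwa [Complex.norm_conj]
      have h1 := hP v hv
      have h2 := (hP _ hv2).conj_conj
      rw [Complex.conj_conj] at h2
      have h3 := (h1.fun_add h2).div_const 2
      have h4 : (3 * e v + starRingEnd ℂ (3 * e (starRingEnd ℂ v))) / 2 = 3 * e v := by
        rw [heconj, map_mul, Complex.conj_conj, map_ofNat]
        ring
      rw [h4] at h3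
      exact h3
    · simp [Pi, hP0]
    · intro x
      rw [hrem]; exact Complex.ofReal_im _
    · intro x
      rw [hree]; exact Complex.ofReal_im _
    · intro x
      simp only [Pi, Complex.conj_ofReal]
      rw [Complex.add_conj]
      simp
  · intro v _
    rw [hrem, Complex.ofReal_re]
  · intro v hv
    rw [hrem, hree, Complex.ofReal_re, Complex.ofReal_re]
    have hv' : ‖(v : ℂ)‖ ≤ V := by
      rw [Complex.norm_real, Real.norm_eq_abs]; exact hv.le
    obtain ⟨h1, h2, h3, -⟩ := harg v hv'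
    have hcA : Real.cos (α / 2) ≠ 0 := by
      have h := hcne _ hA8
      intro h'
      apply h
      rw [← Complex.ofReal_ofNat, ← Complex.ofReal_div, ← Complex.ofReal_cos, h',
        Complex.ofReal_zero]
    have hcm : Real.cos (α * (1 - v) / 2) ≠ 0 := by
      have h := hcne _ h1
      intro h'
      apply h
      have : (α : ℂ) * (1 - (v : ℂ)) / 2 = ((α * (1 - v) / 2 : ℝ) : ℂ) := by push_cast; rfl
      rw [this, ← Complex.ofReal_cos, h', Complex.ofReal_zero]
    have hcp : Real.cos (α * (1 + v) / 2) ≠ 0 := by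
      have h := hcne _ h2
      intro h'
      apply h
      have : (α : ℂ) * (1 + (v : ℂ)) / 2 = ((α * (1 + v) / 2 : ℝ) : ℂ) := by push_cast; rfl
      rw [this, ← Complex.ofReal_cos, h', Complex.ofReal_zero]
    have e1 : α * (1 + v) / 2 = α / 2 + α * v / 2 := by ring
    have e2 : α * (1 - v) / 2 = α / 2 - α * v / 2 := by ring
    rw [e1] at hcp ⊢
    rw [e2] at hcm ⊢
    set A := α / 2 with hA
    set B := α * v / 2 with hB
    have hprod : Real.cos (A + B) * Real.cos (A - B) = Real.cos A ^ 2 - Real.sin B ^ 2 := by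
      rw [Real.cos_add, Real.cos_sub]
      have h1 := Real.sin_sq_add_cos_sq A
      have h2 := Real.sin_sq_add_cos_sq B
      linear_combination (Real.cos A ^ 2) * h2 - (Real.sin B ^ 2) * h1
    have hDr : Real.cos A ^ 2 - Real.sin B ^ 2 ≠ 0 := by
      rw [← hprod]; exact mul_ne_zero hcp hcm
    have htt : Real.tan (A + B) + Real.tan (A - B) - 2 * Real.tan A =
        2 * Real.tan A * Real.sin B ^ 2 / (Real.cos A ^ 2 - Real.sin B ^ 2) := by
      rw [← hprod, Real.tan_eq_sin_div_cos, Real.tan_eq_sin_div_cos, Real.tan_eq_sin_div_cos]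
      field_simp
      rw [Real.sin_add, Real.sin_sub, Real.cos_add, Real.cos_sub]
      have h1 := Real.sin_sq_add_cos_sq A
      have h2 := Real.sin_sq_add_cos_sq B
      ring_nf
      have hs : Real.sin B ^ 2 = 1 - Real.cos B ^ 2 := by linarith
      have hs2 : Real.sin A ^ 2 = 1 - Real.cos A ^ 2 := by linarith
      have hs3 : Real.sin A ^ 3 = Real.sin A * (1 - Real.cos A ^ 2) := by
        rw [← hs2]; ring
      simp only [hs, hs3]
      ring
    have h3η : 3 * η * ((4 / α ^ 2) * Real.cos A ^ 2 * Real.sin B ^ 2 /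
        (Real.cos A ^ 2 - Real.sin B ^ 2)) = (2 / α) *
        (2 * Real.tan A * Real.sin B ^ 2 / (Real.cos A ^ 2 - Real.sin B ^ 2)) := by
      rw [hη]
      field_simp
      ring
    rw [h3η, ← htt]
    ring

end TC
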