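import Mathlib
import Pool.Agent.Helper822.TC.Defs2

set_option autoImplicit false

open Set Filter Topology Metric

namespace TC





theorem w_le (y z : ℝ) : Real.exp (-|y|) ≤ Real.exp |y - z| * Real.exp (-|z|) := by
  rw [← Real.exp_add]
  apply Real.exp_le_exp.2
  have := abs_sub_abs_le_abs_sub z y
  rw [abs_sub_comm] at this
  linarith

theorem mvt_bd (f f' : ℝ → ℝ) (hf : ∀ x, HasDerivAt f (f' x) x) (a b B : ℝ)
    (hB : ∀ y, |y - a| ≤ |b - a| → |f' y| ≤ B) : |f b - f a| ≤ B * |b - a| := by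
  have h := Convex.norm_image_sub_le_of_norm_hasDerivWithin_le (f := f) (f' := f') (C := B)
    (s := Metric.closedBall a |b - a|) (x := a) (y := b)
    (fun x _ => (hf x).hasDerivWithinAt)
    (fun x hx => by
      rw [Metric.mem_closedBall, Real.dist_eq] at hx
      exact hB x hx)
    (convex_closedBall _ _) (Metric.mem_closedBall_self (abs_nonneg _))
    (by rw [Metric.mem_closedBall, Real.dist_eq])
  exact h

theorem abs_mul_le {x y A B : ℝ} (hx : |x| ≤ A) (hy : |y| ≤ B) : |x * y| ≤ A * B := by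
  rw [abs_mul]
  exact mul_le_mul hx hy (abs_nonneg _) ((abs_nonneg _).trans hx)

theorem alg1 {L ε W B b v1 : ℝ} (hB : |B| ≤ L * W) (hBb : |B - b| ≤ L * ε * W ^ 2)
    (hv : |v1 - 1| ≤ ε * W) : |B * v1 - b| ≤ 2 * L * ε * W ^ 2 := by
  have e : B * v1 - b = B * (v1 - 1) + (B - b) := by ring
  rw [e]
  have h1 := abs_mul_le hB hv
  calc |B * (v1 - 1) + (B - b)| ≤ |B * (v1 - 1)| + |B - b| := abs_add_le _ _
    _ ≤ L * W * (ε * W) + L * ε * W ^ 2 := add_le_add h1 hBb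
    _ = 2 * L * ε * W ^ 2 := by ring

theorem alg2 {L ε W a a2 B B2 b b2 v1 v2 : ℝ} (ha : |a| ≤ L * W) (ha2 : |a2| ≤ L * W)
    (hB : |B| ≤ L * W) (hB2 : |B2| ≤ L * W) (hBb : |B - b| ≤ L * ε * W ^ 2)
    (hBb2 : |B2 - b2| ≤ L * ε * W ^ 2) (hv : |v1 - 1| ≤ ε * W) (hv2 : |v2| ≤ ε * W)
    (hv3 : |v1 + 1| ≤ 3) :
    |((B2 * v1 * v1 + B * v2) * a - B * v1 * a2) - (b2 * a - b * a2)| ≤ 7 * L ^ 2 * ε * W ^ 3 := by
  have h1 := alg1 hB hBb hv
  have h2 : |B2 * v1 * v1 + B * v2 - b2| ≤ 5 * L * ε * W ^ 2 := by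
    have e : B2 * v1 * v1 + B * v2 - b2 = B2 * ((v1 - 1) * (v1 + 1)) + (B2 - b2) + B * v2 := by ring
    rw [e]
    calc |B2 * ((v1 - 1) * (v1 + 1)) + (B2 - b2) + B * v2|
        ≤ |B2 * ((v1 - 1) * (v1 + 1)) + (B2 - b2)| + |B * v2| := abs_add_le _ _
      _ ≤ |B2 * ((v1 - 1) * (v1 + 1))| + |B2 - b2| + |B * v2| :=
          add_le_add_left (abs_add_le _ _) _
      _ ≤ L * W * (ε * W * 3) + L * ε * W ^ 2 + L * W * (ε * W) :=
          add_le_add (add_le_add (abs_mul_le hB2 (abs_mul_le hv hv3)) hBb2) (abs_mul_le hB hv2)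
      _ = 5 * L * ε * W ^ 2 := by ring
  have e : ((B2 * v1 * v1 + B * v2) * a - B * v1 * a2) - (b2 * a - b * a2) =
      (B2 * v1 * v1 + B * v2 - b2) * a - (B * v1 - b) * a2 := by ring
  rw [e]
  calc |(B2 * v1 * v1 + B * v2 - b2) * a - (B * v1 - b) * a2|
      ≤ |(B2 * v1 * v1 + B * v2 - b2) * a| + |(B * v1 - b) * a2| := abs_sub _ _
    _ ≤ 5 * L * ε * W ^ 2 * (L * W) + 2 * L * ε * W ^ 2 * (L * W) :=
        add_le_add (abs_mul_le h2 ha) (abs_mul_le h1 ha2)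
    _ = 7 * L ^ 2 * ε * W ^ 3 := by ring

theorem alg3 {P P0 Q Q0 xu x1 x0 A B L R S ε c1 : ℝ} (hε0 : 0 ≤ ε) (hε : ε ≤ 1) (hA : 0 ≤ A)
    (hP : |P - P0| ≤ A * ε) (hQ : |Q - Q0| ≤ B * ε) (hx : |xu - x1| ≤ L * ε) (hP0 : |P0| ≤ R)
    (hQ0 : |Q0| ≤ S) (h2 : |1 + xu - x0| ≤ 2)
    (h : c1 ≤ 2 * P0 * (1 + P0) - (1 + x1 - x0) * Q0) :
    c1 - (2 * A * (1 + 2 * R + A) + 2 * B + L * S) * ε ≤ 2 * P * (1 + P) - (1 + xu - x0) * Q := by
  have h3 : |1 + P + P0| ≤ 1 + 2 * R + A := by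
    have e : 1 + P + P0 = 1 + (P - P0) + 2 * P0 := by ring
    rw [e]
    have h4 : A * ε ≤ A := by
      calc A * ε ≤ A * 1 := mul_le_mul_of_nonneg_left hε hA
        _ = A := mul_one _
    calc |1 + (P - P0) + 2 * P0| ≤ |1 + (P - P0)| + |2 * P0| := abs_add_le _ _
      _ ≤ |(1 : ℝ)| + |P - P0| + |2 * P0| := add_le_add_left (abs_add_le _ _) _
      _ ≤ 1 + A * ε + 2 * R := by
          refine add_le_add (add_le_add (by rw [abs_one]) hP) ?_
          rw [abs_mul, abs_two]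
          linarith
      _ ≤ 1 + 2 * R + A := by linarith
  have h5 := (abs_le.1 (abs_mul_le hP h3)).1
  have h6 := (abs_le.1 (abs_mul_le h2 hQ)).2
  have h7 := (abs_le.1 (abs_mul_le hx hQ0)).2
  have e : 2 * P * (1 + P) - (1 + xu - x0) * Q = 2 * P0 * (1 + P0) - (1 + x1 - x0) * Q0 +
      2 * ((P - P0) * (1 + P + P0)) - (1 + xu - x0) * (Q - Q0) - (xu - x1) * Q0 := by ring
  rw [e]
  linarith

theorem inv_exists (X X1 : ℝ → ℝ) (d1 : ∀ z, HasDerivAt X (X1 z) z) (pos : ∀ z, 0 < X1 z)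
    (lim0 : Tendsto X atBot (𝓝 0)) (lim1 : Tendsto X atTop (𝓝 1)) :
    (∀ z, X z ∈ Ioo (0:ℝ) 1) ∧ ∃ Z : ℝ → ℝ, (∀ x ∈ Ioo (0:ℝ) 1, X (Z x) = x) ∧
      (∀ z, Z (X z) = z) ∧ (∀ x ∈ Ioo (0:ℝ) 1, HasDerivAt Z (X1 (Z x))⁻¹ x) ∧
      Tendsto Z (𝓝[>] 0) atBot ∧ Tendsto Z (𝓝[<] 1) atTop := by
  have hmono : StrictMono X := strictMono_of_deriv_pos fun z => by
    rw [(d1 z).deriv]
    exact pos z
  have hcont : Continuous X := continuous_iff_continuousAt.2 fun z => (d1 z).continuousAt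
  have hmem : ∀ z, X z ∈ Ioo (0:ℝ) 1 := by
    intro z
    constructor
    · have h1 := hmono.monotone.le_of_tendsto lim0 (z - 1)
      have h2 : X (z - 1) < X z := hmono (by linarith)
      linarith
    · have h1 := hmono.monotone.ge_of_tendsto lim1 (z + 1)
      have h2 : X z < X (z + 1) := hmono (by linarith)
      linarith
  have hsurj : ∀ x : ℝ, ∃ z, x ∈ Ioo (0:ℝ) 1 → X z = x := by
    intro x
    by_cases hx : x ∈ Ioo (0:ℝ) 1
    · obtain ⟨a, ha⟩ := (lim0.eventually (gt_mem_nhds hx.1)).exists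
      obtain ⟨b, hb⟩ := (lim1.eventually (lt_mem_nhds hx.2)).exists
      obtain ⟨z, hz⟩ := mem_range_of_exists_le_of_exists_ge hcont ⟨a, ha.le⟩ ⟨b, hb.le⟩
      exact ⟨z, fun _ => hz⟩
    · exact ⟨0, fun h => absurd h hx⟩
  choose Z hZ using hsurj
  have hZX : ∀ z, Z (X z) = z := fun z => hmono.injective (hZ _ (hmem z))
  have hZc : ∀ x ∈ Ioo (0:ℝ) 1, ContinuousAt Z x := by
    intro x hx
    rw [Metric.continuousAt_iff']
    intro η hη
    have h1 : X (Z x - η) < x := by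
      conv_rhs => rw [← hZ x hx]
      exact hmono (by linarith)
    have h2 : x < X (Z x + η) := by
      conv_lhs => rw [← hZ x hx]
      exact hmono (by linarith)
    filter_upwards [lt_mem_nhds h1, gt_mem_nhds h2, isOpen_Ioo.mem_nhds hx] with y hy1 hy2 hy3
    have h3 : Z x - η < Z y := hmono.lt_iff_lt.1 (by rw [hZ y hy3]; exact hy1)
    have h4 : Z y < Z x + η := hmono.lt_iff_lt.1 (by rw [hZ y hy3]; exact hy2)
    rw [Real.dist_eq, abs_lt]
    constructor <;> linarith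
  refine ⟨hmem, Z, hZ, hZX, ?_, ?_, ?_⟩
  · intro x hx
    refine HasDerivAt.of_local_left_inverse (hZc x hx) (d1 (Z x)) (pos _).ne' ?_
    filter_upwards [isOpen_Ioo.mem_nhds hx] with y hy
    exact hZ y hy
  · rw [tendsto_atBot]
    intro b
    filter_upwards [Ioo_mem_nhdsGT (hmem b).1] with x hx
    have hx' : x ∈ Ioo (0:ℝ) 1 := ⟨hx.1, hx.2.trans (hmem b).2⟩
    refine (hmono.lt_iff_lt.1 ?_).le
    rw [hZ x hx']
    exact hx.2
  · rw [Filter.tendsto_atTop]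
    intro b
    filter_upwards [Ioo_mem_nhdsLT (hmem b).2] with x hx
    have hx' : x ∈ Ioo (0:ℝ) 1 := ⟨(hmem b).1.trans hx.1, hx.2⟩
    refine (hmono.lt_iff_lt.1 ?_).le
    rw [hZ x hx']
    exact hx.1

/-- everything except the estimates -/
theorem build (X X1 X2 : ℝ → ℝ) (d1 : ∀ z, HasDerivAt X (X1 z) z)
    (d2 : ∀ z, HasDerivAt X1 (X2 z) z) (pos : ∀ z, 0 < X1 z)
    (lim0 : Tendsto X atBot (𝓝 0)) (lim1 : Tendsto X atTop (𝓝 1)) (u u1 u2 : ℝ → ℝ)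
    (e1 : ∀ z, HasDerivAt u (u1 z) z) (e2 : ∀ z, HasDerivAt u1 (u2 z) z)
    (t0 : Tendsto u atBot atBot) (t1 : Tendsto u atTop atTop) (c M l0 l1 : ℝ) (hc : 0 < c)
    (pl : ∀ z, c ≤ X1 (u z) * u1 z / X1 z) (pu : ∀ z, X1 (u z) * u1 z / X1 z ≤ M)
    (qu : ∀ z, |((X2 (u z) * u1 z * u1 z + X1 (u z) * u2 z) * X1 z - X1 (u z) * u1 z * X2 z) /
      X1 z ^ 3| ≤ M)
    (conv : ∀ z, c ≤ 2 * (X1 (u z) * u1 z / X1 z) * (1 + X1 (u z) * u1 z / X1 z) -
      (1 + X (u z) - X z) * (((X2 (u z) * u1 z * u1 z + X1 (u z) * u2 z) * X1 z -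
        X1 (u z) * u1 z * X2 z) / X1 z ^ 3))
    (m0 : Tendsto (fun z => X1 (u z) * u1 z / X1 z) atBot (𝓝 l0))
    (m1 : Tendsto (fun z => X1 (u z) * u1 z / X1 z) atTop (𝓝 l1)) :
    ∃ F p q : ℝ → ℝ, Adm c M l0 l1 F p q ∧ ∀ z, F (X z) = X (u z) := by
  classical
  obtain ⟨hmem, Z, hZ, hZX, hZd, hZ0, hZ1⟩ := inv_exists X X1 d1 pos lim0 lim1
  obtain ⟨F, hF⟩ : ∃ F : ℝ → ℝ, F = fun x => if x ≤ 0 then 0 else if 1 ≤ x then 1 else
    X (u (Z x)) := ⟨_, rfl⟩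
  have hFin : ∀ x ∈ Ioo (0:ℝ) 1, F x = X (u (Z x)) := by
    intro x hx
    rw [hF]
    simp only [if_neg (not_le.2 hx.1), if_neg (not_le.2 hx.2)]
  have hF0 : F 0 = 0 := by rw [hF]; simp
  have hF1 : F 1 = 1 := by rw [hF]; simp
  have hFd : ∀ x ∈ Ioo (0:ℝ) 1, HasDerivAt F (X1 (u (Z x)) * u1 (Z x) / X1 (Z x)) x := by
    intro x hx
    have h1 := ((d1 (u (Z x))).comp (Z x) (e1 (Z x))).comp x (hZd x hx)
    have h2 : F =ᶠ[𝓝 x] (X ∘ u) ∘ Z := by
      filter_upwards [isOpen_Ioo.mem_nhds hx] with y hy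
      exact hFin y hy
    exact (h1.congr_of_eventuallyEq h2).congr_deriv (by rw [div_eq_mul_inv])
  refine ⟨F, fun x => X1 (u (Z x)) * u1 (Z x) / X1 (Z x), fun x =>
    ((X2 (u (Z x)) * u1 (Z x) * u1 (Z x) + X1 (u (Z x)) * u2 (Z x)) * X1 (Z x) -
      X1 (u (Z x)) * u1 (Z x) * X2 (Z x)) / X1 (Z x) ^ 3, ?_, ?_⟩
  · refine ⟨hc, ?_, hF0, hF1, hFd, ?_, fun x _ => pl _, fun x _ => pu _, fun x _ => qu _, ?_,
      m0.comp hZ0, m1.comp hZ1⟩
    · intro x hx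
      rcases eq_or_lt_of_le hx.1 with h0 | h0
      · subst h0
        have h1 : ContinuousWithinAt F (Ioi 0) 0 := by
          unfold ContinuousWithinAt
          rw [hF0]
          have h2 : Tendsto (fun x => X (u (Z x))) (𝓝[>] 0) (𝓝 0) := lim0.comp (t0.comp hZ0)
          refine h2.congr' ?_
          filter_upwards [Ioo_mem_nhdsGT (zero_lt_one' ℝ)] with y hy
          exact (hFin y hy).symm
        exact (continuousWithinAt_Ioi_iff_Ici.1 h1).mono fun y hy => hy.1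
      · rcases eq_or_lt_of_le hx.2 with h1 | h1
        · subst h1
          have h1 : ContinuousWithinAt F (Iio 1) 1 := by
            unfold ContinuousWithinAt
            rw [hF1]
            have h2 : Tendsto (fun x => X (u (Z x))) (𝓝[<] 1) (𝓝 1) := lim1.comp (t1.comp hZ1)
            refine h2.congr' ?_
            filter_upwards [Ioo_mem_nhdsLT (zero_lt_one' ℝ)] with y hy
            exact (hFin y hy).symm
          exact (continuousWithinAt_Iio_iff_Iic.1 h1).mono fun y hy => hy.2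
        · exact (hFd x ⟨h0, h1⟩).continuousAt.continuousWithinAt
    · intro x hx
      have hne := (pos (Z x)).ne'
      have h1 := (((d2 (u (Z x))).comp (Z x) (e1 (Z x))).mul (e2 (Z x))).div (d2 (Z x)) hne
      have h2 := h1.comp x (hZd x hx)
      refine h2.congr_deriv ?_
      simp only [Function.comp_apply, Pi.mul_apply]
      field_simp
    · intro x hx
      have h1 := conv (Z x)
      rw [hZ x hx] at h1
      rw [hFin x hx]
      exact h1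
  · intro z
    rw [hFin _ (hmem z), hZX]

-- NOTE: the hypothesis `nb` was added by the prover (needed for the bound of `q`).
theorem xlev (κ c M l0 l1 : ℝ) (X X1 X2 : ℝ → ℝ) (hc : 0 < c)
    (d1 : ∀ z, HasDerivAt X (X1 z) z) (d2 : ∀ z, HasDerivAt X1 (X2 z) z)
    (lo1 : ∀ z, c * Real.exp (-|z|) ≤ X1 z) (up1 : ∀ z, X1 z ≤ M * Real.exp (-|z|))
    (up2 : ∀ z, |X2 z| ≤ M * Real.exp (-|z|))
    (lip2 : ∀ z w, |z - w| ≤ 1 → |X2 z - X2 w| ≤ M * Real.exp (-|z|) * |z - w|)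
    (lim0 : Tendsto X atBot (𝓝 0)) (lim1 : Tendsto X atTop (𝓝 1))
    (conv : ∀ z, c * Real.exp (-|z|) ^ 3 ≤ 2 * X1 (z + κ) * (X1 z + X1 (z + κ)) * X1 z
      - (1 + X (z + κ) - X z) * (X2 (z + κ) * X1 z - X1 (z + κ) * X2 z))
    (nb : ∀ z, |X2 (z + κ) * X1 z - X1 (z + κ) * X2 z| ≤ M * Real.exp (-|z|) ^ 3)
    (m0 : Tendsto (fun z => X1 (z + κ) / X1 z) atBot (𝓝 l0))
    (m1 : Tendsto (fun z => X1 (z + κ) / X1 z) atTop (𝓝 l1)) :
    ∃ ε₀ > 0, ∃ c' > 0, ∃ M' : ℝ, ∀ ε, 0 ≤ ε → ε ≤ ε₀ → ∀ u : ℝ → ℝ, Near κ ε u →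
      ∃ F p q : ℝ → ℝ, Adm c' M' l0 l1 F p q ∧ ∀ z, F (X z) = X (u z) := by
  have hw0 : ∀ z : ℝ, 0 < Real.exp (-|z|) := fun z => Real.exp_pos _
  have hw1 : ∀ z : ℝ, Real.exp (-|z|) ≤ 1 := fun z => by
    rw [Real.exp_le_one_iff]
    linarith [abs_nonneg z]
  have pos : ∀ z, 0 < X1 z := fun z => (mul_pos hc (hw0 z)).trans_le (lo1 z)
  have hM : 0 < M := by
    have h1 := (pos 0).trans_le (up1 0)
    simpa using h1
  obtain ⟨hmem, -⟩ := inv_exists X X1 d1 pos lim0 lim1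
  obtain ⟨K, hK⟩ : ∃ K, K = Real.exp |κ| := ⟨_, rfl⟩
  have hK1 : 1 ≤ K := by
    rw [hK]
    exact Real.one_le_exp (abs_nonneg _)
  have hwκ : ∀ z, Real.exp (-|z + κ|) ≤ K * Real.exp (-|z|) := by
    intro z
    have h1 := w_le (z + κ) z
    rw [add_sub_cancel_left, ← hK] at h1
    exact h1
  have hwκ' : ∀ z, Real.exp (-|z|) ≤ K * Real.exp (-|z + κ|) := by
    intro z
    have h1 := w_le z (z + κ)
    rw [sub_add_cancel_left, abs_neg, ← hK] at h1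
    exact h1
  obtain ⟨L, hL⟩ : ∃ L, L = M * (Real.exp 1 * K) := ⟨_, rfl⟩
  have hexp1 : 1 ≤ Real.exp 1 := Real.one_le_exp zero_le_one
  have hL0 : 0 < L := by
    rw [hL]
    positivity
  have hML : M ≤ L := by
    rw [hL]
    have h1 : 1 ≤ Real.exp 1 * K := one_le_mul_of_one_le_of_one_le hexp1 hK1
    calc M = M * 1 := (mul_one _).symm
      _ ≤ M * (Real.exp 1 * K) := mul_le_mul_of_nonneg_left h1 hM.le
  have hLz : ∀ z, M * Real.exp (-|z|) ≤ L * Real.exp (-|z|) := fun z =>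
    mul_le_mul_of_nonneg_right hML (hw0 z).le
  have hLy : ∀ z y, |y - (z + κ)| ≤ 1 → M * Real.exp (-|y|) ≤ L * Real.exp (-|z|) := by
    intro z y hy
    have h1 := w_le y (z + κ)
    have h2 : Real.exp |y - (z + κ)| ≤ Real.exp 1 := Real.exp_le_exp.2 hy
    have h3 : Real.exp (-|y|) ≤ Real.exp 1 * (K * Real.exp (-|z|)) :=
      h1.trans (mul_le_mul h2 (hwκ z) (hw0 _).le (Real.exp_pos _).le)
    calc M * Real.exp (-|y|) ≤ M * (Real.exp 1 * (K * Real.exp (-|z|))) :=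
          mul_le_mul_of_nonneg_left h3 hM.le
      _ = L * Real.exp (-|z|) := by
          rw [hL]
          ring
  have hX1 : ∀ z, |X1 z| ≤ M * Real.exp (-|z|) := fun z => by
    rw [abs_of_pos (pos z)]
    exact up1 z
  -- lower bound of P0
  obtain ⟨p0, hp0⟩ : ∃ p0, p0 = c / (M * K) := ⟨_, rfl⟩
  have hp0pos : 0 < p0 := by
    rw [hp0]
    positivity
  have hP0lo : ∀ z, p0 ≤ X1 (z + κ) / X1 z := by
    intro z
    rw [le_div_iff₀ (pos z)]
    calc p0 * X1 z ≤ p0 * (M * Real.exp (-|z|)) := mul_le_mul_of_nonneg_left (up1 z) hp0pos.le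
      _ ≤ p0 * (M * (K * Real.exp (-|z + κ|))) :=
          mul_le_mul_of_nonneg_left (mul_le_mul_of_nonneg_left (hwκ' z) hM.le) hp0pos.le
      _ = c * Real.exp (-|z + κ|) := by
          rw [hp0]
          field_simp
      _ ≤ X1 (z + κ) := lo1 _
  have hP0hi : ∀ z, |X1 (z + κ) / X1 z| ≤ L / c := by
    intro z
    rw [abs_div, abs_of_pos (pos z), div_le_div_iff₀ (pos z) hc]
    have h1 : |X1 (z + κ)| ≤ L * Real.exp (-|z|) :=
      (hX1 _).trans (hLy z (z + κ) (by simp))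
    calc |X1 (z + κ)| * c ≤ L * Real.exp (-|z|) * c := mul_le_mul_of_nonneg_right h1 hc.le
      _ = L * (c * Real.exp (-|z|)) := by ring
      _ ≤ L * X1 z := mul_le_mul_of_nonneg_left (lo1 z) hL0.le
  have hcub : ∀ z, c ^ 3 * Real.exp (-|z|) ^ 3 ≤ X1 z ^ 3 := by
    intro z
    rw [← mul_pow]
    exact pow_le_pow_left₀ (mul_pos hc (hw0 z)).le (lo1 z) 3
  have hcub2 : ∀ z, X1 z ^ 3 ≤ M ^ 3 * Real.exp (-|z|) ^ 3 := by
    intro z
    rw [← mul_pow]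
    exact pow_le_pow_left₀ (pos z).le (up1 z) 3
  have hQ0 : ∀ z, |(X2 (z + κ) * X1 z - X1 (z + κ) * X2 z) / X1 z ^ 3| ≤ M / c ^ 3 := by
    intro z
    have h3 : 0 < X1 z ^ 3 := pow_pos (pos z) 3
    rw [abs_div, abs_of_pos h3, div_le_div_iff₀ h3 (by positivity)]
    calc |X2 (z + κ) * X1 z - X1 (z + κ) * X2 z| * c ^ 3 ≤ M * Real.exp (-|z|) ^ 3 * c ^ 3 :=
          mul_le_mul_of_nonneg_right (nb z) (by positivity)
      _ = M * (c ^ 3 * Real.exp (-|z|) ^ 3) := by ring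
      _ ≤ M * X1 z ^ 3 := mul_le_mul_of_nonneg_left (hcub z) hM.le
  have hconv0 : ∀ z, c / M ^ 3 ≤ 2 * (X1 (z + κ) / X1 z) * (1 + X1 (z + κ) / X1 z) -
      (1 + X (z + κ) - X z) * ((X2 (z + κ) * X1 z - X1 (z + κ) * X2 z) / X1 z ^ 3) := by
    intro z
    have h3 : 0 < X1 z ^ 3 := pow_pos (pos z) 3
    have hne := (pos z).ne'
    have e : 2 * (X1 (z + κ) / X1 z) * (1 + X1 (z + κ) / X1 z) -
        (1 + X (z + κ) - X z) * ((X2 (z + κ) * X1 z - X1 (z + κ) * X2 z) / X1 z ^ 3) =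
        (2 * X1 (z + κ) * (X1 z + X1 (z + κ)) * X1 z
      - (1 + X (z + κ) - X z) * (X2 (z + κ) * X1 z - X1 (z + κ) * X2 z)) / X1 z ^ 3 := by
      field_simp
    rw [e, div_le_div_iff₀ (by positivity) h3]
    calc c * X1 z ^ 3 ≤ c * (M ^ 3 * Real.exp (-|z|) ^ 3) :=
          mul_le_mul_of_nonneg_left (hcub2 z) hc.le
      _ = c * Real.exp (-|z|) ^ 3 * M ^ 3 := by ring
      _ ≤ _ := mul_le_mul_of_nonneg_right (conv z) (by positivity)
  obtain ⟨C3, hC3⟩ : ∃ C3, C3 = 2 * (2 * L / c) * (1 + 2 * (L / c) + 2 * L / c) +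
    2 * (7 * L ^ 2 / c ^ 3) + L * (M / c ^ 3) := ⟨_, rfl⟩
  have hC3pos : 0 < C3 := by
    rw [hC3]
    positivity
  obtain ⟨ε₀, hε₀⟩ : ∃ ε₀, ε₀ = min (1 / 2) (min (c / M ^ 3 / (2 * C3)) (p0 * c / (4 * L))) :=
    ⟨_, rfl⟩
  have h01 : ε₀ ≤ 1 / 2 := by
    rw [hε₀]
    exact min_le_left _ _
  have h02 : ε₀ ≤ c / M ^ 3 / (2 * C3) := by
    rw [hε₀]
    exact (min_le_right _ _).trans (min_le_left _ _)
  have h03 : ε₀ ≤ p0 * c / (4 * L) := by
    rw [hε₀]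
    exact (min_le_right _ _).trans (min_le_right _ _)
  refine ⟨ε₀, ?_, min (c / M ^ 3 / 2) (p0 / 2), ?_,
    max (3 * L / c) (M / c ^ 3 + 7 * L ^ 2 / c ^ 3), ?_⟩
  · rw [hε₀]
    refine lt_min (by norm_num) (lt_min ?_ ?_) <;> positivity
  · refine lt_min ?_ ?_ <;> positivity
  intro ε hε0 hε u ⟨u1, u2, e1, e2, n0, n1, n2⟩
  have hε2 : ε ≤ 1 / 2 := hε.trans h01
  have hεw : ∀ z, ε * Real.exp (-|z|) ≤ 1 / 2 := by
    intro z
    calc ε * Real.exp (-|z|) ≤ ε * 1 := mul_le_mul_of_nonneg_left (hw1 z) hε0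
      _ ≤ 1 / 2 := by linarith
  have hu : ∀ z, |u z - (z + κ)| ≤ ε * Real.exp (-|z|) := by
    intro z
    have := n0 z
    rwa [sub_sub] at this
  have hu1 : ∀ z, |u z - (z + κ)| ≤ 1 := fun z => (hu z).trans ((hεw z).trans (by norm_num))
  -- bounds at `u z`
  have bB : ∀ z, |X1 (u z)| ≤ L * Real.exp (-|z|) := fun z => (hX1 _).trans (hLy z _ (hu1 z))
  have bB2 : ∀ z, |X2 (u z)| ≤ L * Real.exp (-|z|) := fun z => (up2 _).trans (hLy z _ (hu1 z))
  have ba : ∀ z, |X1 z| ≤ L * Real.exp (-|z|) := fun z => (hX1 _).trans (hLz z)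
  have ba2 : ∀ z, |X2 z| ≤ L * Real.exp (-|z|) := fun z => (up2 _).trans (hLz z)
  have dB : ∀ z, |X1 (u z) - X1 (z + κ)| ≤ L * ε * Real.exp (-|z|) ^ 2 := by
    intro z
    have h1 := mvt_bd X1 X2 d2 (z + κ) (u z) (L * Real.exp (-|z|)) (fun y hy =>
      (up2 y).trans (hLy z y (hy.trans (hu1 z))))
    refine h1.trans ?_
    calc L * Real.exp (-|z|) * |u z - (z + κ)| ≤ L * Real.exp (-|z|) * (ε * Real.exp (-|z|)) :=
          mul_le_mul_of_nonneg_left (hu z) (by positivity)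
      _ = L * ε * Real.exp (-|z|) ^ 2 := by ring
  have dX : ∀ z, |X (u z) - X (z + κ)| ≤ L * ε := by
    intro z
    have h1 := mvt_bd X X1 d1 (z + κ) (u z) (L * Real.exp (-|z|)) (fun y hy =>
      (hX1 y).trans (hLy z y (hy.trans (hu1 z))))
    refine h1.trans ?_
    calc L * Real.exp (-|z|) * |u z - (z + κ)| ≤ L * Real.exp (-|z|) * (ε * Real.exp (-|z|)) :=
          mul_le_mul_of_nonneg_left (hu z) (by positivity)
      _ = L * ε * (Real.exp (-|z|) * Real.exp (-|z|)) := by ring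
      _ ≤ L * ε * 1 := mul_le_mul_of_nonneg_left
          (mul_le_one₀ (hw1 z) (hw0 z).le (hw1 z)) (by positivity)
      _ = L * ε := mul_one _
  have dB2 : ∀ z, |X2 (u z) - X2 (z + κ)| ≤ L * ε * Real.exp (-|z|) ^ 2 := by
    intro z
    have h1 := lip2 (z + κ) (u z) (by rw [abs_sub_comm]; exact hu1 z)
    rw [abs_sub_comm, abs_sub_comm (z + κ)] at h1
    refine h1.trans ?_
    calc M * Real.exp (-|z + κ|) * |u z - (z + κ)| ≤ L * Real.exp (-|z|) * (ε * Real.exp (-|z|)) :=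
          mul_le_mul (hLy z (z + κ) (by simp)) (hu z) (abs_nonneg _) (by positivity)
      _ = L * ε * Real.exp (-|z|) ^ 2 := by ring
  have hv3 : ∀ z, |u1 z + 1| ≤ 3 := by
    intro z
    have h1 := (n1 z).trans (hεw z)
    rw [abs_le] at h1 ⊢
    constructor <;> linarith [h1.1, h1.2]
  -- P - P0 and Q - Q0
  have dP : ∀ z, |X1 (u z) * u1 z / X1 z - X1 (z + κ) / X1 z| ≤
      2 * L / c * ε * Real.exp (-|z|) := by
    intro z
    rw [← sub_div, abs_div, abs_of_pos (pos z), div_le_iff₀ (pos z)]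
    refine (alg1 (bB z) (dB z) (n1 z)).trans ?_
    calc 2 * L * ε * Real.exp (-|z|) ^ 2 =
          2 * L / c * ε * Real.exp (-|z|) * (c * Real.exp (-|z|)) := by
          field_simp
      _ ≤ 2 * L / c * ε * Real.exp (-|z|) * X1 z :=
          mul_le_mul_of_nonneg_left (lo1 z) (by positivity)
  have dP' : ∀ z, |X1 (u z) * u1 z / X1 z - X1 (z + κ) / X1 z| ≤ 2 * L / c * ε := by
    intro z
    refine (dP z).trans ?_
    calc 2 * L / c * ε * Real.exp (-|z|) ≤ 2 * L / c * ε * 1 :=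
          mul_le_mul_of_nonneg_left (hw1 z) (by positivity)
      _ = 2 * L / c * ε := mul_one _
  have dQ : ∀ z, |((X2 (u z) * u1 z * u1 z + X1 (u z) * u2 z) * X1 z - X1 (u z) * u1 z * X2 z) /
      X1 z ^ 3 - (X2 (z + κ) * X1 z - X1 (z + κ) * X2 z) / X1 z ^ 3| ≤ 7 * L ^ 2 / c ^ 3 * ε := by
    intro z
    have h3 : 0 < X1 z ^ 3 := pow_pos (pos z) 3
    rw [← sub_div, abs_div, abs_of_pos h3, div_le_iff₀ h3]
    refine (alg2 (ba z) (ba2 z) (bB z) (bB2 z) (dB z) (dB2 z) (n1 z) (n2 z) (hv3 z)).trans ?_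
    calc 7 * L ^ 2 * ε * Real.exp (-|z|) ^ 3 =
          7 * L ^ 2 / c ^ 3 * ε * (c ^ 3 * Real.exp (-|z|) ^ 3) := by
          field_simp
      _ ≤ 7 * L ^ 2 / c ^ 3 * ε * X1 z ^ 3 :=
          mul_le_mul_of_nonneg_left (hcub z) (by positivity)
  have hwbot : Tendsto (fun z : ℝ => Real.exp (-|z|)) atBot (𝓝 0) :=
    Real.tendsto_exp_neg_atTop_nhds_zero.comp tendsto_abs_atBot_atTop
  have hwtop : Tendsto (fun z : ℝ => Real.exp (-|z|)) atTop (𝓝 0) :=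
    Real.tendsto_exp_neg_atTop_nhds_zero.comp tendsto_abs_atTop_atTop
  have hlim : ∀ (l : Filter ℝ) (a : ℝ), Tendsto (fun z : ℝ => Real.exp (-|z|)) l (𝓝 0) →
      Tendsto (fun z => X1 (z + κ) / X1 z) l (𝓝 a) →
      Tendsto (fun z => X1 (u z) * u1 z / X1 z) l (𝓝 a) := by
    intro l a hw hm
    have h1 : Tendsto (fun z => X1 (u z) * u1 z / X1 z - X1 (z + κ) / X1 z) l (𝓝 0) := by
      refine squeeze_zero_norm (a := fun z => 2 * L / c * ε * Real.exp (-|z|)) (fun z => dP z) ?_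
      simpa using hw.const_mul (2 * L / c * ε)
    have h2 := h1.add hm
    rw [zero_add] at h2
    refine h2.congr fun z => ?_
    ring
  refine build X X1 X2 d1 d2 pos lim0 lim1 u u1 u2 e1 e2 ?_ ?_ _ _ l0 l1
    (lt_min (by positivity) (by positivity)) ?_ ?_ ?_ ?_ (hlim _ _ hwbot m0) (hlim _ _ hwtop m1)
  · refine tendsto_atBot_mono (f := fun z => z + (κ + 1)) (fun z => ?_)
      (tendsto_atBot_add_const_right _ _ tendsto_id)
    have h1 := (abs_le.1 (hu1 z)).2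
    linarith
  · refine tendsto_atTop_mono (f := fun z => z + (κ - 1)) (fun z => ?_)
      (tendsto_atTop_add_const_right _ _ tendsto_id)
    have h1 := (abs_le.1 (hu1 z)).1
    linarith
  · intro z
    refine (min_le_right _ _).trans ?_
    have h1 := (abs_le.1 (dP' z)).1
    have h2 := hP0lo z
    have h3 : 2 * L / c * ε ≤ p0 / 2 := by
      have h4 : ε ≤ p0 * c / (4 * L) := hε.trans h03
      calc 2 * L / c * ε ≤ 2 * L / c * (p0 * c / (4 * L)) :=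
            mul_le_mul_of_nonneg_left h4 (by positivity)
        _ = p0 / 2 := by
            field_simp
            ring
    linarith
  · intro z
    refine le_trans ?_ (le_max_left _ _)
    have h1 := (abs_le.1 (dP' z)).2
    have h2 := (le_abs_self _).trans (hP0hi z)
    have h3 : 2 * L / c * ε ≤ 2 * L / c := by
      calc 2 * L / c * ε ≤ 2 * L / c * 1 := mul_le_mul_of_nonneg_left (by linarith) (by positivity)
        _ = 2 * L / c := mul_one _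
    have h4 : 3 * L / c = 2 * L / c + L / c := by ring
    linarith
  · intro z
    refine le_trans ?_ (le_max_right _ _)
    have h1 := dQ z
    have h2 := hQ0 z
    have h3 : 7 * L ^ 2 / c ^ 3 * ε ≤ 7 * L ^ 2 / c ^ 3 := by
      calc 7 * L ^ 2 / c ^ 3 * ε ≤ 7 * L ^ 2 / c ^ 3 * 1 :=
            mul_le_mul_of_nonneg_left (by linarith) (by positivity)
        _ = 7 * L ^ 2 / c ^ 3 := mul_one _
    have h4 := abs_sub_abs_le_abs_sub (((X2 (u z) * u1 z * u1 z + X1 (u z) * u2 z) * X1 z -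
      X1 (u z) * u1 z * X2 z) / X1 z ^ 3) ((X2 (z + κ) * X1 z - X1 (z + κ) * X2 z) / X1 z ^ 3)
    linarith
  · intro z
    refine (min_le_left _ _).trans ?_
    have h1 : |1 + X (u z) - X z| ≤ 2 := by
      have g1 := hmem (u z)
      have g2 := hmem z
      rw [abs_le]
      constructor <;> linarith [g1.1, g1.2, g2.1, g2.2]
    have h2 := alg3 (c1 := c / M ^ 3) hε0 (by linarith : ε ≤ 1)
      (by positivity : (0:ℝ) ≤ 2 * L / c) (dP' z) (dQ z) (dX z) (hP0hi z) (hQ0 z) h1 (hconv0 z)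
    rw [← hC3] at h2
    have h3 : C3 * ε ≤ c / M ^ 3 / 2 := by
      calc C3 * ε ≤ C3 * (c / M ^ 3 / (2 * C3)) :=
            mul_le_mul_of_nonneg_left (hε.trans h02) hC3pos.le
        _ = c / M ^ 3 / 2 := by
            field_simp
    linarith

end TC
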