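import Mathlib
import Pool.Agent.Helper822.TC.Defs2

set_option autoImplicit false

open Set Filter Topology Metric

namespace TC





/-- general gluing of a sequence of profiles -/
theorem glue_aux (c M : ℝ) (l : ℤ → ℝ) (f dp dq : ℤ → ℝ → ℝ)
    (h : ∀ k, Adm c M (l k) (l (k + 1)) (f k) (dp k) (dq k)) :
    ∃ E P Q : ℝ → ℝ, Glued c M E P Q ∧
      (∀ k : ℤ, ∀ x ∈ Icc (k:ℝ) (k + 1), E x = k + f k (x - k)) := by
  classical
  let E : ℝ → ℝ := fun x => (⌊x⌋ : ℝ) + f ⌊x⌋ (x - ⌊x⌋)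
  let P : ℝ → ℝ := fun x => if x = (⌊x⌋ : ℝ) then l ⌊x⌋ else dp ⌊x⌋ (x - ⌊x⌋)
  let Q : ℝ → ℝ := fun x => dq ⌊x⌋ (x - ⌊x⌋)
  have fl : ∀ (k : ℤ) (x : ℝ), x ∈ Ioo (k:ℝ) (k+1) → ⌊x⌋ = k := by
    intro k x hx
    rw [Int.floor_eq_iff]
    exact ⟨hx.1.le, hx.2⟩
  have hE : ∀ k : ℤ, ∀ x ∈ Icc (k:ℝ) (k + 1), E x = k + f k (x - k) := by
    intro k x hx
    rcases eq_or_lt_of_le hx.2 with h1 | h1
    · have h2 : ⌊x⌋ = k + 1 := by
        rw [Int.floor_eq_iff]; push_cast; constructor <;> linarith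
      simp only [E, h2]
      push_cast
      rw [h1]
      have e1 : (k:ℝ) + 1 - (k + 1) = 0 := by ring
      have e2 : (k:ℝ) + 1 - k = 1 := by ring
      rw [e1, e2, (h (k+1)).v0, (h k).v1]; ring
    · have h2 : ⌊x⌋ = k := by
        rw [Int.floor_eq_iff]; exact ⟨hx.1, h1⟩
      simp only [E, h2]
  have hP : ∀ k : ℤ, ∀ x ∈ Ioo (k:ℝ) (k + 1), P x = dp k (x - k) := by
    intro k x hx
    simp only [P, fl k x hx]
    rw [if_neg (ne_of_gt hx.1)]
  have hPk : ∀ k : ℤ, P (k:ℝ) = l k := by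
    intro k
    simp only [P, Int.floor_intCast, if_true]
  have hQ : ∀ k : ℤ, ∀ x ∈ Ioo (k:ℝ) (k + 1), Q x = dq k (x - k) := by
    intro k x hx
    simp only [Q, fl k x hx]
  -- location of a point
  have loc : ∀ x : ℝ, (∀ k : ℤ, x ≠ k) → x ∈ Ioo ((⌊x⌋ : ℤ) : ℝ) ((⌊x⌋ : ℤ) + 1) := by
    intro x hx
    exact ⟨lt_of_le_of_ne (Int.floor_le x) (fun e => hx _ e.symm), Int.lt_floor_add_one x⟩
  have shift : ∀ (k : ℤ) (x : ℝ), x ∈ Ioo (k:ℝ) (k+1) → x - k ∈ Ioo (0:ℝ) 1 := by
    intro k x hx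
    exact ⟨by linarith [hx.1], by linarith [hx.2]⟩
  have shiftc : ∀ (k : ℤ) (x : ℝ), x ∈ Icc (k:ℝ) (k+1) → x - k ∈ Icc (0:ℝ) 1 := by
    intro k x hx
    exact ⟨by linarith [hx.1], by linarith [hx.2]⟩
  -- interior derivatives
  have dE : ∀ k : ℤ, ∀ x ∈ Ioo (k:ℝ) (k + 1), HasDerivAt E (P x) x := by
    intro k x hx
    rw [hP k x hx]
    have h1 : HasDerivAt (fun y : ℝ => (k:ℝ) + f k (y - k)) (dp k (x - k)) x := by
      have h2 := ((h k).d1 (x - k) (shift k x hx)).comp_sub_const x (k:ℝ)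
      simpa using h2.const_add (k:ℝ)
    refine h1.congr_of_eventuallyEq ?_
    filter_upwards [Ioo_mem_nhds hx.1 hx.2] with y hy
    exact hE k y ⟨hy.1.le, hy.2.le⟩
  have dP : ∀ k : ℤ, ∀ x ∈ Ioo (k:ℝ) (k + 1), HasDerivAt P (Q x) x := by
    intro k x hx
    rw [hQ k x hx]
    have h1 : HasDerivAt (fun y : ℝ => dp k (y - k)) (dq k (x - k)) x :=
      ((h k).d2 (x - k) (shift k x hx)).comp_sub_const x (k:ℝ)
    refine h1.congr_of_eventuallyEq ?_
    filter_upwards [Ioo_mem_nhds hx.1 hx.2] with y hy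
    exact hP k y hy
  -- one sided limits of P
  have limR : ∀ k : ℤ, Tendsto P (𝓝[>] (k:ℝ)) (𝓝 (l k)) := by
    intro k
    have h1 : Tendsto (fun y : ℝ => y - k) (𝓝[>] (k:ℝ)) (𝓝[>] 0) := by
      refine tendsto_nhdsWithin_iff.2 ⟨?_, ?_⟩
      · have : Tendsto (fun y : ℝ => y - k) (𝓝 (k:ℝ)) (𝓝 ((k:ℝ) - k)) :=
          (continuous_id.sub continuous_const).tendsto _
        rw [sub_self] at this
        exact this.mono_left nhdsWithin_le_nhds
      · filter_upwards [self_mem_nhdsWithin] with y hy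
        have hy' : (k:ℝ) < y := hy
        show 0 < y - k
        linarith
    have h2 := (h k).lim0.comp h1
    refine h2.congr' ?_
    filter_upwards [Ioo_mem_nhdsGT (show (k:ℝ) < k + 1 by linarith)] with y hy
    exact (hP k y hy).symm
  have limL' : ∀ k : ℤ, Tendsto P (𝓝[<] ((k:ℝ) + 1)) (𝓝 (l (k+1))) := by
    intro k
    have h1 : Tendsto (fun y : ℝ => y - k) (𝓝[<] ((k:ℝ)+1)) (𝓝[<] 1) := by
      refine tendsto_nhdsWithin_iff.2 ⟨?_, ?_⟩
      · have : Tendsto (fun y : ℝ => y - k) (𝓝 ((k:ℝ)+1)) (𝓝 ((k:ℝ) + 1 - k)) :=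
          (continuous_id.sub continuous_const).tendsto _
        have e : (k:ℝ) + 1 - k = 1 := by ring
        rw [e] at this
        exact this.mono_left nhdsWithin_le_nhds
      · filter_upwards [self_mem_nhdsWithin] with y hy
        have hy' : y < (k:ℝ) + 1 := hy
        show y - k < 1
        linarith
    have h2 := (h k).lim1.comp h1
    refine h2.congr' ?_
    filter_upwards [Ioo_mem_nhdsLT (show (k:ℝ) < k + 1 by linarith)] with y hy
    exact (hP k y hy).symm
  have limL : ∀ k : ℤ, Tendsto P (𝓝[<] (k:ℝ)) (𝓝 (l k)) := by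
    intro k
    have := limL' (k - 1)
    push_cast at this
    simpa using this
  -- continuity of E at integers from both sides
  have contR : ∀ k : ℤ, ContinuousOn E (Icc (k:ℝ) (k+1)) := by
    intro k
    have h1 : ContinuousOn (fun y : ℝ => (k:ℝ) + f k (y - k)) (Icc (k:ℝ) (k+1)) := by
      refine continuousOn_const.add ?_
      exact (h k).cont.comp (continuous_id.sub continuous_const).continuousOn
        (fun y hy => shiftc k y hy)
    exact h1.congr (fun y hy => hE k y hy)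
  have dEint : ∀ k : ℤ, HasDerivAt E (l k) (k:ℝ) := by
    intro k
    have hr : HasDerivWithinAt E (l k) (Ici (k:ℝ)) k := by
      refine hasDerivWithinAt_Ici_of_tendsto_deriv (s := Ioo (k:ℝ) (k+1)) ?_ ?_ ?_ ?_
      · intro x hx
        exact (dE k x hx).differentiableAt.differentiableWithinAt
      · exact ((contR k) k ⟨le_refl _, by linarith⟩).mono Ioo_subset_Icc_self
      · exact Ioo_mem_nhdsGT (by linarith)
      · refine (limR k).congr' ?_
        filter_upwards [Ioo_mem_nhdsGT (show (k:ℝ) < k + 1 by linarith)] with y hy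
        exact (dE k y hy).deriv.symm
    have hl : HasDerivWithinAt E (l k) (Iic (k:ℝ)) k := by
      have hk : ((k - 1 : ℤ) : ℝ) + 1 = k := by push_cast; ring
      refine hasDerivWithinAt_Iic_of_tendsto_deriv (s := Ioo ((k-1 : ℤ):ℝ) (((k-1 : ℤ):ℝ)+1)) ?_ ?_ ?_ ?_
      · intro x hx
        exact (dE (k-1) x hx).differentiableAt.differentiableWithinAt
      · exact ((contR (k-1)) k ⟨by linarith, by linarith⟩).mono Ioo_subset_Icc_self
      · rw [hk]; exact Ioo_mem_nhdsLT (by linarith)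
      · refine (limL k).congr' ?_
        have : Ioo ((k-1 : ℤ):ℝ) (((k-1 : ℤ):ℝ)+1) ∈ 𝓝[<] (k:ℝ) := by
          rw [hk]; exact Ioo_mem_nhdsLT (by linarith)
        filter_upwards [this] with y hy
        exact (dE (k-1) y hy).deriv.symm
    have := hl.union hr
    rw [Iic_union_Ici] at this
    exact hasDerivWithinAt_univ.1 this
  have dEall : ∀ x, HasDerivAt E (P x) x := by
    intro x
    by_cases hx : ∃ k : ℤ, x = k
    · obtain ⟨k, rfl⟩ := hx
      rw [hPk]; exact dEint k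
    · push Not at hx
      exact dE _ x (loc x hx)
  have pcont : Continuous P := by
    rw [continuous_iff_continuousAt]
    intro x
    by_cases hx : ∃ k : ℤ, x = k
    · obtain ⟨k, rfl⟩ := hx
      rw [continuousAt_iff_continuous_left'_right']
      constructor
      · show Tendsto P _ _
        rw [hPk]; exact limL k
      · show Tendsto P _ _
        rw [hPk]; exact limR k
    · push Not at hx
      exact (dP _ x (loc x hx)).continuousAt
  have lk_lo : ∀ k : ℤ, c ≤ l k := by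
    intro k
    refine ge_of_tendsto (limR k) ?_
    filter_upwards [Ioo_mem_nhdsGT (show (k:ℝ) < k + 1 by linarith)] with y hy
    rw [hP k y hy]
    exact (h k).pl _ (shift k y hy)
  have lk_hi : ∀ k : ℤ, l k ≤ M := by
    intro k
    refine le_of_tendsto (limR k) ?_
    filter_upwards [Ioo_mem_nhdsGT (show (k:ℝ) < k + 1 by linarith)] with y hy
    rw [hP k y hy]
    exact (h k).pu _ (shift k y hy)
  have fmono : ∀ k : ℤ, StrictMonoOn (f k) (Icc 0 1) := by
    intro k
    refine strictMonoOn_of_deriv_pos (convex_Icc 0 1) (h k).cont ?_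
    intro x hx
    rw [interior_Icc] at hx
    rw [((h k).d1 x hx).deriv]
    exact lt_of_lt_of_le (h k).cpos ((h k).pl x hx)
  have fb : ∀ k : ℤ, ∀ t ∈ Icc (0:ℝ) 1, 0 ≤ f k t ∧ f k t ≤ 1 := by
    intro k t ht
    constructor
    · rw [← (h k).v0]
      exact (fmono k).monotoneOn ⟨le_refl _, by norm_num⟩ ht ht.1
    · rw [← (h k).v1]
      exact (fmono k).monotoneOn ht ⟨by norm_num, le_refl _⟩ ht.2
  refine ⟨E, P, Q, ⟨(h 0).cpos, dEall, pcont, ?_, ?_, ?_, ?_, ?_, ?_, ?_⟩, hE⟩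
  · intro x hx
    exact dP _ x (loc x hx)
  · intro x
    by_cases hx : ∃ k : ℤ, x = k
    · obtain ⟨k, rfl⟩ := hx
      rw [hPk]; exact lk_lo k
    · push Not at hx
      rw [hP _ x (loc x hx)]
      exact (h _).pl _ (shift _ x (loc x hx))
  · intro x
    by_cases hx : ∃ k : ℤ, x = k
    · obtain ⟨k, rfl⟩ := hx
      rw [hPk]; exact lk_hi k
    · push Not at hx
      rw [hP _ x (loc x hx)]
      exact (h _).pu _ (shift _ x (loc x hx))
  · intro x hx
    rw [hQ _ x (loc x hx)]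
    exact (h _).qu _ (shift _ x (loc x hx))
  · intro x hx
    have hl := loc x hx
    rw [hQ _ x hl, hP _ x hl, hE _ x ⟨hl.1.le, hl.2.le⟩]
    have := (h ⌊x⌋).conv _ (shift _ x hl)
    have e : 1 + ((⌊x⌋:ℝ) + f ⌊x⌋ (x - ⌊x⌋)) - x = 1 + f ⌊x⌋ (x - ⌊x⌋) - (x - ⌊x⌋) := by ring
    rw [e]; exact this
  · intro x
    have h1 := Int.floor_le x
    have h2 := Int.lt_floor_add_one x
    rw [hE ⌊x⌋ x ⟨h1, h2.le⟩]
    have := (fb ⌊x⌋ (x - ⌊x⌋) ⟨by linarith, by linarith⟩).1
    linarith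
  · intro x
    have h1 := Int.floor_le x
    have h2 := Int.lt_floor_add_one x
    rw [hE ⌊x⌋ x ⟨h1, h2.le⟩]
    rcases eq_or_lt_of_le h1 with h3 | h3
    · have e : x - ⌊x⌋ = 0 := by linarith
      rw [e, (h ⌊x⌋).v0]; linarith
    · have := (fb ⌊x⌋ (x - ⌊x⌋) ⟨by linarith, by linarith⟩).2
      linarith

theorem glue (c M a b : ℝ) (F p q H r s : ℝ → ℝ) (hF : Adm c M a b F p q)
    (hH : Adm c M b a H r s) :
    ∃ E P Q : ℝ → ℝ, Glued c M E P Q ∧
      (∀ k : ℤ, ∀ x ∈ Icc (0:ℝ) 1, E (2 * k + x) = 2 * k + F x) ∧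
      (∀ k : ℤ, ∀ x ∈ Icc (0:ℝ) 1, E (2 * k + 1 + x) = 2 * k + 1 + H x) := by
  classical
  obtain ⟨E, P, Q, hG, hE⟩ := glue_aux c M (fun k : ℤ => if Even k then a else b)
    (fun k : ℤ => if Even k then F else H) (fun k : ℤ => if Even k then p else r)
    (fun k : ℤ => if Even k then q else s) (by
      intro k
      by_cases hk : Even k
      · have h2 : ¬ Even (k + 1) := by
          rw [Int.even_add_one]; exact fun h => h hk
        simp only [hk, h2, if_true, if_false]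
        exact hF
      · have h2 : Even (k + 1) := Int.even_add_one.2 hk
        simp only [hk, h2, if_true, if_false]
        exact hH)
  refine ⟨E, P, Q, hG, ?_, ?_⟩
  · intro k x hx
    have h1 := hE (2 * k) (2 * k + x) (by push_cast; exact ⟨by linarith [hx.1], by linarith [hx.2]⟩)
    have h2 : Even (2 * k) := even_two_mul k
    simp only [h2, if_true] at h1
    push_cast at h1
    rw [h1]; congr 2; ring
  · intro k x hx
    have h1 := hE (2 * k + 1) (2 * k + 1 + x)
      (by push_cast; exact ⟨by linarith [hx.1], by linarith [hx.2]⟩)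
    have h2 : ¬ Even (2 * k + 1) := by
      rw [Int.even_add_one]; exact fun h => h (even_two_mul k)
    simp only [h2, if_false] at h1
    push_cast at h1
    rw [h1]; congr 2; ring

end TC
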