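import Mathlib
import Pool.Agent.Helper822.TC.Defs2

set_option autoImplicit false

open Set Filter Topology Metric

namespace TC



theorem tan_small_aux (η : ℝ) (hη : 0 < η) :
    ∃ δ > 0, ∀ z, 0 < z → z < δ → |Real.tan z - z| ≤ η * z := by
  have h : HasDerivAt Real.tan 1 0 := by
    have := Real.hasDerivAt_tan (x := 0) (by simp)
    simpa using this
  have h2 := (hasDerivAt_iff_isLittleO.1 h).def hη
  obtain ⟨δ, hδ, h3⟩ := Metric.eventually_nhds_iff.1 h2
  refine ⟨δ, hδ, fun z hz hz' => ?_⟩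
  have h4 := h3 (y := z) (by rw [Real.dist_eq, sub_zero, abs_of_pos hz]; exact hz')
  rw [Real.tan_zero, sub_zero, sub_zero, smul_eq_mul, mul_one, Real.norm_eq_abs,
    Real.norm_eq_abs, abs_of_pos hz] at h4
  exact h4

theorem glue_mono (g : ℝ → ℝ) (α : ℝ) (hα : 0 < α)
    (h : ∀ k : ℤ, MonotoneOn g (Icc (α * k) (α * (k + 1)))) : Monotone g := by
  have hZ : Monotone (fun k : ℤ => g (α * k)) := by
    refine monotone_int_of_le_succ fun k => ?_
    have h1 : α * (k : ℝ) ≤ α * (k + 1) := mul_le_mul_of_nonneg_left (by linarith) hα.le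
    have h2 := h k (left_mem_Icc.2 h1) (right_mem_Icc.2 h1) h1
    push_cast
    exact h2
  have hfl : ∀ x : ℝ, x ∈ Icc (α * (⌊x / α⌋ : ℤ)) (α * ((⌊x / α⌋ : ℤ) + 1)) := by
    intro x
    have h1 := Int.floor_le (x / α)
    have h2 := (Int.lt_floor_add_one (x / α)).le
    rw [le_div_iff₀ hα] at h1
    rw [div_le_iff₀ hα] at h2
    constructor
    · rw [mul_comm]
      exact h1
    · rw [mul_comm]
      exact h2
  intro x y hxy
  have hk : ⌊x / α⌋ ≤ ⌊y / α⌋ := Int.floor_le_floor (div_le_div_of_nonneg_right hxy hα.le)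
  rcases eq_or_lt_of_le hk with he | hlt
  · have hy := hfl y
    rw [← he] at hy
    exact h _ (hfl x) hy hxy
  · have h1 : α * ((⌊x / α⌋ : ℤ) : ℝ) ≤ α * ((⌊x / α⌋ : ℤ) + 1) :=
      mul_le_mul_of_nonneg_left (by linarith) hα.le
    have h2 : α * ((⌊y / α⌋ : ℤ) : ℝ) ≤ α * ((⌊y / α⌋ : ℤ) + 1) :=
      mul_le_mul_of_nonneg_left (by linarith) hα.le
    have g1 := h _ (hfl x) (right_mem_Icc.2 h1) (hfl x).2
    have g2 := h _ (left_mem_Icc.2 h2) (hfl y) (hfl y).1
    have g3 : g (α * ((⌊x / α⌋ + 1 : ℤ) : ℝ)) ≤ g (α * ((⌊y / α⌋ : ℤ) : ℝ)) := hZ (by omega)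
    push_cast at g3
    exact g1.trans (g3.trans g2)

theorem mono_dir (c M : ℝ) : ∃ α₀ > 0, α₀ ≤ 1 ∧ ∀ α, 0 < α → α ≤ α₀ → ∀ E p q : ℝ → ℝ,
    Glued c M E p q → ∀ T : ℝ → ℝ, (∀ θ, T θ = α * (1 + E (θ / α))) →
    Monotone (fun θ => θ - Real.arctan
      ((1 + (1 + Real.tan ((T θ - θ) / 2) ^ 2) * (p (θ / α) - 1) / 2) /
        Real.tan ((T θ - θ) / 2))) := by
  rcases le_or_gt c 0 with hc | hc
  · exact ⟨1, one_pos, le_rfl, fun α _ _ E p q hG => absurd hG.cpos (not_lt.2 hc)⟩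
  obtain ⟨η, hη⟩ : ∃ η : ℝ, η = c / (4 * (|M| + 1)) := ⟨_, rfl⟩
  have hM1 : 0 < |M| + 1 := by positivity
  have hη0 : 0 < η := by
    rw [hη]
    positivity
  have hηM : η * M ≤ c / 4 := by
    have h1 : M ≤ |M| + 1 := by linarith [le_abs_self M]
    calc η * M ≤ η * (|M| + 1) := mul_le_mul_of_nonneg_left h1 hη0.le
      _ = c / 4 := by
        rw [hη]
        field_simp
  obtain ⟨δ, hδ, htan⟩ := tan_small_aux η hη0
  refine ⟨min 1 δ, lt_min one_pos hδ, min_le_left _ _, ?_⟩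
  intro α hα hα0 E p q hG T hT
  have hα1 : α ≤ 1 := hα0.trans (min_le_left _ _)
  have hαδ : α ≤ δ := hα0.trans (min_le_right _ _)
  have hz : ∀ θ, (T θ - θ) / 2 = α * (1 + E (θ / α) - θ / α) / 2 := by
    intro θ
    rw [hT]
    field_simp
  have hz0 : ∀ θ, 0 < (T θ - θ) / 2 := by
    intro θ
    rw [hz]
    have := hG.lo (θ / α)
    positivity
  have hzα : ∀ θ, (T θ - θ) / 2 < α := by
    intro θ
    rw [hz]
    have h1 := hG.hi (θ / α)
    have h2 : α * (1 + E (θ / α) - θ / α) < α * 2 := mul_lt_mul_of_pos_left h1 hα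
    linarith
  have hzpi : ∀ θ, (T θ - θ) / 2 < Real.pi / 2 := by
    intro θ
    have h1 := hzα θ
    have h2 := Real.pi_gt_three
    linarith
  have hcos : ∀ θ, Real.cos ((T θ - θ) / 2) ≠ 0 := by
    intro θ
    have h1 := hz0 θ
    have h2 := hzpi θ
    exact (Real.cos_pos_of_mem_Ioo ⟨by linarith, h2⟩).ne'
  have ha0 : ∀ θ, 0 < Real.tan ((T θ - θ) / 2) := fun θ =>
    Real.tan_pos_of_pos_of_lt_pi_div_two (hz0 θ) (hzpi θ)
  have hdx : ∀ θ, HasDerivAt (fun θ : ℝ => θ / α) (1 / α) θ := fun θ =>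
    (hasDerivAt_id θ).div_const α
  have hdu : ∀ θ, HasDerivAt (fun θ => (T θ - θ) / 2) ((p (θ / α) - 1) / 2) θ := by
    intro θ
    have e : (fun θ => (T θ - θ) / 2) = fun θ => (α * (1 + E (θ / α)) - θ) / 2 := by
      funext θ
      rw [hT]
    rw [e]
    have h1 := (hG.d1 (θ / α)).comp θ (hdx θ)
    have h2 := (((h1.const_add 1).const_mul α).sub (hasDerivAt_id θ)).div_const 2
    refine h2.congr_deriv ?_
    field_simp
  have hda : ∀ θ, HasDerivAt (fun θ => Real.tan ((T θ - θ) / 2))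
      ((1 + Real.tan ((T θ - θ) / 2) ^ 2) * (p (θ / α) - 1) / 2) θ := by
    intro θ
    have h1 := (Real.hasDerivAt_tan (hcos θ)).comp θ (hdu θ)
    refine h1.congr_deriv ?_
    have h2 : 1 / Real.cos ((T θ - θ) / 2) ^ 2 = 1 + Real.tan ((T θ - θ) / 2) ^ 2 := by
      rw [← Real.inv_one_add_tan_sq (hcos θ), one_div, inv_inv]
    rw [h2]
    ring
  have hac : Continuous (fun θ => Real.tan ((T θ - θ) / 2)) :=
    continuous_iff_continuousAt.2 fun θ => (hda θ).continuousAt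
  have hpc : Continuous (fun θ => p (θ / α)) := hG.pc.comp (continuous_id.div_const α)
  have hcont : Continuous (fun θ => θ - Real.arctan
      ((1 + (1 + Real.tan ((T θ - θ) / 2) ^ 2) * (p (θ / α) - 1) / 2) /
        Real.tan ((T θ - θ) / 2))) := by
    refine continuous_id.sub (Real.continuous_arctan.comp (Continuous.div ?_ hac fun θ => (ha0 θ).ne'))
    exact continuous_const.add (((continuous_const.add (hac.pow 2)).mul
      (hpc.sub continuous_const)).div_const 2)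
  refine glue_mono _ α hα fun k => ?_
  -- derivative at interior points
  have hder : ∀ θ ∈ Ioo (α * (k : ℝ)) (α * (k + 1)), ∃ d, 0 ≤ d ∧ HasDerivAt (fun θ => θ - Real.arctan
      ((1 + (1 + Real.tan ((T θ - θ) / 2) ^ 2) * (p (θ / α) - 1) / 2) /
        Real.tan ((T θ - θ) / 2))) d θ := by
    intro θ hθ
    have hni : ∀ j : ℤ, θ / α ≠ j := by
      intro j hj
      rw [div_eq_iff hα.ne'] at hj
      have h1 : (k : ℝ) < j := by
        have := hθ.1
        rw [hj, mul_comm] at this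
        exact lt_of_mul_lt_mul_right this hα.le
      have h2 : (j : ℝ) < k + 1 := by
        have := hθ.2
        rw [hj, mul_comm α] at this
        exact lt_of_mul_lt_mul_right this hα.le
      have h3 : k < j := by exact_mod_cast h1
      have h4 : j < k + 1 := by exact_mod_cast h2
      omega
    obtain ⟨a, ha⟩ : ∃ a, a = Real.tan ((T θ - θ) / 2) := ⟨_, rfl⟩
    obtain ⟨P, hP⟩ : ∃ P, P = p (θ / α) := ⟨_, rfl⟩
    obtain ⟨Q, hQ⟩ : ∃ Q, Q = q (θ / α) := ⟨_, rfl⟩
    have hapos : 0 < a := by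
      rw [ha]
      exact ha0 θ
    have hda' := hda θ
    have hdp : HasDerivAt (fun θ => p (θ / α)) (Q * (1 / α)) θ := by
      rw [hQ]
      exact (hG.d2 (θ / α) hni).comp θ (hdx θ)
    have hdb := ((((hda'.pow 2).const_add 1).mul (hdp.sub_const 1)).div_const 2).const_add 1
    have hdF := (hdb.div hda' (ha0 θ).ne').arctan
    have hfin := (hasDerivAt_id θ).sub hdF
    refine ⟨_, ?_, hfin⟩
    simp only [← ha, ← hP, Pi.mul_apply, Pi.pow_apply, Pi.div_apply, Pi.add_apply]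
    have hkey : 0 ≤ P * (1 + P) - a / α * Q := by
      have h1 := hG.conv (θ / α) hni
      have h2 := hG.qu (θ / α) hni
      have h3 := hG.lo (θ / α)
      have h4 := hG.hi (θ / α)
      rw [← hP, ← hQ] at h1
      rw [← hQ] at h2
      obtain ⟨Dd, hDd⟩ : ∃ Dd, Dd = 1 + E (θ / α) - θ / α := ⟨_, rfl⟩
      rw [← hDd] at h1 h3 h4
      have h5 := htan _ (hz0 θ) ((hzα θ).trans_le hαδ)
      rw [← ha, hz θ, ← hDd] at h5
      have h6 : |a / α - Dd / 2| ≤ η := by
        have e : a / α - Dd / 2 = (a - α * Dd / 2) / α := by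
          field_simp
        rw [e, abs_div, abs_of_pos hα, div_le_iff₀ hα]
        refine h5.trans ?_
        refine mul_le_mul_of_nonneg_left ?_ hη0.le
        nlinarith
      have h7 : (a / α - Dd / 2) * Q ≤ η * M := by
        calc (a / α - Dd / 2) * Q ≤ |(a / α - Dd / 2) * Q| := le_abs_self _
          _ = |a / α - Dd / 2| * |Q| := abs_mul _ _
          _ ≤ η * M := mul_le_mul h6 h2 (abs_nonneg _) hη0.le
      nlinarith
    have hF : 0 < 1 + ((1 + (1 + a ^ 2) * (P - 1) / 2) / a) ^ 2 := by positivity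
    rw [sub_nonneg, one_div, inv_mul_le_iff₀ hF, mul_one]
    have hN : 1 + ((1 + (1 + a ^ 2) * (P - 1) / 2) / a) ^ 2 -
        ((((2 : ℕ) : ℝ) * a ^ (2 - 1) * ((1 + a ^ 2) * (P - 1) / 2) * (P - 1) +
          (1 + a ^ 2) * (Q * (1 / α))) / 2 * a -
          (1 + (1 + a ^ 2) * (P - 1) / 2) * ((1 + a ^ 2) * (P - 1) / 2)) / a ^ 2 =
        (1 + a ^ 2) / 2 * (P * (1 + P) - a / α * Q) / a ^ 2 := by
      field_simp
      ring
    have hN2 : 0 ≤ (1 + a ^ 2) / 2 * (P * (1 + P) - a / α * Q) / a ^ 2 := by positivity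
    rw [← hN] at hN2
    linarith
  refine monotoneOn_of_deriv_nonneg (convex_Icc _ _) hcont.continuousOn ?_ ?_
  · rw [interior_Icc]
    intro θ hθ
    obtain ⟨d, -, hd⟩ := hder θ hθ
    exact hd.differentiableAt.differentiableWithinAt
  · rw [interior_Icc]
    intro θ hθ
    obtain ⟨d, hd0, hd⟩ := hder θ hθ
    rw [hd.deriv]
    exact hd0

end TC
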