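import Mathlib
import Pool.Agent.Helper822.TC.RealT
import Pool.Agent.Helper822.TC.Tan
import Pool.Agent.Helper822.TC.XLev
import Pool.Agent.Helper822.TC.BConv
import Pool.Agent.Helper822.TC.BReal
import Pool.Agent.Helper822.TC.BAlg
import Pool.Agent.Helper822.TC.BStrip
import Pool.Agent.Helper822.TC.BNb
import Pool.Agent.Helper946.TCGeo

set_option autoImplicit false

open Complex Set Metric Filter Topology

namespace TC

theorem adm_mono {c c' M M' a b : ℝ} {F p q : ℝ → ℝ} (h : Adm c M a b F p q) (hc' : 0 < c')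
    (hc : c' ≤ c) (hM : M ≤ M') : Adm c' M' a b F p q where
  cpos := hc'
  cont := h.cont
  v0 := h.v0
  v1 := h.v1
  d1 := h.d1
  d2 := h.d2
  pl := fun x hx => hc.trans (h.pl x hx)
  pu := fun x hx => (h.pu x hx).trans hM
  qu := fun x hx => (h.qu x hx).trans hM
  conv := fun x hx => hc.trans (h.conv x hx)
  lim0 := h.lim0
  lim1 := h.lim1

theorem exists_beta : ∃ β : ℝ, 0.9065 ≤ β ∧ β ≤ 0.9066 ∧
    63 * β ^ 3 + 91 * β ^ 2 - 35 * β - 90 = 0 := by
  have hc : ContinuousOn (fun β : ℝ => 63 * β ^ 3 + 91 * β ^ 2 - 35 * β - 90)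
      (Icc 0.9065 0.9066) := by fun_prop
  have := intermediate_value_Icc (by norm_num) hc
  have h0 : (0:ℝ) ∈ Icc (63 * (0.9065:ℝ) ^ 3 + 91 * (0.9065:ℝ) ^ 2 - 35 * (0.9065:ℝ) - 90)
      (63 * (0.9066:ℝ) ^ 3 + 91 * (0.9066:ℝ) ^ 2 - 35 * (0.9066:ℝ) - 90) := by
    constructor <;> norm_num
  obtain ⟨β, hβ, h⟩ := this h0
  exact ⟨β, hβ.1, hβ.2, h⟩

theorem XQ_real (β x : ℝ) : XQ β (exp x) = ((XA β (Real.exp x) : ℝ) : ℂ) := by
  unfold XQ XA
  push_cast
  rfl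

theorem main_thm :
    ∃ K₁ K₂ : Set (EuclideanSpace ℝ (Fin 2)),
      IsCompact K₁ ∧ Convex ℝ K₁ ∧ IsCompact K₂ ∧ Convex ℝ K₂ ∧
      Metric.closedBall (0 : EuclideanSpace ℝ (Fin 2)) 1 ⊆ interior K₁ ∧
      Metric.closedBall (0 : EuclideanSpace ℝ (Fin 2)) 1 ⊆ interior K₂ ∧
      (∀ e : EuclideanSpace ℝ (Fin 2), ‖e‖ = 1 →
        Metric.diam (K₁ ∩ {x | inner ℝ x e = (1 : ℝ)}) =
          Metric.diam (K₂ ∩ {x | inner ℝ x e = (1 : ℝ)})) ∧
      K₁ ≠ K₂ := by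
  obtain ⟨β, hβ1, hβ2, hβ⟩ := exists_beta
  have hbc : 63 * (β : ℂ) ^ 3 + 91 * (β : ℂ) ^ 2 - 35 * (β : ℂ) - 90 = 0 := by
    exact_mod_cast congrArg (fun t : ℝ => (t : ℂ)) hβ
  have h2b : (2 : ℂ) - (β : ℂ) ≠ 0 := by
    have : (2 - β : ℝ) ≠ 0 := by norm_num at hβ2 ⊢; linarith
    exact_mod_cast this
  set X : ℂ → ℂ := fun z => XQ β (exp z) with hX
  set G : ℂ → ℂ := fun z => GQ β (exp z) with hG
  obtain ⟨C, hB⟩ := base_strip β hβ1 hβ2 X G (fun _ => rfl) (fun _ => rfl)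
    (fun ξ k1 k2 k3 k4 => idG β ξ hbc h2b k1 k2 k3 k4)
    (fun z k2 k3 k4 => dXQ β z h2b k2 k3 k4)
    (fun z k2 k3 k4 => dGQ β z hbc h2b k2 k3 k4)
    (fun y k2 k3 k4 k5 => idD β y hbc h2b k2 k3 k4 k5)
  set δ : ℝ := Real.log 2 with hδ
  have hδ1 : (1:ℝ) / 2 < δ := by
    have := Real.log_two_gt_d9
    rw [hδ]; norm_num at this ⊢; linarith
  have hδ0 : 0 < δ := by linarith
  -- real base
  set Xr : ℝ → ℝ := fun z => XA β (Real.exp z) with hXr
  set X1 : ℝ → ℝ := fun z => XB β (Real.exp z) with hX1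
  set X2 : ℝ → ℝ := fun z => XC β (Real.exp z) with hX2
  obtain ⟨c, M₀, hc, b1, b2, b3, b4₀, b5₀, b6₀, b7, b8, b9, b10, b11, b12, b13, b14⟩ :=
    base_real β hβ1 hβ2 (conv_plus β hβ1 hβ2) (conv_minus β hβ1 hβ2) Xr X1 X2
      (fun _ => rfl) (fun _ => rfl) (fun _ => rfl)
  set M : ℝ := max M₀ 5000 with hM
  have b4 : ∀ z, X1 z ≤ M * Real.exp (-|z|) := fun z => (b4₀ z).trans
    (mul_le_mul_of_nonneg_right (le_max_left _ _) (Real.exp_pos _).le)
  have b5 : ∀ z, |X2 z| ≤ M * Real.exp (-|z|) := fun z => (b5₀ z).trans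
    (mul_le_mul_of_nonneg_right (le_max_left _ _) (Real.exp_pos _).le)
  have b6 : ∀ z w, |z - w| ≤ 1 → |X2 z - X2 w| ≤ M * Real.exp (-|z|) * |z - w| :=
    fun z w hzw => (b6₀ z w hzw).trans (mul_le_mul_of_nonneg_right
      (mul_le_mul_of_nonneg_right (le_max_left _ _) (Real.exp_pos _).le) (abs_nonneg _))
  have nbp : ∀ z, |X2 (z + δ) * X1 z - X1 (z + δ) * X2 z| ≤ M * Real.exp (-|z|) ^ 3 := fun z =>
    (nb_bd β hβ1 hβ2 δ (Or.inl rfl) z).trans
      (mul_le_mul_of_nonneg_right (le_max_right _ _) (by positivity))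
  have nbm : ∀ z, |X2 (z + -δ) * X1 z - X1 (z + -δ) * X2 z| ≤ M * Real.exp (-|z|) ^ 3 := fun z =>
    (nb_bd β hβ1 hβ2 (-δ) (Or.inr rfl) z).trans
      (mul_le_mul_of_nonneg_right (le_max_right _ _) (by positivity))
  have hXre : ∀ x : ℝ, (X x).re = Xr x := by
    intro x
    simp only [hX, hXr]
    rw [XQ_real, Complex.ofReal_re]
  have hh : (0:ℝ) < 1 / 20 := by norm_num
  have hposd : ∀ x : ℝ, 0 < (deriv X x).re := by
    intro x
    have h1 : HasDerivAt X (deriv X x) (x : ℂ) :=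
      (hB.dX.differentiableAt ((Strip_open _).mem_nhds (real_mem_Strip hh x))).hasDerivAt
    have h2 := h1.real_of_complex
    have h3 : (fun x : ℝ => (X x).re) = Xr := funext hXre
    rw [h3] at h2
    have h4 := h2.unique (b1 x)
    rw [h4]
    exact lt_of_lt_of_le (by positivity) (b3 x)
  -- strict monotonicity and range of Xr
  have hmono : StrictMono Xr := by
    apply strictMono_of_deriv_pos
    intro x
    rw [(b1 x).deriv]
    exact lt_of_lt_of_le (by positivity) (b3 x)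
  have hcont : Continuous Xr := continuous_iff_continuousAt.2 fun x => (b1 x).continuousAt
  have hX0 : ∀ z, 0 < Xr z := by
    intro z
    have h1 : Xr (z - 1) < Xr z := hmono (by linarith)
    have h2 : 0 ≤ Xr (z - 1) := by
      refine le_of_tendsto b7 ?_
      filter_upwards [eventually_le_atBot (z - 1)] with t ht
      exact hmono.monotone ht
    linarith
  have hX1' : ∀ z, Xr z < 1 := by
    intro z
    have h1 : Xr z < Xr (z + 1) := hmono (by linarith)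
    have h2 : Xr (z + 1) ≤ 1 := by
      refine ge_of_tendsto b8 ?_
      filter_upwards [eventually_ge_atTop (z + 1)] with t ht
      exact hmono.monotone ht
    linarith
  have hsurj : ∀ x ∈ Ioo (0:ℝ) 1, ∃ z, Xr z = x := by
    intro x hx
    have h1 : ∃ a, Xr a ≤ x := by
      have := (b7.eventually (gt_mem_nhds hx.1)).exists
      obtain ⟨a, ha⟩ := this
      exact ⟨a, ha.le⟩
    have h2 : ∃ a, x ≤ Xr a := by
      have := (b8.eventually (lt_mem_nhds hx.2)).exists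
      obtain ⟨a, ha⟩ := this
      exact ⟨a, ha.le⟩
    have := mem_range_of_exists_le_of_exists_ge hcont h1 h2
    exact this
  -- constants
  obtain ⟨Cs, α₀, hCs, hα₀, hα₀1, htan⟩ := tan_small (2 * C + 1) (by linarith [hB.C1])
  obtain ⟨K, η₀, hK, hη₀, htr⟩ := real_transfer hB (V := 2 * C + 1) (by linarith) hCs hposd
  obtain ⟨ε₁, hε₁, c₁, hc₁, M₁, hx1⟩ := xlev δ c M 2 (1 / 2) Xr X1 X2 hc b1 b2 b3 b4 b5 b6 b7 b8 b9
    nbp b11 b12
  obtain ⟨ε₂, hε₂, c₂, hc₂, M₂, hx2⟩ := xlev (-δ) c M (1 / 2) 2 Xr X1 X2 hc b1 b2 b3 b4 b5 b6 b7 b8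
    b10 nbm b13 b14
  obtain ⟨α₁, hα₁, hgeo⟩ := final_geo (min c₁ c₂) (max M₁ M₂) 2 (1 / 2)
  set A : ℝ := min (min α₀ α₁) (min (min η₀ 1) (min (min (ε₁ / K) (ε₂ / K)) (1 / (2 * K)))) with hA
  have hApos : 0 < A := by
    simp only [hA, lt_min_iff]
    exact ⟨⟨hα₀, hα₁⟩, ⟨hη₀, one_pos⟩, ⟨div_pos hε₁ hK, div_pos hε₂ hK⟩, by positivity⟩
  obtain ⟨N, hN⟩ := exists_nat_gt (Real.pi / A)
  have hNpos : (0:ℝ) < N := lt_trans (div_pos Real.pi_pos hApos) hN
  set α : ℝ := Real.pi / N with hα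
  have hαpos : 0 < α := div_pos Real.pi_pos hNpos
  have hαA : α ≤ A := by
    rw [hα, div_le_iff₀ hNpos]
    rw [div_lt_iff₀ hApos] at hN
    linarith
  have g1 : α ≤ α₀ := hαA.trans ((min_le_left _ _).trans (min_le_left _ _))
  have g2 : α ≤ α₁ := hαA.trans ((min_le_left _ _).trans (min_le_right _ _))
  have g3 : α ≤ η₀ := hαA.trans ((min_le_right _ _).trans ((min_le_left _ _).trans
    (min_le_left _ _)))
  have g4 : α ≤ 1 := hαA.trans ((min_le_right _ _).trans ((min_le_left _ _).trans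
    (min_le_right _ _)))
  have g5 : α ≤ ε₁ / K := hαA.trans ((min_le_right _ _).trans ((min_le_right _ _).trans
    ((min_le_left _ _).trans (min_le_left _ _))))
  have g6 : α ≤ ε₂ / K := hαA.trans ((min_le_right _ _).trans ((min_le_right _ _).trans
    ((min_le_left _ _).trans (min_le_right _ _))))
  have g7 : α ≤ 1 / (2 * K) := hαA.trans ((min_le_right _ _).trans ((min_le_right _ _).trans
    (min_le_right _ _)))
  obtain ⟨η, m, e, Pi, hη, hηα, hS, hm, hme⟩ := htan α hαpos g1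
  have hηα' : η ≤ α := hηα.trans (by nlinarith)
  obtain ⟨f, fi, g, γ, hfN, hgN, hffi, hfif, hgγ, hγg, heq⟩ := htr η m e Pi hη (hηα'.trans g3) hS
  have hKη : K * η ≤ K * α := mul_le_mul_of_nonneg_left hηα' hK.le
  have hKη0 : 0 ≤ K * η := by positivity
  have k1 : K * η ≤ ε₁ := by
    rw [le_div_iff₀ hK] at g5; linarith
  have k2 : K * η ≤ ε₂ := by
    rw [le_div_iff₀ hK] at g6; linarith
  have k3 : K * η ≤ 1 / 2 := by
    rw [le_div_iff₀ (by positivity)] at g7; linarith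
  obtain ⟨F, p, q, hF, hFX⟩ := hx1 (K * η) hKη0 k1 f hfN
  obtain ⟨Q, r, s, hQ, hQX⟩ := hx2 (K * η) hKη0 k2 g hgN
  classical
  set Fi : ℝ → ℝ := fun x => if hx : ∃ z, Xr z = x then Xr (fi hx.choose) else x with hFi
  set Qi : ℝ → ℝ := fun x => if hx : ∃ z, Xr z = x then Xr (γ hx.choose) else x with hQi
  have no0 : ¬ ∃ z, Xr z = 0 := by rintro ⟨z, hz⟩; exact (hX0 z).ne' hz
  have no1 : ¬ ∃ z, Xr z = 1 := by rintro ⟨z, hz⟩; exact (hX1' z).ne hz
  have Fi0 : Fi 0 = 0 := by simp only [hFi]; rw [dif_neg no0]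
  have Fi1 : Fi 1 = 1 := by simp only [hFi]; rw [dif_neg no1]
  have Qi0 : Qi 0 = 0 := by simp only [hQi]; rw [dif_neg no0]
  have Qi1 : Qi 1 = 1 := by simp only [hQi]; rw [dif_neg no1]
  have chooseX : ∀ z (hx : ∃ w, Xr w = Xr z), hx.choose = z := fun z hx =>
    hmono.injective hx.choose_spec
  have FiX : ∀ z, Fi (Xr z) = Xr (fi z) := by
    intro z
    have hx : ∃ w, Xr w = Xr z := ⟨z, rfl⟩
    simp only [hFi]
    rw [dif_pos hx, chooseX z hx]
  have QiX : ∀ z, Qi (Xr z) = Xr (γ z) := by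
    intro z
    have hx : ∃ w, Xr w = Xr z := ⟨z, rfl⟩
    simp only [hQi]
    rw [dif_pos hx, chooseX z hx]
  have cases01 : ∀ x ∈ Icc (0:ℝ) 1, x = 0 ∨ x = 1 ∨ ∃ z, Xr z = x := by
    intro x hx
    rcases eq_or_lt_of_le hx.1 with h | h
    · exact Or.inl h.symm
    rcases eq_or_lt_of_le hx.2 with h' | h'
    · exact Or.inr (Or.inl h')
    · exact Or.inr (Or.inr (hsurj x ⟨h, h'⟩))
  have memX : ∀ z, Xr z ∈ Icc (0:ℝ) 1 := fun z => ⟨(hX0 z).le, (hX1' z).le⟩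
  refine hgeo N α (by exact_mod_cast hNpos) hα g2 F p q Q r s Fi Qi
    (adm_mono hF (lt_min hc₁ hc₂) (min_le_left _ _) (le_max_left _ _))
    (adm_mono hQ (lt_min hc₁ hc₂) (min_le_right _ _) (le_max_right _ _)) ?_ ?_ ?_
  · intro x hx
    rcases cases01 x hx with rfl | rfl | ⟨z, rfl⟩
    · rw [Fi0, Qi0]; exact ⟨by simp, hF.v0, by simp, hQ.v0⟩
    · rw [Fi1, Qi1]; exact ⟨by simp, hF.v1, by simp, hQ.v1⟩
    · rw [FiX, QiX, hFX, hQX, hffi, hgγ]
      exact ⟨memX _, rfl, memX _, rfl⟩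
  · intro x hx
    rcases cases01 x hx with rfl | rfl | ⟨z, rfl⟩
    · rw [Fi0, Qi0, hF.v0, hQ.v0]
    · rw [Fi1, Qi1, hF.v1, hQ.v1]
    · rw [FiX, QiX, hFX, hQX]
      have h := heq z
      simp only [hXre] at h
      have hVlt : ∀ a b : ℝ, |Xr a - Xr b| < 2 * C + 1 := by
        intro a b
        have e1 := hX0 a
        have e2 := hX1' a
        have e3 := hX0 b
        have e4 := hX1' b
        have e5 := hB.C1
        rw [abs_lt]
        constructor <;> linarith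
      rw [hme _ (hVlt _ _), hm _ (hVlt _ _), hme _ (hVlt _ _), hm _ (hVlt _ _)] at h
      have hα2 : (2 : ℝ) / α ≠ 0 := by positivity
      have h' : (2 / α) * ((Real.tan (α * (1 + (Xr (f z) - Xr z)) / 2) - Real.tan (α / 2)) -
          (Real.tan (α / 2) - Real.tan (α * (1 - (Xr (γ z) - Xr z)) / 2))) =
          (2 / α) * ((Real.tan (α * (1 + (Xr z - Xr (fi z))) / 2) - Real.tan (α / 2)) -
          (Real.tan (α / 2) - Real.tan (α * (1 - (Xr z - Xr (g z))) / 2))) := by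
        linear_combination h
      have h'' := mul_left_cancel₀ hα2 h'
      have a1 : α * (1 + Xr (f z) - Xr z) / 2 = α * (1 + (Xr (f z) - Xr z)) / 2 := by ring
      have a2 : α * (1 + Xr z - Xr (γ z)) / 2 = α * (1 - (Xr (γ z) - Xr z)) / 2 := by ring
      have a3 : α * (1 + Xr (g z) - Xr z) / 2 = α * (1 - (Xr z - Xr (g z))) / 2 := by ring
      have a4 : α * (1 + Xr z - Xr (fi z)) / 2 = α * (1 + (Xr z - Xr (fi z))) / 2 := by ring
      rw [a1, a2, a3, a4]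
      linarith
  · refine ⟨Xr 0, memX 0, ?_⟩
    rw [hFX, hQX]
    obtain ⟨_, _, _, _, hf0, _⟩ := hfN
    obtain ⟨_, _, _, _, hg0, _⟩ := hgN
    have h1 := hf0 0
    have h2 := hg0 0
    simp only [abs_zero, neg_zero, Real.exp_zero, mul_one, sub_zero] at h1 h2
    have h3 := (abs_le.1 h1).1
    have h4 := (abs_le.1 h2).2
    have h5 : g 0 < f 0 := by linarith
    exact (hmono h5).ne'

end TC
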